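import Pool.Agent.TOS.Last

set_option autoImplicit false

/-!
Maximally superintegrable torus invariant metrics on the three-sphere are round: conclusion.
-/

namespace Pool.Agent.TOA

open Set Filter Topology
open scoped ContDiff
open Pool.Agent.MSup (Frame TS tproj bA bB ip_self_eq IsRoundSphere contDiff_bA)
open Pool.Agent.TOS (Iψ)

variable {h : I4 → I4 → (I4 → ℝ) → ℝ}

theorem continuousAt_ip {u v : (I4 → ℝ) → (I4 → ℝ)} {x : I4 → ℝ} (hu : ContinuousAt u x)
    (hv : ContinuousAt v x) : ContinuousAt (fun x => MSup.ip (u x) (v x)) x := by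
  unfold MSup.ip
  have hu' := continuousAt_pi.1 hu
  have hv' := continuousAt_pi.1 hv
  exact tendsto_finsetSum _ fun i _ => (hu' i).mul (hv' i)

theorem torus_round (Y : Hyp h) (hM : MSup.MaxSuperintegrable (quadHam h)) :
    IsRoundSphere (quadHam h) := by
  obtain ⟨R, k, r, hk, hr0, hrk, hrs, hrd, hstar⟩ := on_star Y hM
  have P := Y.pol R
  obtain ⟨T1, s1, hT1⟩ := exists_T1 Y R
  obtain ⟨T2, s2, hT2⟩ := exists_T2 Y R
  obtain ⟨A, sA, eA, -⟩ := exists_A P.Wpos (fun ψ => (Qf_neg Y.inv R ψ).1)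
    (fun ψ => (Qf_pi_sub Y.inv R ψ).1) hr0 hrd hk hrk hrs
  obtain ⟨B, sB, eB, -⟩ := exists_B P.Wpos (fun ψ => (Qf_neg Y.inv R ψ).1)
    (fun ψ => (Qf_pi_sub Y.inv R ψ).1) hr0 hrd hk hrk hrs
  have D : GData A B T1 T2 k r (fun ψ => 1 / Real.sqrt (Qf h R 0 0 ψ)) :=
    { sA := sA, sB := sB, s1 := s1, s2 := s2, eA := eA, eB := eB, hk := hk, hr := hrd
      hr1 := fun ψ => one_div_pos.2 (Real.sqrt_pos.2 (P.Wpos ψ)), r0 := hr0, rπ := hrk }
  set Φ := PhiG R A B T1 T2 with hΦ
  have hsm : ∀ x, MSup.ip x x = 1 → ContDiffAt ℝ ∞ Φ x := fun x hx =>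
    contDiffAt_PhiG R sA sB s1 s2 (by rw [hx]; exact one_pos)
  refine ⟨1 / k ^ 2, by positivity, Φ, D.bijOn R, fun x hx => ⟨hsm x hx, fun π hπ => ?_⟩⟩
  -- the defect of the identity
  let τ : (I4 → ℝ) → (I4 → ℝ) := fun y => π - MSup.ip (Φ y) π • Φ y
  let w : (I4 → ℝ) → (I4 → ℝ) := fun y i => MSup.ip (fderiv ℝ Φ y (Pi.single i 1)) (τ y)
  let g : (I4 → ℝ) → ℝ := fun y => quadHam h (y, tproj y (w y)) - k ^ 2 * MSup.ip (τ y) (τ y) / 2
  have hg0 : ∀ y ∈ SStar, g y = 0 := by
    intro y hy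
    have h1 := D.image_star R hy
    have h2 : Φ =ᶠ[𝓝 y] Phi R k r T1 T2 := by
      have h3 : ∀ᶠ z in 𝓝 y, 0 < bA z :=
        contDiff_bA.continuous.continuousAt.eventually (lt_mem_nhds hy.2.1)
      have h4 : ∀ᶠ z in 𝓝 y, 0 < bB z :=
        contDiff_bB.continuous.continuousAt.eventually (lt_mem_nhds hy.2.2)
      filter_upwards [h3, h4] with z hz1 hz2
      exact PhiG_eq R eA eB hz1 hz2
    have h3 : MSup.ip (Φ y) (τ y) = 0 := by
      have h4 : MSup.ip (Φ y) (Φ y) = 1 := h1.2.1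
      simp only [τ]
      rw [MSup.ip_sub_right, MSup.ip_smul_right, h4]
      ring
    have h5 := hstar T1 T2 (s1.sm.mono Iψ_sub_JJ) (s2.sm.mono Iψ_sub_JJ) hT1 hT2 y hy (τ y)
      (by rw [← h1.1]; exact h3)
    have h6 : w y = fun i => MSup.ip (fderiv ℝ (Phi R k r T1 T2) y (Pi.single i 1)) (τ y) := by
      simp only [w, h2.fderiv_eq]
    show quadHam h (y, tproj y (w y)) - k ^ 2 * MSup.ip (τ y) (τ y) / 2 = 0
    rw [h6, h5]
    ring
  have hcont : ContinuousAt g x := by
    have c1 : ContinuousAt Φ x := (hsm x hx).continuousAt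
    have c2 : ContinuousAt (fderiv ℝ Φ) x :=
      ((hsm x hx).fderiv_right (m := 0) (by simp)).continuousAt
    have cτ : ContinuousAt τ x :=
      continuousAt_const.sub ((continuousAt_ip c1 continuousAt_const).smul c1)
    have cw : ContinuousAt w x := by
      rw [continuousAt_pi]
      intro i
      exact continuousAt_ip (c2.clm_apply continuousAt_const) cτ
    have cx : ContinuousAt (fun y : I4 → ℝ => y) x := continuousAt_id
    have ct : ContinuousAt (fun y => tproj y (w y)) x := by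
      unfold tproj
      exact cw.sub (((continuousAt_ip cx cw).div (continuousAt_ip cx cx)
        (by rw [hx]; exact one_ne_zero)).smul cx)
    have cH : Continuous (quadHam h) := by
      unfold quadHam
      refine Continuous.div_const (continuous_finsetSum _ fun i _ =>
        continuous_finsetSum _ fun j _ => ?_) 2
      have := (Y.hh i j).continuous
      fun_prop
    exact (cH.continuousAt.comp (cx.prodMk ct)).sub
      ((continuousAt_const.mul (continuousAt_ip cτ cτ)).div_const 2)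
  have hgx : g x = 0 := by
    by_contra hne
    have h1 := hcont.eventually_ne hne
    obtain ⟨y, hy1, hy2⟩ := mem_closure_iff_nhds.1 (dense_star hx) _ h1
    exact hy1 (hg0 y hy2)
  have hτ : τ x = π := by
    simp only [τ, hπ, zero_smul, sub_zero]
  have h1 : quadHam h (x, tproj x (w x)) = k ^ 2 * MSup.ip π π / 2 := by
    have h2 : quadHam h (x, tproj x (w x)) - k ^ 2 * MSup.ip (τ x) (τ x) / 2 = 0 := hgx
    rw [hτ] at h2
    linarith
  have hw : w x = fun i => MSup.ip (fderiv ℝ Φ x (Pi.single i 1)) π := by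
    simp only [w, hτ]
  rw [hw] at h1
  rw [h1]
  field_simp

end Pool.Agent.TOA
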