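import Mathlib

set_option autoImplicit false

/-!
Hadamard's lemma for smooth functions of one variable.
-/

namespace Pool.Agent.TOS

open Set Filter Topology MeasureTheory intervalIntegral
open scoped ContDiff

/-- `∫₀¹ t^k φ(t x) dt` -/
noncomputable def JJ (k : ℕ) (φ : ℝ → ℝ) (x : ℝ) : ℝ := ∫ t in (0 : ℝ)..1, t ^ k * φ (t * x)

theorem hasDerivAt_JJ (k : ℕ) {φ : ℝ → ℝ} (hφ : ContDiff ℝ ∞ φ) (x : ℝ) :
    HasDerivAt (JJ k φ) (JJ (k + 1) (deriv φ) x) x := by
  have hd : ∀ y, HasDerivAt φ (deriv φ y) y := fun y =>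
    (hφ.differentiable (by simp) y).hasDerivAt
  have hd' : Continuous (deriv φ) := hφ.continuous_deriv (by simp)
  obtain ⟨M, hM⟩ := (isCompact_Icc : IsCompact (Icc (-(|x| + 1)) (|x| + 1))).exists_bound_of_continuousOn
    hd'.continuousOn
  have hcont : ∀ y : ℝ, Continuous fun t : ℝ => t ^ k * φ (t * y) := by
    intro y
    have := hφ.continuous
    fun_prop
  have h1 := hasDerivAt_integral_of_dominated_loc_of_deriv_le (μ := volume) (a := (0 : ℝ)) (b := 1)
    (F := fun y t => t ^ k * φ (t * y)) (F' := fun y t => t ^ (k + 1) * deriv φ (t * y))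
    (x₀ := x) (s := Metric.ball x 1) (bound := fun _ => M) (Metric.ball_mem_nhds x one_pos)
    (Eventually.of_forall fun y => (hcont y).aestronglyMeasurable)
    ((hcont x).intervalIntegrable _ _)
    (by
      have : Continuous fun t : ℝ => t ^ (k + 1) * deriv φ (t * x) := by fun_prop
      exact this.aestronglyMeasurable)
    (by
      refine Eventually.of_forall fun t ht y hy => ?_
      rw [uIoc_of_le zero_le_one] at ht
      have hy' : |y| ≤ |x| + 1 := by
        have h2 : |y - x| < 1 := by
          rw [Metric.mem_ball, Real.dist_eq] at hy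
          exact hy
        have h3 : |y| ≤ |y - x| + |x| := by
          have := abs_add_le (y - x) x
          simpa using this
        linarith
      have hty : t * y ∈ Icc (-(|x| + 1)) (|x| + 1) := by
        rw [mem_Icc, ← abs_le, abs_mul, abs_of_pos ht.1]
        calc t * |y| ≤ 1 * |y| := mul_le_mul_of_nonneg_right ht.2 (abs_nonneg _)
          _ ≤ |x| + 1 := by rw [one_mul]; exact hy'
      have h4 := hM _ hty
      have h5 : ‖t ^ (k + 1)‖ ≤ 1 := by
        rw [Real.norm_eq_abs, abs_of_pos (pow_pos ht.1 _)]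
        exact pow_le_one₀ ht.1.le ht.2
      calc ‖t ^ (k + 1) * deriv φ (t * y)‖ = ‖t ^ (k + 1)‖ * ‖deriv φ (t * y)‖ := norm_mul _ _
        _ ≤ 1 * M := mul_le_mul h5 h4 (norm_nonneg _) zero_le_one
        _ = M := one_mul M)
    (by simp)
    (by
      refine Eventually.of_forall fun t ht y hy => ?_
      have h2 : HasDerivAt (fun y : ℝ => t * y) t y := by
        simpa using (hasDerivAt_id y).const_mul t
      have h3 := ((hd (t * y)).comp y h2).const_mul (t ^ k)
      refine h3.congr_deriv ?_
      ring)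
  exact h1.2

theorem contDiff_JJ_nat (n : ℕ) : ∀ (k : ℕ) {φ : ℝ → ℝ}, ContDiff ℝ ∞ φ → ContDiff ℝ n (JJ k φ) := by
  induction n with
  | zero =>
    intro k φ hφ
    rw [Nat.cast_zero, contDiff_zero]
    exact continuous_iff_continuousAt.mpr fun x => (hasDerivAt_JJ k hφ x).continuousAt
  | succ n ih =>
    intro k φ hφ
    rw [Nat.cast_succ, contDiff_succ_iff_deriv]
    refine ⟨fun x => (hasDerivAt_JJ k hφ x).differentiableAt, by simp, ?_⟩
    have h1 : deriv (JJ k φ) = JJ (k + 1) (deriv φ) :=
      funext fun x => (hasDerivAt_JJ k hφ x).deriv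
    rw [h1]
    exact ih (k + 1) (contDiff_infty_iff_deriv.1 hφ).2

theorem contDiff_JJ (k : ℕ) {φ : ℝ → ℝ} (hφ : ContDiff ℝ ∞ φ) : ContDiff ℝ ∞ (JJ k φ) :=
  contDiff_infty.2 fun n => contDiff_JJ_nat n k hφ

/-- Hadamard's lemma: a smooth function vanishing at `0` is `x` times a smooth function, which is
even (odd) if the function is odd (even). -/
theorem hadamard {f : ℝ → ℝ} (hf : ContDiff ℝ ∞ f) (h0 : f 0 = 0) :
    ∃ f₁ : ℝ → ℝ, ContDiff ℝ ∞ f₁ ∧ (∀ x, f x = x * f₁ x) ∧
      ((∀ x, f (-x) = -f x) → ∀ x, f₁ (-x) = f₁ x) ∧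
      ((∀ x, f (-x) = f x) → ∀ x, f₁ (-x) = -f₁ x) := by
  have hd : ∀ y, HasDerivAt f (deriv f y) y := fun y =>
    (hf.differentiable (by simp) y).hasDerivAt
  have hf' : ContDiff ℝ ∞ (deriv f) := (contDiff_infty_iff_deriv.1 hf).2
  refine ⟨JJ 0 (deriv f), contDiff_JJ 0 hf', ?_, ?_, ?_⟩
  · intro x
    have h1 : ∀ t ∈ uIcc (0 : ℝ) 1, HasDerivAt (fun t : ℝ => f (t * x)) (x * deriv f (t * x)) t := by
      intro t _
      have h2 : HasDerivAt (fun t : ℝ => t * x) x t := by
        simpa using (hasDerivAt_id t).mul_const x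
      have h3 := (hd (t * x)).comp t h2
      refine h3.congr_deriv ?_
      ring
    have hc : Continuous fun t : ℝ => x * deriv f (t * x) := by
      have := hf'.continuous
      fun_prop
    have h4 := integral_eq_sub_of_hasDerivAt h1 (hc.intervalIntegrable _ _)
    rw [one_mul, zero_mul, h0, sub_zero, intervalIntegral.integral_const_mul] at h4
    rw [← h4]
    simp [JJ]
  · intro hodd x
    have h1 : ∀ y, deriv f (-y) = deriv f y := by
      intro y
      have h2 : HasDerivAt (fun y => f (-y)) (-deriv f (-y)) y := by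
        have := (hd (-y)).comp y (hasDerivAt_neg y)
        refine this.congr_deriv ?_
        ring
      have h3 : (fun y => f (-y)) = fun y => -f y := funext hodd
      rw [h3] at h2
      have h4 := h2.unique (hd y).fun_neg
      linarith
    simp only [JJ]
    refine integral_congr fun t _ => ?_
    rw [mul_neg, h1]
  · intro heven x
    have h1 : ∀ y, deriv f (-y) = -deriv f y := by
      intro y
      have h2 : HasDerivAt (fun y => f (-y)) (-deriv f (-y)) y := by
        have := (hd (-y)).comp y (hasDerivAt_neg y)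
        refine this.congr_deriv ?_
        ring
      have h3 : (fun y => f (-y)) = f := funext heven
      rw [h3] at h2
      have h4 := h2.unique (hd y)
      linarith
    simp only [JJ]
    rw [← intervalIntegral.integral_neg]
    refine integral_congr fun t _ => ?_
    rw [mul_neg, h1]
    ring

end Pool.Agent.TOS
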