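import Pool.Agent.TOS.Core

set_option autoImplicit false

/-!
The differential equation: the metric is round.
-/

namespace Pool.Agent.TOS

open Set Filter Topology

variable {L : ℝ} {a b c a1 b1 c1 a2 b2 c2 : ℝ → ℝ}

theorem deriv_unique_on {f g f' g' : ℝ → ℝ} {A B : ℝ}
    (hf : ∀ r ∈ Ioo A B, HasDerivAt f (f' r) r) (hg : ∀ r ∈ Ioo A B, HasDerivAt g (g' r) r)
    (h : ∀ r ∈ Ioo A B, f r = g r) : ∀ r ∈ Ioo A B, f' r = g' r := by
  intro r hr
  have h1 : f =ᶠ[𝓝 r] g := by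
    filter_upwards [Ioo_mem_nhds hr.1 hr.2] with x hx
    exact h x hx
  exact (hf r hr).unique ((hg r hr).congr_of_eventuallyEq h1)

theorem slope_eq (D : Data L a b c a1 b1 c1 a2 b2 c2) {β γ κ : ℝ} (hβ : 0 < β) (hγ : 0 < γ)
    (h : ∀ r ∈ Ioo 0 L, β ^ 2 < a r ∧ b r = 0 ∧
      (a r - β ^ 2) * (c r - γ ^ 2) = β ^ 2 * γ ^ 2 ∧
      (a2 r * (β * γ / (a r - β ^ 2)) ^ 2 + 2 * b2 r * (β * γ / (a r - β ^ 2)) + c2 r) / 2 =
        κ ^ 2 * (β * (β * γ / (a r - β ^ 2)) + γ) ^ 2) :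
    ∀ r ∈ Ioo 0 L, β ^ 2 * a1 r ^ 2 = κ ^ 2 * (a r - β ^ 2) * a r ^ 2 := by
  have hpos : ∀ r ∈ Ioo 0 L, 0 < a r - β ^ 2 := fun r hr => by linarith [(h r hr).1]
  have hb1 : ∀ r ∈ Ioo 0 L, b1 r = 0 :=
    deriv_unique_on D.db (g := fun _ => 0) (g' := fun _ => 0) (fun r _ => hasDerivAt_const r 0)
      (fun r hr => (h r hr).2.1)
  have hb2 : ∀ r ∈ Ioo 0 L, b2 r = 0 :=
    deriv_unique_on D.db1 (g := fun _ => 0) (g' := fun _ => 0) (fun r _ => hasDerivAt_const r 0)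
      hb1
  have hc : ∀ r ∈ Ioo 0 L, c r = γ ^ 2 + β ^ 2 * γ ^ 2 / (a r - β ^ 2) := by
    intro r hr
    have h1 := (h r hr).2.2.1
    have h2 := hpos r hr
    field_simp
    linarith
  have hc1 : ∀ r ∈ Ioo 0 L, c1 r = -(β ^ 2 * γ ^ 2 * a1 r) / (a r - β ^ 2) ^ 2 := by
    refine deriv_unique_on D.dc (g := fun r => γ ^ 2 + β ^ 2 * γ ^ 2 / (a r - β ^ 2)) ?_ hc
    intro r hr
    have h2 := hpos r hr
    have h3 := ((hasDerivAt_const r (β ^ 2 * γ ^ 2)).fun_div ((D.da r hr).sub_const (β ^ 2))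
      h2.ne').const_add (γ ^ 2)
    have h4 : -(β ^ 2 * γ ^ 2 * a1 r) / (a r - β ^ 2) ^ 2 =
        (0 * (a r - β ^ 2) - β ^ 2 * γ ^ 2 * a1 r) / (a r - β ^ 2) ^ 2 := by ring
    rw [h4]
    exact h3
  have hc2 : ∀ r ∈ Ioo 0 L, c2 r = -(β ^ 2 * γ ^ 2 * a2 r) / (a r - β ^ 2) ^ 2 +
      2 * β ^ 2 * γ ^ 2 * a1 r ^ 2 / (a r - β ^ 2) ^ 3 := by
    refine deriv_unique_on D.dc1 (g := fun r => -(β ^ 2 * γ ^ 2 * a1 r) / (a r - β ^ 2) ^ 2) ?_ hc1
    intro r hr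
    have h2 := hpos r hr
    have h3 := (((D.da1 r hr).const_mul (β ^ 2 * γ ^ 2)).fun_neg).fun_div
      (((D.da r hr).sub_const (β ^ 2)).fun_pow 2) (pow_pos h2 2).ne'
    have h4 : -(β ^ 2 * γ ^ 2 * a2 r) / (a r - β ^ 2) ^ 2 +
        2 * β ^ 2 * γ ^ 2 * a1 r ^ 2 / (a r - β ^ 2) ^ 3 =
        (-(β ^ 2 * γ ^ 2 * a2 r) * (a r - β ^ 2) ^ 2 - -(β ^ 2 * γ ^ 2 * a1 r) *
        (((2 : ℕ) : ℝ) * (a r - β ^ 2) ^ (2 - 1) * a1 r)) / ((a r - β ^ 2) ^ 2) ^ 2 := by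
      have h5 : a r - β ^ 2 ≠ 0 := h2.ne'
      field_simp
      push_cast
      ring
    rw [h4]
    exact h3
  intro r hr
  have h2 := hpos r hr
  have h3 := (h r hr).2.2.2
  rw [hb2 r hr, hc2 r hr] at h3
  have h4 : (a2 r * (β * γ / (a r - β ^ 2)) ^ 2 + 2 * 0 * (β * γ / (a r - β ^ 2)) +
      (-(β ^ 2 * γ ^ 2 * a2 r) / (a r - β ^ 2) ^ 2 +
      2 * β ^ 2 * γ ^ 2 * a1 r ^ 2 / (a r - β ^ 2) ^ 3)) / 2 =
      β ^ 2 * γ ^ 2 * a1 r ^ 2 / (a r - β ^ 2) ^ 3 := by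
    field_simp
    ring
  have h5 : κ ^ 2 * (β * (β * γ / (a r - β ^ 2)) + γ) ^ 2 =
      κ ^ 2 * γ ^ 2 * a r ^ 2 / (a r - β ^ 2) ^ 2 := by
    have : β * (β * γ / (a r - β ^ 2)) + γ = γ * a r / (a r - β ^ 2) := by
      field_simp
      ring
    rw [this]
    field_simp
  rw [h4, h5, div_eq_div_iff (pow_pos h2 3).ne' (pow_pos h2 2).ne'] at h3
  have h6 : (a r - β ^ 2) ^ 2 * γ ^ 2 * (β ^ 2 * a1 r ^ 2) =
      (a r - β ^ 2) ^ 2 * γ ^ 2 * (κ ^ 2 * (a r - β ^ 2) * a r ^ 2) := by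
    linarith
  exact mul_left_cancel₀ (by positivity) h6

theorem a1_pos (D : Data L a b c a1 b1 c1 a2 b2 c2) (h : ∀ r ∈ Ioo 0 L, a1 r ≠ 0) :
    ∀ r ∈ Ioo 0 L, 0 < a1 r := by
  -- a point with positive derivative
  have hm : L / 2 ∈ Ioo 0 L := ⟨by linarith [D.hL], by linarith [D.hL]⟩
  obtain ⟨x, hx, hx'⟩ := ((D.a_top.eventually_gt_atTop (a (L / 2))).and
    (Ioo_mem_nhdsLT hm.2 : Ioo (L / 2) L ∈ 𝓝[<] L)).exists
  have hc : ContinuousOn a (Icc (L / 2) x) := fun z hz =>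
    (D.da z ⟨lt_of_lt_of_le hm.1 hz.1, lt_of_le_of_lt hz.2 hx'.2⟩).continuousAt.continuousWithinAt
  obtain ⟨y, hy, hy'⟩ := exists_hasDerivAt_eq_slope a a1 hx'.1 hc
    (fun z hz => D.da z ⟨hm.1.trans hz.1, hz.2.trans hx'.2⟩)
  have hyI : y ∈ Ioo 0 L := ⟨hm.1.trans hy.1, hy.2.trans hx'.2⟩
  have hypos : 0 < a1 y := by
    rw [hy']
    exact div_pos (by linarith) (by linarith [hx'.1])
  have hc1 : ContinuousOn a1 (Ioo 0 L) := fun r hr =>
    (D.da1 r hr).continuousAt.continuousWithinAt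
  intro r hr
  by_contra hcon
  have hle : a1 r ≤ 0 := not_lt.mp hcon
  obtain ⟨z, hz, hz'⟩ := isPreconnected_Ioo.intermediate_value hr hyI hc1
    (⟨hle, hypos.le⟩ : (0 : ℝ) ∈ Icc _ _)
  exact h z hz hz'

theorem round (D : Data L a b c a1 b1 c1 a2 b2 c2) {m n m' n' : ℤ}
    (hR : Res L a b c a1 b1 c1 a2 b2 c2 m n m' n') (hdet : m * n' - m' * n ≠ 0) :
    ∃ k > 0, k * L = Real.pi / 2 ∧ ∀ r ∈ Ioo 0 L, b r = 0 ∧
      a r * Real.cos (k * r) ^ 2 = k ^ 2 ∧ c r * Real.sin (k * r) ^ 2 = k ^ 2 := by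
  obtain ⟨β, γ, κ, hβ, hγ, hκ, h⟩ := algebra D hR hdet
  have hsl := slope_eq D hβ hγ h
  have hpos : ∀ r ∈ Ioo 0 L, 0 < a r - β ^ 2 := fun r hr => by linarith [(h r hr).1]
  have ha1ne : ∀ r ∈ Ioo 0 L, a1 r ≠ 0 := by
    intro r hr h0
    have h1 := hsl r hr
    rw [h0] at h1
    have h2 := hpos r hr
    have h3 := D.apos r hr
    have : 0 < κ ^ 2 * (a r - β ^ 2) * a r ^ 2 := by positivity
    rw [← h1] at this
    norm_num at this
  have ha1 := a1_pos D ha1ne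
  have ha1' : ∀ r ∈ Ioo 0 L, β * a1 r = κ * Real.sqrt (a r - β ^ 2) * a r := by
    intro r hr
    have h1 := hsl r hr
    have h2 := hpos r hr
    have h3 := D.apos r hr
    have h4 := ha1 r hr
    have h5 : (β * a1 r) ^ 2 = (κ * Real.sqrt (a r - β ^ 2) * a r) ^ 2 := by
      rw [mul_pow, mul_pow, mul_pow, Real.sq_sqrt h2.le]
      exact h1
    exact (sq_eq_sq₀ (by positivity) (by positivity)).mp h5
  -- the angle
  set ψ : ℝ → ℝ := fun r => Real.arctan (Real.sqrt (a r - β ^ 2) / β) with hψ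
  have hψd : ∀ r ∈ Ioo 0 L, HasDerivAt (fun r => ψ r - κ / 2 * r) 0 r := by
    intro r hr
    have h2 := hpos r hr
    have h3 := D.apos r hr
    have hs : 0 < Real.sqrt (a r - β ^ 2) := Real.sqrt_pos.mpr h2
    have hs2 : Real.sqrt (a r - β ^ 2) ^ 2 = a r - β ^ 2 := Real.sq_sqrt h2.le
    have k1 : HasDerivAt (fun r => Real.sqrt (a r - β ^ 2)) (a1 r / (2 * Real.sqrt (a r - β ^ 2))) r :=
      ((D.da r hr).sub_const (β ^ 2)).sqrt h2.ne'
    have k2 := (k1.div_const β).arctan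
    have k3 := k2.sub ((hasDerivAt_id r).const_mul (κ / 2))
    have k4 : 1 / (1 + (Real.sqrt (a r - β ^ 2) / β) ^ 2) *
        (a1 r / (2 * Real.sqrt (a r - β ^ 2)) / β) - κ / 2 * 1 = 0 := by
      have e1 : a1 r = κ * Real.sqrt (a r - β ^ 2) * a r / β := by
        rw [eq_div_iff hβ.ne']
        linarith [ha1' r hr]
      have e2 : 1 + (Real.sqrt (a r - β ^ 2) / β) ^ 2 = a r / β ^ 2 := by
        rw [div_pow, hs2]
        field_simp
        ring
      rw [e1, e2]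
      field_simp
      ring
    rw [k4] at k3
    exact k3
  obtain ⟨C, hC⟩ := IsOpen.exists_is_const_of_deriv_eq_zero (s := Ioo (0 : ℝ) L) isOpen_Ioo
    isPreconnected_Ioo (f := fun r => ψ r - κ / 2 * r)
    (fun t ht => (hψd t ht).differentiableAt.differentiableWithinAt)
    (fun t ht => (hψd t ht).deriv)
  have hψC : ∀ r ∈ Ioo 0 L, ψ r = κ / 2 * r + C := by
    intro r hr
    have h0 : ψ r - κ / 2 * r = C := hC r hr
    linarith
  -- limits at the ends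
  have lim0 : Tendsto ψ (𝓝[>] 0) (𝓝 0) := by
    have e1 : Tendsto (fun r => β ^ 2 * γ ^ 2 / (c r - γ ^ 2)) (𝓝[>] 0) (𝓝 0) := by
      apply Tendsto.const_div_atTop
      exact tendsto_atTop_add_const_right _ _ D.c_top
    have e2 : Tendsto (fun r => a r - β ^ 2) (𝓝[>] 0) (𝓝 0) := by
      refine e1.congr' ?_
      filter_upwards [Ioo_mem_nhdsGT D.hL] with r hr
      have h1 := (h r hr).2.2.1
      have h2 := hpos r hr
      have h3 : c r - γ ^ 2 ≠ 0 := by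
        intro h0
        rw [h0, mul_zero] at h1
        have : 0 < β ^ 2 * γ ^ 2 := by positivity
        linarith
      rw [div_eq_iff h3]
      linarith
    have e3 : Tendsto (fun r => Real.arctan (Real.sqrt (a r - β ^ 2) / β)) (𝓝[>] 0)
        (𝓝 (Real.arctan (Real.sqrt 0 / β))) := by
      have hc : Continuous fun x : ℝ => Real.arctan (Real.sqrt x / β) := by fun_prop
      exact (hc.tendsto 0).comp e2
    simpa using e3
  have limL : Tendsto ψ (𝓝[<] L) (𝓝 (Real.pi / 2)) := by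
    have e1 : Tendsto (fun r => a r - β ^ 2) (𝓝[<] L) atTop :=
      tendsto_atTop_add_const_right _ _ D.a_top
    have e2 : Tendsto (fun r => Real.sqrt (a r - β ^ 2) / β) (𝓝[<] L) atTop :=
      (Real.tendsto_sqrt_atTop.comp e1).atTop_div_const hβ
    have e3 := Real.tendsto_arctan_atTop.comp e2
    exact e3.mono_right nhdsWithin_le_nhds
  have lim0' : Tendsto ψ (𝓝[>] 0) (𝓝 C) := by
    have hc : Continuous fun r : ℝ => κ / 2 * r + C := by fun_prop
    have e1 : Tendsto (fun r : ℝ => κ / 2 * r + C) (𝓝[>] 0) (𝓝 C) := by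
      have := (hc.tendsto 0).mono_left (nhdsWithin_le_nhds (s := Ioi (0 : ℝ)))
      simpa using this
    refine e1.congr' ?_
    filter_upwards [Ioo_mem_nhdsGT D.hL] with r hr
    exact (hψC r hr).symm
  have limL' : Tendsto ψ (𝓝[<] L) (𝓝 (κ / 2 * L + C)) := by
    have hc : Continuous fun r : ℝ => κ / 2 * r + C := by fun_prop
    have e1 : Tendsto (fun r : ℝ => κ / 2 * r + C) (𝓝[<] L) (𝓝 (κ / 2 * L + C)) :=
      (hc.tendsto L).mono_left nhdsWithin_le_nhds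
    refine e1.congr' ?_
    filter_upwards [Ioo_mem_nhdsLT D.hL] with r hr
    exact (hψC r hr).symm
  have hC0 : C = 0 := tendsto_nhds_unique lim0' lim0
  have hκL : κ / 2 * L = Real.pi / 2 := by
    have := tendsto_nhds_unique limL' limL
    rw [hC0] at this
    linarith
  set k := κ / 2 with hk
  have hkpos : 0 < k := by rw [hk]; linarith
  have hcos : ∀ r ∈ Ioo 0 L, a r * Real.cos (k * r) ^ 2 = β ^ 2 := by
    intro r hr
    have h2 := hpos r hr
    have h3 := D.apos r hr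
    have h4 : k * r = ψ r := by rw [hψC r hr, hC0]; ring
    have hs2 : Real.sqrt (a r - β ^ 2) ^ 2 = a r - β ^ 2 := Real.sq_sqrt h2.le
    have e2 : 1 + (Real.sqrt (a r - β ^ 2) / β) ^ 2 = a r / β ^ 2 := by
      rw [div_pow, hs2]
      field_simp
      ring
    rw [h4]
    simp only [hψ]
    rw [Real.cos_sq_arctan, e2]
    field_simp
  have hsin : ∀ r ∈ Ioo 0 L, c r * Real.sin (k * r) ^ 2 = γ ^ 2 := by
    intro r hr
    have h2 := hpos r hr
    have h3 := D.apos r hr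
    have h4 := hcos r hr
    have h5 := (h r hr).2.2.1
    have h6 : Real.cos (k * r) ^ 2 = β ^ 2 / a r := by
      rw [eq_div_iff h3.ne']
      linarith
    rw [Real.sin_sq, h6]
    have h7 : c r = γ ^ 2 + β ^ 2 * γ ^ 2 / (a r - β ^ 2) := by
      field_simp
      linarith
    rw [h7]
    field_simp
    ring
  have hkL : k * L = Real.pi / 2 := hκL
  -- closing conditions
  have hγk : γ ^ 2 = k ^ 2 := by
    have d1 : HasDerivAt (fun r => Real.sin (k * r)) k 0 := by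
      have := ((hasDerivAt_id (0 : ℝ)).const_mul k).sin
      simpa using this
    have s1 := hasDerivAt_iff_tendsto_slope.mp d1
    have s2 : Tendsto (slope (fun r => Real.sin (k * r)) 0) (𝓝[>] 0) (𝓝 k) :=
      s1.mono_left (nhdsWithin_mono _ (fun x hx => (ne_of_gt hx : x ≠ 0)))
    have s3 := (s2.pow 2).mul D.cz
    have s4 : Tendsto (fun _ : ℝ => γ ^ 2) (𝓝[>] 0) (𝓝 (k ^ 2 * 1)) := by
      refine s3.congr' ?_
      filter_upwards [Ioo_mem_nhdsGT D.hL] with r hr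
      rw [slope_def_field, ← hsin r hr]
      have : r ≠ 0 := hr.1.ne'
      simp only [mul_zero, Real.sin_zero, sub_zero]
      field_simp
    have := tendsto_nhds_unique s4 tendsto_const_nhds
    linarith
  have hβk : β ^ 2 = k ^ 2 := by
    have d1 : HasDerivAt (fun r => Real.cos (k * r)) (-k) L := by
      have := ((hasDerivAt_id L).const_mul k).cos
      simp only [id_eq, mul_one, hkL, Real.sin_pi_div_two] at this
      simpa using this
    have s1 := hasDerivAt_iff_tendsto_slope.mp d1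
    have s2 : Tendsto (slope (fun r => Real.cos (k * r)) L) (𝓝[<] L) (𝓝 (-k)) :=
      s1.mono_left (nhdsWithin_mono _ (fun x hx => (ne_of_lt hx : x ≠ L)))
    have s3 := (s2.pow 2).mul D.aL
    have s4 : Tendsto (fun _ : ℝ => β ^ 2) (𝓝[<] L) (𝓝 ((-k) ^ 2 * 1)) := by
      refine s3.congr' ?_
      filter_upwards [Ioo_mem_nhdsLT D.hL] with r hr
      rw [slope_def_field, ← hcos r hr]
      have : r - L ≠ 0 := by
        have := hr.2
        intro h0
        linarith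
      simp only [hkL, Real.cos_pi_div_two, sub_zero]
      field_simp
      ring
    have := tendsto_nhds_unique s4 tendsto_const_nhds
    linarith
  refine ⟨k, hkpos, hkL, ?_⟩
  intro r hr
  refine ⟨(h r hr).2.1, ?_, ?_⟩
  · rw [hcos r hr, hβk]
  · rw [hsin r hr, hγk]

end Pool.Agent.TOS
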