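import Pool.Agent.TOS.Defs
import Pool.Agent.TOS.Round

set_option autoImplicit false

/-!
From the closing conditions of the metric to the data of the potential.
-/

namespace Pool.Agent.TOS

open Set Filter Topology

theorem c2_facts {f : ℝ → ℝ} {A B : ℝ} (h : ContDiffOn ℝ 2 f (Ioo A B)) :
    (∀ r ∈ Ioo A B, HasDerivAt f (deriv f r) r) ∧
    (∀ r ∈ Ioo A B, HasDerivAt (deriv f) (deriv (deriv f) r) r) ∧
    ContinuousOn (deriv (deriv f)) (Ioo A B) := by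
  have h2 : ContDiffOn ℝ (1 + 1) f (Ioo A B) := by
    have : (1 + 1 : WithTop ℕ∞) = 2 := by norm_num
    rw [this]; exact h
  rw [contDiffOn_succ_iff_deriv_of_isOpen isOpen_Ioo] at h2
  obtain ⟨d1, -, c1⟩ := h2
  have h3 : ContDiffOn ℝ (0 + 1) (deriv f) (Ioo A B) := by
    have : (0 + 1 : WithTop ℕ∞) = 1 := by norm_num
    rw [this]; exact c1
  rw [contDiffOn_succ_iff_deriv_of_isOpen isOpen_Ioo] at h3
  obtain ⟨d2, -, c2⟩ := h3
  refine ⟨fun r hr => ?_, fun r hr => ?_, c2.continuousOn⟩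
  · exact (d1.differentiableAt (isOpen_Ioo.mem_nhds hr)).hasDerivAt
  · exact (d2.differentiableAt (isOpen_Ioo.mem_nhds hr)).hasDerivAt

theorem bounded_of_ends {f : ℝ → ℝ} {A B : ℝ} (hAB : A < B) (hc : ContinuousOn f (Ioo A B))
    (hA : ∃ K, ∀ᶠ x in 𝓝[>] A, |f x| ≤ K) (hB : ∃ K, ∀ᶠ x in 𝓝[<] B, |f x| ≤ K) :
    ∃ K, ∀ x ∈ Ioo A B, |f x| ≤ K := by
  obtain ⟨K1, e1⟩ := hA
  obtain ⟨K2, e2⟩ := hB
  obtain ⟨u, hu, hus⟩ := mem_nhdsGT_iff_exists_Ioo_subset.mp e1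
  obtain ⟨v, hv, hvs⟩ := mem_nhdsLT_iff_exists_Ioo_subset.mp e2
  have hu' : A < u := hu
  have hv' : v < B := hv
  set m := (A + B) / 2 with hm
  have hmI : m ∈ Ioo A B := ⟨by rw [hm]; linarith, by rw [hm]; linarith⟩
  set p := (A + min u m) / 2 with hp
  set q := (B + max v m) / 2 with hq
  have hum : A < min u m := lt_min hu' hmI.1
  have hvm : max v m < B := max_lt hv' hmI.2
  have p1 : A < p := by rw [hp]; linarith
  have p2 : p < min u m := by rw [hp]; linarith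
  have q1 : q < B := by rw [hq]; linarith
  have q2 : max v m < q := by rw [hq]; linarith
  have hsub : Icc p q ⊆ Ioo A B := fun z hz => ⟨lt_of_lt_of_le p1 hz.1, lt_of_le_of_lt hz.2 q1⟩
  obtain ⟨K3, hK3⟩ := isCompact_Icc.exists_bound_of_continuousOn (hc.mono hsub)
  refine ⟨max K1 (max K2 K3), ?_⟩
  intro x hx
  by_cases h1 : x < p
  · have h2 : x ∈ Ioo A u := ⟨hx.1, lt_trans h1 (lt_of_lt_of_le p2 (min_le_left _ _))⟩
    exact le_trans (hus h2) (le_max_left _ _)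
  · by_cases h2 : q < x
    · have h3 : x ∈ Ioo v B := ⟨lt_trans (lt_of_le_of_lt (le_max_left _ _) q2) h2, hx.2⟩
      exact le_trans (hvs h3) (le_trans (le_max_left _ _) (le_max_right _ _))
    · have h3 := hK3 x ⟨not_lt.mp h1, not_lt.mp h2⟩
      rw [Real.norm_eq_abs] at h3
      exact le_trans h3 (le_trans (le_max_right _ _) (le_max_right _ _))

/-- one end: `P` tends to a positive limit, `Q/s²` to `1`, `R = O(s²)` -/
theorem end_lims {l : Filter ℝ} {s P Q R : ℝ → ℝ} (hs : Tendsto s l (𝓝 0))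
    (hs0 : ∀ᶠ r in l, s r ≠ 0) (hQ : Tendsto (fun r => Q r / s r ^ 2) l (𝓝 1)) {g : ℝ} (hg : 0 < g)
    (hP : Tendsto P l (𝓝 g)) (hR : ∃ B, ∀ᶠ r in l, |R r| ≤ B * s r ^ 2) :
    Tendsto (fun r => s r ^ 2 * (P r / (P r * Q r - R r ^ 2))) l (𝓝 1) ∧
    Tendsto (fun r => Q r / (P r * Q r - R r ^ 2)) l (𝓝 (1 / g)) ∧
    ∃ K, ∀ᶠ r in l, |-(R r / (P r * Q r - R r ^ 2))| ≤ K := by
  obtain ⟨B, hB⟩ := hR
  -- R²/s² → 0
  have k1 : Tendsto (fun r => R r ^ 2 / s r ^ 2) l (𝓝 0) := by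
    have e1 : Tendsto (fun r => B ^ 2 * s r ^ 2) l (𝓝 0) := by
      have := (hs.pow 2).const_mul (B ^ 2)
      simpa using this
    refine squeeze_zero' ?_ ?_ e1
    · filter_upwards with r
      positivity
    · filter_upwards [hB, hs0] with r h1 h2
      have h3 : 0 < s r ^ 2 := by positivity
      rw [div_le_iff₀ h3]
      have h4 : R r ^ 2 = |R r| ^ 2 := (sq_abs _).symm
      rw [h4]
      have h5 : |R r| ^ 2 ≤ (B * s r ^ 2) ^ 2 := pow_le_pow_left₀ (abs_nonneg _) h1 2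
      calc |R r| ^ 2 ≤ (B * s r ^ 2) ^ 2 := h5
        _ = B ^ 2 * s r ^ 2 * s r ^ 2 := by ring
  have k2 : Tendsto (fun r => (P r * Q r - R r ^ 2) / s r ^ 2) l (𝓝 g) := by
    have e1 := (hP.mul hQ).sub k1
    rw [mul_one, sub_zero] at e1
    refine e1.congr' ?_
    filter_upwards with r
    ring
  refine ⟨?_, ?_, ?_⟩
  · have e1 := hP.div k2 hg.ne'
    rw [div_self hg.ne'] at e1
    refine e1.congr' ?_
    filter_upwards [hs0] with r h1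
    simp only [Pi.div_apply]
    field_simp
  · have e1 := hQ.div k2 hg.ne'
    refine e1.congr' ?_
    filter_upwards [hs0, (k2.eventually (lt_mem_nhds hg))] with r h1 h2
    simp only [Pi.div_apply]
    have h3 : 0 < s r ^ 2 := by positivity
    have h4 : P r * Q r - R r ^ 2 ≠ 0 := by
      intro h
      rw [h, zero_div] at h2
      exact lt_irrefl _ h2
    rw [div_div_div_cancel_right₀ h3.ne']
  · refine ⟨B / (g / 2), ?_⟩
    filter_upwards [hs0, (k2.eventually (lt_mem_nhds (half_lt_self hg))), hB] with r h1 h2 h3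
    have h5 : 0 < s r ^ 2 := by positivity
    have h6 : g / 2 * s r ^ 2 < P r * Q r - R r ^ 2 := by
      rwa [lt_div_iff₀ h5] at h2
    have h7 : 0 < g / 2 * s r ^ 2 := by positivity
    have h8 : 0 < P r * Q r - R r ^ 2 := by linarith
    rw [abs_neg, abs_div, abs_of_pos h8, div_le_div_iff₀ h8 (by linarith)]
    have h9 : 0 ≤ B := by
      by_contra hcon
      have h10 : B * s r ^ 2 < 0 := mul_neg_of_neg_of_pos (not_le.mp hcon) h5
      linarith [abs_nonneg (R r)]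
    calc |R r| * (g / 2) ≤ B * s r ^ 2 * (g / 2) := mul_le_mul_of_nonneg_right h3 (by linarith)
      _ = B * (g / 2 * s r ^ 2) := by ring
      _ ≤ B * (P r * Q r - R r ^ 2) := mul_le_mul_of_nonneg_left h6.le h9

variable {L : ℝ} {G₁₁ G₁₂ G₂₂ : ℝ → ℝ}

theorem ToricMetric.pos₂₂ (T : ToricMetric L G₁₁ G₁₂ G₂₂) {r : ℝ} (hr : r ∈ Ioo 0 L) :
    0 < G₂₂ r := by
  have h1 := T.pos r hr
  have h2 := T.det r hr
  have h3 : 0 < G₁₁ r * G₂₂ r := by nlinarith [sq_nonneg (G₁₂ r)]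
  exact (pos_iff_pos_of_mul_pos h3).mp h1

theorem ToricMetric.data (T : ToricMetric L G₁₁ G₁₂ G₂₂) :
    ∃ a b c a1 b1 c1 a2 b2 c2 : ℝ → ℝ,
      (a = fun r => G₂₂ r / (G₁₁ r * G₂₂ r - G₁₂ r ^ 2)) ∧
      (b = fun r => -(G₁₂ r / (G₁₁ r * G₂₂ r - G₁₂ r ^ 2))) ∧
      (c = fun r => G₁₁ r / (G₁₁ r * G₂₂ r - G₁₂ r ^ 2)) ∧
      Data L a b c a1 b1 c1 a2 b2 c2 := by
  have hDne : ∀ r ∈ Ioo 0 L, G₁₁ r * G₂₂ r - G₁₂ r ^ 2 ≠ 0 := fun r hr => (T.det r hr).ne'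
  have cD : ContDiffOn ℝ 2 (fun r => G₁₁ r * G₂₂ r - G₁₂ r ^ 2) (Ioo 0 L) :=
    (T.smooth₁₁.mul T.smooth₂₂).sub (T.smooth₁₂.pow 2)
  have ca : ContDiffOn ℝ 2 (fun r => G₂₂ r / (G₁₁ r * G₂₂ r - G₁₂ r ^ 2)) (Ioo 0 L) :=
    T.smooth₂₂.div cD hDne
  have cb : ContDiffOn ℝ 2 (fun r => -(G₁₂ r / (G₁₁ r * G₂₂ r - G₁₂ r ^ 2))) (Ioo 0 L) :=
    (T.smooth₁₂.div cD hDne).neg
  have cc : ContDiffOn ℝ 2 (fun r => G₁₁ r / (G₁₁ r * G₂₂ r - G₁₂ r ^ 2)) (Ioo 0 L) :=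
    T.smooth₁₁.div cD hDne
  obtain ⟨fa1, fa2, fa3⟩ := c2_facts ca
  obtain ⟨fb1, fb2, fb3⟩ := c2_facts cb
  obtain ⟨fc1, fc2, fc3⟩ := c2_facts cc
  -- limits at the two ends
  have hs0 : Tendsto (fun r : ℝ => r) (𝓝[>] 0) (𝓝 0) := tendsto_id.mono_left nhdsWithin_le_nhds
  have hsL : Tendsto (fun r : ℝ => L - r) (𝓝[<] L) (𝓝 0) := by
    have hc : Continuous fun r : ℝ => L - r := by fun_prop
    have := (hc.tendsto L).mono_left (nhdsWithin_le_nhds (s := Iio L))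
    simpa using this
  have hn0 : ∀ᶠ r : ℝ in 𝓝[>] 0, r ≠ 0 := by
    filter_upwards [self_mem_nhdsWithin] with r hr
    exact ne_of_gt hr
  have hnL : ∀ᶠ r : ℝ in 𝓝[<] L, L - r ≠ 0 := by
    filter_upwards [self_mem_nhdsWithin] with r hr
    have h1 : r < L := hr
    exact (sub_pos.mpr h1).ne'
  obtain ⟨g0, hg0, hP0⟩ := T.zero₁₁
  obtain ⟨gL, hgL, hPL⟩ := T.end₂₂
  obtain ⟨z1, z2, z3⟩ := end_lims (s := fun r => r) (P := G₁₁) (Q := G₂₂) (R := G₁₂) hs0 hn0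
    T.zero₂₂ hg0 hP0 T.zero₁₂
  obtain ⟨w1, w2, w3⟩ := end_lims (s := fun r => L - r) (P := G₂₂) (Q := G₁₁) (R := G₁₂) hsL hnL
    T.end₁₁ hgL hPL T.end₁₂
  have hcomm : ∀ r, G₂₂ r * G₁₁ r = G₁₁ r * G₂₂ r := fun r => mul_comm _ _
  simp only [hcomm] at w1 w2 w3
  refine ⟨(fun r => G₂₂ r / (G₁₁ r * G₂₂ r - G₁₂ r ^ 2)),
    (fun r => -(G₁₂ r / (G₁₁ r * G₂₂ r - G₁₂ r ^ 2))),
    (fun r => G₁₁ r / (G₁₁ r * G₂₂ r - G₁₂ r ^ 2)),
    deriv (fun r => G₂₂ r / (G₁₁ r * G₂₂ r - G₁₂ r ^ 2)),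
    deriv (fun r => -(G₁₂ r / (G₁₁ r * G₂₂ r - G₁₂ r ^ 2))),
    deriv (fun r => G₁₁ r / (G₁₁ r * G₂₂ r - G₁₂ r ^ 2)),
    deriv (deriv (fun r => G₂₂ r / (G₁₁ r * G₂₂ r - G₁₂ r ^ 2))),
    deriv (deriv (fun r => -(G₁₂ r / (G₁₁ r * G₂₂ r - G₁₂ r ^ 2)))),
    deriv (deriv (fun r => G₁₁ r / (G₁₁ r * G₂₂ r - G₁₂ r ^ 2))), rfl, rfl, rfl, ?_⟩
  exact
    { hL := T.hL
      da := fa1
      db := fb1
      dc := fc1
      da1 := fa2
      db1 := fb2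
      dc1 := fc2
      ca2 := fa3
      cb2 := fb3
      cc2 := fc3
      apos := fun r hr => div_pos (T.pos₂₂ hr) (T.det r hr)
      det := fun r hr => by
        have h1 := T.det r hr
        rw [neg_sq, div_pow, div_mul_div_comm, ← sq]
        exact div_lt_div_of_pos_right (by linarith) (pow_pos h1 2)
      cz := z1
      az := ⟨1 / g0, by positivity, z2⟩
      bB := bounded_of_ends T.hL cb.continuousOn z3 w3
      aL := w1
      cL := ⟨1 / gL, by positivity, w2⟩ }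

/-- the conclusion in terms of the metric -/
theorem ToricMetric.round (T : ToricMetric L G₁₁ G₁₂ G₂₂)
    (hR : ∀ a b c a1 b1 c1 a2 b2 c2 : ℝ → ℝ,
      (a = fun r => G₂₂ r / (G₁₁ r * G₂₂ r - G₁₂ r ^ 2)) →
      (b = fun r => -(G₁₂ r / (G₁₁ r * G₂₂ r - G₁₂ r ^ 2))) →
      (c = fun r => G₁₁ r / (G₁₁ r * G₂₂ r - G₁₂ r ^ 2)) →
      Data L a b c a1 b1 c1 a2 b2 c2 →
      ∃ m n m' n' : ℤ, m * n' - m' * n ≠ 0 ∧ Res L a b c a1 b1 c1 a2 b2 c2 m n m' n') :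
    ∃ k > 0, L = Real.pi / (2 * k) ∧ ∀ r ∈ Ioo 0 L,
      G₁₁ r = (Real.cos (k * r) / k) ^ 2 ∧ G₁₂ r = 0 ∧ G₂₂ r = (Real.sin (k * r) / k) ^ 2 := by
  obtain ⟨a, b, c, a1, b1, c1, a2, b2, c2, ha, hb, hc, D⟩ := T.data
  obtain ⟨m, n, m', n', hdet, hRes⟩ := hR a b c a1 b1 c1 a2 b2 c2 ha hb hc D
  obtain ⟨k, hk, hkL, h⟩ := Pool.Agent.TOS.round D hRes hdet
  refine ⟨k, hk, ?_, ?_⟩
  · field_simp
    linarith
  · intro r hr
    obtain ⟨h1, h2, h3⟩ := h r hr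
    have hD := T.det r hr
    have h11 := T.pos r hr
    have h22 := T.pos₂₂ hr
    rw [hb] at h1
    simp only at h1
    have h12 : G₁₂ r = 0 := by
      have h4 : G₁₂ r / (G₁₁ r * G₂₂ r - G₁₂ r ^ 2) = 0 := by linarith
      exact (div_eq_zero_iff.mp h4).resolve_right hD.ne'
    rw [ha] at h2
    rw [hc] at h3
    simp only [h12] at h2 h3
    refine ⟨?_, h12, ?_⟩
    · field_simp at h2 ⊢
      have h5 : Real.cos (k * r) ^ 2 = k ^ 2 * G₁₁ r := by nlinarith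
      linarith
    · field_simp at h3 ⊢
      have h5 : Real.sin (k * r) ^ 2 = k ^ 2 * G₂₂ r := by nlinarith
      linarith

end Pool.Agent.TOS
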