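import Pool.Agent.TOS.Arc
import Pool.Agent.TOS.Close

set_option autoImplicit false

/-!
From a torus invariant metric in polar coordinates of the sphere (parameter `ψ ∈ (0, π/2)`) to the
normal form.
-/

namespace Pool.Agent.TOS

open Set Filter Topology

/-- The coefficients of `2H` in an orthonormal frame (`ψ`-direction, `θ`-direction,
`φ`-direction) of the round sphere, functions of `ψ`. -/
structure Pol (W α β γ₁ γ₂ γ₃ : ℝ → ℝ) : Prop where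
  cW : ContDiff ℝ 2 W
  cα : ContDiff ℝ 2 α
  cβ : ContDiff ℝ 2 β
  c1 : ContDiff ℝ 2 γ₁
  c2 : ContDiff ℝ 2 γ₂
  c3 : ContDiff ℝ 2 γ₃
  pd : ∀ ψ x y z : ℝ, (x, y, z) ≠ (0, 0, 0) →
    0 < W ψ * x ^ 2 + α ψ * y ^ 2 + β ψ * z ^ 2 + 2 * γ₁ ψ * x * y + 2 * γ₂ ψ * x * z +
      2 * γ₃ ψ * y * z
  bd : ∃ M, ∀ ψ, W ψ ≤ M
  zα : α 0 = W 0
  z1 : γ₁ 0 = 0
  z3 : γ₃ 0 = 0
  eβ : β (Real.pi / 2) = W (Real.pi / 2)
  e2 : γ₂ (Real.pi / 2) = 0
  e3 : γ₃ (Real.pi / 2) = 0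

variable {W α β γ₁ γ₂ γ₃ : ℝ → ℝ}

namespace Pol

theorem Wpos (P : Pol W α β γ₁ γ₂ γ₃) (ψ : ℝ) : 0 < W ψ := by
  have := P.pd ψ 1 0 0 (by simp)
  simpa using this

theorem det1 (P : Pol W α β γ₁ γ₂ γ₃) (ψ : ℝ) : 0 < α ψ - γ₁ ψ ^ 2 / W ψ := by
  have h0 := P.Wpos ψ
  have h1 := P.pd ψ (-(γ₁ ψ / W ψ)) 1 0 (by simp)
  have h2 : W ψ * (-(γ₁ ψ / W ψ)) ^ 2 + α ψ * 1 ^ 2 + β ψ * 0 ^ 2 +
      2 * γ₁ ψ * (-(γ₁ ψ / W ψ)) * 1 + 2 * γ₂ ψ * (-(γ₁ ψ / W ψ)) * 0 + 2 * γ₃ ψ * 1 * 0 =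
      α ψ - γ₁ ψ ^ 2 / W ψ := by
    field_simp
    ring
  rwa [h2] at h1

theorem det2 (P : Pol W α β γ₁ γ₂ γ₃) (ψ : ℝ) : 0 < β ψ - γ₂ ψ ^ 2 / W ψ := by
  have h0 := P.Wpos ψ
  have h1 := P.pd ψ (-(γ₂ ψ / W ψ)) 0 1 (by simp)
  have h2 : W ψ * (-(γ₂ ψ / W ψ)) ^ 2 + α ψ * 0 ^ 2 + β ψ * 1 ^ 2 +
      2 * γ₁ ψ * (-(γ₂ ψ / W ψ)) * 0 + 2 * γ₂ ψ * (-(γ₂ ψ / W ψ)) * 1 + 2 * γ₃ ψ * 0 * 1 =
      β ψ - γ₂ ψ ^ 2 / W ψ := by
    field_simp
    ring
  rwa [h2] at h1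

theorem det3 (P : Pol W α β γ₁ γ₂ γ₃) (ψ : ℝ) :
    (γ₃ ψ - γ₁ ψ * γ₂ ψ / W ψ) ^ 2 < (β ψ - γ₂ ψ ^ 2 / W ψ) * (α ψ - γ₁ ψ ^ 2 / W ψ) := by
  have h0 := P.Wpos ψ
  have hA := P.det1 ψ
  have hB := P.det2 ψ
  set A := α ψ - γ₁ ψ ^ 2 / W ψ with hAdef
  set B := β ψ - γ₂ ψ ^ 2 / W ψ with hBdef
  set C := γ₃ ψ - γ₁ ψ * γ₂ ψ / W ψ with hCdef
  have key : ∀ y z : ℝ, (y, z) ≠ (0, 0) → 0 < A * y ^ 2 + B * z ^ 2 + 2 * C * y * z := by
    intro y z hyz
    have h1 := P.pd ψ (-((γ₁ ψ * y + γ₂ ψ * z) / W ψ)) y z (by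
      intro h
      apply hyz
      simp only [Prod.mk.injEq] at h ⊢
      exact h.2)
    have h2 : W ψ * (-((γ₁ ψ * y + γ₂ ψ * z) / W ψ)) ^ 2 + α ψ * y ^ 2 + β ψ * z ^ 2 +
        2 * γ₁ ψ * (-((γ₁ ψ * y + γ₂ ψ * z) / W ψ)) * y +
        2 * γ₂ ψ * (-((γ₁ ψ * y + γ₂ ψ * z) / W ψ)) * z + 2 * γ₃ ψ * y * z =
        A * y ^ 2 + B * z ^ 2 + 2 * C * y * z := by
      rw [hAdef, hBdef, hCdef]
      field_simp
      ring
    rwa [h2] at h1
  have h3 := key (-C) A (by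
    intro h
    simp only [Prod.mk.injEq] at h
    exact hA.ne' h.2)
  have h4 : A * (-C) ^ 2 + B * A ^ 2 + 2 * C * (-C) * A = A * (B * A - C ^ 2) := by ring
  rw [h4] at h3
  have h5 := (pos_iff_pos_of_mul_pos h3).mp hA
  linarith

end Pol

/-- coefficient of `K²` after removing the cross terms -/
noncomputable def Ca (W β γ₂ : ℝ → ℝ) (ψ : ℝ) : ℝ := (β ψ - γ₂ ψ ^ 2 / W ψ) / Real.cos ψ ^ 2

/-- half the coefficient of `L K` after removing the cross terms -/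
noncomputable def Cb (W γ₁ γ₂ γ₃ : ℝ → ℝ) (ψ : ℝ) : ℝ :=
  (γ₃ ψ - γ₁ ψ * γ₂ ψ / W ψ) / (Real.sin ψ * Real.cos ψ)

/-- coefficient of `L²` after removing the cross terms -/
noncomputable def Cc (W α γ₁ : ℝ → ℝ) (ψ : ℝ) : ℝ := (α ψ - γ₁ ψ ^ 2 / W ψ) / Real.sin ψ ^ 2

theorem sin_pos_of {ψ : ℝ} (h : ψ ∈ Ioo 0 (Real.pi / 2)) : 0 < Real.sin ψ :=
  Real.sin_pos_of_pos_of_lt_pi h.1 (by linarith [h.2, Real.pi_pos])

theorem cos_pos_of {ψ : ℝ} (h : ψ ∈ Ioo 0 (Real.pi / 2)) : 0 < Real.cos ψ :=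
  Real.cos_pos_of_mem_Ioo ⟨by linarith [h.1, Real.pi_pos], h.2⟩

variable {R g : ℝ → ℝ}

/-- `O(x)` estimate for a differentiable function with a zero -/
theorem bigO_of_zero {f : ℝ → ℝ} {x : ℝ} (hf : DifferentiableAt ℝ f x) (h0 : f x = 0) :
    ∃ K, ∀ᶠ y in 𝓝 x, |f y| ≤ K * |y - x| := by
  have h1 := hf.hasDerivAt.isBigO_sub
  rw [h0] at h1
  obtain ⟨K, hK⟩ := h1.bound
  refine ⟨K, ?_⟩
  filter_upwards [hK] with y hy
  simpa using hy

theorem Pol.data (P : Pol W α β γ₁ γ₂ γ₃) (hR0 : R 0 = 0) (hg0 : g 0 = 0) (hRm : StrictMono R)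
    (hgm : StrictMono g) (hRg : ∀ r, R (g r) = r) (hgR : ∀ x, g (R x) = x)
    (hgd : ∀ r, HasDerivAt g (Real.sqrt (W (g r))) r) :
    ∃ a1 b1 c1 a2 b2 c2 : ℝ → ℝ, Data (R (Real.pi / 2)) (fun r => Ca W β γ₂ (g r))
      (fun r => Cb W γ₁ γ₂ γ₃ (g r)) (fun r => Cc W α γ₁ (g r)) a1 b1 c1 a2 b2 c2 := by
  set L := R (Real.pi / 2) with hL
  have hLpos : 0 < L := by
    rw [hL, ← hR0]
    exact hRm (by positivity)
  have hgL : g L = Real.pi / 2 := hgR _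
  have hmap : ∀ r ∈ Ioo 0 L, g r ∈ Ioo 0 (Real.pi / 2) := by
    intro r hr
    constructor
    · rw [← hg0]; exact hgm hr.1
    · rw [← hgL]; exact hgm hr.2
  -- smoothness
  have hgc : Continuous g := continuous_iff_continuousAt.mpr fun r => (hgd r).continuousAt
  have csq : ContDiff ℝ 2 fun ψ => Real.sqrt (W ψ) := P.cW.sqrt fun ψ => (P.Wpos ψ).ne'
  have hderiv : deriv g = fun r => Real.sqrt (W (g r)) := funext fun r => (hgd r).deriv
  have g1 : ContDiff ℝ 1 g := by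
    have h : ContDiff ℝ (0 + 1) g := by
      rw [contDiff_succ_iff_deriv]
      refine ⟨fun r => (hgd r).differentiableAt, by simp, ?_⟩
      rw [hderiv, contDiff_zero]
      exact csq.continuous.comp hgc
    simpa using h
  have g2 : ContDiff ℝ 2 g := by
    have h : ContDiff ℝ (1 + 1) g := by
      rw [contDiff_succ_iff_deriv]
      refine ⟨fun r => (hgd r).differentiableAt, by simp, ?_⟩
      rw [hderiv]
      exact (csq.of_le (by norm_num)).comp g1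
    have e : (1 + 1 : WithTop ℕ∞) = 2 := by norm_num
    rw [e] at h
    exact h
  have hWne : ∀ ψ, W ψ ≠ 0 := fun ψ => (P.Wpos ψ).ne'
  have cA : ContDiffOn ℝ 2 (Ca W β γ₂) (Ioo 0 (Real.pi / 2)) := by
    unfold Ca
    apply ContDiffOn.div
    · exact (P.cβ.sub ((P.c2.pow 2).div P.cW hWne)).contDiffOn
    · exact (Real.contDiff_cos.pow 2).contDiffOn
    · intro ψ hψ
      exact (pow_pos (cos_pos_of hψ) 2).ne'
  have cB : ContDiffOn ℝ 2 (Cb W γ₁ γ₂ γ₃) (Ioo 0 (Real.pi / 2)) := by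
    unfold Cb
    apply ContDiffOn.div
    · exact (P.c3.sub ((P.c1.mul P.c2).div P.cW hWne)).contDiffOn
    · exact (Real.contDiff_sin.mul Real.contDiff_cos).contDiffOn
    · intro ψ hψ
      exact (mul_pos (sin_pos_of hψ) (cos_pos_of hψ)).ne'
  have cC : ContDiffOn ℝ 2 (Cc W α γ₁) (Ioo 0 (Real.pi / 2)) := by
    unfold Cc
    apply ContDiffOn.div
    · exact (P.cα.sub ((P.c1.pow 2).div P.cW hWne)).contDiffOn
    · exact (Real.contDiff_sin.pow 2).contDiffOn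
    · intro ψ hψ
      exact (pow_pos (sin_pos_of hψ) 2).ne'
  have ca : ContDiffOn ℝ 2 (fun r => Ca W β γ₂ (g r)) (Ioo 0 L) :=
    cA.comp g2.contDiffOn hmap
  have cb : ContDiffOn ℝ 2 (fun r => Cb W γ₁ γ₂ γ₃ (g r)) (Ioo 0 L) :=
    cB.comp g2.contDiffOn hmap
  have cc : ContDiffOn ℝ 2 (fun r => Cc W α γ₁ (g r)) (Ioo 0 L) :=
    cC.comp g2.contDiffOn hmap
  obtain ⟨fa1, fa2, fa3⟩ := c2_facts ca
  obtain ⟨fb1, fb2, fb3⟩ := c2_facts cb
  obtain ⟨fc1, fc2, fc3⟩ := c2_facts cc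
  -- the numerators are continuous
  have nA : Continuous fun ψ => β ψ - γ₂ ψ ^ 2 / W ψ :=
    P.cβ.continuous.sub ((P.c2.continuous.pow 2).div P.cW.continuous hWne)
  have nC : Continuous fun ψ => α ψ - γ₁ ψ ^ 2 / W ψ :=
    P.cα.continuous.sub ((P.c1.continuous.pow 2).div P.cW.continuous hWne)
  -- slopes at the ends
  have s0 : Tendsto (fun r => Real.sin (g r) / r) (𝓝[>] 0) (𝓝 (Real.sqrt (W 0))) := by
    have d1 : HasDerivAt (fun r => Real.sin (g r)) (Real.sqrt (W 0)) 0 := by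
      have := (hgd 0).sin
      rw [hg0] at this
      simpa using this
    have s1 := (hasDerivAt_iff_tendsto_slope.mp d1).mono_left
      (nhdsWithin_mono _ (fun x hx => (ne_of_gt hx : x ≠ 0)))
    refine (s1 : Tendsto _ (𝓝[>] (0 : ℝ)) _).congr' ?_
    filter_upwards with r
    rw [slope_def_field, hg0, Real.sin_zero, sub_zero, sub_zero]
  have sL : Tendsto (fun r => Real.cos (g r) / (L - r)) (𝓝[<] L) (𝓝 (Real.sqrt (W (Real.pi / 2)))) := by
    have d1 : HasDerivAt (fun r => Real.cos (g r)) (-Real.sqrt (W (Real.pi / 2))) L := by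
      have := (hgd L).cos
      rw [hgL] at this
      simpa using this
    have s1 := (hasDerivAt_iff_tendsto_slope.mp d1).mono_left
      (nhdsWithin_mono _ (fun x hx => (ne_of_lt hx : x ≠ L)))
    have s2 := (s1 : Tendsto _ (𝓝[<] L) _).neg
    rw [neg_neg] at s2
    refine s2.congr' ?_
    filter_upwards with r
    rw [slope_def_field, hgL, Real.cos_pi_div_two, sub_zero, ← div_neg, neg_sub]
  have hg0t : Tendsto g (𝓝[>] 0) (𝓝 0) := by
    have := (hgc.tendsto 0).mono_left (nhdsWithin_le_nhds (s := Ioi (0 : ℝ)))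
    rwa [hg0] at this
  have hgLt : Tendsto g (𝓝[<] L) (𝓝 (Real.pi / 2)) := by
    have := (hgc.tendsto L).mono_left (nhdsWithin_le_nhds (s := Iio L))
    rwa [hgL] at this
  have I0 : ∀ᶠ r in 𝓝[>] 0, r ∈ Ioo 0 L := Ioo_mem_nhdsGT hLpos
  have IL : ∀ᶠ r in 𝓝[<] L, r ∈ Ioo 0 L := Ioo_mem_nhdsLT hLpos
  have hW0 := P.Wpos 0
  have hWe := P.Wpos (Real.pi / 2)
  -- the closing limits
  have cz : Tendsto (fun r => r ^ 2 * Cc W α γ₁ (g r)) (𝓝[>] 0) (𝓝 1) := by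
    have h1 := ((nC.tendsto 0).comp hg0t).div (s0.pow 2)
      (pow_ne_zero 2 (Real.sqrt_pos.mpr hW0).ne')
    rw [Real.sq_sqrt hW0.le, P.z1, P.zα] at h1
    have h2 : (W 0 - 0 ^ 2 / W 0) / W 0 = 1 := by
      field_simp
      ring
    rw [h2] at h1
    refine h1.congr' ?_
    filter_upwards [I0] with r hr
    have h3 := sin_pos_of (hmap r hr)
    have h4 := hr.1
    simp only [Pi.div_apply, Function.comp_apply, Pi.pow_apply, Cc]
    rw [div_pow, div_div_eq_mul_div]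
    ring
  have aL : Tendsto (fun r => (L - r) ^ 2 * Ca W β γ₂ (g r)) (𝓝[<] L) (𝓝 1) := by
    have h1 := ((nA.tendsto (Real.pi / 2)).comp hgLt).div (sL.pow 2)
      (pow_ne_zero 2 (Real.sqrt_pos.mpr hWe).ne')
    rw [Real.sq_sqrt hWe.le, P.e2, P.eβ] at h1
    have h2 : (W (Real.pi / 2) - 0 ^ 2 / W (Real.pi / 2)) / W (Real.pi / 2) = 1 := by
      field_simp
      ring
    rw [h2] at h1
    refine h1.congr' ?_
    filter_upwards [IL] with r hr
    simp only [Pi.div_apply, Function.comp_apply, Pi.pow_apply, Ca]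
    rw [div_pow, div_div_eq_mul_div]
    ring
  have az : Tendsto (fun r => Ca W β γ₂ (g r)) (𝓝[>] 0) (𝓝 (β 0 - γ₂ 0 ^ 2 / W 0)) := by
    have h1 := ((nA.tendsto 0).comp hg0t).div (((Real.continuous_cos.tendsto 0).comp hg0t).pow 2)
      (by simp)
    simp only [Real.cos_zero, one_pow, div_one] at h1
    exact h1
  have cL : Tendsto (fun r => Cc W α γ₁ (g r)) (𝓝[<] L)
      (𝓝 (α (Real.pi / 2) - γ₁ (Real.pi / 2) ^ 2 / W (Real.pi / 2))) := by
    have h1 := ((nC.tendsto (Real.pi / 2)).comp hgLt).div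
      (((Real.continuous_sin.tendsto (Real.pi / 2)).comp hgLt).pow 2) (by simp)
    simp only [Real.sin_pi_div_two, one_pow, div_one] at h1
    exact h1
  -- boundedness of the mixed coefficient
  set N : ℝ → ℝ := fun ψ => γ₃ ψ - γ₁ ψ * γ₂ ψ / W ψ with hN
  have cN : ContDiff ℝ 2 N := P.c3.sub ((P.c1.mul P.c2).div P.cW hWne)
  have dN : Differentiable ℝ N := cN.differentiable (by norm_num)
  have N0 : N 0 = 0 := by simp [hN, P.z3, P.z1]
  have NL : N (Real.pi / 2) = 0 := by simp [hN, P.e3, P.e2]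
  have b0 : ∃ K, ∀ᶠ r in 𝓝[>] 0, |Cb W γ₁ γ₂ γ₃ (g r)| ≤ K := by
    obtain ⟨K, hK⟩ := bigO_of_zero (dN 0) N0
    have hsl : Tendsto (fun ψ : ℝ => Real.sin ψ * Real.cos ψ / ψ) (𝓝[>] 0) (𝓝 1) := by
      have d1 : HasDerivAt (fun ψ => Real.sin ψ * Real.cos ψ) 1 0 := by
        have := (Real.hasDerivAt_sin 0).fun_mul (Real.hasDerivAt_cos 0)
        refine this.congr_deriv ?_
        simp
      have s1 := (hasDerivAt_iff_tendsto_slope.mp d1).mono_left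
        (nhdsWithin_mono _ (fun x hx => (ne_of_gt hx : x ≠ 0)))
      refine (s1 : Tendsto _ (𝓝[>] (0 : ℝ)) _).congr' ?_
      filter_upwards with r
      rw [slope_def_field]
      simp
    have hgW : Tendsto g (𝓝[>] 0) (𝓝[>] 0) := by
      apply tendsto_nhdsWithin_iff.mpr
      exact ⟨hg0t, by filter_upwards [I0] with r hr; exact (hmap r hr).1⟩
    refine ⟨2 * |K|, ?_⟩
    filter_upwards [I0, (hgW.eventually (hsl.eventually (lt_mem_nhds (show (1 / 2 : ℝ) < 1 by norm_num)))),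
      hg0t.eventually hK] with r hr h1 h2
    have hψ := hmap r hr
    have h3 := sin_pos_of hψ
    have h4 := cos_pos_of hψ
    have h5 : 0 < g r := hψ.1
    rw [lt_div_iff₀ h5] at h1
    unfold Cb
    rw [abs_div, abs_of_pos (mul_pos h3 h4), div_le_iff₀ (mul_pos h3 h4)]
    rw [sub_zero, abs_of_pos h5] at h2
    calc |γ₃ (g r) - γ₁ (g r) * γ₂ (g r) / W (g r)| ≤ K * g r := h2
      _ ≤ |K| * g r := mul_le_mul_of_nonneg_right (le_abs_self K) h5.le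
      _ = 2 * |K| * (1 / 2 * g r) := by ring
      _ ≤ 2 * |K| * (Real.sin (g r) * Real.cos (g r)) :=
        mul_le_mul_of_nonneg_left h1.le (by positivity)
  have bL : ∃ K, ∀ᶠ r in 𝓝[<] L, |Cb W γ₁ γ₂ γ₃ (g r)| ≤ K := by
    obtain ⟨K, hK⟩ := bigO_of_zero (dN (Real.pi / 2)) NL
    have hsl : Tendsto (fun ψ : ℝ => Real.sin ψ * Real.cos ψ / (Real.pi / 2 - ψ)) (𝓝[<] (Real.pi / 2))
        (𝓝 1) := by
      have d1 : HasDerivAt (fun ψ => Real.sin ψ * Real.cos ψ) (-1) (Real.pi / 2) := by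
        have := (Real.hasDerivAt_sin (Real.pi / 2)).fun_mul (Real.hasDerivAt_cos (Real.pi / 2))
        refine this.congr_deriv ?_
        simp
      have s1 := (hasDerivAt_iff_tendsto_slope.mp d1).mono_left
        (nhdsWithin_mono _ (fun x hx => (ne_of_lt hx : x ≠ Real.pi / 2)))
      have s2 := (s1 : Tendsto _ (𝓝[<] (Real.pi / 2)) _).neg
      rw [neg_neg] at s2
      refine s2.congr' ?_
      filter_upwards with r
      rw [slope_def_field, Real.cos_pi_div_two, mul_zero, sub_zero, ← div_neg, neg_sub]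
    have hgW : Tendsto g (𝓝[<] L) (𝓝[<] (Real.pi / 2)) := by
      apply tendsto_nhdsWithin_iff.mpr
      exact ⟨hgLt, by filter_upwards [IL] with r hr; exact (hmap r hr).2⟩
    refine ⟨2 * |K|, ?_⟩
    filter_upwards [IL, (hgW.eventually (hsl.eventually (lt_mem_nhds (show (1 / 2 : ℝ) < 1 by norm_num)))),
      hgLt.eventually hK] with r hr h1 h2
    have hψ := hmap r hr
    have h3 := sin_pos_of hψ
    have h4 := cos_pos_of hψ
    have h5 : 0 < Real.pi / 2 - g r := by linarith [hψ.2]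
    rw [lt_div_iff₀ h5] at h1
    unfold Cb
    rw [abs_div, abs_of_pos (mul_pos h3 h4), div_le_iff₀ (mul_pos h3 h4)]
    rw [show |g r - Real.pi / 2| = Real.pi / 2 - g r from by rw [abs_sub_comm, abs_of_pos h5]] at h2
    calc |γ₃ (g r) - γ₁ (g r) * γ₂ (g r) / W (g r)| ≤ K * (Real.pi / 2 - g r) := h2
      _ ≤ |K| * (Real.pi / 2 - g r) := mul_le_mul_of_nonneg_right (le_abs_self K) h5.le
      _ = 2 * |K| * (1 / 2 * (Real.pi / 2 - g r)) := by ring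
      _ ≤ 2 * |K| * (Real.sin (g r) * Real.cos (g r)) :=
        mul_le_mul_of_nonneg_left h1.le (by positivity)
  exact ⟨_, _, _, _, _, _,
    { hL := hLpos
      da := fa1
      db := fb1
      dc := fc1
      da1 := fa2
      db1 := fb2
      dc1 := fc2
      ca2 := fa3
      cb2 := fb3
      cc2 := fc3
      apos := fun r hr => div_pos (P.det2 _) (pow_pos (cos_pos_of (hmap r hr)) 2)
      det := fun r hr => by
        have h1 := P.det3 (g r)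
        have h3 := sin_pos_of (hmap r hr)
        have h4 := cos_pos_of (hmap r hr)
        simp only [Ca, Cb, Cc]
        rw [div_pow, div_mul_div_comm]
        have e : (Real.sin (g r) * Real.cos (g r)) ^ 2 = Real.cos (g r) ^ 2 * Real.sin (g r) ^ 2 := by
          ring
        rw [e]
        exact div_lt_div_of_pos_right h1 (by positivity)
      cz := cz
      az := ⟨_, P.det2 0, az⟩
      bB := bounded_of_ends hLpos cb.continuousOn b0 bL
      aL := aL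
      cL := ⟨_, P.det1 (Real.pi / 2), cL⟩ }⟩

end Pool.Agent.TOS
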