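import Pool.Agent.TOS.Res
import Pool.Agent.MSup.Expand

set_option autoImplicit false

/-!
Modes in polar coordinates of the sphere and the change to arclength and sheared angles.
-/

namespace Pool.Agent.TOS

open Set Filter Topology
open Pool.Agent.MSup (prod_mom)

/-- the interval of the polar coordinate -/
abbrev Iψ : Set ℝ := Ioo 0 (Real.pi / 2)

/-- Coefficients of a polar Hamiltonian
`2H = W (p + g₁ L + g₂ K)² + A K² + 2 B K L + C L²` with their derivatives. -/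
structure PHam (W g₁ g₂ A B C W' g₁' g₂' A' B' C' : ℝ → ℝ) : Prop where
  Wpos : ∀ ψ ∈ Iψ, 0 < W ψ
  dW : ∀ ψ ∈ Iψ, HasDerivAt W (W' ψ) ψ
  d1 : ∀ ψ ∈ Iψ, HasDerivAt g₁ (g₁' ψ) ψ
  d2 : ∀ ψ ∈ Iψ, HasDerivAt g₂ (g₂' ψ) ψ
  dA : ∀ ψ ∈ Iψ, HasDerivAt A (A' ψ) ψ
  dB : ∀ ψ ∈ Iψ, HasDerivAt B (B' ψ) ψ
  dC : ∀ ψ ∈ Iψ, HasDerivAt C (C' ψ) ψ

/-- A nonzero mode of a polynomial integral. -/
structure PMode (W g₁ g₂ A B C W' g₁' g₂' A' B' C' : ℝ → ℝ) (m n : ℤ) where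
  ι : Type
  [fin : Fintype ι]
  e1 : ι → ℕ
  e2 : ι → ℕ
  e3 : ι → ℕ
  c : ι → ℝ → ℂ
  c' : ι → ℝ → ℂ
  dc : ∀ i, ∀ ψ ∈ Iψ, HasDerivAt (c i) (c' i ψ) ψ
  pde : ∀ ψ ∈ Iψ, ∀ p L K : ℝ,
    ((W ψ * (p + g₁ ψ * L + g₂ ψ * K) : ℝ) : ℂ) *
        (∑ i, c' i ψ * (p : ℂ) ^ e1 i * (L : ℂ) ^ e2 i * (K : ℂ) ^ e3 i) -
      (((W' ψ * (p + g₁ ψ * L + g₂ ψ * K) ^ 2 +
          2 * W ψ * (p + g₁ ψ * L + g₂ ψ * K) * (g₁' ψ * L + g₂' ψ * K) +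
          A' ψ * K ^ 2 + 2 * B' ψ * K * L + C' ψ * L ^ 2) / 2 : ℝ) : ℂ) *
        (∑ i, c i ψ * (e1 i * (p : ℂ) ^ (e1 i - 1)) * (L : ℂ) ^ e2 i * (K : ℂ) ^ e3 i) +
      Complex.I * ((m * (W ψ * (p + g₁ ψ * L + g₂ ψ * K) * g₁ ψ + B ψ * K + C ψ * L) +
          n * (W ψ * (p + g₁ ψ * L + g₂ ψ * K) * g₂ ψ + A ψ * K + B ψ * L) : ℝ) : ℂ) *
        (∑ i, c i ψ * (p : ℂ) ^ e1 i * (L : ℂ) ^ e2 i * (K : ℂ) ^ e3 i) = 0
  ne : ∃ ψ ∈ Iψ, ∃ p L K : ℝ,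
    ∑ i, c i ψ * (p : ℂ) ^ e1 i * (L : ℂ) ^ e2 i * (K : ℂ) ^ e3 i ≠ 0

attribute [instance] PMode.fin

/-- the three coefficients of the old momentum in the new ones -/
noncomputable def Yc (W g₁ g₂ g : ℝ → ℝ) (τ : Fin 3) (r : ℝ) : ℝ :=
  match τ with
  | 0 => (Real.sqrt (W (g r)))⁻¹
  | 1 => -g₁ (g r)
  | 2 => -g₂ (g r)

section
variable {W g₁ g₂ A B C W' g₁' g₂' A' B' C' : ℝ → ℝ} {m n : ℤ}

/-- the new momenta -/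
noncomputable def Mc (ρ L K : ℝ) (τ : Fin 3) : ℝ :=
  match τ with
  | 0 => ρ
  | 1 => L
  | 2 => K

theorem pow_expand (W g₁ g₂ g : ℝ → ℝ) (r ρ L K : ℝ) (e : ℕ) :
    (((Real.sqrt (W (g r)))⁻¹ * ρ - g₁ (g r) * L - g₂ (g r) * K : ℝ) : ℂ) ^ e =
      ∑ σ : Fin e → Fin 3, (∏ j, (Yc W g₁ g₂ g (σ j) r : ℂ)) *
        ((ρ : ℂ) ^ (Finset.univ.filter fun j => σ j = 0).card *
          (L : ℂ) ^ (Finset.univ.filter fun j => σ j = 1).card *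
          (K : ℂ) ^ (Finset.univ.filter fun j => σ j = 2).card) := by
  have h1 : ((Real.sqrt (W (g r)))⁻¹ * ρ - g₁ (g r) * L - g₂ (g r) * K : ℝ) ^ e =
      ∏ _j : Fin e, ∑ τ : Fin 3, Yc W g₁ g₂ g τ r * Mc ρ L K τ := by
    rw [Finset.prod_const, Finset.card_univ, Fintype.card_fin, Fin.sum_univ_three]
    simp only [Yc, Mc]
    congr 1
    ring
  rw [← Complex.ofReal_pow, h1, Finset.prod_univ_sum, Fintype.piFinset_univ]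
  push_cast
  refine Finset.sum_congr rfl fun σ _ => ?_
  have h2 := prod_mom σ (Mc ρ L K)
  have h3 : (∏ j, (Mc ρ L K (σ j) : ℂ)) = ((∏ j, Mc ρ L K (σ j) : ℝ) : ℂ) := by push_cast; rfl
  rw [Finset.prod_mul_distrib, h3, h2]
  simp only [Mc]
  push_cast
  ring

theorem PMode.res (H : PHam W g₁ g₂ A B C W' g₁' g₂' A' B' C')
    (P : PMode W g₁ g₂ A B C W' g₁' g₂' A' B' C' m n) {g : ℝ → ℝ} {ℓ : ℝ}
    (hmap : ∀ r ∈ Ioo 0 ℓ, g r ∈ Iψ) (hsur : ∀ ψ ∈ Iψ, ∃ r ∈ Ioo 0 ℓ, g r = ψ)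
    (hgd : ∀ r ∈ Ioo 0 ℓ, HasDerivAt g (Real.sqrt (W (g r))) r)
    {Θ₁ Θ₂ : ℝ → ℝ}
    (hΘ₁ : ∀ r ∈ Ioo 0 ℓ, HasDerivAt Θ₁ (g₁ (g r) * Real.sqrt (W (g r))) r)
    (hΘ₂ : ∀ r ∈ Ioo 0 ℓ, HasDerivAt Θ₂ (g₂ (g r) * Real.sqrt (W (g r))) r)
    {a1 b1 c1 a2 b2 c2 : ℝ → ℝ}
    (ha : ∀ x ∈ Ioo 0 ℓ, HasDerivAt (fun r => A (g r)) (a1 x) x)
    (hb : ∀ x ∈ Ioo 0 ℓ, HasDerivAt (fun r => B (g r)) (b1 x) x)
    (hc : ∀ x ∈ Ioo 0 ℓ, HasDerivAt (fun r => C (g r)) (c1 x) x)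
    (ha1 : ∀ x ∈ Ioo 0 ℓ, HasDerivAt a1 (a2 x) x) (hb1 : ∀ x ∈ Ioo 0 ℓ, HasDerivAt b1 (b2 x) x)
    (hc1 : ∀ x ∈ Ioo 0 ℓ, HasDerivAt c1 (c2 x) x)
    {r : ℝ} (hr : r ∈ Ioo 0 ℓ) {p q : ℝ}
    (h : a1 r * p ^ 2 + 2 * b1 r * p * q + c1 r * q ^ 2 = 0) :
    ∃ M : ℤ, (n * (A (g r) * p + B (g r) * q) + m * (B (g r) * p + C (g r) * q)) ^ 2 =
      (a2 r * p ^ 2 + 2 * b2 r * p * q + c2 r * q ^ 2) / 2 * (M : ℝ) ^ 2 := by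
  classical
  -- derivatives of the pieces
  have hWp : ∀ r ∈ Ioo 0 ℓ, 0 < W (g r) := fun r hr => H.Wpos _ (hmap r hr)
  have hwp : ∀ r ∈ Ioo 0 ℓ, 0 < Real.sqrt (W (g r)) := fun r hr => Real.sqrt_pos.2 (hWp r hr)
  have hcomp : ∀ {f f' : ℝ → ℝ}, (∀ ψ ∈ Iψ, HasDerivAt f (f' ψ) ψ) → ∀ r ∈ Ioo 0 ℓ,
      HasDerivAt (fun r => f (g r)) (f' (g r) * Real.sqrt (W (g r))) r := by
    intro f f' hf r hr
    exact (hf _ (hmap r hr)).comp r (hgd r hr)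
  have hw : ∀ r ∈ Ioo 0 ℓ, HasDerivAt (fun r => Real.sqrt (W (g r))) (W' (g r) / 2) r := by
    intro r hr
    have h1 := (hcomp H.dW r hr).sqrt (hWp r hr).ne'
    refine h1.congr_deriv ?_
    have := (hwp r hr).ne'
    field_simp
  have hwi : ∀ r ∈ Ioo 0 ℓ, HasDerivAt (fun r => (Real.sqrt (W (g r)))⁻¹)
      (-(W' (g r) / 2) / Real.sqrt (W (g r)) ^ 2) r := fun r hr =>
    (hw r hr).fun_inv (hwp r hr).ne'
  have hY : ∀ τ, ∀ r ∈ Ioo 0 ℓ, DifferentiableAt ℝ (Yc W g₁ g₂ g τ) r := by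
    intro τ r hr
    fin_cases τ
    · exact (hwi r hr).differentiableAt
    · exact (hcomp H.d1 r hr).fun_neg.differentiableAt
    · exact (hcomp H.d2 r hr).fun_neg.differentiableAt
  set E : ℝ → ℂ := fun r => Complex.exp (Complex.I * ((m * Θ₁ r + n * Θ₂ r : ℝ) : ℂ)) with hE
  have hEd : ∀ r ∈ Ioo 0 ℓ, HasDerivAt E (E r * (Complex.I *
      ((m * (g₁ (g r) * Real.sqrt (W (g r))) + n * (g₂ (g r) * Real.sqrt (W (g r))) : ℝ) : ℂ)))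
      r := by
    intro r hr
    exact ((((hΘ₁ r hr).const_mul (m : ℝ)).fun_add ((hΘ₂ r hr).const_mul (n : ℝ))).ofReal_comp.const_mul
      Complex.I).cexp
  -- the new coefficients
  let κ : (Σ i : P.ι, (Fin (P.e1 i) → Fin 3)) → ℝ → ℂ := fun x r =>
    E r * (P.c x.1 (g r) * ∏ j, (Yc W g₁ g₂ g (x.2 j) r : ℂ))
  have hκ : ∀ x, ∀ r ∈ Ioo 0 ℓ, HasDerivAt (κ x) (deriv (κ x) r) r := by
    intro x r hr
    have h1 : DifferentiableAt ℝ (fun r => P.c x.1 (g r)) r :=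
      ((P.dc x.1 _ (hmap r hr)).scomp r (hgd r hr)).differentiableAt
    have h2 : DifferentiableAt ℝ (fun r => ∏ j, (Yc W g₁ g₂ g (x.2 j) r : ℂ)) r := by
      apply DifferentiableAt.fun_finsetProd
      intro j _
      exact (hY _ r hr).hasDerivAt.ofReal_comp.differentiableAt
    exact ((hEd r hr).differentiableAt.mul (h1.mul h2)).hasDerivAt
  let e1 : (Σ i : P.ι, (Fin (P.e1 i) → Fin 3)) → ℕ := fun x =>
    (Finset.univ.filter fun j => x.2 j = 0).card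
  let e2 : (Σ i : P.ι, (Fin (P.e1 i) → Fin 3)) → ℕ := fun x =>
    P.e3 x.1 + (Finset.univ.filter fun j => x.2 j = 2).card
  let e3 : (Σ i : P.ι, (Fin (P.e1 i) → Fin 3)) → ℕ := fun x =>
    P.e2 x.1 + (Finset.univ.filter fun j => x.2 j = 1).card
  -- value identity
  have hval : ∀ r ρ K L : ℝ, ∑ x, κ x r * (ρ : ℂ) ^ e1 x * (K : ℂ) ^ e2 x * (L : ℂ) ^ e3 x =
      E r * ∑ i, P.c i (g r) * (((Real.sqrt (W (g r)))⁻¹ * ρ - g₁ (g r) * L - g₂ (g r) * K : ℝ) : ℂ)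
        ^ P.e1 i * (L : ℂ) ^ P.e2 i * (K : ℂ) ^ P.e3 i := by
    intro r ρ K L
    rw [Fintype.sum_sigma, Finset.mul_sum]
    refine Finset.sum_congr rfl fun i _ => ?_
    rw [pow_expand, Finset.mul_sum, Finset.sum_mul, Finset.sum_mul, Finset.mul_sum]
    refine Finset.sum_congr rfl fun σ _ => ?_
    simp only [κ, e1, e2, e3, pow_add]
    ring
  -- derivative in `ρ`
  have hρ : ∀ r ρ K L : ℝ, ∑ x, κ x r * (e1 x * (ρ : ℂ) ^ (e1 x - 1)) * (K : ℂ) ^ e2 x *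
      (L : ℂ) ^ e3 x = E r * (((Real.sqrt (W (g r)))⁻¹ : ℝ) : ℂ) *
      ∑ i, P.c i (g r) * (P.e1 i * (((Real.sqrt (W (g r)))⁻¹ * ρ - g₁ (g r) * L - g₂ (g r) * K : ℝ) : ℂ)
        ^ (P.e1 i - 1)) * (L : ℂ) ^ P.e2 i * (K : ℂ) ^ P.e3 i := by
    intro r ρ K L
    have hid : HasDerivAt (fun ρ : ℝ => (ρ : ℂ)) 1 ρ := (hasDerivAt_id ρ).ofReal_comp
    have h1 : HasDerivAt (fun ρ : ℝ => ∑ x, κ x r * (ρ : ℂ) ^ e1 x * (K : ℂ) ^ e2 x *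
        (L : ℂ) ^ e3 x) (∑ x, κ x r * (e1 x * (ρ : ℂ) ^ (e1 x - 1)) * (K : ℂ) ^ e2 x *
        (L : ℂ) ^ e3 x) ρ := by
      refine HasDerivAt.fun_sum fun x _ => ?_
      refine ((((hid.fun_pow (e1 x)).const_mul (κ x r)).mul_const _).mul_const _).congr_deriv ?_
      ring
    have hP : HasDerivAt (fun ρ : ℝ => (((Real.sqrt (W (g r)))⁻¹ * ρ - g₁ (g r) * L -
        g₂ (g r) * K : ℝ) : ℂ)) (((Real.sqrt (W (g r)))⁻¹ : ℝ) : ℂ) ρ := by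
      have h2 : HasDerivAt (fun ρ : ℝ => (Real.sqrt (W (g r)))⁻¹ * ρ - g₁ (g r) * L -
        g₂ (g r) * K) ((Real.sqrt (W (g r)))⁻¹) ρ := by
        simpa using (((hasDerivAt_id ρ).const_mul ((Real.sqrt (W (g r)))⁻¹)).sub_const
          (g₁ (g r) * L)).sub_const (g₂ (g r) * K)
      exact h2.ofReal_comp
    have h3 : HasDerivAt (fun ρ : ℝ => ∑ x, κ x r * (ρ : ℂ) ^ e1 x * (K : ℂ) ^ e2 x *
        (L : ℂ) ^ e3 x) (E r * (((Real.sqrt (W (g r)))⁻¹ : ℝ) : ℂ) *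
      ∑ i, P.c i (g r) * (P.e1 i * (((Real.sqrt (W (g r)))⁻¹ * ρ - g₁ (g r) * L - g₂ (g r) * K : ℝ) : ℂ)
        ^ (P.e1 i - 1)) * (L : ℂ) ^ P.e2 i * (K : ℂ) ^ P.e3 i) ρ := by
      have h4 : (fun ρ : ℝ => ∑ x, κ x r * (ρ : ℂ) ^ e1 x * (K : ℂ) ^ e2 x *
        (L : ℂ) ^ e3 x) = fun ρ : ℝ => E r * ∑ i, P.c i (g r) *
          (((Real.sqrt (W (g r)))⁻¹ * ρ - g₁ (g r) * L - g₂ (g r) * K : ℝ) : ℂ)
        ^ P.e1 i * (L : ℂ) ^ P.e2 i * (K : ℂ) ^ P.e3 i := funext fun ρ => hval r ρ K L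
      rw [h4]
      have h5 : HasDerivAt (fun ρ : ℝ => ∑ i, P.c i (g r) *
          (((Real.sqrt (W (g r)))⁻¹ * ρ - g₁ (g r) * L - g₂ (g r) * K : ℝ) : ℂ)
        ^ P.e1 i * (L : ℂ) ^ P.e2 i * (K : ℂ) ^ P.e3 i)
          (∑ i, P.c i (g r) * (P.e1 i * (((Real.sqrt (W (g r)))⁻¹ * ρ - g₁ (g r) * L -
            g₂ (g r) * K : ℝ) : ℂ) ^ (P.e1 i - 1) * (((Real.sqrt (W (g r)))⁻¹ : ℝ) : ℂ)) *
            (L : ℂ) ^ P.e2 i * (K : ℂ) ^ P.e3 i) ρ :=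
        HasDerivAt.fun_sum fun i _ =>
          (((hP.fun_pow (P.e1 i)).const_mul (P.c i (g r))).mul_const _).mul_const _
      refine (h5.const_mul (E r)).congr_deriv ?_
      rw [mul_assoc, Finset.mul_sum, Finset.mul_sum, Finset.mul_sum]
      refine Finset.sum_congr rfl fun i _ => ?_
      ring
    exact h1.unique h3
  -- derivative in `r`
  have hr' : ∀ r ∈ Ioo 0 ℓ, ∀ ρ K L : ℝ, ∑ x, deriv (κ x) r * (ρ : ℂ) ^ e1 x * (K : ℂ) ^ e2 x *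
      (L : ℂ) ^ e3 x =
      E r * (Complex.I *
        ((m * (g₁ (g r) * Real.sqrt (W (g r))) + n * (g₂ (g r) * Real.sqrt (W (g r))) : ℝ) : ℂ)) *
        (∑ i, P.c i (g r) * (((Real.sqrt (W (g r)))⁻¹ * ρ - g₁ (g r) * L - g₂ (g r) * K : ℝ) : ℂ)
        ^ P.e1 i * (L : ℂ) ^ P.e2 i * (K : ℂ) ^ P.e3 i) +
      E r * (((Real.sqrt (W (g r)) : ℝ) : ℂ) *
        (∑ i, P.c' i (g r) * (((Real.sqrt (W (g r)))⁻¹ * ρ - g₁ (g r) * L - g₂ (g r) * K : ℝ) : ℂ)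
        ^ P.e1 i * (L : ℂ) ^ P.e2 i * (K : ℂ) ^ P.e3 i) +
        ((-(W' (g r) / 2) / Real.sqrt (W (g r)) ^ 2 * ρ - g₁' (g r) * Real.sqrt (W (g r)) * L -
          g₂' (g r) * Real.sqrt (W (g r)) * K : ℝ) : ℂ) *
        ∑ i, P.c i (g r) * (P.e1 i * (((Real.sqrt (W (g r)))⁻¹ * ρ - g₁ (g r) * L - g₂ (g r) * K : ℝ) : ℂ)
        ^ (P.e1 i - 1)) * (L : ℂ) ^ P.e2 i * (K : ℂ) ^ P.e3 i) := by
    intro r hr ρ K L
    have h1 : HasDerivAt (fun r : ℝ => ∑ x, κ x r * (ρ : ℂ) ^ e1 x * (K : ℂ) ^ e2 x *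
        (L : ℂ) ^ e3 x) (∑ x, deriv (κ x) r * (ρ : ℂ) ^ e1 x * (K : ℂ) ^ e2 x *
        (L : ℂ) ^ e3 x) r :=
      HasDerivAt.fun_sum fun x _ => (((hκ x r hr).mul_const _).mul_const _).mul_const _
    have hP : HasDerivAt (fun r : ℝ => (((Real.sqrt (W (g r)))⁻¹ * ρ - g₁ (g r) * L -
        g₂ (g r) * K : ℝ) : ℂ)) ((-(W' (g r) / 2) / Real.sqrt (W (g r)) ^ 2 * ρ -
          g₁' (g r) * Real.sqrt (W (g r)) * L -
          g₂' (g r) * Real.sqrt (W (g r)) * K : ℝ) : ℂ) r :=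
      ((((hwi r hr).mul_const ρ).fun_sub ((hcomp H.d1 r hr).mul_const L)).fun_sub
        ((hcomp H.d2 r hr).mul_const K)).ofReal_comp
    have h4 : (fun r : ℝ => ∑ x, κ x r * (ρ : ℂ) ^ e1 x * (K : ℂ) ^ e2 x *
        (L : ℂ) ^ e3 x) = fun r : ℝ => E r * ∑ i, P.c i (g r) *
          (((Real.sqrt (W (g r)))⁻¹ * ρ - g₁ (g r) * L - g₂ (g r) * K : ℝ) : ℂ)
        ^ P.e1 i * (L : ℂ) ^ P.e2 i * (K : ℂ) ^ P.e3 i := funext fun r => hval r ρ K L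
    rw [h4] at h1
    have h5 : ∀ i, HasDerivAt (fun r : ℝ => P.c i (g r))
        (((Real.sqrt (W (g r)) : ℝ) : ℂ) * P.c' i (g r)) r := by
      intro i
      have := (P.dc i _ (hmap r hr)).scomp r (hgd r hr)
      refine this.congr_deriv ?_
      rw [Complex.real_smul]
    have h6 : HasDerivAt (fun r : ℝ => ∑ i, P.c i (g r) *
          (((Real.sqrt (W (g r)))⁻¹ * ρ - g₁ (g r) * L - g₂ (g r) * K : ℝ) : ℂ)
        ^ P.e1 i * (L : ℂ) ^ P.e2 i * (K : ℂ) ^ P.e3 i) _ r :=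
      HasDerivAt.fun_sum fun i _ =>
        (((h5 i).fun_mul (hP.fun_pow (P.e1 i))).mul_const _).mul_const _
    refine h1.unique (((hEd r hr).fun_mul h6).congr_deriv ?_)
    congr 1
    congr 1
    rw [Finset.mul_sum, Finset.mul_sum, ← Finset.sum_add_distrib]
    refine Finset.sum_congr rfl fun i _ => ?_
    ring
  -- conclusion
  have hda : ∀ x ∈ Ioo 0 ℓ, a1 x = A' (g x) * Real.sqrt (W (g x)) := fun x hx =>
    (ha x hx).unique (hcomp H.dA x hx)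
  have hdb : ∀ x ∈ Ioo 0 ℓ, b1 x = B' (g x) * Real.sqrt (W (g x)) := fun x hx =>
    (hb x hx).unique (hcomp H.dB x hx)
  have hdc : ∀ x ∈ Ioo 0 ℓ, c1 x = C' (g x) * Real.sqrt (W (g x)) := fun x hx =>
    (hc x hx).unique (hcomp H.dC x hx)
  refine Pool.Agent.TOS.res (I := Ioo 0 ℓ) (e1 := e1) (e2 := e2) (e3 := e3) (κ := κ)
    (κ' := fun x => deriv (κ x)) (m := n) (n := m) (convex_Ioo 0 ℓ) isOpen_Ioo
    ha hb hc ha1 hb1 hc1 hκ ?_ ?_ hr h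
  · intro x hx y p q
    rw [hr' x hx y p q, hρ x y p q, hval x y p q, hda x hx, hdb x hx, hdc x hx]
    have h1 := P.pde (g x) (hmap x hx) ((Real.sqrt (W (g x)))⁻¹ * y - g₁ (g x) * q - g₂ (g x) * p)
      q p
    have hw0 := (hwp x hx).ne'
    have hsq : Real.sqrt (W (g x)) ^ 2 = W (g x) := Real.sq_sqrt (hWp x hx).le
    set w := Real.sqrt (W (g x)) with hwdef
    have e0 : w⁻¹ * y - g₁ (g x) * q - g₂ (g x) * p + g₁ (g x) * q + g₂ (g x) * p = w⁻¹ * y := by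
      ring
    rw [e0, ← hsq] at h1
    set S0 := ∑ i, P.c i (g x) * ((w⁻¹ * y - g₁ (g x) * q - g₂ (g x) * p : ℝ) : ℂ) ^ P.e1 i *
      (q : ℂ) ^ P.e2 i * (p : ℂ) ^ P.e3 i
    set S1 := ∑ i, P.c' i (g x) * ((w⁻¹ * y - g₁ (g x) * q - g₂ (g x) * p : ℝ) : ℂ) ^ P.e1 i *
      (q : ℂ) ^ P.e2 i * (p : ℂ) ^ P.e3 i
    set S2 := ∑ i, P.c i (g x) * (P.e1 i * ((w⁻¹ * y - g₁ (g x) * q - g₂ (g x) * p : ℝ) : ℂ) ^
      (P.e1 i - 1)) * (q : ℂ) ^ P.e2 i * (p : ℂ) ^ P.e3 i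
    have hwc : (w : ℂ) ≠ 0 := by exact_mod_cast hw0
    push_cast at h1 ⊢
    have e1' : (w : ℂ) ^ 2 * ((w : ℂ)⁻¹ * y) = w * y := by field_simp
    have e2' : ((w : ℂ)⁻¹ * y) ^ 2 = y ^ 2 / w ^ 2 := by field_simp
    field_simp
    field_simp at h1
    linear_combination (E x) * h1
  · obtain ⟨ψ, hψ, p, L, K, hne⟩ := P.ne
    obtain ⟨r, hr, rfl⟩ := hsur ψ hψ
    refine ⟨r, hr, Real.sqrt (W (g r)) * (p + g₁ (g r) * L + g₂ (g r) * K), K, L, ?_⟩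
    rw [hval]
    refine mul_ne_zero (Complex.exp_ne_zero _) ?_
    have hw0 := (hwp r hr).ne'
    have e0 : (Real.sqrt (W (g r)))⁻¹ * (Real.sqrt (W (g r)) * (p + g₁ (g r) * L + g₂ (g r) * K)) -
        g₁ (g r) * L - g₂ (g r) * K = p := by
      field_simp
      ring
    rw [e0]
    exact hne

end

end Pool.Agent.TOS
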