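import Pool.Agent.TOS.Statement
import Pool.Agent.MSup.Wrap
import Pool.Agent.MSup.Gen
import Pool.Agent.TOS.Shear
import Pool.Agent.TOS.Pol

set_option autoImplicit false

/-!
Torus invariant quadratic Hamiltonians on the cotangent bundle of the three-sphere in polar
coordinates.
-/

namespace Pool.Agent.TOA

open Set Filter Topology
open scoped ContDiff
open Pool.Agent.MSup
open Pool.Agent.TOS (PHam PMode Ca Cb Cc Pol Iψ)

section
variable {h : I4 → I4 → (I4 → ℝ) → ℝ}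

theorem poly_quadHam (hh : ∀ i j, ContDiff ℝ ∞ (h i j)) : PolyInMomenta (quadHam h) := by
  refine ⟨2, fun k => match k with
    | 2 => fun i x => h (i 0) (i 1) x / 2
    | _ => fun _ _ => 0, ?_, ?_⟩
  · intro k i
    match k with
    | 0 => exact contDiff_const
    | 1 => exact contDiff_const
    | 2 => exact (hh _ _).div_const 2
    | (k + 3) => exact contDiff_const
  · intro z _
    rw [Finset.sum_range_succ, Finset.sum_range_succ, Finset.sum_range_succ, Finset.sum_range_zero]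
    simp only [zero_mul, Finset.sum_const_zero, zero_add]
    rw [quadHam, Finset.sum_div]
    rw [← (finTwoArrowEquiv I4).symm.sum_comp, Fintype.sum_prod_type]
    refine Finset.sum_congr rfl fun i _ => ?_
    rw [Finset.sum_div]
    refine Finset.sum_congr rfl fun j _ => ?_
    simp [finTwoArrowEquiv, Fin.prod_univ_two]
    ring

/-- an orthonormal frame of the plane is `(e, ±J e)` -/
theorem frame_two {e1 e2 : Fin 2 → ℝ} (h11 : ∑ i, e1 i * e1 i = 1) (h22 : ∑ i, e2 i * e2 i = 1)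
    (h12 : ∑ i, e1 i * e2 i = 0) : ∃ ε : ℝ, (ε = 1 ∨ ε = -1) ∧ e2 0 = -(ε * e1 1) ∧
      e2 1 = ε * e1 0 := by
  rw [Fin.sum_univ_two] at h11 h22 h12
  refine ⟨e1 0 * e2 1 - e1 1 * e2 0, ?_, ?_, ?_⟩
  · have h1 : (e1 0 * e2 1 - e1 1 * e2 0) ^ 2 = 1 := by
      linear_combination (e2 0 * e2 0 + e2 1 * e2 1) * h11 + h22 -
        (e1 0 * e2 0 + e1 1 * e2 1) * h12
    exact mul_self_eq_one_iff.mp (by rw [← sq]; exact h1)
  · linear_combination (-e2 0) * h11 + e1 0 * h12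
  · linear_combination (-e2 1) * h11 + e1 1 * h12


theorem rot_er (R : Frame 2 2) : ∃ ε : ℝ, (ε = 1 ∨ ε = -1) ∧ ∀ θ θ',
    R.er (θ + θ') 0 = Real.cos (ε * θ') * R.er θ 0 - Real.sin (ε * θ') * R.er θ 1 ∧
    R.er (θ + θ') 1 = Real.sin (ε * θ') * R.er θ 0 + Real.cos (ε * θ') * R.er θ 1 ∧
    R.et (θ + θ') 0 = Real.cos (ε * θ') * R.et θ 0 - Real.sin (ε * θ') * R.et θ 1 ∧
    R.et (θ + θ') 1 = Real.sin (ε * θ') * R.et θ 0 + Real.cos (ε * θ') * R.et θ 1 := by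
  obtain ⟨ε, hε, h0, h1⟩ := frame_two R.he11 R.he22 R.he12
  refine ⟨ε, hε, fun θ θ' => ?_⟩
  rcases hε with rfl | rfl <;>
  · simp only [Frame.er, Frame.et, h0, h1, Real.cos_add, Real.sin_add, one_mul, neg_mul,
      Real.cos_neg, Real.sin_neg]
    refine ⟨?_, ?_, ?_, ?_⟩ <;> ring

theorem rot_fr (R : Frame 2 2) : ∃ ε : ℝ, (ε = 1 ∨ ε = -1) ∧ ∀ θ θ',
    R.fr (θ + θ') 0 = Real.cos (ε * θ') * R.fr θ 0 - Real.sin (ε * θ') * R.fr θ 1 ∧
    R.fr (θ + θ') 1 = Real.sin (ε * θ') * R.fr θ 0 + Real.cos (ε * θ') * R.fr θ 1 ∧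
    R.ft (θ + θ') 0 = Real.cos (ε * θ') * R.ft θ 0 - Real.sin (ε * θ') * R.ft θ 1 ∧
    R.ft (θ + θ') 1 = Real.sin (ε * θ') * R.ft θ 0 + Real.cos (ε * θ') * R.ft θ 1 := by
  obtain ⟨ε, hε, h0, h1⟩ := frame_two R.hf11 R.hf22 R.hf12
  refine ⟨ε, hε, fun θ θ' => ?_⟩
  rcases hε with rfl | rfl <;>
  · simp only [Frame.fr, Frame.ft, h0, h1, Real.cos_add, Real.sin_add, one_mul, neg_mul,
      Real.cos_neg, Real.sin_neg]
    refine ⟨?_, ?_, ?_, ?_⟩ <;> ring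

/-- torus invariance in the frame: the coordinates `θ, φ` are cyclic -/
theorem H_Psi_const {H : (I4 → ℝ) × (I4 → ℝ) → ℝ} (hH : TorusInvariant H) (R : Frame 2 2)
    (ψ θ φ p L K θ' φ' : ℝ) : H (R.Psi ψ (θ + θ') (φ + φ') p L K) = H (R.Psi ψ θ φ p L K) := by
  obtain ⟨ε, -, hε⟩ := rot_er R
  obtain ⟨δ, -, hδ⟩ := rot_fr R
  rw [← hH (ε * θ') (δ * φ') _ (R.Psi_mem ψ θ φ p L K)]
  congr 1
  obtain ⟨a1, a2, a3, a4⟩ := hε θ θ'
  obtain ⟨b1, b2, b3, b4⟩ := hδ φ φ'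
  refine Prod.ext (funext ?_) (funext ?_) <;> rintro (j | j) <;> fin_cases j <;>
    simp [Frame.Psi, Frame.X, Frame.Pm, rot, a1, a2, a3, a4, b1, b2, b3, b4] <;> ring

theorem H_Psi_zero {H : (I4 → ℝ) × (I4 → ℝ) → ℝ} (hH : TorusInvariant H) (R : Frame 2 2)
    (ψ θ φ p L K : ℝ) : H (R.Psi ψ θ φ p L K) = H (R.Psi ψ 0 0 p L K) := by
  have := H_Psi_const hH R ψ 0 0 p L K θ φ
  rwa [zero_add, zero_add] at this

/-- the coefficients of the quadratic form in the orthonormal frame -/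
noncomputable def Qf (h : I4 → I4 → (I4 → ℝ) → ℝ) (R : Frame 2 2) (τ σ : Fin 3) (ψ : ℝ) : ℝ :=
  ∑ i, ∑ j, (h i j (R.X ψ 0 0) + h j i (R.X ψ 0 0)) / 2 * coef R τ (ψ, 0, 0) i *
    coef R σ (ψ, 0, 0) j

theorem Qf_symm (h : I4 → I4 → (I4 → ℝ) → ℝ) (R : Frame 2 2) (τ σ : Fin 3) (ψ : ℝ) :
    Qf h R τ σ ψ = Qf h R σ τ ψ := by
  unfold Qf
  rw [Finset.sum_comm]
  refine Finset.sum_congr rfl fun i _ => Finset.sum_congr rfl fun j _ => ?_
  ring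

/-- tangent vector with the components `x, y, z` in the frame -/
noncomputable def V3 (R : Frame 2 2) (ψ x y z : ℝ) (i : I4) : ℝ :=
  x * coef R 0 (ψ, 0, 0) i + y * coef R 1 (ψ, 0, 0) i + z * coef R 2 (ψ, 0, 0) i

theorem quadHam_V3 (h : I4 → I4 → (I4 → ℝ) → ℝ) (R : Frame 2 2) (ψ x y z : ℝ) :
    quadHam h (R.X ψ 0 0, V3 R ψ x y z) = (Qf h R 0 0 ψ * x ^ 2 + Qf h R 1 1 ψ * y ^ 2 +
      Qf h R 2 2 ψ * z ^ 2 + 2 * Qf h R 0 1 ψ * x * y + 2 * Qf h R 0 2 ψ * x * z +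
      2 * Qf h R 1 2 ψ * y * z) / 2 := by
  have h1 : ∀ v w : I4 → ℝ, (∑ i, ∑ j, h i j (R.X ψ 0 0) * v i * w j) +
      (∑ i, ∑ j, h i j (R.X ψ 0 0) * w i * v j) =
      2 * ∑ i, ∑ j, (h i j (R.X ψ 0 0) + h j i (R.X ψ 0 0)) / 2 * v i * w j := by
    intro v w
    have h2 : (∑ i, ∑ j, h i j (R.X ψ 0 0) * w i * v j) =
        ∑ i, ∑ j, h j i (R.X ψ 0 0) * v i * w j := by
      rw [Finset.sum_comm]
      exact Finset.sum_congr rfl fun i _ => Finset.sum_congr rfl fun j _ => by ring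
    rw [h2, ← Finset.sum_add_distrib, Finset.mul_sum]
    refine Finset.sum_congr rfl fun i _ => ?_
    rw [← Finset.sum_add_distrib, Finset.mul_sum]
    exact Finset.sum_congr rfl fun j _ => by ring
  have h3 : ∀ a b c : I4 → ℝ, (∑ i, ∑ j, h i j (R.X ψ 0 0) * (x * a i + y * b i + z * c i) *
      (x * a j + y * b j + z * c j)) =
      x ^ 2 * (∑ i, ∑ j, h i j (R.X ψ 0 0) * a i * a j) +
      y ^ 2 * (∑ i, ∑ j, h i j (R.X ψ 0 0) * b i * b j) +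
      z ^ 2 * (∑ i, ∑ j, h i j (R.X ψ 0 0) * c i * c j) +
      x * y * ((∑ i, ∑ j, h i j (R.X ψ 0 0) * a i * b j) +
        (∑ i, ∑ j, h i j (R.X ψ 0 0) * b i * a j)) +
      x * z * ((∑ i, ∑ j, h i j (R.X ψ 0 0) * a i * c j) +
        (∑ i, ∑ j, h i j (R.X ψ 0 0) * c i * a j)) +
      y * z * ((∑ i, ∑ j, h i j (R.X ψ 0 0) * b i * c j) +
        (∑ i, ∑ j, h i j (R.X ψ 0 0) * c i * b j)) := by
    intro a b c
    simp only [mul_add (x * y), mul_add (x * z), mul_add (y * z), Finset.mul_sum,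
      ← Finset.sum_add_distrib]
    exact Finset.sum_congr rfl fun i _ => Finset.sum_congr rfl fun j _ => by ring
  have h4 : ∀ v : I4 → ℝ, (∑ i, ∑ j, h i j (R.X ψ 0 0) * v i * v j) =
      ∑ i, ∑ j, (h i j (R.X ψ 0 0) + h j i (R.X ψ 0 0)) / 2 * v i * v j := by
    intro v
    have := h1 v v
    linarith
  unfold quadHam V3
  rw [h3, h1, h1, h1, h4, h4, h4]
  simp only [Qf]
  ring

theorem V3_mem (R : Frame 2 2) (ψ x y z : ℝ) : (R.X ψ 0 0, V3 R ψ x y z) ∈ TS I4 := by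
  have h1 := (R.Psi_mem ψ 0 0 0 0 0).1
  refine ⟨h1, ?_⟩
  have a1 := R.sum_er_er 0
  have a2 := R.sum_er_et 0
  have b1 := R.sum_fr_fr 0
  have b2 := R.sum_fr_ft 0
  rw [Fin.sum_univ_two] at a1 a2 b1 b2
  simp only [ip, Fintype.sum_sum_type, Fin.sum_univ_two, Frame.X, V3, coef, Sum.elim_inl,
    Sum.elim_inr]
  linear_combination (Real.sin ψ * Real.cos ψ * x) * a1 + (Real.sin ψ * y) * a2 -
    (Real.sin ψ * Real.cos ψ * x) * b1 + (Real.cos ψ * z) * b2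

theorem V3_norm (R : Frame 2 2) (ψ x y z : ℝ) :
    ∑ i, V3 R ψ x y z i ^ 2 = x ^ 2 + y ^ 2 + z ^ 2 := by
  have a1 := R.sum_er_er 0
  have a2 := R.sum_er_et 0
  have a3 := R.sum_et_et 0
  have b1 := R.sum_fr_fr 0
  have b2 := R.sum_fr_ft 0
  have b3 := R.sum_ft_ft 0
  have sc := Real.sin_sq_add_cos_sq ψ
  rw [Fin.sum_univ_two] at a1 a2 b1 b2 a3 b3
  simp only [Fintype.sum_sum_type, Fin.sum_univ_two, V3, coef, Sum.elim_inl,
    Sum.elim_inr]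
  linear_combination (Real.cos ψ ^ 2 * x ^ 2) * a1 + (2 * Real.cos ψ * x * y) * a2 + y ^ 2 * a3 +
    (Real.sin ψ ^ 2 * x ^ 2) * b1 - (2 * Real.sin ψ * x * z) * b2 + z ^ 2 * b3 + x ^ 2 * sc

end

end Pool.Agent.TOA
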