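import Pool.Agent.TOS.Amb

set_option autoImplicit false

/-!
Polar coefficients of a torus invariant metric on the three-sphere: smoothness, positivity, values
at the two circles.
-/

namespace Pool.Agent.TOA

open Set Filter Topology
open scoped ContDiff
open Pool.Agent.MSup
open Pool.Agent.TOS (PHam PMode Ca Cb Cc Pol Iψ)

variable {h : I4 → I4 → (I4 → ℝ) → ℝ}

theorem contDiff_X0 (R : Frame 2 2) : ContDiff ℝ ∞ fun ψ : ℝ => R.X ψ 0 0 := by
  rw [contDiff_pi]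
  rintro (j | j)
  · simp only [Frame.X, Sum.elim_inl, Frame.er]
    fun_prop
  · simp only [Frame.X, Sum.elim_inr, Frame.fr]
    fun_prop

theorem contDiff_Qf (hh : ∀ i j, ContDiff ℝ ∞ (h i j)) (R : Frame 2 2) (τ σ : Fin 3) :
    ContDiff ℝ ∞ (Qf h R τ σ) := by
  have hp : ContDiff ℝ ∞ fun ψ : ℝ => (ψ, (0 : ℝ), (0 : ℝ)) := by fun_prop
  have hX : ContDiff ℝ ∞ fun ψ : ℝ => R.X ψ 0 0 := contDiff_X0 R
  have hc : ∀ τ i, ContDiff ℝ ∞ fun ψ : ℝ => coef R τ (ψ, 0, 0) i := fun τ i =>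
    (contDiff_coef R τ i).comp hp
  have hhX : ∀ i j, ContDiff ℝ ∞ fun ψ : ℝ => h i j (R.X ψ 0 0) := fun i j => (hh i j).comp hX
  have h1 : ∀ i j, ContDiff ℝ ∞ fun ψ : ℝ => (h i j (R.X ψ 0 0) + h j i (R.X ψ 0 0)) / 2 :=
    fun i j => ((hhX i j).add (hhX j i)).div_const 2
  have h2 : ∀ i j, ContDiff ℝ ∞ fun ψ : ℝ => (h i j (R.X ψ 0 0) + h j i (R.X ψ 0 0)) / 2 *
      coef R τ (ψ, 0, 0) i := fun i j => (h1 i j).mul (hc τ i)
  have h3 : ∀ i j, ContDiff ℝ ∞ fun ψ : ℝ => (h i j (R.X ψ 0 0) + h j i (R.X ψ 0 0)) / 2 *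
      coef R τ (ψ, 0, 0) i * coef R σ (ψ, 0, 0) j := fun i j => (h2 i j).mul (hc σ j)
  have h4 : ContDiff ℝ ∞ fun ψ : ℝ => ∑ i, ∑ j, (h i j (R.X ψ 0 0) + h j i (R.X ψ 0 0)) / 2 *
      coef R τ (ψ, 0, 0) i * coef R σ (ψ, 0, 0) j :=
    ContDiff.sum fun i _ => ContDiff.sum fun j _ => h3 i j
  exact h4

theorem Qf_bounded (hh : ∀ i j, ContDiff ℝ ∞ (h i j)) (R : Frame 2 2) :
    ∃ M, ∀ ψ, Qf h R 0 0 ψ ≤ M := by
  have hper : Function.Periodic (Qf h R 0 0) (2 * Real.pi) := by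
    intro ψ
    have hX : R.X (ψ + 2 * Real.pi) 0 0 = R.X ψ 0 0 := by
      funext i
      rcases i with j | j <;> simp [Frame.X]
    have hc : ∀ i, coef R 0 (ψ + 2 * Real.pi, 0, 0) i = coef R 0 (ψ, 0, 0) i := by
      intro i
      rcases i with j | j <;> simp [coef]
    simp only [Qf, hX, hc]
  obtain ⟨M, hM⟩ := (hper.isBounded_of_continuous (by positivity)
    (contDiff_Qf hh R 0 0).continuous).bddAbove
  exact ⟨M, fun ψ => hM ⟨ψ, rfl⟩⟩

/-- quadratic forms that coincide have the same coefficients -/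
theorem coef_eq {a b c d e f a' b' c' d' e' f' : ℝ}
    (H : ∀ x y z : ℝ, a * x ^ 2 + b * y ^ 2 + c * z ^ 2 + 2 * d * x * y + 2 * e * x * z +
      2 * f * y * z = a' * x ^ 2 + b' * y ^ 2 + c' * z ^ 2 + 2 * d' * x * y + 2 * e' * x * z +
      2 * f' * y * z) : a = a' ∧ b = b' ∧ c = c' ∧ d = d' ∧ e = e' ∧ f = f' := by
  have h1 := H 1 0 0
  have h2 := H 0 1 0
  have h3 := H 0 0 1
  have h4 := H 1 1 0
  have h5 := H 1 0 1
  have h6 := H 0 1 1
  norm_num at h1 h2 h3 h4 h5 h6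
  refine ⟨h1, h2, h3, ?_, ?_, ?_⟩ <;> linarith

theorem V3_zero (hH : TorusInvariant (quadHam h)) (R : Frame 2 2) (x y z : ℝ) :
    quadHam h (R.X 0 0 0, V3 R 0 x y z) = quadHam h (R.X 0 0 0, V3 R 0 (-y) x z) := by
  obtain ⟨ε, hε1, h0, h1⟩ := frame_two R.he11 R.he22 R.he12
  rw [← hH (ε * (Real.pi / 2)) 0 _ (V3_mem R 0 x y z)]
  have hs : Real.sin (ε * (Real.pi / 2)) = ε := by
    rcases hε1 with rfl | rfl <;> simp
  have hc : Real.cos (ε * (Real.pi / 2)) = 0 := by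
    rcases hε1 with rfl | rfl <;> simp
  have hε2 : ε * ε = 1 := by rcases hε1 with rfl | rfl <;> norm_num
  congr 1
  refine Prod.ext (funext ?_) (funext ?_) <;> rintro (j | j) <;> fin_cases j <;>
    simp [Frame.X, V3, coef, rot, Frame.er, Frame.et, Frame.fr, Frame.ft, h0, h1, hs, hc]
  · linear_combination (-y * R.e1 0) * hε2
  · linear_combination (-y * R.e1 1) * hε2

theorem V3_pi (hH : TorusInvariant (quadHam h)) (R : Frame 2 2) (x y z : ℝ) :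
    quadHam h (R.X (Real.pi / 2) 0 0, V3 R (Real.pi / 2) x y z) =
      quadHam h (R.X (Real.pi / 2) 0 0, V3 R (Real.pi / 2) z y (-x)) := by
  obtain ⟨ε, hε1, h0, h1⟩ := frame_two R.hf11 R.hf22 R.hf12
  rw [← hH 0 (ε * (Real.pi / 2)) _ (V3_mem R (Real.pi / 2) x y z)]
  have hs : Real.sin (ε * (Real.pi / 2)) = ε := by
    rcases hε1 with rfl | rfl <;> simp
  have hc : Real.cos (ε * (Real.pi / 2)) = 0 := by
    rcases hε1 with rfl | rfl <;> simp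
  have hε2 : ε * ε = 1 := by rcases hε1 with rfl | rfl <;> norm_num
  congr 1
  refine Prod.ext (funext ?_) (funext ?_) <;> rintro (j | j) <;> fin_cases j <;>
    simp [Frame.X, V3, coef, rot, Frame.er, Frame.et, Frame.fr, Frame.ft, h0, h1, hs, hc]
  · linear_combination (-z * R.f1 0) * hε2
  · linear_combination (-z * R.f1 1) * hε2

/-- The polar coefficients satisfy the conditions of `Pol`. -/
theorem pol (hh : ∀ i j, ContDiff ℝ ∞ (h i j)) (hH : TorusInvariant (quadHam h))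
    (hpos : ∀ z ∈ TS I4, z.2 ≠ 0 → 0 < quadHam h z) (R : Frame 2 2) :
    Pol (Qf h R 0 0) (Qf h R 1 1) (Qf h R 2 2) (Qf h R 0 1) (Qf h R 0 2) (Qf h R 1 2) := by
  have hq : ∀ τ σ, ContDiff ℝ 2 (Qf h R τ σ) := fun τ σ =>
    (contDiff_Qf hh R τ σ).of_le (WithTop.coe_le_coe.mpr le_top)
  have hz0 : Qf h R 1 1 0 = Qf h R 0 0 0 ∧ Qf h R 0 1 0 = 0 ∧ Qf h R 1 2 0 = 0 := by
    have H : ∀ x y z : ℝ, Qf h R 0 0 0 * x ^ 2 + Qf h R 1 1 0 * y ^ 2 + Qf h R 2 2 0 * z ^ 2 +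
        2 * Qf h R 0 1 0 * x * y + 2 * Qf h R 0 2 0 * x * z + 2 * Qf h R 1 2 0 * y * z =
        Qf h R 1 1 0 * x ^ 2 + Qf h R 0 0 0 * y ^ 2 + Qf h R 2 2 0 * z ^ 2 +
        2 * (-Qf h R 0 1 0) * x * y + 2 * Qf h R 1 2 0 * x * z + 2 * (-Qf h R 0 2 0) * y * z := by
      intro x y z
      have h1 := V3_zero hH R x y z
      rw [quadHam_V3, quadHam_V3] at h1
      linarith
    obtain ⟨e1, -, -, e2, e3, e4⟩ := coef_eq H
    exact ⟨e1.symm, by linarith, by linarith⟩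
  have hz1 : Qf h R 2 2 (Real.pi / 2) = Qf h R 0 0 (Real.pi / 2) ∧
      Qf h R 0 2 (Real.pi / 2) = 0 ∧ Qf h R 1 2 (Real.pi / 2) = 0 := by
    have H : ∀ x y z : ℝ, Qf h R 0 0 (Real.pi / 2) * x ^ 2 + Qf h R 1 1 (Real.pi / 2) * y ^ 2 +
        Qf h R 2 2 (Real.pi / 2) * z ^ 2 +
        2 * Qf h R 0 1 (Real.pi / 2) * x * y + 2 * Qf h R 0 2 (Real.pi / 2) * x * z +
        2 * Qf h R 1 2 (Real.pi / 2) * y * z =
        Qf h R 2 2 (Real.pi / 2) * x ^ 2 + Qf h R 1 1 (Real.pi / 2) * y ^ 2 +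
        Qf h R 0 0 (Real.pi / 2) * z ^ 2 +
        2 * (-Qf h R 1 2 (Real.pi / 2)) * x * y + 2 * (-Qf h R 0 2 (Real.pi / 2)) * x * z +
        2 * Qf h R 0 1 (Real.pi / 2) * y * z := by
      intro x y z
      have h1 := V3_pi hH R x y z
      rw [quadHam_V3, quadHam_V3] at h1
      linarith
    obtain ⟨e1, -, -, e2, e3, e4⟩ := coef_eq H
    exact ⟨e1.symm, by linarith, by linarith⟩
  refine ⟨hq _ _, hq _ _, hq _ _, hq _ _, hq _ _, hq _ _, ?_, Qf_bounded hh R, hz0.1, hz0.2.1,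
    hz0.2.2, hz1.1, hz1.2.1, hz1.2.2⟩
  intro ψ x y z hxyz
  have h1 : V3 R ψ x y z ≠ 0 := by
    intro h2
    have h3 := V3_norm R ψ x y z
    rw [h2] at h3
    simp only [Pi.zero_apply, ne_eq, OfNat.ofNat_ne_zero, not_false_eq_true, zero_pow,
      Finset.sum_const_zero] at h3
    apply hxyz
    have hx : x = 0 := by nlinarith [sq_nonneg x, sq_nonneg y, sq_nonneg z]
    have hy : y = 0 := by nlinarith [sq_nonneg x, sq_nonneg y, sq_nonneg z]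
    have hz : z = 0 := by nlinarith [sq_nonneg x, sq_nonneg y, sq_nonneg z]
    rw [hx, hy, hz]
  have h2 := hpos _ (V3_mem R ψ x y z) h1
  rw [quadHam_V3] at h2
  linarith

end Pool.Agent.TOA
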