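import Mathlib

set_option autoImplicit false

/-!
Arclength parameter and its inverse.
-/

namespace Pool.Agent.TOS

open Set Filter Topology MeasureTheory intervalIntegral

/-- for a continuous positive bounded `w` there are mutually inverse increasing bijections `R, g`
of the line with `R' = 1/w`, `g' = w ∘ g`, fixing `0`. -/
theorem exists_arc (w : ℝ → ℝ) (hw : Continuous w) (hpos : ∀ x, 0 < w x)
    (hbd : ∃ M, ∀ x, w x ≤ M) :
    ∃ R g : ℝ → ℝ, R 0 = 0 ∧ g 0 = 0 ∧ StrictMono R ∧ StrictMono g ∧ (∀ r, R (g r) = r) ∧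
      (∀ x, g (R x) = x) ∧ (∀ x, HasDerivAt R (1 / w x) x) ∧ ∀ r, HasDerivAt g (w (g r)) r := by
  obtain ⟨M, hM⟩ := hbd
  have hMpos : 0 < M := lt_of_lt_of_le (hpos 0) (hM 0)
  have hc : Continuous fun x => 1 / w x := continuous_const.div hw fun x => (hpos x).ne'
  set R : ℝ → ℝ := fun x => ∫ t in (0 : ℝ)..x, 1 / w t with hR
  have hRd : ∀ x, HasDerivAt R (1 / w x) x := fun x =>
    integral_hasDerivAt_right (hc.intervalIntegrable _ _)
      (hc.stronglyMeasurableAtFilter _ _) hc.continuousAt
  have hR0 : R 0 = 0 := by simp [hR]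
  have hmono : StrictMono R := by
    apply strictMono_of_deriv_pos
    intro x
    rw [(hRd x).deriv]
    exact one_div_pos.mpr (hpos x)
  have hRc : Continuous R := continuous_iff_continuousAt.mpr fun x => (hRd x).continuousAt
  -- growth
  have hgrow : ∀ x, 0 ≤ x → x / M ≤ R x := by
    intro x hx
    have h1 : ∫ t in (0 : ℝ)..x, 1 / M ≤ R x := by
      apply integral_mono_on hx (by simp) (hc.intervalIntegrable _ _)
      intro t _
      exact one_div_le_one_div_of_le (hpos t) (hM t)
    simpa [div_eq_mul_inv] using h1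
  have hgrow' : ∀ x, x ≤ 0 → R x ≤ x / M := by
    intro x hx
    have h1 : ∫ t in x..(0 : ℝ), 1 / M ≤ ∫ t in x..(0 : ℝ), 1 / w t := by
      apply integral_mono_on hx (by simp) (hc.intervalIntegrable _ _)
      intro t _
      exact one_div_le_one_div_of_le (hpos t) (hM t)
    have h2 : R x = -∫ t in x..(0 : ℝ), 1 / w t := by
      simp only [hR]
      exact integral_symm _ _
    rw [h2]
    rw [intervalIntegral.integral_const, smul_eq_mul] at h1
    have h3 : (0 - x) * (1 / M) = -(x / M) := by ring
    rw [h3] at h1
    linarith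
  have hsurj : Function.Surjective R := by
    intro r
    have hM' : 0 ≤ |r| * M := by positivity
    have h1 : r ≤ R (|r| * M) := by
      have := hgrow (|r| * M) hM'
      rw [mul_div_assoc, div_self hMpos.ne', mul_one] at this
      exact le_trans (le_abs_self r) this
    have h2 : R (-(|r| * M)) ≤ r := by
      have := hgrow' (-(|r| * M)) (by linarith)
      rw [neg_div, mul_div_assoc, div_self hMpos.ne', mul_one] at this
      exact le_trans this (neg_abs_le r)
    obtain ⟨x, -, hx⟩ := intermediate_value_Icc (by linarith : -(|r| * M) ≤ |r| * M)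
      hRc.continuousOn ⟨h2, h1⟩
    exact ⟨x, hx⟩
  set e := hmono.orderIsoOfSurjective R hsurj with he
  have hRe : ∀ x, e x = R x := fun x => rfl
  have hg1 : ∀ r, R (e.symm r) = r := fun r => by
    have := e.apply_symm_apply r
    exact this
  have hg2 : ∀ x, e.symm (R x) = x := fun x => by
    have := e.symm_apply_apply x
    exact this
  have hgc : Continuous e.symm := e.symm.continuous
  refine ⟨R, e.symm, hR0, ?_, hmono, e.symm.strictMono, hg1, hg2, hRd, ?_⟩
  · have := hg2 0
    rw [hR0] at this
    exact this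
  · intro r
    have h1 := HasDerivAt.of_local_left_inverse (f := R) (g := e.symm) (a := r) hgc.continuousAt
      (hRd (e.symm r)) (one_div_pos.mpr (hpos _)).ne' (Eventually.of_forall hg1)
    simpa using h1

end Pool.Agent.TOS
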