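import Pool.Agent.TOS.Amb2

set_option autoImplicit false

/-!
The polar coordinates are canonical.
-/

namespace Pool.Agent.TOA

open Set Filter Topology
open scoped ContDiff
open Pool.Agent.MSup

/-- completeness of an orthonormal frame of the plane -/
theorem complete_two {e1 e2 : Fin 2 → ℝ} (h11 : ∑ i, e1 i * e1 i = 1) (h22 : ∑ i, e2 i * e2 i = 1)
    (h12 : ∑ i, e1 i * e2 i = 0) (a : Fin 2 → ℝ) (j : Fin 2) :
    a j = (∑ i, a i * e1 i) * e1 j + (∑ i, a i * e2 i) * e2 j := by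
  obtain ⟨ε, hε, h0, h1⟩ := frame_two h11 h22 h12
  have hε2 : ε * ε = 1 := by rcases hε with rfl | rfl <;> norm_num
  rw [Fin.sum_univ_two] at h11
  fin_cases j
  · simp only [Fin.sum_univ_two, Fin.zero_eta, Fin.isValue, h0, h1]
    linear_combination (-a 0) * h11 - (a 0 * e1 1 * e1 1 - a 1 * e1 0 * e1 1) * hε2
  · simp only [Fin.sum_univ_two, Fin.mk_one, Fin.isValue, h0, h1]
    linear_combination (-a 1) * h11 - (a 1 * e1 0 * e1 0 - a 0 * e1 0 * e1 1) * hε2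

/-- the vector of the coordinate `L` -/
noncomputable def dLv (R : Frame 2 2) (ψ θ : ℝ) : Ph 2 2 :=
  (0, Sum.elim (fun j => R.et θ j / Real.sin ψ) (fun _ => 0))

/-- the vector of the coordinate `K` -/
noncomputable def dKv (R : Frame 2 2) (ψ φ : ℝ) : Ph 2 2 :=
  (0, Sum.elim (fun _ => 0) (fun j => R.ft φ j / Real.cos ψ))

theorem canon (R : Frame 2 2) {ψ : ℝ} (hs : Real.sin ψ ≠ 0) (hc : Real.cos ψ ≠ 0)
    (θ φ p L K : ℝ) (ℓ : Ph 2 2 →L[ℝ] ℝ)
    (hS : ℓ ((R.Psi ψ θ φ p L K).1, -(R.Psi ψ θ φ p L K).2) = 0)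
    (hT : ℓ (0, (R.Psi ψ θ φ p L K).1) = 0)
    (hθ : ℓ (R.dPsi ψ θ φ p L K 0 1 0 0) = 0) (hφ : ℓ (R.dPsi ψ θ φ p L K 0 0 1 0) = 0) :
    ((fun i => ℓ (0, Pi.single i 1), fun i => -ℓ (Pi.single i 1, 0)) : Ph 2 2) =
      R.dPsi ψ θ φ p L K (ℓ (R.dPsi ψ θ φ p L K 0 0 0 1)) (ℓ (dLv R ψ θ)) (ℓ (dKv R ψ φ))
        (-ℓ (R.dPsi ψ θ φ p L K 1 0 0 0)) := by
  set a : Fin 2 → ℝ := fun j => ℓ (Pi.single (Sum.inl j) 1, 0) with ha
  set b : Fin 2 → ℝ := fun j => ℓ (Pi.single (Sum.inr j) 1, 0) with hb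
  set c : Fin 2 → ℝ := fun j => ℓ (0, Pi.single (Sum.inl j) 1) with hcdef
  set d : Fin 2 → ℝ := fun j => ℓ (0, Pi.single (Sum.inr j) 1) with hd
  have dec : ∀ v : Ph 2 2, ℓ v = ∑ j, v.1 (.inl j) * a j + ∑ j, v.1 (.inr j) * b j +
      (∑ j, v.2 (.inl j) * c j + ∑ j, v.2 (.inr j) * d j) := by
    intro v
    rw [clm_decomp ℓ v, Finset.sum_add_distrib, Fintype.sum_sum_type, Fintype.sum_sum_type]
  set Ar := ∑ j, a j * R.er θ j with hAr
  set At := ∑ j, a j * R.et θ j with hAt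
  set Br := ∑ j, b j * R.fr φ j with hBr
  set Bt := ∑ j, b j * R.ft φ j with hBt
  set Cr := ∑ j, c j * R.er θ j with hCr
  set Ct := ∑ j, c j * R.et θ j with hCt
  set Dr := ∑ j, d j * R.fr φ j with hDr
  set Dt := ∑ j, d j * R.ft φ j with hDt
  have ea : ∀ j, a j = Ar * R.er θ j + At * R.et θ j := fun j =>
    complete_two (R.sum_er_er θ) (R.sum_et_et θ) (R.sum_er_et θ) a j
  have ec : ∀ j, c j = Cr * R.er θ j + Ct * R.et θ j := fun j =>
    complete_two (R.sum_er_er θ) (R.sum_et_et θ) (R.sum_er_et θ) c j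
  have eb : ∀ j, b j = Br * R.fr φ j + Bt * R.ft φ j := fun j =>
    complete_two (R.sum_fr_fr φ) (R.sum_ft_ft φ) (R.sum_fr_ft φ) b j
  have ed : ∀ j, d j = Dr * R.fr φ j + Dt * R.ft φ j := fun j =>
    complete_two (R.sum_fr_fr φ) (R.sum_ft_ft φ) (R.sum_fr_ft φ) d j
  set s := Real.sin ψ with hsdef
  set k := Real.cos ψ with hkdef
  obtain ⟨si, hsi⟩ : ∃ si, s * si = 1 := ⟨s⁻¹, mul_inv_cancel₀ hs⟩
  obtain ⟨ki, hki⟩ : ∃ ki, k * ki = 1 := ⟨k⁻¹, mul_inv_cancel₀ hc⟩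
  have hsinv : s⁻¹ = si := by
    field_simp
    linarith
  have hkinv : k⁻¹ = ki := by
    field_simp
    linarith
  have h1 : s ^ 2 + k ^ 2 = 1 := Real.sin_sq_add_cos_sq ψ
  -- values of `ℓ` on the special vectors
  have vT : s * Cr + k * Dr = 0 := by
    rw [← hT, dec]
    simp only [Frame.Psi, Frame.X, Sum.elim_inl, Sum.elim_inr, Pi.zero_apply, zero_mul,
      Finset.sum_const_zero, zero_add, ← hsdef, ← hkdef]
    rw [hCr, hDr, Finset.mul_sum, Finset.mul_sum]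
    congr 1 <;> exact Finset.sum_congr rfl fun j _ => by ring
  have vS : s * Ar + k * Br - (p * k * Cr + L * si * Ct - p * s * Dr + K * ki * Dt) = 0 := by
    rw [← hS, dec]
    simp only [Frame.Psi, Frame.X, Frame.Pm, Sum.elim_inl, Sum.elim_inr, Pi.neg_apply,
      ← hsdef, ← hkdef, div_eq_mul_inv, hsinv, hkinv]
    simp only [hAr, hBr, hCr, hCt, hDr, hDt, Fin.sum_univ_two]
    ring
  have vθ : s * At - L * si * Cr + p * k * Ct = 0 := by
    rw [← hθ, dec]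
    simp only [Frame.dPsi, Sum.elim_inl, Sum.elim_inr,
      ← hsdef, ← hkdef, div_eq_mul_inv, hsinv, hkinv]
    simp only [hAt, hCr, hCt, Fin.sum_univ_two]
    ring
  have vφ : k * Bt - K * ki * Dr - p * s * Dt = 0 := by
    rw [← hφ, dec]
    simp only [Frame.dPsi, Sum.elim_inl, Sum.elim_inr,
      ← hsdef, ← hkdef, div_eq_mul_inv, hsinv, hkinv]
    simp only [hBt, hDr, hDt, Fin.sum_univ_two]
    ring
  have vp : ℓ (R.dPsi ψ θ φ p L K 0 0 0 1) = k * Cr - s * Dr := by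
    rw [dec]
    simp only [Frame.dPsi, Sum.elim_inl, Sum.elim_inr,
      ← hsdef, ← hkdef, div_eq_mul_inv, hsinv, hkinv]
    simp only [hCr, hDr, Fin.sum_univ_two]
    ring
  have vL : ℓ (dLv R ψ θ) = Ct * si := by
    rw [dec]
    simp only [dLv, Sum.elim_inl, Sum.elim_inr, Pi.zero_apply,
      ← hsdef, div_eq_mul_inv, hsinv]
    simp only [hCt, Fin.sum_univ_two]
    ring
  have vK : ℓ (dKv R ψ φ) = Dt * ki := by
    rw [dec]
    simp only [dKv, Sum.elim_inl, Sum.elim_inr, Pi.zero_apply,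
      ← hkdef, div_eq_mul_inv, hkinv]
    simp only [hDt, Fin.sum_univ_two]
    ring
  have vψ : ℓ (R.dPsi ψ θ φ p L K 1 0 0 0) = k * Ar - s * Br - p * s * Cr -
      L * k * si ^ 2 * Ct - p * k * Dr + K * s * ki ^ 2 * Dt := by
    rw [dec]
    have e1 : (s ^ 2)⁻¹ = si ^ 2 := by rw [← hsinv, inv_pow]
    have e2 : (k ^ 2)⁻¹ = ki ^ 2 := by rw [← hkinv, inv_pow]
    simp only [Frame.dPsi, Sum.elim_inl, Sum.elim_inr,
      ← hsdef, ← hkdef, div_eq_mul_inv, e1, e2]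
    simp only [hAr, hBr, hCr, hCt, hDr, hDt, Fin.sum_univ_two]
    ring
  have e1 : (s ^ 2)⁻¹ = si ^ 2 := by rw [← hsinv, inv_pow]
  have e2 : (k ^ 2)⁻¹ = ki ^ 2 := by rw [← hkinv, inv_pow]
  rw [vp, vL, vK, vψ]
  refine Prod.ext (funext ?_) (funext ?_) <;> rintro (j | j)
  · have : ℓ (0, Pi.single (Sum.inl j) 1) = Cr * R.er θ j + Ct * R.et θ j := ec j
    simp only [this, Frame.dPsi, Sum.elim_inl, ← hsdef, ← hkdef]
    linear_combination (-Cr * R.er θ j) * h1 + (s * R.er θ j) * vT - (Ct * R.et θ j) * hsi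
  · have : ℓ (0, Pi.single (Sum.inr j) 1) = Dr * R.fr φ j + Dt * R.ft φ j := ed j
    simp only [this, Frame.dPsi, Sum.elim_inr, ← hsdef, ← hkdef]
    linear_combination (-Dr * R.fr φ j) * h1 + (k * R.fr φ j) * vT - (Dt * R.ft φ j) * hki
  · have : ℓ (Pi.single (Sum.inl j) 1, 0) = Ar * R.er θ j + At * R.et θ j := ea j
    simp only [this, Frame.dPsi, Sum.elim_inl, ← hsdef, ← hkdef, div_eq_mul_inv, e1, hsinv]
    have E1 : -Ar = -(k * Ar - s * Br - p * s * Cr - L * k * si ^ 2 * Ct - p * k * Dr +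
        K * s * ki ^ 2 * Dt) * k - p * s * (k * Cr - s * Dr) - L * si * (Ct * si) := by
      linear_combination (-s) * vS - (p * k) * vT + (Ar - L * si ^ 2 * Ct) * h1 +
        (L * s * si * Ct) * hsi + (K * s * ki * Dt) * hki
    have E2 : -At = p * k * (Ct * si) - L * k * si ^ 2 * (k * Cr - s * Dr) := by
      linear_combination (-si) * vθ + At * hsi - (L * si ^ 2 * s) * vT + (L * si ^ 2 * Cr) * h1
    linear_combination (R.er θ j) * E1 + (R.et θ j) * E2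
  · have : ℓ (Pi.single (Sum.inr j) 1, 0) = Br * R.fr φ j + Bt * R.ft φ j := eb j
    simp only [this, Frame.dPsi, Sum.elim_inr, ← hsdef, ← hkdef, div_eq_mul_inv, e2, hkinv]
    have E3 : -Br = (k * Ar - s * Br - p * s * Cr - L * k * si ^ 2 * Ct - p * k * Dr +
        K * s * ki ^ 2 * Dt) * s - p * k * (k * Cr - s * Dr) - K * ki * (Dt * ki) := by
      linear_combination (-k) * vS + (p * s) * vT + (Br - K * ki ^ 2 * Dt) * h1 +
        (L * k * si * Ct) * hsi + (K * k * ki * Dt) * hki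
    have E4 : -Bt = -(p * s * (Dt * ki)) + K * s * ki ^ 2 * (k * Cr - s * Dr) := by
      linear_combination (-ki) * vφ + Bt * hki - (K * ki ^ 2 * k) * vT + (K * ki ^ 2 * Dr) * h1
    linear_combination (R.fr φ j) * E3 + (R.ft φ j) * E4

end Pool.Agent.TOA
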