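import Pool.Agent.TOS.Half2

set_option autoImplicit false

/-!
Torus invariant metrics on the three-sphere with resonant relative equilibria are round.
-/

namespace Pool.Agent.TOS

open Set Filter Topology

variable {L : ℝ} {a b c a1 b1 c1 a2 b2 c2 : ℝ → ℝ}

/-- reflection of one angle -/
theorem Data.refl (D : Data L a b c a1 b1 c1 a2 b2 c2) :
    Data L a (fun r => -b r) c a1 (fun r => -b1 r) c1 a2 (fun r => -b2 r) c2 where
  hL := D.hL
  da := D.da
  db := fun r hr => (D.db r hr).fun_neg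
  dc := D.dc
  da1 := D.da1
  db1 := fun r hr => (D.db1 r hr).fun_neg
  dc1 := D.dc1
  ca2 := D.ca2
  cb2 := D.cb2.fun_neg
  cc2 := D.cc2
  apos := D.apos
  det := fun r hr => by simpa using D.det r hr
  cz := D.cz
  az := D.az
  bB := by
    obtain ⟨B, hB⟩ := D.bB
    exact ⟨B, fun r hr => by simpa using hB r hr⟩
  aL := D.aL
  cL := D.cL

theorem Res.refl {m n m' n' : ℤ} (hR : Res L a b c a1 b1 c1 a2 b2 c2 m n m' n') :
    Res L a (fun r => -b r) c a1 (fun r => -b1 r) c1 a2 (fun r => -b2 r) c2 (-m) n (-m') n' := by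
  intro t r hr h0
  obtain ⟨⟨M, hM⟩, ⟨M', hM'⟩⟩ := hR (-t) r hr (by
    have : a1 r * (-t) ^ 2 + 2 * b1 r * (-t) + c1 r = a1 r * t ^ 2 + 2 * (-b1 r) * t + c1 r := by
      ring
    rw [this]
    exact h0)
  refine ⟨⟨M, ?_⟩, ⟨M', ?_⟩⟩
  · push_cast
    linear_combination hM
  · push_cast
    linear_combination hM'

/-- neither infimum is attained -/
theorem strict {β γ x y z : ℝ} (hβ : 0 < β) (hγ : 0 < γ) (hx : β ^ 2 ≤ x) (hz : γ ^ 2 ≤ z)
    (h1 : ∀ t > 0, (β * t + γ) ^ 2 ≤ x * t ^ 2 + 2 * y * t + z)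
    (h2 : ∀ t > 0, (β * t + γ) ^ 2 ≤ x * t ^ 2 + 2 * (-y) * t + z) :
    β ^ 2 < x ∧ γ ^ 2 < z := by
  have hβγ : 0 < β * γ := mul_pos hβ hγ
  constructor
  · refine lt_of_le_of_ne hx ?_
    intro h
    have k1 : 2 * (β * γ) ≤ 2 * y := by
      apply le_of_forall_quad (p := γ ^ 2) (q := 0) (s := z)
      intro u hu
      have h3 := h1 (1 / u) (by positivity)
      rw [← h] at h3
      have h4 : u * (β * (1 / u) + γ) ^ 2 = β ^ 2 * (1 / u) + 2 * (β * γ) + γ ^ 2 * u := by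
        field_simp
        ring
      have h5 : u * (β ^ 2 * (1 / u) ^ 2 + 2 * y * (1 / u) + z) =
          β ^ 2 * (1 / u) + 2 * y + z * u := by
        field_simp
      have h6 := mul_le_mul_of_nonneg_left h3 hu.le
      rw [h4, h5] at h6
      linarith
    have k2 : 2 * (β * γ) ≤ -(2 * y) := by
      apply le_of_forall_quad (p := γ ^ 2) (q := 0) (s := z)
      intro u hu
      have h3 := h2 (1 / u) (by positivity)
      rw [← h] at h3
      have h4 : u * (β * (1 / u) + γ) ^ 2 = β ^ 2 * (1 / u) + 2 * (β * γ) + γ ^ 2 * u := by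
        field_simp
        ring
      have h5 : u * (β ^ 2 * (1 / u) ^ 2 + 2 * (-y) * (1 / u) + z) =
          β ^ 2 * (1 / u) + -(2 * y) + z * u := by
        field_simp
      have h6 := mul_le_mul_of_nonneg_left h3 hu.le
      rw [h4, h5] at h6
      linarith
    linarith
  · refine lt_of_le_of_ne hz ?_
    intro h
    have k1 : 2 * (β * γ) ≤ 2 * y := by
      apply le_of_forall_quad (p := β ^ 2) (q := 0) (s := x)
      intro u hu
      have h3 := h1 u hu
      rw [← h] at h3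
      have h6 : u * (2 * (β * γ) + β ^ 2 * u) ≤ u * (2 * y + x * u) := by nlinarith
      have := le_of_mul_le_mul_left h6 hu
      linarith
    have k2 : 2 * (β * γ) ≤ -(2 * y) := by
      apply le_of_forall_quad (p := β ^ 2) (q := 0) (s := x)
      intro u hu
      have h3 := h2 u hu
      rw [← h] at h3
      have h6 : u * (2 * (β * γ) + β ^ 2 * u) ≤ u * (-(2 * y) + x * u) := by nlinarith
      have := le_of_mul_le_mul_left h6 hu
      linarith
    linarith

/-- every radius is critical for some positive slope -/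
theorem touch (D : Data L a b c a1 b1 c1 a2 b2 c2) {β γ κ : ℝ}
    (hsa : ∀ r ∈ Ioo 0 L, β ^ 2 < a r) (hsc : ∀ r ∈ Ioo 0 L, γ ^ 2 < c r)
    (H : ∀ t > 0, ∃ r0 ∈ Ioo 0 L, a1 r0 * t ^ 2 + 2 * b1 r0 * t + c1 r0 = 0 ∧
        (∀ r ∈ Ioo 0 L, r < r0 → a1 r * t ^ 2 + 2 * b1 r * t + c1 r < 0) ∧
        (∀ r ∈ Ioo 0 L, r0 < r → 0 < a1 r * t ^ 2 + 2 * b1 r * t + c1 r) ∧
        (∀ r ∈ Ioo 0 L, (β * t + γ) ^ 2 ≤ a r * t ^ 2 + 2 * b r * t + c r) ∧
        a r0 * t ^ 2 + 2 * b r0 * t + c r0 = (β * t + γ) ^ 2 ∧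
        (a2 r0 * t ^ 2 + 2 * b2 r0 * t + c2 r0) / 2 = κ ^ 2 * (β * t + γ) ^ 2)
    {r : ℝ} (hr : r ∈ Ioo 0 L) :
    ∃ t > 0, a1 r * t ^ 2 + 2 * b1 r * t + c1 r = 0 ∧
      a r * t ^ 2 + 2 * b r * t + c r = (β * t + γ) ^ 2 ∧
      (a2 r * t ^ 2 + 2 * b2 r * t + c2 r) / 2 = κ ^ 2 * (β * t + γ) ^ 2 := by
  obtain ⟨B, hB⟩ := D.bB
  -- small slopes
  have hA : ∃ t > 0, a1 r * t ^ 2 + 2 * b1 r * t + c1 r < 0 := by
    by_contra hcon
    push Not at hcon
    have hsub : Ioo 0 r ⊆ Ioo 0 L := fun x hx => ⟨hx.1, hx.2.trans hr.2⟩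
    obtain ⟨K', hK', hK''⟩ := inf_gt (f := c) (K := γ ^ 2) hr.1 (D.c_cont.mono hsub)
      (fun x hx => hsc x (hsub hx)) ⟨γ ^ 2 + 1, by linarith, D.c_top.eventually_ge_atTop _⟩
      ⟨(γ ^ 2 + c r) / 2, by have := hsc r hr; linarith, by
        have h1 : Tendsto c (𝓝[<] r) (𝓝 (c r)) :=
          (D.dc r hr).continuousAt.tendsto.mono_left nhdsWithin_le_nhds
        exact (h1.eventually (lt_mem_nhds (show (γ ^ 2 + c r) / 2 < c r by
          have := hsc r hr; linarith))).mono fun _ h => h.le⟩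
    have hle : min K' (c r) ≤ γ ^ 2 := by
      apply le_of_forall_quad (p := -(2 * B)) (q := -β ^ 2) (s := 2 * β * γ)
      intro t ht
      obtain ⟨r0, hr0, hz, hneg, hpos, hlow, hval, -⟩ := H t ht
      have hle0 : r0 ≤ r := by
        by_contra h
        have := hneg r hr (not_le.mp h)
        have := hcon t ht
        linarith
      have hc0 : min K' (c r) ≤ c r0 := by
        rcases hle0.eq_or_lt with h | h
        · rw [h]; exact min_le_right _ _
        · exact le_trans (min_le_left _ _) (hK'' r0 ⟨hr0.1, h⟩)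
      have h3 := hB _ hr0
      have h4 := D.apos _ hr0
      have h7 : -B ≤ b r0 := (abs_le.mp h3).1
      have h8 : -(B * t) ≤ b r0 * t := by nlinarith
      have h9 : 0 ≤ a r0 * t ^ 2 := by positivity
      nlinarith
    have h1 : γ ^ 2 < min K' (c r) := lt_min hK' (hsc r hr)
    linarith
  have hB' : ∃ t > 0, 0 < a1 r * t ^ 2 + 2 * b1 r * t + c1 r := by
    by_contra hcon
    push Not at hcon
    have hsub : Ioo r L ⊆ Ioo 0 L := fun x hx => ⟨hr.1.trans hx.1, hx.2⟩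
    obtain ⟨K', hK', hK''⟩ := inf_gt (f := a) (K := β ^ 2) hr.2 (D.a_cont.mono hsub)
      (fun x hx => hsa x (hsub hx)) ⟨(β ^ 2 + a r) / 2, by have := hsa r hr; linarith, by
        have h1 : Tendsto a (𝓝[>] r) (𝓝 (a r)) :=
          (D.da r hr).continuousAt.tendsto.mono_left nhdsWithin_le_nhds
        exact (h1.eventually (lt_mem_nhds (show (β ^ 2 + a r) / 2 < a r by
          have := hsa r hr; linarith))).mono fun _ h => h.le⟩
      ⟨β ^ 2 + 1, by linarith, D.a_top.eventually_ge_atTop _⟩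
    have hle : min K' (a r) ≤ β ^ 2 := by
      apply le_of_forall_quad (p := -(2 * B)) (q := -γ ^ 2) (s := 2 * β * γ)
      intro u hu
      have hu' : (0 : ℝ) < 1 / u := by positivity
      obtain ⟨r0, hr0, hz, hneg, hpos, hlow, hval, -⟩ := H (1 / u) hu'
      have hle0 : r ≤ r0 := by
        by_contra h
        have := hpos r hr (not_le.mp h)
        have := hcon (1 / u) hu'
        linarith
      have hc0 : min K' (a r) ≤ a r0 := by
        rcases hle0.eq_or_lt with h | h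
        · rw [← h]; exact min_le_right _ _
        · exact le_trans (min_le_left _ _) (hK'' r0 ⟨h, hr0.2⟩)
      have h3 := hB _ hr0
      have h4 := D.cpos hr0
      have h5 : u ^ 2 * (a r0 * (1 / u) ^ 2 + 2 * b r0 * (1 / u) + c r0)
          = a r0 + 2 * b r0 * u + c r0 * u ^ 2 := by field_simp
      have h6 : u ^ 2 * (β * (1 / u) + γ) ^ 2 = (β + γ * u) ^ 2 := by field_simp
      rw [hval, h6] at h5
      have h7 : -B ≤ b r0 := (abs_le.mp h3).1
      have h8 : -(B * u) ≤ b r0 * u := by nlinarith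
      have h9 : 0 ≤ c r0 * u ^ 2 := by positivity
      nlinarith
    have h1 : β ^ 2 < min K' (a r) := lt_min hK' (hsa r hr)
    linarith
  obtain ⟨ta, hta, hta'⟩ := hA
  obtain ⟨tb, htb, htb'⟩ := hB'
  have hcont : ContinuousOn (fun t : ℝ => a1 r * t ^ 2 + 2 * b1 r * t + c1 r) (Ioi 0) := by
    fun_prop
  obtain ⟨t, ht, ht0⟩ := isPreconnected_Ioi.intermediate_value (s := Ioi (0 : ℝ)) hta htb hcont
    (⟨hta'.le, htb'.le⟩ : (0 : ℝ) ∈ Icc _ _)
  have ht' : 0 < t := ht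
  obtain ⟨r0, hr0, hz, hneg, hpos, hlow, hval, hσ⟩ := H t ht'
  have hrr : r = r0 := by
    rcases lt_trichotomy r r0 with h | h | h
    · have := hneg r hr h
      simp only at ht0
      linarith
    · exact h
    · have := hpos r hr h
      simp only at ht0
      linarith
  rw [hrr]
  exact ⟨t, ht', hz, hval, hσ⟩

theorem quad_touch {A B C t : ℝ} (hA : 0 < A) (hC : 0 < C) (ht : 0 < t)
    (h : ∀ s > 0, 0 ≤ A * s ^ 2 + 2 * B * s + C) (h0 : A * t ^ 2 + 2 * B * t + C = 0) :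
    A * t + B = 0 ∧ B ^ 2 = A * C := by
  have hB : B < 0 := by
    by_contra hcon
    have : 0 ≤ B := not_lt.mp hcon
    have h1 : 0 ≤ 2 * B * t := by positivity
    have h2 : 0 < A * t ^ 2 := by positivity
    linarith
  have hv : 0 < -B / A := div_pos (by linarith) hA
  have h1 := h _ hv
  have h2 : A * (A * (-B / A) ^ 2 + 2 * B * (-B / A) + C) = A * C - B ^ 2 := by
    field_simp
    ring
  have h3 : 0 ≤ A * C - B ^ 2 := by
    rw [← h2]
    exact mul_nonneg hA.le h1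
  have h4 : (A * t + B) ^ 2 + (A * C - B ^ 2) = 0 := by
    have : (A * t + B) ^ 2 + (A * C - B ^ 2) = A * (A * t ^ 2 + 2 * B * t + C) := by ring
    rw [this, h0, mul_zero]
  have h5 : (A * t + B) ^ 2 = 0 := by nlinarith [sq_nonneg (A * t + B)]
  exact ⟨pow_eq_zero_iff two_ne_zero |>.mp h5, by linarith⟩

/-- the algebraic conclusion -/
theorem algebra (D : Data L a b c a1 b1 c1 a2 b2 c2) {m n m' n' : ℤ}
    (hR : Res L a b c a1 b1 c1 a2 b2 c2 m n m' n') (hdet : m * n' - m' * n ≠ 0) :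
    ∃ β γ κ : ℝ, 0 < β ∧ 0 < γ ∧ 0 < κ ∧ ∀ r ∈ Ioo 0 L, β ^ 2 < a r ∧ b r = 0 ∧
      (a r - β ^ 2) * (c r - γ ^ 2) = β ^ 2 * γ ^ 2 ∧
      (a2 r * (β * γ / (a r - β ^ 2)) ^ 2 + 2 * b2 r * (β * γ / (a r - β ^ 2)) + c2 r) / 2 =
        κ ^ 2 * (β * (β * γ / (a r - β ^ 2)) + γ) ^ 2 := by
  obtain ⟨β, γ, κ, hβ, hγ, hκ, hGa, hGc, H⟩ := half D hR hdet
  obtain ⟨β', γ', κ', hβ', hγ', hκ', hGa', hGc', H'⟩ := half D.refl hR.refl (by
    intro h
    apply hdet
    linarith)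
  have eβ : β' = β := by
    have h1 : β' ^ 2 = β ^ 2 := hGa'.unique hGa
    exact (sq_eq_sq₀ hβ'.le hβ.le).mp h1
  have eγ : γ' = γ := by
    have h1 : γ' ^ 2 = γ ^ 2 := hGc'.unique hGc
    exact (sq_eq_sq₀ hγ'.le hγ.le).mp h1
  subst eβ
  subst eγ
  have low1 : ∀ r ∈ Ioo 0 L, ∀ t > 0, (β' * t + γ') ^ 2 ≤ a r * t ^ 2 + 2 * b r * t + c r := by
    intro r hr t ht
    obtain ⟨r0, _, _, _, _, h, _⟩ := H t ht
    exact h r hr
  have low2 : ∀ r ∈ Ioo 0 L, ∀ t > 0, (β' * t + γ') ^ 2 ≤ a r * t ^ 2 + 2 * (-b r) * t + c r := by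
    intro r hr t ht
    obtain ⟨r0, _, _, _, _, h, _⟩ := H' t ht
    exact h r hr
  have hst : ∀ r ∈ Ioo 0 L, β' ^ 2 < a r ∧ γ' ^ 2 < c r := fun r hr =>
    strict hβ hγ (hGa.1 (mem_image_of_mem a hr)) (hGc.1 (mem_image_of_mem c hr)) (low1 r hr)
      (low2 r hr)
  refine ⟨β', γ', κ, hβ, hγ, hκ, ?_⟩
  intro r hr
  obtain ⟨sa, sc⟩ := hst r hr
  obtain ⟨t, ht, hz, hv, hσ⟩ := touch D (fun r hr => (hst r hr).1) (fun r hr => (hst r hr).2) H hr
  obtain ⟨t', ht', hz', hv', hσ'⟩ := touch D.refl (fun r hr => (hst r hr).1)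
    (fun r hr => (hst r hr).2) H' hr
  have q1 := quad_touch (A := a r - β' ^ 2) (B := b r - β' * γ') (C := c r - γ' ^ 2) (t := t)
    (by linarith) (by linarith) ht
    (fun s hs => by have := low1 r hr s hs; nlinarith) (by nlinarith)
  have q2 := quad_touch (A := a r - β' ^ 2) (B := -b r - β' * γ') (C := c r - γ' ^ 2) (t := t')
    (by linarith) (by linarith) ht'
    (fun s hs => by have := low2 r hr s hs; nlinarith) (by nlinarith)
  have hβγ : 0 < β' * γ' := mul_pos hβ hγ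
  have hb : b r = 0 := by
    have h1 := q1.2
    have h2 := q2.2
    have h3 : b r * (β' * γ') = 0 := by nlinarith
    exact (mul_eq_zero.mp h3).resolve_right hβγ.ne'
  have hA : 0 < a r - β' ^ 2 := by linarith
  refine ⟨sa, hb, ?_, ?_⟩
  · have h1 := q1.2
    rw [hb] at h1
    nlinarith
  · have h1 := q1.1
    rw [hb] at h1
    have h2 : t = β' * γ' / (a r - β' ^ 2) := by
      rw [eq_div_iff hA.ne']
      linarith
    rw [← h2]
    exact hσ

end Pool.Agent.TOS
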