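import Mathlib

set_option autoImplicit false

/-!
One-dimensional potentials all of whose critical points are nondegenerate minima.
-/

namespace Pool.Agent.TOS

open Set Filter Topology

theorem sign_local {g : ℝ → ℝ} {x d : ℝ} (h : HasDerivAt g d x) (h0 : g x = 0) (h1 : 0 < d) :
    (∀ᶠ y in 𝓝[>] x, 0 < g y) ∧ (∀ᶠ y in 𝓝[<] x, g y < 0) := by
  have key := eventually_nhdsWithin_sign_eq_of_deriv_pos (f := g) (x₀ := x)
    (by rw [h.deriv]; exact h1) h0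
  constructor
  · filter_upwards [nhdsWithin_le_nhds key, self_mem_nhdsWithin] with y hy hy'
    have hy2 : x < y := hy'
    rw [sign_pos (sub_pos.mpr hy2)] at hy
    exact sign_eq_one_iff.mp hy
  · filter_upwards [nhdsWithin_le_nhds key, self_mem_nhdsWithin] with y hy hy'
    have hy2 : y < x := hy'
    rw [sign_neg (sub_neg.mpr hy2)] at hy
    exact sign_eq_neg_one_iff.mp hy

theorem incr_right {f f1 : ℝ → ℝ} {A B x : ℝ} (hx : x ∈ Ioo A B)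
    (hf : ∀ r ∈ Ioo A B, HasDerivAt f (f1 r) r) (hpos : ∀ᶠ y in 𝓝[>] x, 0 < f1 y) :
    ∀ᶠ y in 𝓝[>] x, f x < f y := by
  obtain ⟨u, hu, hsub⟩ := mem_nhdsGT_iff_exists_Ioo_subset.mp hpos
  have hu' : x < u := hu
  have hI : Ioo x (min u B) ∈ 𝓝[>] x := Ioo_mem_nhdsGT (lt_min hu' hx.2)
  filter_upwards [hI] with y hy
  have hyu : y < u := lt_of_lt_of_le hy.2 (min_le_left _ _)
  have hyB : y < B := lt_of_lt_of_le hy.2 (min_le_right _ _)
  have hmono : StrictMonoOn f (Icc x y) := by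
    apply strictMonoOn_of_deriv_pos (convex_Icc x y)
    · intro z hz
      exact (hf z ⟨lt_of_lt_of_le hx.1 hz.1, lt_of_le_of_lt hz.2 hyB⟩).continuousAt.continuousWithinAt
    · intro z hz
      rw [interior_Icc] at hz
      rw [(hf z ⟨lt_trans hx.1 hz.1, lt_trans hz.2 hyB⟩).deriv]
      exact hsub ⟨hz.1, lt_trans hz.2 hyu⟩
  exact hmono (left_mem_Icc.mpr hy.1.le) (right_mem_Icc.mpr hy.1.le) hy.1

theorem decr_left {f f1 : ℝ → ℝ} {A B x : ℝ} (hx : x ∈ Ioo A B)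
    (hf : ∀ r ∈ Ioo A B, HasDerivAt f (f1 r) r) (hneg : ∀ᶠ y in 𝓝[<] x, f1 y < 0) :
    ∀ᶠ y in 𝓝[<] x, f x < f y := by
  obtain ⟨u, hu, hsub⟩ := mem_nhdsLT_iff_exists_Ioo_subset.mp hneg
  have hu' : u < x := hu
  have hI : Ioo (max u A) x ∈ 𝓝[<] x := Ioo_mem_nhdsLT (max_lt hu' hx.1)
  filter_upwards [hI] with y hy
  have hyu : u < y := lt_of_le_of_lt (le_max_left _ _) hy.1
  have hyA : A < y := lt_of_le_of_lt (le_max_right _ _) hy.1
  have hmono : StrictAntiOn f (Icc y x) := by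
    apply strictAntiOn_of_deriv_neg (convex_Icc y x)
    · intro z hz
      exact (hf z ⟨lt_of_lt_of_le hyA hz.1, lt_of_le_of_lt hz.2 hx.2⟩).continuousAt.continuousWithinAt
    · intro z hz
      rw [interior_Icc] at hz
      rw [(hf z ⟨lt_trans hyA hz.1, lt_trans hz.2 hx.2⟩).deriv]
      exact hsub ⟨lt_trans hyu hz.1, hz.2⟩
  exact hmono (left_mem_Icc.mpr hy.2.le) (right_mem_Icc.mpr hy.2.le) hy.2

/-- two nondegenerate minima enclose another critical point: impossible. -/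
theorem zero_unique {f f1 f2 : ℝ → ℝ} {A B : ℝ}
    (hf : ∀ r ∈ Ioo A B, HasDerivAt f (f1 r) r)
    (hf1 : ∀ r ∈ Ioo A B, HasDerivAt f1 (f2 r) r)
    (hpos : ∀ r ∈ Ioo A B, f1 r = 0 → 0 < f2 r)
    {r1 r2 : ℝ} (h1 : r1 ∈ Ioo A B) (h2 : r2 ∈ Ioo A B) (h12 : r1 < r2)
    (z1 : f1 r1 = 0) (z2 : f1 r2 = 0) : False := by
  have hsub : Icc r1 r2 ⊆ Ioo A B := fun z hz =>
    ⟨lt_of_lt_of_le h1.1 hz.1, lt_of_le_of_lt hz.2 h2.2⟩
  have hcont : ContinuousOn f (Icc r1 r2) := fun z hz =>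
    (hf z (hsub hz)).continuousAt.continuousWithinAt
  obtain ⟨r3, hr3, hmax⟩ := isCompact_Icc.exists_isMaxOn (nonempty_Icc.mpr h12.le) hcont
  have R : ∀ x ∈ Ioo A B, f1 x = 0 → ∀ᶠ y in 𝓝[>] x, f x < f y := fun x hx hz =>
    incr_right hx hf (sign_local (hf1 x hx) hz (hpos x hx hz)).1
  have Lf : ∀ x ∈ Ioo A B, f1 x = 0 → ∀ᶠ y in 𝓝[<] x, f x < f y := fun x hx hz =>
    decr_left hx hf (sign_local (hf1 x hx) hz (hpos x hx hz)).2
  have n1 : r3 ≠ r1 := by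
    rintro rfl
    have e1 := R r3 h1 z1
    have e2 : ∀ᶠ y in 𝓝[>] r3, y ∈ Ioo r3 r2 := Ioo_mem_nhdsGT h12
    obtain ⟨y, hy, hy'⟩ := (e1.and e2).exists
    have := hmax (⟨hy'.1.le, hy'.2.le⟩ : y ∈ Icc r3 r2)
    simp only [mem_setOf_eq] at this
    linarith
  have n2 : r3 ≠ r2 := by
    rintro rfl
    have e1 := Lf r3 h2 z2
    have e2 : ∀ᶠ y in 𝓝[<] r3, y ∈ Ioo r1 r3 := Ioo_mem_nhdsLT h12
    obtain ⟨y, hy, hy'⟩ := (e1.and e2).exists
    have := hmax (⟨hy'.1.le, hy'.2.le⟩ : y ∈ Icc r1 r3)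
    simp only [mem_setOf_eq] at this
    linarith
  have l1 : r1 < r3 := lt_of_le_of_ne hr3.1 (Ne.symm n1)
  have l2 : r3 < r2 := lt_of_le_of_ne hr3.2 n2
  have hr3' : r3 ∈ Ioo A B := hsub hr3
  have hloc : IsLocalMax f r3 := hmax.isLocalMax (Icc_mem_nhds l1 l2)
  have z3 : f1 r3 = 0 := hloc.hasDerivAt_eq_zero (hf r3 hr3')
  have e1 := R r3 hr3' z3
  have e2 : ∀ᶠ y in 𝓝[>] r3, y ∈ Ioo r3 r2 := Ioo_mem_nhdsGT l2
  obtain ⟨y, hy, hy'⟩ := (e1.and e2).exists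
  have := hmax (⟨(lt_trans l1 hy'.1).le, hy'.2.le⟩ : y ∈ Icc r1 r2)
  simp only [mem_setOf_eq] at this
  linarith

/-- The unique critical point of a proper potential whose critical points are nondegenerate
minima. -/
theorem exists_crit {f f1 f2 : ℝ → ℝ} {A B : ℝ} (hAB : A < B)
    (hf : ∀ r ∈ Ioo A B, HasDerivAt f (f1 r) r)
    (hf1 : ∀ r ∈ Ioo A B, HasDerivAt f1 (f2 r) r)
    (hpos : ∀ r ∈ Ioo A B, f1 r = 0 → 0 < f2 r)
    (hA : Tendsto f (𝓝[>] A) atTop) (hB : Tendsto f (𝓝[<] B) atTop) :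
    ∃ r0 ∈ Ioo A B, f1 r0 = 0 ∧ (∀ r ∈ Ioo A B, r < r0 → f1 r < 0) ∧
      (∀ r ∈ Ioo A B, r0 < r → 0 < f1 r) ∧ ∀ r ∈ Ioo A B, f r0 ≤ f r := by
  set m := (A + B) / 2 with hm
  have hmI : m ∈ Ioo A B := ⟨by rw [hm]; linarith, by rw [hm]; linarith⟩
  obtain ⟨u, hu, hus⟩ := mem_nhdsGT_iff_exists_Ioo_subset.mp
    ((hA.eventually_gt_atTop (f m)).and (Ioo_mem_nhdsGT hmI.1 : Ioo A m ∈ 𝓝[>] A))
  obtain ⟨v, hv, hvs⟩ := mem_nhdsLT_iff_exists_Ioo_subset.mp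
    ((hB.eventually_gt_atTop (f m)).and (Ioo_mem_nhdsLT hmI.2 : Ioo m B ∈ 𝓝[<] B))
  have hu' : A < u := hu
  have hv' : v < B := hv
  -- choose compact interval
  set p := (A + min u m) / 2 with hp
  set q := (B + max v m) / 2 with hq
  have hum : A < min u m := lt_min hu' hmI.1
  have hvm : max v m < B := max_lt hv' hmI.2
  have p1 : A < p := by rw [hp]; linarith
  have p2 : p < min u m := by rw [hp]; linarith
  have q1 : q < B := by rw [hq]; linarith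
  have q2 : max v m < q := by rw [hq]; linarith
  have hpm : p < m := lt_of_lt_of_le p2 (min_le_right _ _)
  have hmq : m < q := lt_of_le_of_lt (le_max_right _ _) q2
  have hsub : Icc p q ⊆ Ioo A B := fun z hz => ⟨lt_of_lt_of_le p1 hz.1, lt_of_le_of_lt hz.2 q1⟩
  have hcont : ContinuousOn f (Icc p q) := fun z hz =>
    (hf z (hsub hz)).continuousAt.continuousWithinAt
  obtain ⟨r0, hr0, hmin⟩ := isCompact_Icc.exists_isMinOn (nonempty_Icc.mpr (hpm.trans hmq).le) hcont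
  have hr0m : f r0 ≤ f m := by
    have := hmin (⟨hpm.le, hmq.le⟩ : m ∈ Icc p q)
    simpa using this
  have hglob : ∀ r ∈ Ioo A B, f r0 ≤ f r := by
    intro r hr
    by_cases h1 : r < p
    · have : r ∈ Ioo A u := ⟨hr.1, lt_trans h1 (lt_of_lt_of_le p2 (min_le_left _ _))⟩
      exact le_trans hr0m (hus this).1.le
    · by_cases h2 : q < r
      · have : r ∈ Ioo v B := ⟨lt_trans (lt_of_le_of_lt (le_max_left _ _) q2) h2, hr.2⟩
        exact le_trans hr0m (hvs this).1.le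
      · have := hmin (⟨not_lt.mp h1, not_lt.mp h2⟩ : r ∈ Icc p q)
        simpa using this
  have hr0' : r0 ∈ Ioo A B := hsub hr0
  have hloc : IsLocalMin f r0 := by
    filter_upwards [Ioo_mem_nhds hr0'.1 hr0'.2] with y hy
    exact hglob y hy
  have z0 : f1 r0 = 0 := hloc.hasDerivAt_eq_zero (hf r0 hr0')
  have hs := sign_local (hf1 r0 hr0') z0 (hpos r0 hr0' z0)
  have huniq : ∀ r ∈ Ioo A B, f1 r = 0 → r = r0 := by
    intro r hr hz
    rcases lt_trichotomy r r0 with h | h | h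
    · exact (zero_unique hf hf1 hpos hr hr0' h hz z0).elim
    · exact h
    · exact (zero_unique hf hf1 hpos hr0' hr h z0 hz).elim
  have hc1 : ∀ r ∈ Ioo A B, ContinuousAt f1 r := fun r hr => (hf1 r hr).continuousAt
  refine ⟨r0, hr0', z0, ?_, ?_, hglob⟩
  · intro r hr hrr
    by_contra hcon
    have hne : f1 r ≠ 0 := fun h => absurd (huniq r hr h) hrr.ne
    have hp' : 0 < f1 r := lt_of_le_of_ne (not_lt.mp hcon) (Ne.symm hne)
    obtain ⟨y, hy, hy'⟩ := (hs.2.and (Ioo_mem_nhdsLT hrr : Ioo r r0 ∈ 𝓝[<] r0)).exists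
    have hcI : ContinuousOn f1 (Icc r y) := fun z hz =>
      (hc1 z ⟨lt_of_lt_of_le hr.1 hz.1, lt_trans (lt_of_le_of_lt hz.2 hy'.2) hr0'.2⟩).continuousWithinAt
    obtain ⟨w, hw, hw0⟩ := intermediate_value_Icc' hy'.1.le hcI (⟨hy.le, hp'.le⟩ : (0 : ℝ) ∈ Icc (f1 y) (f1 r))
    have hwI : w ∈ Ioo A B := ⟨lt_of_lt_of_le hr.1 hw.1, lt_trans (lt_of_le_of_lt hw.2 hy'.2) hr0'.2⟩
    have := huniq w hwI hw0
    have h3 : w < r0 := lt_of_le_of_lt hw.2 hy'.2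
    linarith
  · intro r hr hrr
    by_contra hcon
    have hne : f1 r ≠ 0 := fun h => absurd (huniq r hr h) hrr.ne'
    have hp' : f1 r < 0 := lt_of_le_of_ne (not_lt.mp hcon) hne
    obtain ⟨y, hy, hy'⟩ := (hs.1.and (Ioo_mem_nhdsGT hrr : Ioo r0 r ∈ 𝓝[>] r0)).exists
    have hcI : ContinuousOn f1 (Icc y r) := fun z hz =>
      (hc1 z ⟨lt_trans hr0'.1 (lt_of_lt_of_le hy'.1 hz.1), lt_of_le_of_lt hz.2 hr.2⟩).continuousWithinAt
    obtain ⟨w, hw, hw0⟩ := intermediate_value_Icc' hy'.2.le hcI (⟨hp'.le, hy.le⟩ : (0 : ℝ) ∈ Icc (f1 r) (f1 y))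
    have hwI : w ∈ Ioo A B := ⟨lt_trans hr0'.1 (lt_of_lt_of_le hy'.1 hw.1), lt_of_le_of_lt hw.2 hr.2⟩
    have := huniq w hwI hw0
    have h3 : r0 < w := lt_of_lt_of_le hy'.1 hw.1
    linarith

end Pool.Agent.TOS
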