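import Mathlib

set_option autoImplicit false

/-!
Torus invariant metrics on the three-sphere, their geodesic flow, polynomial integrals.
-/

namespace Pool.Agent.TOS

open Set Filter Topology

/-- The metric `g = dr² + G₁₁ dφ² + 2 G₁₂ dφ dθ + G₂₂ dθ²` on `(0,L) × T²` (coordinates
`r, φ, θ`, the angles modulo `2π`), with coefficients depending on `r` only, closing up to the
three-sphere: the circle of `θ` shrinks to a point for `r → 0` and the circle of `φ` for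
`r → L`. -/
structure ToricMetric (L : ℝ) (G₁₁ G₁₂ G₂₂ : ℝ → ℝ) : Prop where
  hL : 0 < L
  smooth₁₁ : ContDiffOn ℝ 2 G₁₁ (Ioo 0 L)
  smooth₁₂ : ContDiffOn ℝ 2 G₁₂ (Ioo 0 L)
  smooth₂₂ : ContDiffOn ℝ 2 G₂₂ (Ioo 0 L)
  pos : ∀ r ∈ Ioo 0 L, 0 < G₁₁ r
  det : ∀ r ∈ Ioo 0 L, 0 < G₁₁ r * G₂₂ r - G₁₂ r ^ 2
  zero₂₂ : Tendsto (fun r => G₂₂ r / r ^ 2) (𝓝[>] 0) (𝓝 1)
  zero₁₁ : ∃ g > 0, Tendsto G₁₁ (𝓝[>] 0) (𝓝 g)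
  zero₁₂ : ∃ B, ∀ᶠ r in 𝓝[>] 0, |G₁₂ r| ≤ B * r ^ 2
  end₁₁ : Tendsto (fun r => G₁₁ r / (L - r) ^ 2) (𝓝[<] L) (𝓝 1)
  end₂₂ : ∃ g > 0, Tendsto G₂₂ (𝓝[<] L) (𝓝 g)
  end₁₂ : ∃ B, ∀ᶠ r in 𝓝[<] L, |G₁₂ r| ≤ B * (L - r) ^ 2

/-- The Hamiltonian of the geodesic flow, half the square of the dual norm of the covector
`(ρ, p, q)` at `(r, φ, θ)`. -/
noncomputable def ham (G₁₁ G₁₂ G₂₂ : ℝ → ℝ) (r _φ _θ ρ p q : ℝ) : ℝ :=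
  (ρ ^ 2 + (G₂₂ r * p ^ 2 - 2 * G₁₂ r * p * q + G₁₁ r * q ^ 2) /
    (G₁₁ r * G₂₂ r - G₁₂ r ^ 2)) / 2

/-- `F` is polynomial in the momenta `ρ, p, q` over `(0,L) × T²`, with coefficients of class
`C¹`. -/
def PolyInMomenta (L : ℝ) (F : ℝ → ℝ → ℝ → ℝ → ℝ → ℝ → ℝ) : Prop :=
  ∃ (N : ℕ) (K : Fin N → Fin N → Fin N → ℝ × ℝ × ℝ → ℝ),
    (∀ i j k, ContDiffOn ℝ 1 (K i j k) (Ioo 0 L ×ˢ univ)) ∧
    (∀ i j k r φ θ, K i j k (r, φ + 2 * Real.pi, θ) = K i j k (r, φ, θ)) ∧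
    (∀ i j k r φ θ, K i j k (r, φ, θ + 2 * Real.pi) = K i j k (r, φ, θ)) ∧
    ∀ r ∈ Ioo 0 L, ∀ φ θ ρ p q : ℝ,
      F r φ θ ρ p q = ∑ i, ∑ j, ∑ k, K i j k (r, φ, θ) * ρ ^ (i : ℕ) * p ^ (j : ℕ) * q ^ (k : ℕ)

/-- The differential of `F` in the coordinates `r, φ, θ, ρ, p, q`. -/
noncomputable def grad (F : ℝ → ℝ → ℝ → ℝ → ℝ → ℝ → ℝ) (r φ θ ρ p q : ℝ) : Fin 6 → ℝ :=
  ![deriv (fun x => F x φ θ ρ p q) r, deriv (fun x => F r x θ ρ p q) φ,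
    deriv (fun x => F r φ x ρ p q) θ, deriv (fun x => F r φ θ x p q) ρ,
    deriv (fun x => F r φ θ ρ x q) p, deriv (fun x => F r φ θ ρ p x) q]

/-- The canonical Poisson bracket `{H, F}` in the coordinates `r, φ, θ` with momenta
`ρ, p, q`. -/
noncomputable def bracket (H F : ℝ → ℝ → ℝ → ℝ → ℝ → ℝ → ℝ) (r φ θ ρ p q : ℝ) : ℝ :=
  grad H r φ θ ρ p q 3 * grad F r φ θ ρ p q 0 - grad H r φ θ ρ p q 0 * grad F r φ θ ρ p q 3 +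
  (grad H r φ θ ρ p q 4 * grad F r φ θ ρ p q 1 - grad H r φ θ ρ p q 1 * grad F r φ θ ρ p q 4) +
  (grad H r φ θ ρ p q 5 * grad F r φ θ ρ p q 2 - grad H r φ θ ρ p q 2 * grad F r φ θ ρ p q 5)

/-- The geodesic flow has `5 = 2·3 - 1` integrals which are polynomial in the momenta and
functionally independent at least at one point which is not a critical point of `ρ` along the
flow, that is `ρ ≠ 0` (so in particular if they are independent on a dense set). -/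
def MaxSuperintegrable (L : ℝ) (G₁₁ G₁₂ G₂₂ : ℝ → ℝ) : Prop :=
  ∃ F : Fin 5 → ℝ → ℝ → ℝ → ℝ → ℝ → ℝ → ℝ, (∀ i, PolyInMomenta L (F i)) ∧
    (∀ i, ∀ r ∈ Ioo 0 L, ∀ φ θ ρ p q : ℝ, bracket (ham G₁₁ G₁₂ G₂₂) (F i) r φ θ ρ p q = 0) ∧
    ∃ r ∈ Ioo 0 L, ∃ φ θ ρ p q : ℝ, ρ ≠ 0 ∧
      LinearIndependent ℝ (fun i => grad (F i) r φ θ ρ p q)

end Pool.Agent.TOS
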