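import Pool.Agent.TOS.Hada

set_option autoImplicit false

/-!
Smoothness of radial functions.
-/

namespace Pool.Agent.TOS

open Set Filter Topology Asymptotics
open scoped ContDiff InnerProductSpace

section
variable {E : Type} [NormedAddCommGroup E] [InnerProductSpace ℝ E]

theorem hasDerivAt_even {f : ℝ → ℝ} (hf : ContDiff ℝ ∞ f) (he : ∀ x, f (-x) = f x) :
    (∀ x, deriv f (-x) = -deriv f x) ∧ deriv f 0 = 0 := by
  have hd : ∀ y, HasDerivAt f (deriv f y) y := fun y =>
    (hf.differentiable (by simp) y).hasDerivAt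
  have h1 : ∀ y, deriv f (-y) = -deriv f y := by
    intro y
    have h2 : HasDerivAt (fun y => f (-y)) (-deriv f (-y)) y := by
      have := (hd (-y)).comp y (hasDerivAt_neg y)
      refine this.congr_deriv ?_
      ring
    have h3 : (fun y => f (-y)) = f := funext he
    rw [h3] at h2
    have h4 := h2.unique (hd y)
    linarith
  refine ⟨h1, ?_⟩
  have := h1 0
  rw [neg_zero] at this
  linarith

theorem radial_nat (n : ℕ) : ∀ {f : ℝ → ℝ}, ContDiff ℝ ∞ f → (∀ x, f (-x) = f x) →
    ContDiff ℝ n (fun v : E => f ‖v‖) := by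
  induction n with
  | zero =>
    intro f hf _
    rw [Nat.cast_zero, contDiff_zero]
    exact hf.continuous.comp continuous_norm
  | succ n ih =>
    intro f hf he
    obtain ⟨hodd, h0⟩ := hasDerivAt_even hf he
    obtain ⟨f₁, sf, ef, of, -⟩ := hadamard (contDiff_infty_iff_deriv.1 hf).2 h0
    have hf₁ := ih sf (of hodd)
    have hd : ∀ y, HasDerivAt f (deriv f y) y := fun y =>
      (hf.differentiable (by simp) y).hasDerivAt
    rw [Nat.cast_succ, contDiff_succ_iff_hasFDerivAt]
    refine ⟨fun v => f₁ ‖v‖ • innerSL ℝ v, hf₁.smul (innerSL ℝ).contDiff, ?_⟩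
    intro v
    rcases eq_or_ne v 0 with rfl | hv
    · simp only [map_zero, smul_zero]
      have h1 : HasDerivAt f 0 0 := (hd 0).congr_deriv h0
      rw [hasDerivAt_iff_isLittleO_nhds_zero] at h1
      rw [hasFDerivAt_iff_isLittleO_nhds_zero]
      have h2 : Tendsto (fun v : E => ‖v‖) (𝓝 0) (𝓝 0) := by
        have := continuous_norm.tendsto (0 : E)
        rwa [norm_zero] at this
      have h3 := (h1.comp_tendsto h2)
      have h4 : (fun v : E => f ‖0 + v‖ - f ‖(0 : E)‖ - (0 : E →L[ℝ] ℝ) v) =
          (fun h => f (0 + h) - f 0 - h • (0 : ℝ)) ∘ fun v : E => ‖v‖ := by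
        funext v
        simp
      rw [h4]
      exact h3.trans_isBigO (isBigO_norm_left.2 (isBigO_refl _ _))
    · have hn : ‖v‖ ≠ 0 := norm_ne_zero_iff.2 hv
      have h1 : HasFDerivAt (fun v : E => ‖v‖) (‖v‖⁻¹ • innerSL ℝ v) v := by
        have h2 := (hasStrictFDerivAt_norm_sq v).hasFDerivAt.sqrt (by positivity)
        have h3 : (fun v : E => Real.sqrt (‖v‖ ^ 2)) = fun v => ‖v‖ :=
          funext fun v => Real.sqrt_sq (norm_nonneg v)
        rw [h3, Real.sqrt_sq (norm_nonneg v)] at h2
        refine h2.congr_fderiv ?_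
        ext w
        simp only [ContinuousLinearMap.smul_apply, smul_eq_mul, nsmul_eq_mul, Nat.cast_ofNat]
        field_simp
      have h2 := (hd ‖v‖).comp_hasFDerivAt v h1
      refine h2.congr_fderiv ?_
      rw [ef, smul_smul]
      congr 1
      field_simp

/-- A smooth even function of the norm is smooth. -/
theorem radial {f : ℝ → ℝ} (hf : ContDiff ℝ ∞ f) (he : ∀ x, f (-x) = f x) :
    ContDiff ℝ ∞ (fun v : E => f ‖v‖) :=
  contDiff_infty.2 fun n => radial_nat n hf he

end

/-- Localization of an even smooth function. -/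
theorem exists_global {f : ℝ → ℝ} {δ : ℝ} (hδ : 0 < δ) (hf : ContDiffOn ℝ ∞ f (Ioo (-δ) δ))
    (he : ∀ x ∈ Ioo (-δ) δ, f (-x) = f x) :
    ∃ g : ℝ → ℝ, ContDiff ℝ ∞ g ∧ (∀ x, g (-x) = g x) ∧ ∀ x, |x| < δ / 3 → g x = f x := by
  let φ : ContDiffBump (0 : ℝ) := ⟨δ / 3, δ / 2, by positivity, by linarith⟩
  have hφ : ContDiff ℝ ∞ φ := φ.contDiff
  refine ⟨fun x => φ x * f x, ?_, ?_, ?_⟩
  · rw [contDiff_iff_contDiffAt]
    intro x
    by_cases hx : x ∈ Ioo (-δ) δ
    · exact hφ.contDiffAt.mul (hf.contDiffAt (Ioo_mem_nhds hx.1 hx.2))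
    · have hx' : δ ≤ |x| := by
        by_contra h
        push Not at h
        exact hx (abs_lt.1 h)
      have h1 : (fun x => φ x * f x) =ᶠ[𝓝 x] fun _ => 0 := by
        have h2 : ∀ᶠ y in 𝓝 x, δ / 2 < |y| :=
          continuous_abs.continuousAt.eventually (lt_mem_nhds (by linarith))
        filter_upwards [h2] with y hy
        have h3 : φ y = 0 := by
          apply φ.zero_of_le_dist
          rw [Real.dist_eq, sub_zero]
          exact hy.le
        rw [h3, zero_mul]
      exact contDiffAt_const.congr_of_eventuallyEq h1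
  · intro x
    have h1 : φ (-x) = φ x := φ.neg x
    simp only [h1]
    by_cases hx : x ∈ Ioo (-δ) δ
    · rw [he x hx]
    · have hx' : δ ≤ |x| := by
        by_contra h
        push Not at h
        exact hx (abs_lt.1 h)
      have h3 : φ x = 0 := by
        apply φ.zero_of_le_dist
        rw [Real.dist_eq, sub_zero]
        have : φ.rOut = δ / 2 := rfl
        rw [this]
        linarith
      rw [h3, zero_mul, zero_mul]
  · intro x hx
    have h1 : φ x = 1 := by
      apply φ.one_of_mem_closedBall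
      rw [Metric.mem_closedBall, Real.dist_eq, sub_zero]
      exact hx.le
    simp only [h1, one_mul]

end Pool.Agent.TOS
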