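import Pool.Agent.TOS.Canon
import Pool.Agent.MSup.Iso

set_option autoImplicit false

/-!
The isometry between a torus invariant metric with explicit profile and the round sphere, in polar
coordinates.
-/

namespace Pool.Agent.TOA

open Set Filter Topology
open scoped ContDiff
open Pool.Agent.MSup

/-- The unit sphere of `ℝ² × ℝ²` without the two circles `y = 0` and `z = 0`. -/
def SStar : Set (I4 → ℝ) := {x | ip x x = 1 ∧ 0 < bA x ∧ 0 < bB x}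

theorem exists_angle {u v : ℝ} (h : u ^ 2 + v ^ 2 = 1) : ∃ θ : ℝ, Real.cos θ = u ∧ Real.sin θ = v := by
  have hn : ‖(⟨u, v⟩ : ℂ)‖ = 1 := by
    rw [Complex.norm_def, Complex.normSq_mk, ← sq, ← sq, h, Real.sqrt_one]
  have h0 : (⟨u, v⟩ : ℂ) ≠ 0 := by
    intro h0
    rw [h0, norm_zero] at hn
    exact zero_ne_one hn
  refine ⟨Complex.arg ⟨u, v⟩, ?_, ?_⟩
  · rw [Complex.cos_arg h0, hn, div_one]
  · rw [Complex.sin_arg, hn, div_one]

section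
variable (Rf : Frame 2 2)

/-- derivative of `X` in the first coordinate -/
noncomputable def Xpsi (ψ θ φ : ℝ) : I4 → ℝ :=
  Sum.elim (fun j => Real.cos ψ * Rf.er θ j) (fun j => -Real.sin ψ * Rf.fr φ j)

noncomputable def Xth (ψ θ : ℝ) : I4 → ℝ := Sum.elim (fun j => Real.sin ψ * Rf.et θ j) (fun _ => 0)

noncomputable def Xph (ψ φ : ℝ) : I4 → ℝ := Sum.elim (fun _ => 0) (fun j => Real.cos ψ * Rf.ft φ j)

theorem ip_elim (u u' : Fin 2 → ℝ) (v v' : Fin 2 → ℝ) :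
    ip (Sum.elim u v) (Sum.elim u' v') = ∑ j, u j * u' j + ∑ j, v j * v' j := by
  rw [ip, Fintype.sum_sum_type]
  simp

theorem ip_X_Pm (ψ θ φ p L K : ℝ) : ip (Rf.X ψ θ φ) (Rf.Pm ψ θ φ p L K) = 0 :=
  (Rf.Psi_mem ψ θ φ p L K).2

theorem ip_X_X (ψ θ φ : ℝ) : ip (Rf.X ψ θ φ) (Rf.X ψ θ φ) = 1 := (Rf.Psi_mem ψ θ φ 0 0 0).1

theorem sum_et_er (θ : ℝ) : ∑ j, Rf.et θ j * Rf.er θ j = 0 := by
  rw [← Rf.sum_er_et θ]
  exact Finset.sum_congr rfl fun j _ => mul_comm _ _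

theorem sum_ft_fr (φ : ℝ) : ∑ j, Rf.ft φ j * Rf.fr φ j = 0 := by
  rw [← Rf.sum_fr_ft φ]
  exact Finset.sum_congr rfl fun j _ => mul_comm _ _

theorem ip_Xpsi_Pm (ψ θ φ p L K : ℝ) : ip (Xpsi Rf ψ θ φ) (Rf.Pm ψ θ φ p L K) = p := by
  rw [Xpsi, Frame.Pm, ip_elim]
  have h1 : ∑ j, Real.cos ψ * Rf.er θ j * (p * (Real.cos ψ * Rf.er θ j) +
      L / Real.sin ψ * Rf.et θ j) = p * Real.cos ψ ^ 2 * ∑ j, Rf.er θ j * Rf.er θ j +
      Real.cos ψ * (L / Real.sin ψ) * ∑ j, Rf.er θ j * Rf.et θ j := by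
    rw [Finset.mul_sum, Finset.mul_sum, ← Finset.sum_add_distrib]
    exact Finset.sum_congr rfl fun j _ => by ring
  have h2 : ∑ j, -Real.sin ψ * Rf.fr φ j * (p * (-Real.sin ψ * Rf.fr φ j) +
      K / Real.cos ψ * Rf.ft φ j) = p * Real.sin ψ ^ 2 * ∑ j, Rf.fr φ j * Rf.fr φ j -
      Real.sin ψ * (K / Real.cos ψ) * ∑ j, Rf.fr φ j * Rf.ft φ j := by
    rw [Finset.mul_sum, Finset.mul_sum, ← Finset.sum_sub_distrib]
    exact Finset.sum_congr rfl fun j _ => by ring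
  rw [h1, h2, Rf.sum_er_er, Rf.sum_er_et, Rf.sum_fr_fr, Rf.sum_fr_ft]
  linear_combination p * Real.sin_sq_add_cos_sq ψ

theorem ip_Xth_Pm {ψ : ℝ} (hs : Real.sin ψ ≠ 0) (θ φ p L K : ℝ) :
    ip (Xth Rf ψ θ) (Rf.Pm ψ θ φ p L K) = L := by
  rw [Xth, Frame.Pm, ip_elim]
  have h1 : ∑ j, Real.sin ψ * Rf.et θ j * (p * (Real.cos ψ * Rf.er θ j) +
      L / Real.sin ψ * Rf.et θ j) = p * Real.cos ψ * Real.sin ψ * ∑ j, Rf.et θ j * Rf.er θ j +
      Real.sin ψ * (L / Real.sin ψ) * ∑ j, Rf.et θ j * Rf.et θ j := by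
    rw [Finset.mul_sum, Finset.mul_sum, ← Finset.sum_add_distrib]
    exact Finset.sum_congr rfl fun j _ => by ring
  rw [h1, sum_et_er, Rf.sum_et_et]
  simp only [zero_mul, Finset.sum_const_zero]
  field_simp
  ring

theorem ip_Xph_Pm {ψ : ℝ} (hc : Real.cos ψ ≠ 0) (θ φ p L K : ℝ) :
    ip (Xph Rf ψ φ) (Rf.Pm ψ θ φ p L K) = K := by
  rw [Xph, Frame.Pm, ip_elim]
  have h2 : ∑ j, Real.cos ψ * Rf.ft φ j * (p * (-Real.sin ψ * Rf.fr φ j) +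
      K / Real.cos ψ * Rf.ft φ j) = -(p * Real.sin ψ * Real.cos ψ) * ∑ j, Rf.ft φ j * Rf.fr φ j +
      Real.cos ψ * (K / Real.cos ψ) * ∑ j, Rf.ft φ j * Rf.ft φ j := by
    rw [Finset.mul_sum, Finset.mul_sum, ← Finset.sum_add_distrib]
    exact Finset.sum_congr rfl fun j _ => by ring
  rw [h2, sum_ft_fr, Rf.sum_ft_ft]
  simp only [zero_mul, Finset.sum_const_zero]
  field_simp
  ring

/-- a covector orthogonal to `X` is determined by its values on the coordinate vectors -/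
theorem eq_Pm {ψ : ℝ} (hs : Real.sin ψ ≠ 0) (hc : Real.cos ψ ≠ 0) {θ φ p L K : ℝ} {u : I4 → ℝ}
    (h0 : ip (Rf.X ψ θ φ) u = 0) (h1 : ip (Xpsi Rf ψ θ φ) u = p) (h2 : ip (Xth Rf ψ θ) u = L)
    (h3 : ip (Xph Rf ψ φ) u = K) : u = Rf.Pm ψ θ φ p L K := by
  obtain ⟨a1, ha1⟩ : ∃ x, x = ∑ j, u (.inl j) * Rf.er θ j := ⟨_, rfl⟩
  obtain ⟨a2, ha2⟩ : ∃ x, x = ∑ j, u (.inl j) * Rf.et θ j := ⟨_, rfl⟩
  obtain ⟨b1, hb1⟩ : ∃ x, x = ∑ j, u (.inr j) * Rf.fr φ j := ⟨_, rfl⟩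
  obtain ⟨b2, hb2⟩ : ∃ x, x = ∑ j, u (.inr j) * Rf.ft φ j := ⟨_, rfl⟩
  have hu : u = Sum.elim (fun j => u (.inl j)) (fun j => u (.inr j)) := by
    funext i
    rcases i with i | i <;> rfl
  have e0 : ip (Rf.X ψ θ φ) u = Real.sin ψ * a1 + Real.cos ψ * b1 := by
    rw [hu, Frame.X, ip_elim, ha1, hb1, Finset.mul_sum, Finset.mul_sum]
    congr 1 <;> exact Finset.sum_congr rfl fun j _ => by ring
  have e1 : ip (Xpsi Rf ψ θ φ) u = Real.cos ψ * a1 - Real.sin ψ * b1 := by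
    rw [hu, Xpsi, ip_elim, ha1, hb1, Finset.mul_sum, Finset.mul_sum, ← sub_neg_eq_add,
      ← Finset.sum_neg_distrib]
    congr 1 <;> exact Finset.sum_congr rfl fun j _ => by ring
  have e2 : ip (Xth Rf ψ θ) u = Real.sin ψ * a2 := by
    rw [hu, Xth, ip_elim, ha2, Finset.mul_sum]
    simp only [zero_mul, Finset.sum_const_zero, add_zero]
    exact Finset.sum_congr rfl fun j _ => by ring
  have e3 : ip (Xph Rf ψ φ) u = Real.cos ψ * b2 := by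
    rw [hu, Xph, ip_elim, hb2, Finset.mul_sum]
    simp only [zero_mul, Finset.sum_const_zero, zero_add]
    exact Finset.sum_congr rfl fun j _ => by ring
  rw [e0] at h0
  rw [e1] at h1
  rw [e2] at h2
  rw [e3] at h3
  have hsc := Real.sin_sq_add_cos_sq ψ
  have va1 : a1 = p * Real.cos ψ := by linear_combination Real.sin ψ * h0 + Real.cos ψ * h1 - a1 * hsc
  have vb1 : b1 = -(p * Real.sin ψ) := by
    linear_combination Real.cos ψ * h0 - Real.sin ψ * h1 - b1 * hsc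
  have va2 : a2 = L / Real.sin ψ := by rw [eq_div_iff hs]; linear_combination h2
  have vb2 : b2 = K / Real.cos ψ := by rw [eq_div_iff hc]; linear_combination h3
  funext i
  rcases i with j | j
  · have h := complete_two (Rf.sum_er_er θ) (Rf.sum_et_et θ) (Rf.sum_er_et θ)
      (fun j => u (.inl j)) j
    rw [← ha1, ← ha2, va1, va2] at h
    rw [h, Frame.Pm, Sum.elim_inl]
    ring
  · have h := complete_two (Rf.sum_fr_fr φ) (Rf.sum_ft_ft φ) (Rf.sum_fr_ft φ)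
      (fun j => u (.inr j)) j
    rw [← hb1, ← hb2, vb1, vb2] at h
    rw [h, Frame.Pm, Sum.elim_inr]
    ring

theorem exists_Pm {ψ : ℝ} (hs : Real.sin ψ ≠ 0) (hc : Real.cos ψ ≠ 0) {θ φ : ℝ} {u : I4 → ℝ}
    (h0 : ip (Rf.X ψ θ φ) u = 0) : ∃ p L K : ℝ, u = Rf.Pm ψ θ φ p L K :=
  ⟨_, _, _, eq_Pm Rf hs hc h0 rfl rfl rfl⟩

theorem bA_X (ψ θ φ : ℝ) : bA (Rf.X ψ θ φ) = Real.sin ψ ^ 2 := by
  have h := Rf.sA_Psi ψ θ φ 0 0 0
  simpa [sA, Frame.Psi, bA] using h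

theorem bB_X (ψ θ φ : ℝ) : bB (Rf.X ψ θ φ) = Real.cos ψ ^ 2 := by
  have h := Rf.sB_Psi ψ θ φ 0 0 0
  simpa [sB, Frame.Psi, bB] using h

/-- the angle `ψ` of a point -/
noncomputable def psiOf (x : I4 → ℝ) : ℝ := Real.arctan (√(bA x) / √(bB x))

theorem psiOf_X {ψ : ℝ} (hψ : ψ ∈ Ioo 0 (Real.pi / 2)) (θ φ : ℝ) : psiOf (Rf.X ψ θ φ) = ψ := by
  have hs : 0 < Real.sin ψ := Real.sin_pos_of_pos_of_lt_pi hψ.1 (by linarith [hψ.2, Real.pi_pos])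
  have hc : 0 < Real.cos ψ := Real.cos_pos_of_mem_Ioo ⟨by linarith [hψ.1, Real.pi_pos], hψ.2⟩
  rw [psiOf, bA_X, bB_X, Real.sqrt_sq hs.le, Real.sqrt_sq hc.le, ← Real.tan_eq_sin_div_cos,
    Real.arctan_tan (by linarith [hψ.1, Real.pi_pos]) hψ.2]

theorem psiOf_mem {x : I4 → ℝ} (hA : 0 < bA x) (hB : 0 < bB x) :
    psiOf x ∈ Ioo 0 (Real.pi / 2) := by
  constructor
  · exact Real.arctan_pos.mpr (div_pos (Real.sqrt_pos.mpr hA) (Real.sqrt_pos.mpr hB))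
  · exact Real.arctan_lt_pi_div_two _

theorem exists_X {x : I4 → ℝ} (hx : x ∈ SStar) :
    ∃ ψ ∈ Ioo 0 (Real.pi / 2), ∃ θ φ : ℝ, x = Rf.X ψ θ φ := by
  obtain ⟨h1, hA, hB⟩ := hx
  have hψ := psiOf_mem hA hB
  rw [ip_self_eq] at h1
  have sA' := Real.sqrt_pos.mpr hA
  have sB' := Real.sqrt_pos.mpr hB
  have hcos : Real.cos (psiOf x) = √(bB x) := by
    rw [psiOf, Real.cos_arctan]
    have : 1 + (√(bA x) / √(bB x)) ^ 2 = 1 / bB x := by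
      rw [div_pow, Real.sq_sqrt hA.le, Real.sq_sqrt hB.le]
      field_simp
      linarith
    rw [this, Real.sqrt_div zero_le_one, Real.sqrt_one, one_div_one_div]
  have hsin : Real.sin (psiOf x) = √(bA x) := by
    have h2 : Real.tan (psiOf x) = √(bA x) / √(bB x) := Real.tan_arctan _
    rw [Real.tan_eq_sin_div_cos, hcos] at h2
    exact (div_left_inj' sB'.ne').mp h2
  refine ⟨psiOf x, hψ, ?_⟩
  -- the angles
  have hang : ∀ (e1 e2 : Fin 2 → ℝ) (y : Fin 2 → ℝ), ∑ i, e1 i * e1 i = 1 → ∑ i, e2 i * e2 i = 1 →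
      ∑ i, e1 i * e2 i = 0 → ∀ s : ℝ, 0 < s → ∑ i, y i ^ 2 = s ^ 2 →
      ∃ θ : ℝ, ∀ j, y j = s * (Real.cos θ * e1 j + Real.sin θ * e2 j) := by
    intro e1 e2 y h11 h22 h12 s hs hy
    have hc2 := complete_two h11 h22 h12 y
    obtain ⟨u, hu⟩ : ∃ u, u = ∑ i, y i * e1 i := ⟨_, rfl⟩
    obtain ⟨v, hv⟩ : ∃ v, v = ∑ i, y i * e2 i := ⟨_, rfl⟩
    rw [← hu, ← hv] at hc2
    have huv : u ^ 2 + v ^ 2 = s ^ 2 := by
      rw [← hy]
      rw [Fin.sum_univ_two] at h11 h22 h12 ⊢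
      rw [hc2 0, hc2 1]
      linear_combination (-(u ^ 2)) * h11 - v ^ 2 * h22 - 2 * u * v * h12
    obtain ⟨θ, hθ1, hθ2⟩ := exists_angle (u := u / s) (v := v / s) (by
      rw [div_pow, div_pow, ← add_div, huv, div_self (by positivity)])
    refine ⟨θ, fun j => ?_⟩
    rw [hc2 j, hθ1, hθ2]
    field_simp
  obtain ⟨θ, hθ⟩ := hang Rf.e1 Rf.e2 (fun j => x (.inl j)) Rf.he11 Rf.he22 Rf.he12 _ sA' (by
    rw [Real.sq_sqrt hA.le]; rfl)
  obtain ⟨φ, hφ⟩ := hang Rf.f1 Rf.f2 (fun j => x (.inr j)) Rf.hf11 Rf.hf22 Rf.hf12 _ sB' (by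
    rw [Real.sq_sqrt hB.le]; rfl)
  refine ⟨θ, φ, ?_⟩
  funext i
  rcases i with j | j
  · rw [Frame.X, Sum.elim_inl, hsin]
    exact hθ j
  · rw [Frame.X, Sum.elim_inr, hcos]
    exact hφ j

theorem X_mem {ψ : ℝ} (hψ : ψ ∈ Ioo 0 (Real.pi / 2)) (θ φ : ℝ) : Rf.X ψ θ φ ∈ SStar := by
  have hs : 0 < Real.sin ψ := Real.sin_pos_of_pos_of_lt_pi hψ.1 (by linarith [hψ.2, Real.pi_pos])
  have hc : 0 < Real.cos ψ := Real.cos_pos_of_mem_Ioo ⟨by linarith [hψ.1, Real.pi_pos], hψ.2⟩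
  refine ⟨ip_X_X Rf ψ θ φ, ?_, ?_⟩
  · rw [bA_X]; positivity
  · rw [bB_X]; positivity

/-! ### The map -/

/-- The map `(sin (kR) rot(-T₁) y/|y|, cos (kR) rot(-T₂) z/|z|)`, `R, T₁, T₂` being taken at
`ψ = arctan (|y|/|z|)`. -/
noncomputable def Phi (k : ℝ) (Rr T1 T2 : ℝ → ℝ) (x : I4 → ℝ) : I4 → ℝ :=
  Sum.elim (fun j => Real.sin (k * Rr (psiOf x)) *
      (((∑ i, x (.inl i) * Rf.e1 i) * Real.cos (T1 (psiOf x)) +
          (∑ i, x (.inl i) * Rf.e2 i) * Real.sin (T1 (psiOf x))) / √(bA x) * Rf.e1 j +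
        ((∑ i, x (.inl i) * Rf.e2 i) * Real.cos (T1 (psiOf x)) -
          (∑ i, x (.inl i) * Rf.e1 i) * Real.sin (T1 (psiOf x))) / √(bA x) * Rf.e2 j))
    (fun j => Real.cos (k * Rr (psiOf x)) *
      (((∑ i, x (.inr i) * Rf.f1 i) * Real.cos (T2 (psiOf x)) +
          (∑ i, x (.inr i) * Rf.f2 i) * Real.sin (T2 (psiOf x))) / √(bB x) * Rf.f1 j +
        ((∑ i, x (.inr i) * Rf.f2 i) * Real.cos (T2 (psiOf x)) -
          (∑ i, x (.inr i) * Rf.f1 i) * Real.sin (T2 (psiOf x))) / √(bB x) * Rf.f2 j))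

theorem sum_er_e1 (θ : ℝ) : ∑ i, Rf.er θ i * Rf.e1 i = Real.cos θ := by
  have h : ∑ i, Rf.er θ i * Rf.e1 i = Real.cos θ * ∑ i, Rf.e1 i * Rf.e1 i +
      Real.sin θ * ∑ i, Rf.e1 i * Rf.e2 i := by
    rw [Finset.mul_sum, Finset.mul_sum, ← Finset.sum_add_distrib]
    exact Finset.sum_congr rfl fun j _ => by unfold Frame.er; ring
  rw [h, Rf.he11, Rf.he12]
  ring

theorem sum_er_e2 (θ : ℝ) : ∑ i, Rf.er θ i * Rf.e2 i = Real.sin θ := by
  have h : ∑ i, Rf.er θ i * Rf.e2 i = Real.cos θ * ∑ i, Rf.e1 i * Rf.e2 i +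
      Real.sin θ * ∑ i, Rf.e2 i * Rf.e2 i := by
    rw [Finset.mul_sum, Finset.mul_sum, ← Finset.sum_add_distrib]
    exact Finset.sum_congr rfl fun j _ => by unfold Frame.er; ring
  rw [h, Rf.he22, Rf.he12]
  ring

theorem sum_fr_f1 (φ : ℝ) : ∑ i, Rf.fr φ i * Rf.f1 i = Real.cos φ := by
  have h : ∑ i, Rf.fr φ i * Rf.f1 i = Real.cos φ * ∑ i, Rf.f1 i * Rf.f1 i +
      Real.sin φ * ∑ i, Rf.f1 i * Rf.f2 i := by
    rw [Finset.mul_sum, Finset.mul_sum, ← Finset.sum_add_distrib]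
    exact Finset.sum_congr rfl fun j _ => by unfold Frame.fr; ring
  rw [h, Rf.hf11, Rf.hf12]
  ring

theorem sum_fr_f2 (φ : ℝ) : ∑ i, Rf.fr φ i * Rf.f2 i = Real.sin φ := by
  have h : ∑ i, Rf.fr φ i * Rf.f2 i = Real.cos φ * ∑ i, Rf.f1 i * Rf.f2 i +
      Real.sin φ * ∑ i, Rf.f2 i * Rf.f2 i := by
    rw [Finset.mul_sum, Finset.mul_sum, ← Finset.sum_add_distrib]
    exact Finset.sum_congr rfl fun j _ => by unfold Frame.fr; ring
  rw [h, Rf.hf22, Rf.hf12]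
  ring

/-- (a) the map in polar coordinates -/
theorem Phi_X (k : ℝ) (Rr T1 T2 : ℝ → ℝ) {ψ : ℝ} (hψ : ψ ∈ Ioo 0 (Real.pi / 2)) (θ φ : ℝ) :
    Phi Rf k Rr T1 T2 (Rf.X ψ θ φ) = Rf.X (k * Rr ψ) (θ - T1 ψ) (φ - T2 ψ) := by
  have hs : 0 < Real.sin ψ := Real.sin_pos_of_pos_of_lt_pi hψ.1 (by linarith [hψ.2, Real.pi_pos])
  have hc : 0 < Real.cos ψ := Real.cos_pos_of_mem_Ioo ⟨by linarith [hψ.1, Real.pi_pos], hψ.2⟩
  have a1 : ∑ i, Rf.X ψ θ φ (.inl i) * Rf.e1 i = Real.sin ψ * Real.cos θ := by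
    rw [← sum_er_e1 Rf θ, Finset.mul_sum]
    exact Finset.sum_congr rfl fun j _ => by simp only [Frame.X, Sum.elim_inl]; ring
  have a2 : ∑ i, Rf.X ψ θ φ (.inl i) * Rf.e2 i = Real.sin ψ * Real.sin θ := by
    rw [← sum_er_e2 Rf θ, Finset.mul_sum]
    exact Finset.sum_congr rfl fun j _ => by simp only [Frame.X, Sum.elim_inl]; ring
  have b1 : ∑ i, Rf.X ψ θ φ (.inr i) * Rf.f1 i = Real.cos ψ * Real.cos φ := by
    rw [← sum_fr_f1 Rf φ, Finset.mul_sum]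
    exact Finset.sum_congr rfl fun j _ => by simp only [Frame.X, Sum.elim_inr]; ring
  have b2 : ∑ i, Rf.X ψ θ φ (.inr i) * Rf.f2 i = Real.cos ψ * Real.sin φ := by
    rw [← sum_fr_f2 Rf φ, Finset.mul_sum]
    exact Finset.sum_congr rfl fun j _ => by simp only [Frame.X, Sum.elim_inr]; ring
  rw [Phi, psiOf_X Rf hψ, a1, a2, b1, b2, bA_X, bB_X, Real.sqrt_sq hs.le, Real.sqrt_sq hc.le]
  funext i
  rcases i with j | j
  · simp only [Frame.X, Sum.elim_inl, Frame.er, Real.cos_sub, Real.sin_sub]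
    field_simp
  · simp only [Frame.X, Sum.elim_inr, Frame.fr, Real.cos_sub, Real.sin_sub]
    field_simp

theorem contDiff_bB : ContDiff ℝ ∞ (bB : (I4 → ℝ) → ℝ) := by
  unfold bB
  exact ContDiff.sum fun i _ => (contDiff_apply ℝ ℝ (Sum.inr i)).pow 2

theorem contDiffAt_psiOf {x : I4 → ℝ} (hA : 0 < bA x) (hB : 0 < bB x) :
    ContDiffAt ℝ ∞ psiOf x := by
  have h1 : ContDiffAt ℝ ∞ (fun x : I4 → ℝ => √(bA x)) x :=
    contDiff_bA.contDiffAt.sqrt hA.ne'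
  have h2 : ContDiffAt ℝ ∞ (fun x : I4 → ℝ => √(bB x)) x :=
    contDiff_bB.contDiffAt.sqrt hB.ne'
  have h3 : ContDiffAt ℝ ∞ (fun x : I4 → ℝ => √(bA x) / √(bB x)) x :=
    h1.div h2 (Real.sqrt_pos.mpr hB).ne'
  exact Real.contDiff_arctan.contDiffAt.comp x h3

/-- (b) smoothness of the map -/
theorem contDiffAt_Phi {k : ℝ} {Rr T1 T2 : ℝ → ℝ} (hR : ContDiff ℝ ∞ Rr)
    (hT1 : ContDiffOn ℝ ∞ T1 (Ioo 0 (Real.pi / 2)))
    (hT2 : ContDiffOn ℝ ∞ T2 (Ioo 0 (Real.pi / 2))) {x : I4 → ℝ} (hA : 0 < bA x) (hB : 0 < bB x) :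
    ContDiffAt ℝ ∞ (Phi Rf k Rr T1 T2) x := by
  have hψ := psiOf_mem hA hB
  have p0 := contDiffAt_psiOf hA hB
  have t1 : ContDiffAt ℝ ∞ (fun x => T1 (psiOf x)) x :=
    (hT1.contDiffAt (Ioo_mem_nhds hψ.1 hψ.2)).comp x p0
  have t2 : ContDiffAt ℝ ∞ (fun x => T2 (psiOf x)) x :=
    (hT2.contDiffAt (Ioo_mem_nhds hψ.1 hψ.2)).comp x p0
  have r1 : ContDiffAt ℝ ∞ (fun x => k * Rr (psiOf x)) x :=
    contDiffAt_const.mul (hR.contDiffAt.comp x p0)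
  have q1 : ContDiffAt ℝ ∞ (fun x : I4 → ℝ => √(bA x)) x := contDiff_bA.contDiffAt.sqrt hA.ne'
  have q2 : ContDiffAt ℝ ∞ (fun x : I4 → ℝ => √(bB x)) x := contDiff_bB.contDiffAt.sqrt hB.ne'
  have n1 : √(bA x) ≠ 0 := (Real.sqrt_pos.mpr hA).ne'
  have n2 : √(bB x) ≠ 0 := (Real.sqrt_pos.mpr hB).ne'
  have u : ∀ (e : Fin 2 → ℝ), ContDiffAt ℝ ∞ (fun x : I4 → ℝ => ∑ i, x (.inl i) * e i) x :=
    fun e => ContDiffAt.sum fun i _ => (contDiff_apply ℝ ℝ _).contDiffAt.mul contDiffAt_const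
  have v : ∀ (e : Fin 2 → ℝ), ContDiffAt ℝ ∞ (fun x : I4 → ℝ => ∑ i, x (.inr i) * e i) x :=
    fun e => ContDiffAt.sum fun i _ => (contDiff_apply ℝ ℝ _).contDiffAt.mul contDiffAt_const
  rw [contDiffAt_pi]
  rintro (j | j)
  · exact r1.sin.mul (((((u _).mul t1.cos).add ((u _).mul t1.sin)).div q1 n1).mul
      contDiffAt_const |>.add (((((u _).mul t1.cos).sub ((u _).mul t1.sin)).div q1 n1).mul
      contDiffAt_const))
  · exact r1.cos.mul (((((v _).mul t2.cos).add ((v _).mul t2.sin)).div q2 n2).mul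
      contDiffAt_const |>.add (((((v _).mul t2.cos).sub ((v _).mul t2.sin)).div q2 n2).mul
      contDiffAt_const))

theorem hasDerivAt_X {a b c : ℝ → ℝ} {da db dc t : ℝ} (ha : HasDerivAt a da t)
    (hb : HasDerivAt b db t) (hc : HasDerivAt c dc t) :
    HasDerivAt (fun t => Rf.X (a t) (b t) (c t)) (da • Xpsi Rf (a t) (b t) (c t) +
      db • Xth Rf (a t) (b t) + dc • Xph Rf (a t) (c t)) t := by
  rw [hasDerivAt_pi]
  rintro (j | j)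
  · have h1 : HasDerivAt (fun t => Rf.er (b t) j) (db * Rf.et (b t) j) t := by
      refine ((hb.cos.mul_const (Rf.e1 j)).fun_add (hb.sin.mul_const (Rf.e2 j))).congr_deriv ?_
      unfold Frame.et
      ring
    refine (ha.sin.fun_mul h1).congr_deriv ?_
    simp only [Pi.add_apply, Pi.smul_apply, Xpsi, Xth, Xph, Sum.elim_inl, smul_eq_mul]
    ring
  · have h1 : HasDerivAt (fun t => Rf.fr (c t) j) (dc * Rf.ft (c t) j) t := by
      refine ((hc.cos.mul_const (Rf.f1 j)).fun_add (hc.sin.mul_const (Rf.f2 j))).congr_deriv ?_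
      unfold Frame.ft
      ring
    refine (ha.cos.fun_mul h1).congr_deriv ?_
    simp only [Pi.add_apply, Pi.smul_apply, Xpsi, Xth, Xph, Sum.elim_inr, smul_eq_mul]
    ring

theorem ip_add_left (u v w : I4 → ℝ) : ip (u + v) w = ip u w + ip v w := by
  simp only [ip, Pi.add_apply, add_mul, Finset.sum_add_distrib]

theorem ip_smul_left (c : ℝ) (u w : I4 → ℝ) : ip (c • u) w = c * ip u w := by
  simp only [ip, Pi.smul_apply, smul_eq_mul, Finset.mul_sum, mul_assoc]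

theorem ip_comm' (u w : I4 → ℝ) : ip u w = ip w u := by
  simp only [ip]
  exact Finset.sum_congr rfl fun j _ => mul_comm _ _

theorem ip_Xpsi_X (ψ θ φ : ℝ) : ip (Xpsi Rf ψ θ φ) (Rf.X ψ θ φ) = 0 := by
  rw [Xpsi, Frame.X, ip_elim]
  have h1 : ∑ j, Real.cos ψ * Rf.er θ j * (Real.sin ψ * Rf.er θ j) =
      Real.cos ψ * Real.sin ψ * ∑ j, Rf.er θ j * Rf.er θ j := by
    rw [Finset.mul_sum]
    exact Finset.sum_congr rfl fun j _ => by ring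
  have h2 : ∑ j, -Real.sin ψ * Rf.fr φ j * (Real.cos ψ * Rf.fr φ j) =
      -(Real.cos ψ * Real.sin ψ) * ∑ j, Rf.fr φ j * Rf.fr φ j := by
    rw [Finset.mul_sum]
    exact Finset.sum_congr rfl fun j _ => by ring
  rw [h1, h2, Rf.sum_er_er, Rf.sum_fr_fr]
  ring

theorem ip_Xth_X (ψ θ φ : ℝ) : ip (Xth Rf ψ θ) (Rf.X ψ θ φ) = 0 := by
  rw [Xth, Frame.X, ip_elim]
  have h1 : ∑ j, Real.sin ψ * Rf.et θ j * (Real.sin ψ * Rf.er θ j) =
      Real.sin ψ * Real.sin ψ * ∑ j, Rf.et θ j * Rf.er θ j := by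
    rw [Finset.mul_sum]
    exact Finset.sum_congr rfl fun j _ => by ring
  rw [h1, sum_et_er]
  simp

theorem ip_Xph_X (ψ θ φ : ℝ) : ip (Xph Rf ψ φ) (Rf.X ψ θ φ) = 0 := by
  rw [Xph, Frame.X, ip_elim]
  have h1 : ∑ j, Real.cos ψ * Rf.ft φ j * (Real.cos ψ * Rf.fr φ j) =
      Real.cos ψ * Real.cos ψ * ∑ j, Rf.ft φ j * Rf.fr φ j := by
    rw [Finset.mul_sum]
    exact Finset.sum_congr rfl fun j _ => by ring
  rw [h1, sum_ft_fr]
  simp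

/-- inner product with a projected pulled back covector -/
theorem ip_tproj_pull {F : (I4 → ℝ) → (I4 → ℝ)} {x v π : I4 → ℝ} (hx : ip x x = 1)
    (hv : ip v x = 0) :
    ip v (tproj x (fun i => ip (fderiv ℝ F x (Pi.single i 1)) π)) = ip (fderiv ℝ F x v) π := by
  have h1 : ∀ w : I4 → ℝ, ip v (tproj x w) = ip v w := by
    intro w
    rw [ip_comm' v, ip_comm' v, tproj, hx, div_one]
    have : w - ip x w • x = w + (-ip x w) • x := by rw [neg_smul, sub_eq_add_neg]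
    rw [this, ip_add_left, ip_smul_left, ip_comm' x v, hv]
    ring
  rw [h1]
  have h2 : v = ∑ i, v i • (Pi.single i 1 : I4 → ℝ) := by
    conv_lhs => rw [← Finset.univ_sum_single v]
    refine Finset.sum_congr rfl fun i _ => ?_
    rw [← Pi.single_smul, smul_eq_mul, mul_one]
  have h3 : fderiv ℝ F x v = ∑ i, v i • fderiv ℝ F x (Pi.single i 1) := by
    conv_lhs => rw [h2]
    rw [map_sum]
    exact Finset.sum_congr rfl fun i _ => map_smul _ _ _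
  rw [h3]
  have h4 : ∀ (s : Finset I4), ip (∑ i ∈ s, v i • fderiv ℝ F x (Pi.single i 1)) π =
      ∑ i ∈ s, v i * ip (fderiv ℝ F x (Pi.single i 1)) π := by
    intro s
    induction s using Finset.induction_on with
    | empty => simp [ip]
    | insert a s ha ih => rw [Finset.sum_insert ha, Finset.sum_insert ha, ip_add_left, ih,
        ip_smul_left]
  rw [h4]
  rfl

theorem ip_self_tproj {x w : I4 → ℝ} (hx : ip x x = 1) : ip x (tproj x w) = 0 := by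
  rw [ip_comm' x, tproj, hx, div_one]
  have : w - ip x w • x = w + (-ip x w) • x := by rw [neg_smul, sub_eq_add_neg]
  rw [this, ip_add_left, ip_smul_left, hx, ip_comm' w x]
  ring

/-- (c) the pull-back of covectors -/
theorem tproj_Phi {k : ℝ} {Rr T1 T2 : ℝ → ℝ} (hR : ContDiff ℝ ∞ Rr)
    (hT1 : ContDiffOn ℝ ∞ T1 (Ioo 0 (Real.pi / 2)))
    (hT2 : ContDiffOn ℝ ∞ T2 (Ioo 0 (Real.pi / 2))) {ψ : ℝ} (hψ : ψ ∈ Ioo 0 (Real.pi / 2))
    {R1 g1 g2 : ℝ} (hR1 : HasDerivAt Rr R1 ψ) (hg1 : HasDerivAt T1 g1 ψ)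
    (hg2 : HasDerivAt T2 g2 ψ) (hs' : Real.sin (k * Rr ψ) ≠ 0) (hc' : Real.cos (k * Rr ψ) ≠ 0)
    (θ φ p L K : ℝ) :
    tproj (Rf.X ψ θ φ) (fun i => ip (fderiv ℝ (Phi Rf k Rr T1 T2) (Rf.X ψ θ φ) (Pi.single i 1))
      (Rf.Pm (k * Rr ψ) (θ - T1 ψ) (φ - T2 ψ) p L K)) =
    Rf.Pm ψ θ φ (p * k * R1 - g1 * L - g2 * K) L K := by
  have hs : 0 < Real.sin ψ := Real.sin_pos_of_pos_of_lt_pi hψ.1 (by linarith [hψ.2, Real.pi_pos])
  have hc : 0 < Real.cos ψ := Real.cos_pos_of_mem_Ioo ⟨by linarith [hψ.1, Real.pi_pos], hψ.2⟩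
  have hx := X_mem Rf hψ θ φ
  have hD : HasFDerivAt (Phi Rf k Rr T1 T2) (fderiv ℝ (Phi Rf k Rr T1 T2) (Rf.X ψ θ φ))
      (Rf.X ψ θ φ) :=
    ((contDiffAt_Phi Rf hR hT1 hT2 hx.2.1 hx.2.2).differentiableAt (by simp)).hasFDerivAt
  -- the three curves
  have c1 : fderiv ℝ (Phi Rf k Rr T1 T2) (Rf.X ψ θ φ) (Xpsi Rf ψ θ φ) =
      (k * R1) • Xpsi Rf (k * Rr ψ) (θ - T1 ψ) (φ - T2 ψ) +
        (-g1) • Xth Rf (k * Rr ψ) (θ - T1 ψ) + (-g2) • Xph Rf (k * Rr ψ) (φ - T2 ψ) := by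
    have e1 : HasDerivAt (fun t => Rf.X t θ φ) (Xpsi Rf ψ θ φ) ψ := by
      have := hasDerivAt_X Rf (hasDerivAt_id ψ) (hasDerivAt_const ψ θ) (hasDerivAt_const ψ φ)
      simpa using this
    have e2 := hD.comp_hasDerivAt ψ e1
    have e3 : HasDerivAt (fun t => Rf.X (k * Rr t) (θ - T1 t) (φ - T2 t)) _ ψ :=
      hasDerivAt_X Rf (hR1.const_mul k) (hg1.const_sub θ) (hg2.const_sub φ)
    have e4 : (fun t => Phi Rf k Rr T1 T2 (Rf.X t θ φ)) =ᶠ[𝓝 ψ]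
        (fun t => Rf.X (k * Rr t) (θ - T1 t) (φ - T2 t)) := by
      filter_upwards [Ioo_mem_nhds hψ.1 hψ.2] with t ht
      exact Phi_X Rf k Rr T1 T2 ht θ φ
    exact e2.unique (e3.congr_of_eventuallyEq e4)
  have c2 : fderiv ℝ (Phi Rf k Rr T1 T2) (Rf.X ψ θ φ) (Xth Rf ψ θ) =
      Xth Rf (k * Rr ψ) (θ - T1 ψ) := by
    have e1 : HasDerivAt (fun t => Rf.X ψ t φ) (Xth Rf ψ θ) θ := by
      have := hasDerivAt_X Rf (hasDerivAt_const θ ψ) (hasDerivAt_id θ) (hasDerivAt_const θ φ)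
      simpa using this
    have e2 := hD.comp_hasDerivAt θ e1
    have e3 : HasDerivAt (fun t => Rf.X (k * Rr ψ) (t - T1 ψ) (φ - T2 ψ))
        (Xth Rf (k * Rr ψ) (θ - T1 ψ)) θ := by
      have := hasDerivAt_X Rf (hasDerivAt_const θ (k * Rr ψ)) ((hasDerivAt_id θ).sub_const (T1 ψ))
        (hasDerivAt_const θ (φ - T2 ψ))
      simpa using this
    have e4 : (fun t => Phi Rf k Rr T1 T2 (Rf.X ψ t φ)) =
        (fun t => Rf.X (k * Rr ψ) (t - T1 ψ) (φ - T2 ψ)) := by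
      funext t
      exact Phi_X Rf k Rr T1 T2 hψ t φ
    have e5 : HasDerivAt (fun t => Phi Rf k Rr T1 T2 (Rf.X ψ t φ))
        (Xth Rf (k * Rr ψ) (θ - T1 ψ)) θ := by rw [e4]; exact e3
    exact e2.unique e5
  have c3 : fderiv ℝ (Phi Rf k Rr T1 T2) (Rf.X ψ θ φ) (Xph Rf ψ φ) =
      Xph Rf (k * Rr ψ) (φ - T2 ψ) := by
    have e1 : HasDerivAt (fun t => Rf.X ψ θ t) (Xph Rf ψ φ) φ := by
      have := hasDerivAt_X Rf (hasDerivAt_const φ ψ) (hasDerivAt_const φ θ) (hasDerivAt_id φ)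
      simpa using this
    have e2 := hD.comp_hasDerivAt φ e1
    have e3 : HasDerivAt (fun t => Rf.X (k * Rr ψ) (θ - T1 ψ) (t - T2 ψ))
        (Xph Rf (k * Rr ψ) (φ - T2 ψ)) φ := by
      have := hasDerivAt_X Rf (hasDerivAt_const φ (k * Rr ψ)) (hasDerivAt_const φ (θ - T1 ψ))
        ((hasDerivAt_id φ).sub_const (T2 ψ))
      simpa using this
    have e4 : (fun t => Phi Rf k Rr T1 T2 (Rf.X ψ θ t)) =
        (fun t => Rf.X (k * Rr ψ) (θ - T1 ψ) (t - T2 ψ)) := by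
      funext t
      exact Phi_X Rf k Rr T1 T2 hψ θ t
    have e5 : HasDerivAt (fun t => Phi Rf k Rr T1 T2 (Rf.X ψ θ t))
        (Xph Rf (k * Rr ψ) (φ - T2 ψ)) φ := by rw [e4]; exact e3
    exact e2.unique e5
  refine eq_Pm Rf hs.ne' hc.ne' (ip_self_tproj hx.1) ?_ ?_ ?_
  · rw [ip_tproj_pull hx.1 (ip_Xpsi_X Rf ψ θ φ), c1, ip_add_left, ip_add_left, ip_smul_left,
      ip_smul_left, ip_smul_left, ip_Xpsi_Pm, ip_Xth_Pm Rf hs', ip_Xph_Pm Rf hc']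
    ring
  · rw [ip_tproj_pull hx.1 (ip_Xth_X Rf ψ θ φ), c2, ip_Xth_Pm Rf hs']
  · rw [ip_tproj_pull hx.1 (ip_Xph_X Rf ψ θ φ), c3, ip_Xph_Pm Rf hc']

theorem er_inj {θ θ' t : ℝ} (h : ∀ j, Rf.er (θ - t) j = Rf.er (θ' - t) j) (j : Fin 2) :
    Rf.er θ j = Rf.er θ' j := by
  have h1 : Real.cos (θ - t) = Real.cos (θ' - t) := by
    rw [← sum_er_e1 Rf, ← sum_er_e1 Rf]
    exact Finset.sum_congr rfl fun j _ => by rw [h j]
  have h2 : Real.sin (θ - t) = Real.sin (θ' - t) := by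
    rw [← sum_er_e2 Rf, ← sum_er_e2 Rf]
    exact Finset.sum_congr rfl fun j _ => by rw [h j]
  have h3 : Real.cos θ = Real.cos θ' := by
    have e : ∀ x : ℝ, Real.cos x = Real.cos (x - t) * Real.cos t - Real.sin (x - t) * Real.sin t :=
      fun x => by rw [← Real.cos_add, sub_add_cancel]
    rw [e θ, e θ', h1, h2]
  have h4 : Real.sin θ = Real.sin θ' := by
    have e : ∀ x : ℝ, Real.sin x = Real.sin (x - t) * Real.cos t + Real.cos (x - t) * Real.sin t :=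
      fun x => by rw [← Real.sin_add, sub_add_cancel]
    rw [e θ, e θ', h1, h2]
  rw [Frame.er, Frame.er, h3, h4]

theorem fr_inj {θ θ' t : ℝ} (h : ∀ j, Rf.fr (θ - t) j = Rf.fr (θ' - t) j) (j : Fin 2) :
    Rf.fr θ j = Rf.fr θ' j := by
  have h1 : Real.cos (θ - t) = Real.cos (θ' - t) := by
    rw [← sum_fr_f1 Rf, ← sum_fr_f1 Rf]
    exact Finset.sum_congr rfl fun j _ => by rw [h j]
  have h2 : Real.sin (θ - t) = Real.sin (θ' - t) := by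
    rw [← sum_fr_f2 Rf, ← sum_fr_f2 Rf]
    exact Finset.sum_congr rfl fun j _ => by rw [h j]
  have h3 : Real.cos θ = Real.cos θ' := by
    have e : ∀ x : ℝ, Real.cos x = Real.cos (x - t) * Real.cos t - Real.sin (x - t) * Real.sin t :=
      fun x => by rw [← Real.cos_add, sub_add_cancel]
    rw [e θ, e θ', h1, h2]
  have h4 : Real.sin θ = Real.sin θ' := by
    have e : ∀ x : ℝ, Real.sin x = Real.sin (x - t) * Real.cos t + Real.cos (x - t) * Real.sin t :=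
      fun x => by rw [← Real.sin_add, sub_add_cancel]
    rw [e θ, e θ', h1, h2]
  rw [Frame.fr, Frame.fr, h3, h4]

section
variable {k : ℝ} (hk : 0 < k) {Rr T1 T2 R1 : ℝ → ℝ} (hR1 : ∀ ψ, HasDerivAt Rr (R1 ψ) ψ)
  (hpos : ∀ ψ, 0 < R1 ψ) (h0 : Rr 0 = 0) (h1 : k * Rr (Real.pi / 2) = Real.pi / 2)
include hk hR1 hpos h0 h1

theorem strictMono_kR : StrictMono (fun ψ => k * Rr ψ) := by
  have : StrictMono Rr := strictMono_of_deriv_pos fun x => by rw [(hR1 x).deriv]; exact hpos x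
  exact this.const_mul hk

theorem kR_mem {ψ : ℝ} (hψ : ψ ∈ Ioo 0 (Real.pi / 2)) : k * Rr ψ ∈ Ioo 0 (Real.pi / 2) := by
  have hm := strictMono_kR hk hR1 hpos h0 h1
  have a := hm hψ.1
  have b := hm hψ.2
  simp only [h0, mul_zero] at a
  simp only [h1] at b
  exact ⟨a, b⟩

theorem exists_kR {a : ℝ} (ha : a ∈ Ioo 0 (Real.pi / 2)) :
    ∃ ψ ∈ Ioo 0 (Real.pi / 2), k * Rr ψ = a := by
  have hcont : ContinuousOn (fun ψ => k * Rr ψ) (Icc 0 (Real.pi / 2)) := fun ψ _ =>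
    ((hR1 ψ).const_mul k).continuousAt.continuousWithinAt
  have h := intermediate_value_Ioo (by positivity : (0 : ℝ) ≤ Real.pi / 2) hcont
  simp only [h0, mul_zero, h1] at h
  obtain ⟨ψ, hψ, hψ'⟩ := h ha
  exact ⟨ψ, hψ, hψ'⟩

/-- (b) the map is a bijection -/
theorem bijOn_Phi : BijOn (Phi Rf k Rr T1 T2) SStar SStar := by
  refine ⟨?_, ?_, ?_⟩
  · intro x hx
    obtain ⟨ψ, hψ, θ, φ, rfl⟩ := exists_X Rf hx
    rw [Phi_X Rf k Rr T1 T2 hψ]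
    exact X_mem Rf (kR_mem hk hR1 hpos h0 h1 hψ) _ _
  · intro x hx y hy hxy
    obtain ⟨ψ, hψ, θ, φ, rfl⟩ := exists_X Rf hx
    obtain ⟨ψ', hψ', θ', φ', rfl⟩ := exists_X Rf hy
    rw [Phi_X Rf k Rr T1 T2 hψ, Phi_X Rf k Rr T1 T2 hψ'] at hxy
    have ha := kR_mem hk hR1 hpos h0 h1 hψ
    have ha' := kR_mem hk hR1 hpos h0 h1 hψ'
    have e1 : k * Rr ψ = k * Rr ψ' := by
      rw [← psiOf_X Rf ha (θ - T1 ψ) (φ - T2 ψ), hxy, psiOf_X Rf ha']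
    have e2 : ψ = ψ' := (strictMono_kR hk hR1 hpos h0 h1).injective e1
    subst e2
    have hs : 0 < Real.sin (k * Rr ψ) :=
      Real.sin_pos_of_pos_of_lt_pi ha.1 (by linarith [ha.2, Real.pi_pos])
    have hc : 0 < Real.cos (k * Rr ψ) :=
      Real.cos_pos_of_mem_Ioo ⟨by linarith [ha.1, Real.pi_pos], ha.2⟩
    have f1 : ∀ j, Rf.er (θ - T1 ψ) j = Rf.er (θ' - T1 ψ) j := by
      intro j
      have := congrFun hxy (.inl j)
      simp only [Frame.X, Sum.elim_inl] at this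
      exact mul_left_cancel₀ hs.ne' this
    have f2 : ∀ j, Rf.fr (φ - T2 ψ) j = Rf.fr (φ' - T2 ψ) j := by
      intro j
      have := congrFun hxy (.inr j)
      simp only [Frame.X, Sum.elim_inr] at this
      exact mul_left_cancel₀ hc.ne' this
    funext i
    rcases i with j | j
    · simp only [Frame.X, Sum.elim_inl]
      rw [er_inj Rf f1 j]
    · simp only [Frame.X, Sum.elim_inr]
      rw [fr_inj Rf f2 j]
  · intro y hy
    obtain ⟨a, ha, b, c, rfl⟩ := exists_X Rf hy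
    obtain ⟨ψ, hψ, hψ'⟩ := exists_kR hk hR1 hpos h0 h1 ha
    refine ⟨Rf.X ψ (b + T1 ψ) (c + T2 ψ), X_mem Rf hψ _ _, ?_⟩
    rw [Phi_X Rf k Rr T1 T2 hψ, hψ', add_sub_cancel_right, add_sub_cancel_right]

end

end

end Pool.Agent.TOA
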