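import Pool.Agent.TOS.Pround
import Pool.Agent.TOS.Iso

set_option autoImplicit false

/-!
The isometry identity off the two circles.
-/

namespace Pool.Agent.TOA

open Set Filter Topology
open scoped ContDiff
open Pool.Agent.MSup (Frame TS tproj sin_pos' cos_pos' sa sb)
open Pool.Agent.TOS (Iψ)

variable {h : I4 → I4 → (I4 → ℝ) → ℝ}

theorem ip_Pm (R : Frame 2 2) (ψ θ φ p L K : ℝ) :
    MSup.ip (R.Pm ψ θ φ p L K) (R.Pm ψ θ φ p L K) = p ^ 2 + (L / Real.sin ψ) ^ 2 +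
      (K / Real.cos ψ) ^ 2 := by
  have h1 := R.sa_Psi ψ θ φ p L K
  have h2 := R.sb_Psi ψ θ φ p L K
  have h3 : MSup.ip (R.Pm ψ θ φ p L K) (R.Pm ψ θ φ p L K) = sa (R.Psi ψ θ φ p L K) +
      sb (R.Psi ψ θ φ p L K) := by
    simp only [MSup.ip, Fintype.sum_sum_type, sa, sb, Frame.Psi, pow_two]
  rw [h3, h1, h2]
  have := Real.sin_sq_add_cos_sq ψ
  linear_combination p ^ 2 * this

/-- The polar form of a maximally superintegrable torus invariant metric, and the isometry off the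
two circles for every choice of antiderivatives of the shear coefficients. -/
theorem on_star (Y : Hyp h) (hM : MSup.MaxSuperintegrable (quadHam h)) :
    ∃ (R : Frame 2 2) (k : ℝ) (r : ℝ → ℝ), 0 < k ∧ r 0 = 0 ∧
      k * r (Real.pi / 2) = Real.pi / 2 ∧ ContDiff ℝ ∞ r ∧
      (∀ ψ, HasDerivAt r (1 / Real.sqrt (Qf h R 0 0 ψ)) ψ) ∧
      ∀ T₁ T₂ : ℝ → ℝ, ContDiffOn ℝ ∞ T₁ Iψ → ContDiffOn ℝ ∞ T₂ Iψ →
      (∀ ψ ∈ Iψ, HasDerivAt T₁ (G1 h R ψ) ψ) → (∀ ψ ∈ Iψ, HasDerivAt T₂ (G2 h R ψ) ψ) →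
      ∀ x ∈ SStar, ∀ π, MSup.ip (Phi R k r T₁ T₂ x) π = 0 →
        quadHam h (x, tproj x (fun i => MSup.ip (fderiv ℝ (Phi R k r T₁ T₂) x (Pi.single i 1)) π)) =
          k ^ 2 * MSup.ip π π / 2 := by
  obtain ⟨R, k, r, -, -, hk, hr0, hrm, hrk, hrs, hrd, -, -, -, -, hround⟩ := polar_round Y hM
  refine ⟨R, k, r, hk, hr0, hrk, hrs, hrd, ?_⟩
  intro T₁ T₂ hT₁s hT₂s hT₁ hT₂ x hx π hπ
  obtain ⟨ψ, hψ, θ, φ, rfl⟩ := exists_X R hx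
  rw [Phi_X R k r T₁ T₂ hψ] at hπ
  have hWp := (Y.pol R).Wpos ψ
  have hkr : k * r ψ ∈ Iψ := by
    constructor
    · have : 0 < r ψ := by rw [← hr0]; exact hrm hψ.1
      positivity
    · rw [← hrk]
      exact mul_lt_mul_of_pos_left (hrm hψ.2) hk
  have hs := (sin_pos' hkr).ne'
  have hc := (cos_pos' hkr).ne'
  obtain ⟨p, L, K, rfl⟩ := exists_Pm R hs hc hπ
  rw [tproj_Phi R hrs hT₁s hT₂s hψ (hrd ψ) (hT₁ ψ hψ) (hT₂ ψ hψ) hs hc, ip_Pm]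
  have hw0 := (Real.sqrt_pos.2 hWp).ne'
  have hsq : Real.sqrt (Qf h R 0 0 ψ) ^ 2 = Qf h R 0 0 ψ := Real.sq_sqrt hWp.le
  obtain ⟨h1, h2, h3⟩ := hround ψ hψ
  have e : (R.X ψ θ φ, R.Pm ψ θ φ (p * k * (1 / Real.sqrt (Qf h R 0 0 ψ)) - G1 h R ψ * L -
      G2 h R ψ * K) L K) = R.Psi ψ θ φ (p * k * (1 / Real.sqrt (Qf h R 0 0 ψ)) - G1 h R ψ * L -
      G2 h R ψ * K) L K := rfl
  rw [e, H_Psi Y R hψ]
  have hA : AA h R ψ = k ^ 2 / Real.cos (k * r ψ) ^ 2 := by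
    rw [← h2]
    field_simp
  have hC : CC h R ψ = k ^ 2 / Real.sin (k * r ψ) ^ 2 := by
    rw [← h3]
    field_simp
  simp only [Hpol, h1, hA, hC]
  set w := Real.sqrt (Qf h R 0 0 ψ)
  rw [← hsq]
  field_simp
  ring

end Pool.Agent.TOA
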