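import Pool.Agent.TOS.Par2
import Pool.Agent.TOS.Rad
import Pool.Agent.TOS.Star

set_option autoImplicit false

/-!
Functions of class `S` are smooth functions on the three-sphere.
-/

namespace Pool.Agent.TOA

open Set Filter Topology
open scoped ContDiff
open Pool.Agent.MSup
open Pool.Agent.TOS (Iψ)

theorem contDiff_ipself : ContDiff ℝ ∞ fun x : I4 → ℝ => MSup.ip x x := by
  unfold MSup.ip
  fun_prop

theorem radial_block {g : ℝ → ℝ} (hg : ContDiffOn ℝ ∞ g (Ioo (-1) 1))
    (he : ∀ x ∈ Ioo (-1 : ℝ) 1, g (-x) = g x) (s : Fin 2 → I4) {x : I4 → ℝ}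
    (hx : 0 < MSup.ip x x) (h0 : ∀ j, x (s j) = 0) :
    ContDiffAt ℝ ∞ (fun x : I4 → ℝ => g (√((∑ j, x (s j) ^ 2) / MSup.ip x x))) x := by
  obtain ⟨G, sG, eG, hG⟩ := TOS.exists_global one_pos hg he
  have h1 : ContDiff ℝ ∞ (fun v : EuclideanSpace ℝ (Fin 2) => G ‖v‖) := TOS.radial sG eG
  let v : (I4 → ℝ) → EuclideanSpace ℝ (Fin 2) := fun x =>
    WithLp.toLp 2 fun j => x (s j) / √(MSup.ip x x)
  have hq : ContDiffAt ℝ ∞ (fun x : I4 → ℝ => √(MSup.ip x x)) x :=
    contDiff_ipself.contDiffAt.sqrt hx.ne'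
  have hv : ContDiffAt ℝ ∞ v x := by
    have h2 : ContDiffAt ℝ ∞ (fun x : I4 → ℝ => fun j => x (s j) / √(MSup.ip x x)) x := by
      rw [contDiffAt_pi]
      intro j
      exact (contDiff_apply ℝ ℝ (s j)).contDiffAt.div hq (Real.sqrt_pos.2 hx).ne'
    exact (PiLp.contDiff_toLp (p := 2)).contDiffAt.comp x h2
  have hnorm : ∀ y : I4 → ℝ, 0 < MSup.ip y y → ‖v y‖ = √((∑ j, y (s j) ^ 2) / MSup.ip y y) := by
    intro y hy
    rw [EuclideanSpace.norm_eq]
    congr 1
    rw [Finset.sum_div]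
    refine Finset.sum_congr rfl fun j _ => ?_
    simp only [v, Real.norm_eq_abs, sq_abs, div_pow]
    rw [Real.sq_sqrt hy.le]
  have hv0 : v x = 0 := by
    ext j
    simp [v, h0 j]
  have h3 : ∀ᶠ y in 𝓝 x, ‖v y‖ < 1 / 3 := by
    have h4 : Tendsto (fun y => ‖v y‖) (𝓝 x) (𝓝 0) := by
      have := hv.continuousAt.norm
      rwa [ContinuousAt, hv0, norm_zero] at this
    exact h4.eventually (gt_mem_nhds (by norm_num))
  have h5 : ∀ᶠ y in 𝓝 x, 0 < MSup.ip y y :=
    contDiff_ipself.continuous.continuousAt.eventually (lt_mem_nhds hx)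
  refine (h1.contDiffAt.comp x hv).congr_of_eventuallyEq ?_
  filter_upwards [h3, h5] with y hy1 hy2
  rw [← hnorm y hy2]
  exact (hG _ (by rw [abs_of_nonneg (norm_nonneg _)]; exact hy1)).symm

/-- The angle `ψ` of a point. -/
noncomputable def psiG (x : I4 → ℝ) : ℝ := Real.arcsin (√(bA x / MSup.ip x x))

theorem arcsin_smooth : ContDiffOn ℝ ∞ Real.arcsin (Ioo (-1) 1) := fun _ hx =>
  (Real.contDiffAt_arcsin hx.1.ne' hx.2.ne).contDiffWithinAt

theorem arcsin_mem {x : ℝ} (hx : x ∈ Ioo (-1 : ℝ) 1) :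
    Real.arcsin x ∈ Ioo (-(Real.pi / 2)) (Real.pi / 2) := by
  constructor
  · have := Real.neg_pi_div_two_le_arcsin x
    refine lt_of_le_of_ne this fun h => ?_
    have h1 := Real.arcsin_eq_neg_pi_div_two.1 h.symm
    linarith [hx.1]
  · exact Real.arcsin_lt_pi_div_two.2 hx.2

theorem ClassS.contDiffAt {f : ℝ → ℝ} (hf : ClassS f) {x : I4 → ℝ} (hx : 0 < MSup.ip x x) :
    ContDiffAt ℝ ∞ (fun x => f (psiG x)) x := by
  have hπ := Real.pi_pos
  have hAB := ip_self_eq x
  have hA0 : 0 ≤ bA x := Finset.sum_nonneg fun i _ => sq_nonneg _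
  have hB0 : 0 ≤ bB x := Finset.sum_nonneg fun i _ => sq_nonneg _
  rcases eq_or_lt_of_le hA0 with hA | hA
  · -- near the circle `y = 0`
    have h1 := radial_block (g := fun t => f (Real.arcsin t))
      (hf.sm.comp arcsin_smooth fun t ht => ⟨(arcsin_mem ht).1, by linarith [(arcsin_mem ht).2]⟩)
      (fun t ht => by
        simp only [Real.arcsin_neg]
        exact hf.ev0 _ (arcsin_mem ht)) Sum.inl hx (fun j => by
          have h2 := (Finset.sum_eq_zero_iff_of_nonneg (fun i _ => sq_nonneg _)).1 hA.symm j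
            (Finset.mem_univ j)
          exact pow_eq_zero_iff two_ne_zero |>.1 h2)
    exact h1
  rcases eq_or_lt_of_le hB0 with hB | hB
  · -- near the circle `z = 0`
    have h1 := radial_block (g := fun t => f (Real.pi / 2 - Real.arcsin t))
      (hf.sm.comp (contDiffOn_const.sub arcsin_smooth) fun t ht =>
        ⟨by linarith [(arcsin_mem ht).2], by linarith [(arcsin_mem ht).1]⟩)
      (fun t ht => by
        simp only [Real.arcsin_neg]
        have h2 := arcsin_mem ht
        have h3 := hf.ev1 (Real.pi / 2 - Real.arcsin t) ⟨by linarith [h2.2], by linarith [h2.1]⟩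
        rw [← h3]
        congr 1
        ring) Sum.inr hx (fun j => by
          have h2 := (Finset.sum_eq_zero_iff_of_nonneg (fun i _ => sq_nonneg _)).1 hB.symm j
            (Finset.mem_univ j)
          exact pow_eq_zero_iff two_ne_zero |>.1 h2)
    refine h1.congr_of_eventuallyEq ?_
    have h5 : ∀ᶠ y in 𝓝 x, 0 < MSup.ip y y :=
      contDiff_ipself.continuous.continuousAt.eventually (lt_mem_nhds hx)
    filter_upwards [h5] with y hy
    have hB' : (∑ j, y (Sum.inr j) ^ 2) = bB y := rfl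
    have hBn : 0 ≤ bB y := Finset.sum_nonneg fun i _ => sq_nonneg _
    have h6 := Real.arccos_eq_arcsin (Real.sqrt_nonneg (bB y / MSup.ip y y))
    rw [Real.sq_sqrt (div_nonneg hBn hy.le)] at h6
    have h7 : 1 - bB y / MSup.ip y y = bA y / MSup.ip y y := by
      have := ip_self_eq y
      field_simp
      linarith
    rw [h7, Real.arccos_eq_pi_div_two_sub_arcsin] at h6
    simp only [psiG, hB']
    rw [← h6]
  · -- generic points
    have h1 : ContDiffAt ℝ ∞ (fun x : I4 → ℝ => bA x / MSup.ip x x) x :=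
      contDiff_bA.contDiffAt.div contDiff_ipself.contDiffAt hx.ne'
    have h2 : 0 < bA x / MSup.ip x x := div_pos hA hx
    have h3 : bA x / MSup.ip x x < 1 := by
      rw [div_lt_one hx]
      linarith
    have h4 : √(bA x / MSup.ip x x) < 1 := by
      rw [Real.sqrt_lt' one_pos]
      linarith
    have h5 : 0 < √(bA x / MSup.ip x x) := Real.sqrt_pos.2 h2
    have h6 : ContDiffAt ℝ ∞ (fun x : I4 → ℝ => √(bA x / MSup.ip x x)) x := h1.sqrt h2.ne'
    have h7 : ContDiffAt ℝ ∞ psiG x :=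
      (Real.contDiffAt_arcsin (by linarith) h4.ne).comp x h6
    have h8 : psiG x ∈ JJ := by
      have := arcsin_mem (x := √(bA x / MSup.ip x x)) ⟨by linarith, h4⟩
      exact ⟨this.1, lt_trans this.2 (by linarith)⟩
    exact (hf.sm.contDiffAt (Ioo_mem_nhds h8.1 h8.2)).comp x h7

end Pool.Agent.TOA
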