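import Pool.Agent.TOS.Crit

set_option autoImplicit false

/-!
Resonance on a half line of directions.
-/

namespace Pool.Agent.TOS

open Set Filter Topology

/-- `C²` coefficients on `(0,L)` of a positive form `a p² + 2 b p q + c q²` (the inverse of a
torus invariant metric) with the closing conditions of the three-sphere. -/
structure Data (L : ℝ) (a b c a1 b1 c1 a2 b2 c2 : ℝ → ℝ) : Prop where
  hL : 0 < L
  da : ∀ r ∈ Ioo 0 L, HasDerivAt a (a1 r) r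
  db : ∀ r ∈ Ioo 0 L, HasDerivAt b (b1 r) r
  dc : ∀ r ∈ Ioo 0 L, HasDerivAt c (c1 r) r
  da1 : ∀ r ∈ Ioo 0 L, HasDerivAt a1 (a2 r) r
  db1 : ∀ r ∈ Ioo 0 L, HasDerivAt b1 (b2 r) r
  dc1 : ∀ r ∈ Ioo 0 L, HasDerivAt c1 (c2 r) r
  ca2 : ContinuousOn a2 (Ioo 0 L)
  cb2 : ContinuousOn b2 (Ioo 0 L)
  cc2 : ContinuousOn c2 (Ioo 0 L)
  apos : ∀ r ∈ Ioo 0 L, 0 < a r
  det : ∀ r ∈ Ioo 0 L, b r ^ 2 < a r * c r
  cz : Tendsto (fun r => r ^ 2 * c r) (𝓝[>] 0) (𝓝 1)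
  az : ∃ α > 0, Tendsto a (𝓝[>] 0) (𝓝 α)
  bB : ∃ B, ∀ r ∈ Ioo 0 L, |b r| ≤ B
  aL : Tendsto (fun r => (L - r) ^ 2 * a r) (𝓝[<] L) (𝓝 1)
  cL : ∃ γ > 0, Tendsto c (𝓝[<] L) (𝓝 γ)

/-- resonance of the relative equilibria with momenta `(t,1)`, modes `(m,n)`, `(m',n')`. -/
def Res (L : ℝ) (a b c a1 b1 c1 a2 b2 c2 : ℝ → ℝ) (m n m' n' : ℤ) : Prop :=
  ∀ t : ℝ, ∀ r ∈ Ioo 0 L, a1 r * t ^ 2 + 2 * b1 r * t + c1 r = 0 →
    (∃ M : ℤ, ((m : ℝ) * (a r * t + b r) + n * (b r * t + c r)) ^ 2 =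
      (a2 r * t ^ 2 + 2 * b2 r * t + c2 r) / 2 * M ^ 2) ∧
    (∃ M : ℤ, ((m' : ℝ) * (a r * t + b r) + n' * (b r * t + c r)) ^ 2 =
      (a2 r * t ^ 2 + 2 * b2 r * t + c2 r) / 2 * M ^ 2)

variable {L : ℝ} {a b c a1 b1 c1 a2 b2 c2 : ℝ → ℝ}

theorem Data.cpos (D : Data L a b c a1 b1 c1 a2 b2 c2) {r : ℝ} (hr : r ∈ Ioo 0 L) : 0 < c r := by
  have h1 := D.apos r hr
  have h2 := D.det r hr
  have h3 : 0 < a r * c r := lt_of_le_of_lt (sq_nonneg _) h2
  exact (pos_iff_pos_of_mul_pos h3).mp h1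

theorem Data.vpos (D : Data L a b c a1 b1 c1 a2 b2 c2) {r : ℝ} (hr : r ∈ Ioo 0 L) (t : ℝ) :
    0 < a r * t ^ 2 + 2 * b r * t + c r := by
  have h1 := D.apos r hr
  have h2 := D.det r hr
  have : 0 < a r * (a r * t ^ 2 + 2 * b r * t + c r) := by nlinarith [sq_nonneg (a r * t + b r)]
  exact (pos_iff_pos_of_mul_pos this).mp h1

theorem Data.a_top (D : Data L a b c a1 b1 c1 a2 b2 c2) : Tendsto a (𝓝[<] L) atTop := by
  have h1 : Tendsto (fun r : ℝ => (L - r) ^ 2) (𝓝[<] L) (𝓝[>] 0) := by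
    apply tendsto_nhdsWithin_iff.mpr
    constructor
    · have : ContinuousAt (fun r : ℝ => (L - r) ^ 2) L := by fun_prop
      have h2 := this.tendsto
      simp only [sub_self, ne_eq, OfNat.ofNat_ne_zero, not_false_eq_true, zero_pow] at h2
      exact h2.mono_left nhdsWithin_le_nhds
    · filter_upwards [self_mem_nhdsWithin] with r hr
      have : r < L := hr
      exact pow_pos (sub_pos.mpr this) 2
  have h2 : Tendsto (fun r : ℝ => ((L - r) ^ 2)⁻¹) (𝓝[<] L) atTop :=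
    tendsto_inv_nhdsGT_zero.comp h1
  refine (D.aL.pos_mul_atTop one_pos h2).congr' ?_
  filter_upwards [self_mem_nhdsWithin] with r hr
  have : r < L := hr
  have h3 : (L - r) ^ 2 ≠ 0 := (pow_pos (sub_pos.mpr this) 2).ne'
  rw [mul_comm ((L - r) ^ 2) (a r), mul_assoc, mul_inv_cancel₀ h3, mul_one]

theorem Data.c_top (D : Data L a b c a1 b1 c1 a2 b2 c2) : Tendsto c (𝓝[>] 0) atTop := by
  have h1 : Tendsto (fun r : ℝ => r ^ 2) (𝓝[>] 0) (𝓝[>] 0) := by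
    apply tendsto_nhdsWithin_iff.mpr
    constructor
    · have : ContinuousAt (fun r : ℝ => r ^ 2) 0 := by fun_prop
      have h2 := this.tendsto
      simp only [ne_eq, OfNat.ofNat_ne_zero, not_false_eq_true, zero_pow] at h2
      exact h2.mono_left nhdsWithin_le_nhds
    · filter_upwards [self_mem_nhdsWithin] with r hr
      have : 0 < r := hr
      exact pow_pos this 2
  have h2 : Tendsto (fun r : ℝ => (r ^ 2)⁻¹) (𝓝[>] 0) atTop :=
    tendsto_inv_nhdsGT_zero.comp h1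
  refine (D.cz.pos_mul_atTop one_pos h2).congr' ?_
  filter_upwards [self_mem_nhdsWithin] with r hr
  have : 0 < r := hr
  field_simp

theorem Data.v_top_zero (D : Data L a b c a1 b1 c1 a2 b2 c2) (t : ℝ) :
    Tendsto (fun r => a r * t ^ 2 + 2 * b r * t + c r) (𝓝[>] 0) atTop := by
  obtain ⟨B, hB⟩ := D.bB
  have h1 : Tendsto (fun r => -(2 * B * |t|) + c r) (𝓝[>] 0) atTop :=
    tendsto_atTop_add_const_left _ _ D.c_top
  refine tendsto_atTop_mono' _ ?_ h1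
  filter_upwards [Ioo_mem_nhdsGT D.hL] with r hr
  have h2 := D.apos r hr
  have h3 := hB r hr
  have h4 : |b r * t| ≤ B * |t| := by
    rw [abs_mul]
    exact mul_le_mul_of_nonneg_right h3 (abs_nonneg _)
  have h5 := neg_abs_le (b r * t)
  nlinarith [mul_nonneg h2.le (sq_nonneg t)]

theorem Data.v_top_L (D : Data L a b c a1 b1 c1 a2 b2 c2) {t : ℝ} (ht : t ≠ 0) :
    Tendsto (fun r => a r * t ^ 2 + 2 * b r * t + c r) (𝓝[<] L) atTop := by
  obtain ⟨B, hB⟩ := D.bB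
  have h0 : 0 < t ^ 2 := by positivity
  have h1 : Tendsto (fun r => -(2 * B * |t|) + t ^ 2 * a r) (𝓝[<] L) atTop :=
    tendsto_atTop_add_const_left _ _ (D.a_top.const_mul_atTop h0)
  refine tendsto_atTop_mono' _ ?_ h1
  filter_upwards [Ioo_mem_nhdsLT D.hL] with r hr
  have h2 := D.cpos hr
  have h3 := hB r hr
  have h4 : |b r * t| ≤ B * |t| := by
    rw [abs_mul]
    exact mul_le_mul_of_nonneg_right h3 (abs_nonneg _)
  have h5 := neg_abs_le (b r * t)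
  nlinarith

/-- a lower bound strictly above `K` from the boundary behaviour. -/
theorem inf_gt {f : ℝ → ℝ} {A B K : ℝ} (hAB : A < B) (hc : ContinuousOn f (Ioo A B))
    (hgt : ∀ x ∈ Ioo A B, K < f x) (hA : ∃ K1 > K, ∀ᶠ x in 𝓝[>] A, K1 ≤ f x)
    (hB : ∃ K2 > K, ∀ᶠ x in 𝓝[<] B, K2 ≤ f x) : ∃ K' > K, ∀ x ∈ Ioo A B, K' ≤ f x := by
  obtain ⟨K1, hK1, e1⟩ := hA
  obtain ⟨K2, hK2, e2⟩ := hB
  obtain ⟨u, hu, hus⟩ := mem_nhdsGT_iff_exists_Ioo_subset.mp e1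
  obtain ⟨v, hv, hvs⟩ := mem_nhdsLT_iff_exists_Ioo_subset.mp e2
  have hu' : A < u := hu
  have hv' : v < B := hv
  set m := (A + B) / 2 with hm
  have hmI : m ∈ Ioo A B := ⟨by rw [hm]; linarith, by rw [hm]; linarith⟩
  set p := (A + min u m) / 2 with hp
  set q := (B + max v m) / 2 with hq
  have hum : A < min u m := lt_min hu' hmI.1
  have hvm : max v m < B := max_lt hv' hmI.2
  have p1 : A < p := by rw [hp]; linarith
  have p2 : p < min u m := by rw [hp]; linarith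
  have q1 : q < B := by rw [hq]; linarith
  have q2 : max v m < q := by rw [hq]; linarith
  have hpm : p < m := lt_of_lt_of_le p2 (min_le_right _ _)
  have hmq : m < q := lt_of_le_of_lt (le_max_right _ _) q2
  have hsub : Icc p q ⊆ Ioo A B := fun z hz => ⟨lt_of_lt_of_le p1 hz.1, lt_of_le_of_lt hz.2 q1⟩
  obtain ⟨r0, hr0, hmin⟩ := isCompact_Icc.exists_isMinOn (nonempty_Icc.mpr (hpm.trans hmq).le)
    (hc.mono hsub)
  refine ⟨min (f r0) (min K1 K2), lt_min (hgt r0 (hsub hr0)) (lt_min hK1 hK2), ?_⟩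
  intro x hx
  by_cases h1 : x < p
  · have h2 : x ∈ Ioo A u := ⟨hx.1, lt_trans h1 (lt_of_lt_of_le p2 (min_le_left _ _))⟩
    exact le_trans (le_trans (min_le_right _ _) (min_le_left _ _)) (hus h2)
  · by_cases h2 : q < x
    · have h3 : x ∈ Ioo v B := ⟨lt_trans (lt_of_le_of_lt (le_max_left _ _) q2) h2, hx.2⟩
      exact le_trans (le_trans (min_le_right _ _) (min_le_right _ _)) (hvs h3)
    · have h3 := hmin (⟨not_lt.mp h1, not_lt.mp h2⟩ : x ∈ Icc p q)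
      exact le_trans (min_le_left _ _) (by simpa using h3)

theorem Data.a_cont (D : Data L a b c a1 b1 c1 a2 b2 c2) : ContinuousOn a (Ioo 0 L) :=
  fun r hr => (D.da r hr).continuousAt.continuousWithinAt

theorem Data.b_cont (D : Data L a b c a1 b1 c1 a2 b2 c2) : ContinuousOn b (Ioo 0 L) :=
  fun r hr => (D.db r hr).continuousAt.continuousWithinAt

theorem Data.c_cont (D : Data L a b c a1 b1 c1 a2 b2 c2) : ContinuousOn c (Ioo 0 L) :=
  fun r hr => (D.dc r hr).continuousAt.continuousWithinAt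

theorem Data.a_low (D : Data L a b c a1 b1 c1 a2 b2 c2) : ∃ ε > 0, ∀ r ∈ Ioo 0 L, ε ≤ a r := by
  apply inf_gt D.hL D.a_cont D.apos
  · obtain ⟨α, hα, h⟩ := D.az
    exact ⟨α / 2, by linarith, (h.eventually (lt_mem_nhds (half_lt_self hα))).mono fun _ h => h.le⟩
  · exact ⟨1, one_pos, D.a_top.eventually_ge_atTop 1⟩

theorem Data.c_low (D : Data L a b c a1 b1 c1 a2 b2 c2) : ∃ ε > 0, ∀ r ∈ Ioo 0 L, ε ≤ c r := by
  apply inf_gt D.hL D.c_cont (fun r hr => D.cpos hr)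
  · exact ⟨1, one_pos, D.c_top.eventually_ge_atTop 1⟩
  · obtain ⟨α, hα, h⟩ := D.cL
    exact ⟨α / 2, by linarith, (h.eventually (lt_mem_nhds (half_lt_self hα))).mono fun _ h => h.le⟩

/-- critical points are nondegenerate minima -/
theorem second_pos (D : Data L a b c a1 b1 c1 a2 b2 c2) {m n m' n' : ℤ}
    (hR : Res L a b c a1 b1 c1 a2 b2 c2 m n m' n') (hdet : m * n' - m' * n ≠ 0)
    (t : ℝ) {r : ℝ} (hr : r ∈ Ioo 0 L) (h0 : a1 r * t ^ 2 + 2 * b1 r * t + c1 r = 0) :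
    0 < a2 r * t ^ 2 + 2 * b2 r * t + c2 r := by
  by_contra hcon
  have hle : a2 r * t ^ 2 + 2 * b2 r * t + c2 r ≤ 0 := not_lt.mp hcon
  obtain ⟨⟨M, hM⟩, ⟨M', hM'⟩⟩ := hR t r hr h0
  have hd : ((m : ℝ) * n' - m' * n) ≠ 0 := by
    have := hdet
    exact_mod_cast this
  have e1 : (m : ℝ) * (a r * t + b r) + n * (b r * t + c r) = 0 := by
    have h1 : ((m : ℝ) * (a r * t + b r) + n * (b r * t + c r)) ^ 2 ≤ 0 := by
      rw [hM]
      exact mul_nonpos_of_nonpos_of_nonneg (by linarith) (sq_nonneg _)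
    exact pow_eq_zero_iff (two_ne_zero) |>.mp (le_antisymm h1 (sq_nonneg _))
  have e2 : (m' : ℝ) * (a r * t + b r) + n' * (b r * t + c r) = 0 := by
    have h1 : ((m' : ℝ) * (a r * t + b r) + n' * (b r * t + c r)) ^ 2 ≤ 0 := by
      rw [hM']
      exact mul_nonpos_of_nonpos_of_nonneg (by linarith) (sq_nonneg _)
    exact pow_eq_zero_iff (two_ne_zero) |>.mp (le_antisymm h1 (sq_nonneg _))
  have f1 : ((m : ℝ) * n' - m' * n) * (a r * t + b r) = 0 := by linear_combination n' * e1 - n * e2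
  have f2 : ((m : ℝ) * n' - m' * n) * (b r * t + c r) = 0 := by linear_combination m * e2 - m' * e1
  have g1 := (mul_eq_zero.mp f1).resolve_left hd
  have g2 := (mul_eq_zero.mp f2).resolve_left hd
  have := D.vpos hr t
  have h3 : a r * t ^ 2 + 2 * b r * t + c r = 0 := by linear_combination t * g1 + g2
  linarith

/-- the unique critical radius -/
theorem exists_r0 (D : Data L a b c a1 b1 c1 a2 b2 c2) {m n m' n' : ℤ}
    (hR : Res L a b c a1 b1 c1 a2 b2 c2 m n m' n') (hdet : m * n' - m' * n ≠ 0)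
    {t : ℝ} (ht : t ≠ 0) :
    ∃ r0 ∈ Ioo 0 L, a1 r0 * t ^ 2 + 2 * b1 r0 * t + c1 r0 = 0 ∧
      (∀ r ∈ Ioo 0 L, r < r0 → a1 r * t ^ 2 + 2 * b1 r * t + c1 r < 0) ∧
      (∀ r ∈ Ioo 0 L, r0 < r → 0 < a1 r * t ^ 2 + 2 * b1 r * t + c1 r) ∧
      ∀ r ∈ Ioo 0 L, a r0 * t ^ 2 + 2 * b r0 * t + c r0 ≤ a r * t ^ 2 + 2 * b r * t + c r := by
  refine exists_crit (f := fun r => a r * t ^ 2 + 2 * b r * t + c r)
    (f1 := fun r => a1 r * t ^ 2 + 2 * b1 r * t + c1 r)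
    (f2 := fun r => a2 r * t ^ 2 + 2 * b2 r * t + c2 r) D.hL ?_ ?_ ?_ (D.v_top_zero t)
    (D.v_top_L ht)
  · intro r hr
    have := (((D.da r hr).mul_const (t ^ 2)).add (((D.db r hr).const_mul 2).mul_const t)).add
      (D.dc r hr)
    exact this
  · intro r hr
    have := (((D.da1 r hr).mul_const (t ^ 2)).add (((D.db1 r hr).const_mul 2).mul_const t)).add
      (D.dc1 r hr)
    exact this
  · intro r hr h0
    exact second_pos D hR hdet t hr h0

/-- an integer valued continuous function on the positive half line is constant -/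
theorem int_const {f : ℝ → ℝ} (hc : ContinuousOn f (Ioi 0)) (hi : ∀ t > 0, ∃ k : ℤ, f t = k) :
    ∃ k : ℤ, ∀ t > 0, f t = k := by
  obtain ⟨k, hk⟩ := hi 1 one_pos
  refine ⟨k, ?_⟩
  have aux : ∀ s > 0, ∀ t > 0, ¬ f s < f t := by
    intro s hs t ht hlt
    obtain ⟨k1, h1⟩ := hi s hs
    obtain ⟨k2, h2⟩ := hi t ht
    have hk12 : k1 < k2 := by
      rw [h1, h2] at hlt
      exact_mod_cast hlt
    have hk12' : k1 + 1 ≤ k2 := hk12
    have hk12'' : (k1 : ℝ) + 1 ≤ k2 := by exact_mod_cast hk12'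
    have hmem : (k1 : ℝ) + 1 / 2 ∈ Icc (f s) (f t) := by
      rw [h1, h2]
      constructor <;> linarith
    obtain ⟨u, hu, hu'⟩ := isPreconnected_Ioi.intermediate_value (s := Ioi (0 : ℝ)) hs ht hc hmem
    obtain ⟨k3, h3⟩ := hi u hu
    rw [h3] at hu'
    have h4 : (2 * k3 : ℤ) = 2 * k1 + 1 := by
      have : (2 : ℝ) * k3 = 2 * k1 + 1 := by rw [hu']; ring
      exact_mod_cast this
    omega
  intro t ht
  rcases lt_trichotomy (f t) (f 1) with h | h | h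
  · exact (aux t ht 1 one_pos h).elim
  · rw [h, hk]
  · exact (aux 1 one_pos t ht h).elim

end Pool.Agent.TOS
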