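import Pool.Agent.TOS.Half

set_option autoImplicit false

/-!
The minimum of the potential is the square of a linear form on a half line of directions.
-/

namespace Pool.Agent.TOS

open Set Filter Topology

variable {L : ℝ} {a b c a1 b1 c1 a2 b2 c2 : ℝ → ℝ}

theorem nonneg_of_pos_near_zero {p q : ℝ} (h : ∀ u > 0, 0 < p + q * u) : 0 ≤ p := by
  have hc : Continuous fun u : ℝ => p + q * u := by fun_prop
  have h1 : Tendsto (fun u : ℝ => p + q * u) (𝓝[>] 0) (𝓝 p) := by
    have := (hc.tendsto 0).mono_left (nhdsWithin_le_nhds (s := Ioi (0 : ℝ)))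
    simpa using this
  apply ge_of_tendsto h1
  filter_upwards [self_mem_nhdsWithin] with u hu
  exact (h u hu).le

theorem le_of_forall_quad {x p q s y : ℝ} (h : ∀ u > 0, x + p * u + q * u ^ 2 ≤ y + s * u) :
    x ≤ y := by
  have hc : Continuous fun u : ℝ => x + p * u + q * u ^ 2 := by fun_prop
  have hc' : Continuous fun u : ℝ => y + s * u := by fun_prop
  have h1 : Tendsto (fun u : ℝ => x + p * u + q * u ^ 2) (𝓝[>] 0) (𝓝 x) := by
    have := (hc.tendsto 0).mono_left (nhdsWithin_le_nhds (s := Ioi (0 : ℝ)))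
    simpa using this
  have h2 : Tendsto (fun u : ℝ => y + s * u) (𝓝[>] 0) (𝓝 y) := by
    have := (hc'.tendsto 0).mono_left (nhdsWithin_le_nhds (s := Ioi (0 : ℝ)))
    simpa using this
  apply le_of_tendsto_of_tendsto h1 h2
  filter_upwards [self_mem_nhdsWithin] with u hu
  exact h u hu

theorem half (D : Data L a b c a1 b1 c1 a2 b2 c2) {m n m' n' : ℤ}
    (hR : Res L a b c a1 b1 c1 a2 b2 c2 m n m' n') (hdet : m * n' - m' * n ≠ 0) :
    ∃ β γ κ : ℝ, 0 < β ∧ 0 < γ ∧ 0 < κ ∧ IsGLB (a '' Ioo 0 L) (β ^ 2) ∧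
      IsGLB (c '' Ioo 0 L) (γ ^ 2) ∧
      ∀ t > 0, ∃ r0 ∈ Ioo 0 L, a1 r0 * t ^ 2 + 2 * b1 r0 * t + c1 r0 = 0 ∧
        (∀ r ∈ Ioo 0 L, r < r0 → a1 r * t ^ 2 + 2 * b1 r * t + c1 r < 0) ∧
        (∀ r ∈ Ioo 0 L, r0 < r → 0 < a1 r * t ^ 2 + 2 * b1 r * t + c1 r) ∧
        (∀ r ∈ Ioo 0 L, (β * t + γ) ^ 2 ≤ a r * t ^ 2 + 2 * b r * t + c r) ∧
        a r0 * t ^ 2 + 2 * b r0 * t + c r0 = (β * t + γ) ^ 2 ∧
        (a2 r0 * t ^ 2 + 2 * b2 r0 * t + c2 r0) / 2 = κ ^ 2 * (β * t + γ) ^ 2 := by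
  have H : ∀ t : ℝ, 0 < t → ∃ r0 ∈ Ioo 0 L, a1 r0 * t ^ 2 + 2 * b1 r0 * t + c1 r0 = 0 ∧
      (∀ r ∈ Ioo 0 L, r < r0 → a1 r * t ^ 2 + 2 * b1 r * t + c1 r < 0) ∧
      (∀ r ∈ Ioo 0 L, r0 < r → 0 < a1 r * t ^ 2 + 2 * b1 r * t + c1 r) ∧
      ∀ r ∈ Ioo 0 L, a r0 * t ^ 2 + 2 * b r0 * t + c r0 ≤ a r * t ^ 2 + 2 * b r * t + c r :=
    fun t ht => exists_r0 D hR hdet ht.ne'
  choose! r0 hI hz hneg hpos hmin using H
  -- continuity of the critical radius
  have hr0c : ∀ t > 0, ContinuousAt r0 t := by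
    intro t ht
    apply tendsto_order.2
    constructor
    · intro x hx
      by_cases hx0 : x ≤ 0
      · filter_upwards [Ioi_mem_nhds ht] with s hs
        exact lt_of_le_of_lt hx0 (hI s hs).1
      · have hxI : x ∈ Ioo 0 L := ⟨not_le.mp hx0, hx.trans (hI t ht).2⟩
        have h1 := hneg t ht x hxI hx
        have hcs : Continuous fun s : ℝ => a1 x * s ^ 2 + 2 * b1 x * s + c1 x := by fun_prop
        filter_upwards [Ioi_mem_nhds ht, (hcs.tendsto t).eventually (Iio_mem_nhds h1)]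
          with s hs hs2
        have hs2' : a1 x * s ^ 2 + 2 * b1 x * s + c1 x < 0 := hs2
        by_contra hcon
        rcases (not_lt.mp hcon).eq_or_lt with h | h
        · have := hz s hs
          rw [h] at this
          linarith
        · have := hpos s hs x hxI h
          linarith
    · intro x hx
      by_cases hx0 : L ≤ x
      · filter_upwards [Ioi_mem_nhds ht] with s hs
        exact lt_of_lt_of_le (hI s hs).2 hx0
      · have hxI : x ∈ Ioo 0 L := ⟨(hI t ht).1.trans hx, not_le.mp hx0⟩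
        have h1 := hpos t ht x hxI hx
        have hcs : Continuous fun s : ℝ => a1 x * s ^ 2 + 2 * b1 x * s + c1 x := by fun_prop
        filter_upwards [Ioi_mem_nhds ht, (hcs.tendsto t).eventually (Ioi_mem_nhds h1)]
          with s hs hs2
        have hs2' : 0 < a1 x * s ^ 2 + 2 * b1 x * s + c1 x := hs2
        by_contra hcon
        rcases (not_lt.mp hcon).eq_or_lt with h | h
        · have := hz s hs
          rw [← h] at this
          linarith
        · have := hneg s hs x hxI h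
          linarith
  have hr0on : ContinuousOn r0 (Ioi 0) := fun t ht => (hr0c t ht).continuousWithinAt
  have hmaps : MapsTo r0 (Ioi 0) (Ioo 0 L) := fun t ht => hI t ht
  have ca : ContinuousOn (fun t => a (r0 t)) (Ioi 0) := D.a_cont.comp hr0on hmaps
  have cb : ContinuousOn (fun t => b (r0 t)) (Ioi 0) := D.b_cont.comp hr0on hmaps
  have cc : ContinuousOn (fun t => c (r0 t)) (Ioi 0) := D.c_cont.comp hr0on hmaps
  have ca2 : ContinuousOn (fun t => a2 (r0 t)) (Ioi 0) := D.ca2.comp hr0on hmaps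
  have cb2 : ContinuousOn (fun t => b2 (r0 t)) (Ioi 0) := D.cb2.comp hr0on hmaps
  have cc2 : ContinuousOn (fun t => c2 (r0 t)) (Ioi 0) := D.cc2.comp hr0on hmaps
  have cid : ContinuousOn (fun t : ℝ => t) (Ioi 0) := continuousOn_id
  -- the minimum and its derivative
  set Mf : ℝ → ℝ := fun t => a (r0 t) * t ^ 2 + 2 * b (r0 t) * t + c (r0 t) with hMf
  have hMd : ∀ t > 0, HasDerivAt Mf (2 * (a (r0 t) * t + b (r0 t))) t := by
    intro t ht
    rw [hasDerivAt_iff_tendsto_slope]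
    set d := 2 * (a (r0 t) * t + b (r0 t)) with hd
    have gu : Tendsto (fun s => |a (r0 t) * (s + t) + 2 * b (r0 t) - d|) (𝓝[≠] t) (𝓝 0) := by
      have hcu : Continuous fun s : ℝ => |a (r0 t) * (s + t) + 2 * b (r0 t) - d| := by fun_prop
      have h1 := (hcu.tendsto t).mono_left (nhdsWithin_le_nhds (s := {t}ᶜ))
      have h2 : |a (r0 t) * (t + t) + 2 * b (r0 t) - d| = 0 := by
        rw [hd]
        have : a (r0 t) * (t + t) + 2 * b (r0 t) - 2 * (a (r0 t) * t + b (r0 t)) = 0 := by ring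
        rw [this, abs_zero]
      rw [h2] at h1
      exact h1
    have gl : Tendsto (fun s => |a (r0 s) * (s + t) + 2 * b (r0 s) - d|) (𝓝[≠] t) (𝓝 0) := by
      have hca : ContinuousAt (fun s => a (r0 s)) t := (ca t ht).continuousAt (Ioi_mem_nhds ht)
      have hcb : ContinuousAt (fun s => b (r0 s)) t := (cb t ht).continuousAt (Ioi_mem_nhds ht)
      have hid : ContinuousAt (fun s : ℝ => s + t) t := by fun_prop
      have hcu : ContinuousAt (fun s : ℝ => |a (r0 s) * (s + t) + 2 * b (r0 s) - d|) t :=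
        (((hca.mul hid).add (continuousAt_const.mul hcb)).sub continuousAt_const).abs
      have h1 := hcu.tendsto.mono_left (nhdsWithin_le_nhds (s := {t}ᶜ))
      have h2 : |a (r0 t) * (t + t) + 2 * b (r0 t) - d| = 0 := by
        rw [hd]
        have : a (r0 t) * (t + t) + 2 * b (r0 t) - 2 * (a (r0 t) * t + b (r0 t)) = 0 := by ring
        rw [this, abs_zero]
      rw [h2] at h1
      exact h1
    have hsum : Tendsto (fun s => |a (r0 t) * (s + t) + 2 * b (r0 t) - d| +
        |a (r0 s) * (s + t) + 2 * b (r0 s) - d|) (𝓝[≠] t) (𝓝 0) := by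
      simpa using gu.add gl
    rw [tendsto_iff_norm_sub_tendsto_zero]
    refine squeeze_zero' (Eventually.of_forall fun _ => norm_nonneg _) ?_ hsum
    filter_upwards [self_mem_nhdsWithin, nhdsWithin_le_nhds (Ioi_mem_nhds ht)] with s hst hs
    have hst' : s ≠ t := hst
    have hs' : 0 < s := hs
    have up : Mf s - Mf t ≤ (s - t) * (a (r0 t) * (s + t) + 2 * b (r0 t)) := by
      have h1 := hmin s hs' (r0 t) (hI t ht)
      simp only [hMf]
      nlinarith
    have lo : (s - t) * (a (r0 s) * (s + t) + 2 * b (r0 s)) ≤ Mf s - Mf t := by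
      have h1 := hmin t ht (r0 s) (hI s hs')
      simp only [hMf]
      nlinarith
    rw [slope_def_field, Real.norm_eq_abs]
    set U := a (r0 t) * (s + t) + 2 * b (r0 t) with hU
    set W := a (r0 s) * (s + t) + 2 * b (r0 s) with hW
    rcases lt_or_gt_of_ne hst' with h | h
    · have h1 : s - t < 0 := by linarith
      have k1 : U ≤ (Mf s - Mf t) / (s - t) := by
        rw [le_div_iff_of_neg h1]
        linarith
      have k2 : (Mf s - Mf t) / (s - t) ≤ W := by
        rw [div_le_iff_of_neg h1]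
        linarith
      rw [abs_le]
      constructor
      · have := neg_abs_le (U - d)
        have := abs_nonneg (W - d)
        linarith
      · have := le_abs_self (W - d)
        have := abs_nonneg (U - d)
        linarith
    · have h1 : 0 < s - t := by linarith
      have k1 : W ≤ (Mf s - Mf t) / (s - t) := by
        rw [le_div_iff₀ h1]
        linarith
      have k2 : (Mf s - Mf t) / (s - t) ≤ U := by
        rw [div_le_iff₀ h1]
        linarith
      rw [abs_le]
      constructor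
      · have := neg_abs_le (W - d)
        have := abs_nonneg (U - d)
        linarith
      · have := le_abs_self (U - d)
        have := abs_nonneg (W - d)
        linarith
  -- the frequency
  set σ : ℝ → ℝ := fun t => (a2 (r0 t) * t ^ 2 + 2 * b2 (r0 t) * t + c2 (r0 t)) / 2 with hσ
  have hσpos : ∀ t > 0, 0 < σ t := by
    intro t ht
    have := second_pos D hR hdet t (hI t ht) (hz t ht)
    simp only [hσ]
    linarith
  have hσc : ContinuousOn σ (Ioi 0) :=
    (((ca2.mul (cid.pow 2)).add ((continuousOn_const.mul cb2).mul cid)).add cc2).div_const 2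
  have hsc : ContinuousOn (fun t => Real.sqrt (σ t)) (Ioi 0) := hσc.sqrt
  have hspos : ∀ t > 0, 0 < Real.sqrt (σ t) := fun t ht => Real.sqrt_pos.mpr (hσpos t ht)
  have key : ∀ u v : ℤ, (∀ t > 0, ∃ M : ℤ, ((u : ℝ) * (a (r0 t) * t + b (r0 t)) +
      v * (b (r0 t) * t + c (r0 t))) ^ 2 = σ t * M ^ 2) →
      ∃ k : ℤ, ∀ t > 0, (u : ℝ) * (a (r0 t) * t + b (r0 t)) + v * (b (r0 t) * t + c (r0 t)) =
        k * Real.sqrt (σ t) := by
    intro u v huv
    have hcN : ContinuousOn (fun t => ((u : ℝ) * (a (r0 t) * t + b (r0 t)) +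
        v * (b (r0 t) * t + c (r0 t))) / Real.sqrt (σ t)) (Ioi 0) := by
      apply ContinuousOn.div _ hsc (fun t ht => (hspos t ht).ne')
      exact (continuousOn_const.mul ((ca.mul cid).add cb)).add
        (continuousOn_const.mul ((cb.mul cid).add cc))
    obtain ⟨k, hk⟩ := int_const hcN (by
      intro t ht
      obtain ⟨M, hM⟩ := huv t ht
      have hs := hspos t ht
      have hs2 : Real.sqrt (σ t) ^ 2 = σ t := Real.sq_sqrt (hσpos t ht).le
      set X := (u : ℝ) * (a (r0 t) * t + b (r0 t)) + v * (b (r0 t) * t + c (r0 t)) with hX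
      have h1 : (X - M * Real.sqrt (σ t)) * (X + M * Real.sqrt (σ t)) = 0 := by
        have : (X - M * Real.sqrt (σ t)) * (X + M * Real.sqrt (σ t)) =
          X ^ 2 - M ^ 2 * Real.sqrt (σ t) ^ 2 := by ring
        rw [this, hs2, hM]
        ring
      rcases mul_eq_zero.mp h1 with h | h
      · refine ⟨M, ?_⟩
        rw [div_eq_iff hs.ne']
        linarith
      · refine ⟨-M, ?_⟩
        rw [div_eq_iff hs.ne']
        push_cast
        linarith)
    refine ⟨k, fun t ht => ?_⟩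
    have := hk t ht
    rw [div_eq_iff (hspos t ht).ne'] at this
    exact this
  obtain ⟨k, hk⟩ := key m n (fun t ht => (hR t (r0 t) (hI t ht) (hz t ht)).1)
  obtain ⟨k', hk'⟩ := key m' n' (fun t ht => (hR t (r0 t) (hI t ht) (hz t ht)).2)
  have hd : ((m : ℝ) * n' - m' * n) ≠ 0 := by
    have := hdet
    exact_mod_cast this
  set ρ1 : ℝ := (n' * k - n * k') / ((m : ℝ) * n' - m' * n) with hρ1
  set ρ2 : ℝ := (m * k' - m' * k) / ((m : ℝ) * n' - m' * n) with hρ2
  have hw1 : ∀ t > 0, a (r0 t) * t + b (r0 t) = ρ1 * Real.sqrt (σ t) := by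
    intro t ht
    have e1 := hk t ht
    have e2 := hk' t ht
    have e3 : ((m : ℝ) * n' - m' * n) * (a (r0 t) * t + b (r0 t)) =
        (n' * k - n * k') * Real.sqrt (σ t) := by
      linear_combination n' * e1 - n * e2
    rw [hρ1, div_mul_eq_mul_div, eq_div_iff hd]
    linarith
  have hw2 : ∀ t > 0, b (r0 t) * t + c (r0 t) = ρ2 * Real.sqrt (σ t) := by
    intro t ht
    have e1 := hk t ht
    have e2 := hk' t ht
    have e3 : ((m : ℝ) * n' - m' * n) * (b (r0 t) * t + c (r0 t)) =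
        (m * k' - m' * k) * Real.sqrt (σ t) := by
      linear_combination m * e2 - m' * e1
    rw [hρ2, div_mul_eq_mul_div, eq_div_iff hd]
    linarith
  have hM1 : ∀ t > 0, Mf t = (ρ1 * t + ρ2) * Real.sqrt (σ t) := by
    intro t ht
    have e1 := hw1 t ht
    have e2 := hw2 t ht
    simp only [hMf]
    linear_combination t * e1 + e2
  have hMpos : ∀ t > 0, 0 < Mf t := fun t ht => D.vpos (hI t ht) t
  have hlin : ∀ t > 0, 0 < ρ1 * t + ρ2 := by
    intro t ht
    have h1 := hMpos t ht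
    rw [hM1 t ht] at h1
    exact (pos_iff_pos_of_mul_pos h1).mpr (hspos t ht)
  -- the quotient is constant
  have hG : ∀ t > 0, HasDerivAt (fun t => Mf t / (ρ1 * t + ρ2) ^ 2) 0 t := by
    intro t ht
    have h1 := hMd t ht
    have h2 : HasDerivAt (fun t : ℝ => (ρ1 * t + ρ2) ^ 2) (2 * (ρ1 * t + ρ2) * ρ1) t := by
      have h3 : HasDerivAt (fun t : ℝ => ρ1 * t + ρ2) ρ1 t := by
        simpa using ((hasDerivAt_id t).const_mul ρ1).add_const ρ2
      have := h3.fun_pow 2
      simpa using this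
    have h4 := h1.div h2 (pow_pos (hlin t ht) 2).ne'
    have h5 : (2 * (a (r0 t) * t + b (r0 t)) * (ρ1 * t + ρ2) ^ 2 -
        Mf t * (2 * (ρ1 * t + ρ2) * ρ1)) / ((ρ1 * t + ρ2) ^ 2) ^ 2 = 0 := by
      rw [hw1 t ht, hM1 t ht]
      have : 2 * (ρ1 * Real.sqrt (σ t)) * (ρ1 * t + ρ2) ^ 2 -
        (ρ1 * t + ρ2) * Real.sqrt (σ t) * (2 * (ρ1 * t + ρ2) * ρ1) = 0 := by ring
      rw [this, zero_div]
    rw [h5] at h4
    exact h4
  obtain ⟨C, hC⟩ := IsOpen.exists_is_const_of_deriv_eq_zero (s := Ioi (0 : ℝ)) isOpen_Ioi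
    isPreconnected_Ioi (f := fun t => Mf t / (ρ1 * t + ρ2) ^ 2)
    (fun t ht => (hG t ht).differentiableAt.differentiableWithinAt)
    (fun t ht => (hG t ht).deriv)
  have hMC : ∀ t > 0, Mf t = C * (ρ1 * t + ρ2) ^ 2 := by
    intro t ht
    have h1 : Mf t / (ρ1 * t + ρ2) ^ 2 = C := hC t ht
    rw [div_eq_iff (pow_pos (hlin t ht) 2).ne'] at h1
    exact h1
  have hCpos : 0 < C := by
    have h1 := hMpos 1 one_pos
    rw [hMC 1 one_pos] at h1
    exact (pos_iff_pos_of_mul_pos h1).mpr (pow_pos (hlin 1 one_pos) 2)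
  have hκ : 0 < Real.sqrt C := Real.sqrt_pos.mpr hCpos
  have hκ2 : Real.sqrt C ^ 2 = C := Real.sq_sqrt hCpos.le
  set β := Real.sqrt C * ρ1 with hβ
  set γ := Real.sqrt C * ρ2 with hγ
  have hMβ : ∀ t > 0, Mf t = (β * t + γ) ^ 2 := by
    intro t ht
    rw [hMC t ht, hβ, hγ]
    have : (Real.sqrt C * ρ1 * t + Real.sqrt C * ρ2) ^ 2 = Real.sqrt C ^ 2 * (ρ1 * t + ρ2) ^ 2 := by
      ring
    rw [this, hκ2]
  have hσβ : ∀ t > 0, σ t = Real.sqrt C ^ 2 * (β * t + γ) ^ 2 := by
    intro t ht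
    have h1 := hM1 t ht
    have h2 := hMC t ht
    have h3 : Real.sqrt (σ t) = C * (ρ1 * t + ρ2) := by
      have h4 : (ρ1 * t + ρ2) * Real.sqrt (σ t) = (ρ1 * t + ρ2) * (C * (ρ1 * t + ρ2)) := by
        rw [← h1, h2]; ring
      exact mul_left_cancel₀ (hlin t ht).ne' h4
    have h5 : Real.sqrt (σ t) ^ 2 = σ t := Real.sq_sqrt (hσpos t ht).le
    rw [← h5, h3, hβ, hγ]
    have : Real.sqrt C ^ 2 * (Real.sqrt C * ρ1 * t + Real.sqrt C * ρ2) ^ 2 =
      Real.sqrt C ^ 2 * Real.sqrt C ^ 2 * (ρ1 * t + ρ2) ^ 2 := by ring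
    rw [this, hκ2]
    ring
  have hlin' : ∀ t > 0, 0 < β * t + γ := by
    intro t ht
    have : β * t + γ = Real.sqrt C * (ρ1 * t + ρ2) := by rw [hβ, hγ]; ring
    rw [this]
    exact mul_pos hκ (hlin t ht)
  have hγ0 : 0 ≤ γ := nonneg_of_pos_near_zero (q := β) (fun u hu => by
    have := hlin' u hu
    linarith)
  have hβ0 : 0 ≤ β := nonneg_of_pos_near_zero (q := γ) (fun u hu => by
    have h1 := hlin' (1 / u) (by positivity)
    have h2 : β + γ * u = u * (β * (1 / u) + γ) := by field_simp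
    rw [h2]
    exact mul_pos hu h1)
  have hVlow : ∀ t > 0, ∀ r ∈ Ioo 0 L, (β * t + γ) ^ 2 ≤ a r * t ^ 2 + 2 * b r * t + c r := by
    intro t ht r hr
    rw [← hMβ t ht]
    exact hmin t ht r hr
  have hVlow' : ∀ u > 0, ∀ r ∈ Ioo 0 L, (β + γ * u) ^ 2 ≤ a r + 2 * b r * u + c r * u ^ 2 := by
    intro u hu r hr
    have h1 := hVlow (1 / u) (by positivity) r hr
    have h2 : (β + γ * u) ^ 2 = u ^ 2 * (β * (1 / u) + γ) ^ 2 := by field_simp
    have h3 : a r + 2 * b r * u + c r * u ^ 2 =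
        u ^ 2 * (a r * (1 / u) ^ 2 + 2 * b r * (1 / u) + c r) := by field_simp
    rw [h2, h3]
    exact mul_le_mul_of_nonneg_left h1 (by positivity)
  obtain ⟨B, hB⟩ := D.bB
  have hGa : IsGLB (a '' Ioo 0 L) (β ^ 2) := by
    constructor
    · rintro _ ⟨r, hr, rfl⟩
      apply le_of_forall_quad (p := 2 * β * γ - 2 * b r) (q := γ ^ 2 - c r) (s := 0)
      intro u hu
      have := hVlow' u hu r hr
      nlinarith
    · intro x hx
      apply le_of_forall_quad (p := -(2 * B)) (q := -γ ^ 2) (s := 2 * β * γ)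
      intro u hu
      have ht : (0 : ℝ) < 1 / u := by positivity
      have h1 := hMβ (1 / u) ht
      have hIu := hI (1 / u) ht
      have h2 : x ≤ a (r0 (1 / u)) := hx (mem_image_of_mem a hIu)
      have h3 := hB _ hIu
      have h4 := D.cpos hIu
      simp only [hMf] at h1
      have h5 : u ^ 2 * (a (r0 (1 / u)) * (1 / u) ^ 2 + 2 * b (r0 (1 / u)) * (1 / u) + c (r0 (1 / u)))
          = a (r0 (1 / u)) + 2 * b (r0 (1 / u)) * u + c (r0 (1 / u)) * u ^ 2 := by field_simp
      have h6 : u ^ 2 * (β * (1 / u) + γ) ^ 2 = (β + γ * u) ^ 2 := by field_simp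
      rw [h1, h6] at h5
      have h7 : -B ≤ b (r0 (1 / u)) := (abs_le.mp h3).1
      have h8 : -(B * u) ≤ b (r0 (1 / u)) * u := by nlinarith
      have h9 : 0 ≤ c (r0 (1 / u)) * u ^ 2 := by positivity
      nlinarith
  have hGc : IsGLB (c '' Ioo 0 L) (γ ^ 2) := by
    constructor
    · rintro _ ⟨r, hr, rfl⟩
      apply le_of_forall_quad (p := 2 * β * γ - 2 * b r) (q := β ^ 2 - a r) (s := 0)
      intro u hu
      have := hVlow u hu r hr
      nlinarith
    · intro x hx
      apply le_of_forall_quad (p := -(2 * B)) (q := -β ^ 2) (s := 2 * β * γ)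
      intro u hu
      have h1 := hMβ u hu
      have hIu := hI u hu
      have h2 : x ≤ c (r0 u) := hx (mem_image_of_mem c hIu)
      have h3 := hB _ hIu
      have h4 := D.apos _ hIu
      simp only [hMf] at h1
      have h7 : -B ≤ b (r0 u) := (abs_le.mp h3).1
      have h8 : -(B * u) ≤ b (r0 u) * u := by nlinarith
      have h9 : 0 ≤ a (r0 u) * u ^ 2 := by positivity
      nlinarith
  obtain ⟨ε, hε, hεa⟩ := D.a_low
  obtain ⟨ε', hε', hεc⟩ := D.c_low
  have hβ2 : ε ≤ β ^ 2 := hGa.2 (by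
    rintro _ ⟨r, hr, rfl⟩
    exact hεa r hr)
  have hγ2 : ε' ≤ γ ^ 2 := hGc.2 (by
    rintro _ ⟨r, hr, rfl⟩
    exact hεc r hr)
  have hβp : 0 < β := lt_of_le_of_ne hβ0 (fun h => by rw [← h] at hβ2; norm_num at hβ2; linarith)
  have hγp : 0 < γ := lt_of_le_of_ne hγ0 (fun h => by rw [← h] at hγ2; norm_num at hγ2; linarith)
  refine ⟨β, γ, Real.sqrt C, hβp, hγp, hκ, hGa, hGc, ?_⟩
  intro t ht
  exact ⟨r0 t, hI t ht, hz t ht, hneg t ht, hpos t ht, hVlow t ht, hMβ t ht, hσβ t ht⟩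

end Pool.Agent.TOS
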