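import Pool.Agent.TOS.PhiG

set_option autoImplicit false

/-!
Maximally superintegrable torus invariant metrics on the three-sphere are round.
-/

namespace Pool.Agent.TOA

open Set Filter Topology
open scoped ContDiff
open Pool.Agent.MSup (Frame TS tproj bA bB ip_self_eq IsRoundSphere contDiff_bA)
open Pool.Agent.TOS (Iψ)

/-- the unit sphere -/
abbrev Sph : Set (I4 → ℝ) := {x | MSup.ip x x = 1}

theorem bA_nonneg (x : I4 → ℝ) : 0 ≤ bA x := Finset.sum_nonneg fun i _ => sq_nonneg _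
theorem bB_nonneg (x : I4 → ℝ) : 0 ≤ bB x := Finset.sum_nonneg fun i _ => sq_nonneg _

theorem inl_zero {x : I4 → ℝ} (h : bA x = 0) (j : Fin 2) : x (.inl j) = 0 :=
  pow_eq_zero_iff two_ne_zero |>.1
    ((Finset.sum_eq_zero_iff_of_nonneg (fun i _ => sq_nonneg _)).1 h j (Finset.mem_univ j))

theorem inr_zero {x : I4 → ℝ} (h : bB x = 0) (j : Fin 2) : x (.inr j) = 0 :=
  pow_eq_zero_iff two_ne_zero |>.1
    ((Finset.sum_eq_zero_iff_of_nonneg (fun i _ => sq_nonneg _)).1 h j (Finset.mem_univ j))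

/-- The three strata of the sphere. -/
theorem strata {x : I4 → ℝ} (hx : x ∈ Sph) :
    x ∈ SStar ∨ (bA x = 0 ∧ bB x = 1) ∨ (bB x = 0 ∧ bA x = 1) := by
  have h1 : MSup.ip x x = 1 := hx
  have h2 := h1
  rw [ip_self_eq] at h2
  rcases eq_or_lt_of_le (bA_nonneg x) with hA | hA
  · right; left
    exact ⟨hA.symm, by linarith⟩
  rcases eq_or_lt_of_le (bB_nonneg x) with hB | hB
  · right; right
    exact ⟨hB.symm, by linarith⟩
  · left
    exact ⟨h1, hA, hB⟩

variable (Rf : Frame 2 2)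

/-- the data of the global map -/
structure GData (A B T1 T2 : ℝ → ℝ) (k : ℝ) (r r1 : ℝ → ℝ) : Prop where
  sA : ClassS A
  sB : ClassS B
  s1 : ClassS T1
  s2 : ClassS T2
  eA : ∀ ψ ∈ JJ, Real.sin (k * r ψ) = Real.sin ψ * A ψ
  eB : ∀ ψ ∈ JJ, Real.cos (k * r ψ) = Real.cos ψ * B ψ
  hk : 0 < k
  hr : ∀ ψ, HasDerivAt r (r1 ψ) ψ
  hr1 : ∀ ψ, 0 < r1 ψ
  r0 : r 0 = 0
  rπ : k * r (Real.pi / 2) = Real.pi / 2

namespace GData

variable {A B T1 T2 : ℝ → ℝ} {k : ℝ} {r r1 : ℝ → ℝ} (D : GData A B T1 T2 k r r1)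
include D

theorem B0 : B 0 = 1 := by
  have := D.eB 0 ⟨by linarith [Real.pi_pos], Real.pi_pos⟩
  rw [D.r0, mul_zero, Real.cos_zero, one_mul] at this
  exact this.symm

theorem Aπ : A (Real.pi / 2) = 1 := by
  have := D.eA (Real.pi / 2) ⟨by linarith [Real.pi_pos], by linarith [Real.pi_pos]⟩
  rw [D.rπ, Real.sin_pi_div_two, one_mul] at this
  exact this.symm

omit D in
theorem psiG_A {x : I4 → ℝ} (h : bA x = 0) : psiG x = 0 := by
  rw [psiG, h, zero_div, Real.sqrt_zero, Real.arcsin_zero]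

omit D in
theorem psiG_B {x : I4 → ℝ} (hx : MSup.ip x x = 1) (h : bA x = 1) : psiG x = Real.pi / 2 := by
  rw [psiG, h, hx, div_one, Real.sqrt_one, Real.arcsin_one]

/-- on the circle `y = 0` -/
theorem on_A {x : I4 → ℝ} (hx : x ∈ Sph) (h : bA x = 0) :
    (∀ j, PhiG Rf A B T1 T2 x (.inl j) = 0) ∧
      ∀ j, PhiG Rf A B T1 T2 x (.inr j) = rotF Rf.f1 Rf.f2 (T2 0) (fun i => x (.inr i)) j := by
  have hx' : MSup.ip x x = 1 := hx
  constructor
  · intro j
    simp only [PhiG, Sum.elim_inl, inl_zero h, rotF, zero_mul, Finset.sum_const_zero, add_zero,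
      sub_zero, mul_zero]
  · intro j
    simp only [PhiG, Sum.elim_inr, psiG_A h, D.B0, hx', Real.sqrt_one, div_one, one_mul]

/-- on the circle `z = 0` -/
theorem on_B {x : I4 → ℝ} (hx : x ∈ Sph) (h : bB x = 0) (h1 : bA x = 1) :
    (∀ j, PhiG Rf A B T1 T2 x (.inr j) = 0) ∧
      ∀ j, PhiG Rf A B T1 T2 x (.inl j) =
        rotF Rf.e1 Rf.e2 (T1 (Real.pi / 2)) (fun i => x (.inl i)) j := by
  have hx' : MSup.ip x x = 1 := hx
  constructor
  · intro j
    simp only [PhiG, Sum.elim_inr, inr_zero h, rotF, zero_mul, Finset.sum_const_zero, add_zero,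
      sub_zero, mul_zero]
  · intro j
    simp only [PhiG, Sum.elim_inl, psiG_B hx' h1, D.Aπ, hx', Real.sqrt_one, div_one, one_mul]

theorem image_star {x : I4 → ℝ} (hx : x ∈ SStar) :
    PhiG Rf A B T1 T2 x = Phi Rf k r T1 T2 x ∧ PhiG Rf A B T1 T2 x ∈ SStar := by
  have h1 := PhiG_eq Rf (T1 := T1) (T2 := T2) D.eA D.eB hx.2.1 hx.2.2
  refine ⟨h1, ?_⟩
  rw [h1]
  exact (bijOn_Phi Rf D.hk D.hr D.hr1 D.r0 D.rπ).mapsTo hx

theorem image_A {x : I4 → ℝ} (hx : x ∈ Sph) (h : bA x = 0) (h1 : bB x = 1) :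
    bA (PhiG Rf A B T1 T2 x) = 0 ∧ bB (PhiG Rf A B T1 T2 x) = 1 := by
  obtain ⟨e1, e2⟩ := D.on_A Rf hx h
  constructor
  · simp only [bA, e1]
    simp
  · simp only [bB, e2]
    rw [rotF_sq Rf.hf11 Rf.hf22 Rf.hf12]
    exact h1

theorem image_B {x : I4 → ℝ} (hx : x ∈ Sph) (h : bB x = 0) (h1 : bA x = 1) :
    bB (PhiG Rf A B T1 T2 x) = 0 ∧ bA (PhiG Rf A B T1 T2 x) = 1 := by
  obtain ⟨e1, e2⟩ := D.on_B Rf hx h h1
  constructor
  · simp only [bB, e1]
    simp
  · simp only [bA, e2]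
    rw [rotF_sq Rf.he11 Rf.he22 Rf.he12]
    exact h1

theorem mapsTo : MapsTo (PhiG Rf A B T1 T2) Sph Sph := by
  intro x hx
  show MSup.ip _ _ = 1
  rcases strata hx with h | h | h
  · exact (D.image_star Rf h).2.1
  · obtain ⟨e1, e2⟩ := D.image_A Rf hx h.1 h.2
    rw [ip_self_eq, e1, e2]
    norm_num
  · obtain ⟨e1, e2⟩ := D.image_B Rf hx h.1 h.2
    rw [ip_self_eq, e1, e2]
    norm_num

omit D in
theorem rotF_inj {e1 e2 : Fin 2 → ℝ} (h11 : ∑ i, e1 i * e1 i = 1) (h22 : ∑ i, e2 i * e2 i = 1)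
    (h12 : ∑ i, e1 i * e2 i = 0) {t : ℝ} {y y' : Fin 2 → ℝ}
    (h : ∀ j, rotF e1 e2 t y j = rotF e1 e2 t y' j) (j : Fin 2) : y j = y' j := by
  have h1 : rotF e1 e2 t y = rotF e1 e2 t y' := funext h
  rw [← rotF_neg h11 h22 h12 t y j, h1, rotF_neg h11 h22 h12 t y' j]

theorem injOn : InjOn (PhiG Rf A B T1 T2) Sph := by
  intro x hx y hy hxy
  rcases strata hx with h | h | h
  · have h1 := D.image_star Rf h
    rcases strata hy with h' | h' | h'
    · have h2 := D.image_star Rf h'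
      exact (bijOn_Phi Rf D.hk D.hr D.hr1 D.r0 D.rπ).injOn h h' (by rw [← h1.1, hxy, h2.1])
    · have h2 := D.image_A Rf hy h'.1 h'.2
      have h3 := h1.2.2.1
      rw [hxy, h2.1] at h3
      exact absurd h3 (lt_irrefl _)
    · have h2 := D.image_B Rf hy h'.1 h'.2
      have h3 := h1.2.2.2
      rw [hxy, h2.1] at h3
      exact absurd h3 (lt_irrefl _)
  · have h1 := D.image_A Rf hx h.1 h.2
    rcases strata hy with h' | h' | h'
    · have h2 := (D.image_star Rf h').2.2.1
      rw [← hxy, h1.1] at h2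
      exact absurd h2 (lt_irrefl _)
    · obtain ⟨-, e2⟩ := D.on_A Rf hx h.1
      obtain ⟨-, e2'⟩ := D.on_A Rf hy h'.1
      funext i
      rcases i with j | j
      · rw [inl_zero h.1, inl_zero h'.1]
      · exact rotF_inj Rf.hf11 Rf.hf22 Rf.hf12 (y := fun i => x (.inr i))
          (y' := fun i => y (.inr i)) (t := T2 0) (fun j => by rw [← e2, ← e2', hxy]) j
    · have h2 := D.image_B Rf hy h'.1 h'.2
      have h3 := h1.2
      rw [hxy, h2.1] at h3
      norm_num at h3
  · have h1 := D.image_B Rf hx h.1 h.2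
    rcases strata hy with h' | h' | h'
    · have h2 := (D.image_star Rf h').2.2.2
      rw [← hxy, h1.1] at h2
      exact absurd h2 (lt_irrefl _)
    · have h2 := D.image_A Rf hy h'.1 h'.2
      have h3 := h1.2
      rw [hxy, h2.1] at h3
      norm_num at h3
    · obtain ⟨-, e2⟩ := D.on_B Rf hx h.1 h.2
      obtain ⟨-, e2'⟩ := D.on_B Rf hy h'.1 h'.2
      funext i
      rcases i with j | j
      · exact rotF_inj Rf.he11 Rf.he22 Rf.he12 (y := fun i => x (.inl i))
          (y' := fun i => y (.inl i)) (t := T1 (Real.pi / 2))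
          (fun j => by rw [← e2, ← e2', hxy]) j
      · rw [inr_zero h.1, inr_zero h'.1]

theorem surjOn : SurjOn (PhiG Rf A B T1 T2) Sph Sph := by
  intro y hy
  rcases strata hy with h | h | h
  · obtain ⟨x, hx, hxy⟩ := (bijOn_Phi Rf D.hk D.hr D.hr1 D.r0 D.rπ (T1 := T1) (T2 := T2)).surjOn h
    exact ⟨x, hx.1, by rw [(D.image_star Rf hx).1]; exact hxy⟩
  · set x : I4 → ℝ := Sum.elim (fun _ => 0)
      (fun j => rotF Rf.f1 Rf.f2 (-(T2 0)) (fun i => y (.inr i)) j) with hx
    have hA : bA x = 0 := by simp [bA, hx]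
    have hB : bB x = 1 := by
      simp only [bB, hx, Sum.elim_inr]
      rw [rotF_sq Rf.hf11 Rf.hf22 Rf.hf12]
      exact h.2
    have hxS : x ∈ Sph := by
      show MSup.ip x x = 1
      rw [ip_self_eq, hA, hB]
      norm_num
    refine ⟨x, hxS, ?_⟩
    obtain ⟨e1, e2⟩ := D.on_A Rf hxS hA
    funext i
    rcases i with j | j
    · rw [e1, inl_zero h.1]
    · rw [e2]
      simp only [hx, Sum.elim_inr]
      exact rotF_neg' Rf.hf11 Rf.hf22 Rf.hf12 _ _ j
  · set x : I4 → ℝ := Sum.elim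
      (fun j => rotF Rf.e1 Rf.e2 (-(T1 (Real.pi / 2))) (fun i => y (.inl i)) j)
      (fun _ => 0) with hx
    have hB : bB x = 0 := by simp [bB, hx]
    have hA : bA x = 1 := by
      simp only [bA, hx, Sum.elim_inl]
      rw [rotF_sq Rf.he11 Rf.he22 Rf.he12]
      exact h.2
    have hxS : x ∈ Sph := by
      show MSup.ip x x = 1
      rw [ip_self_eq, hA, hB]
      norm_num
    refine ⟨x, hxS, ?_⟩
    obtain ⟨e1, e2⟩ := D.on_B Rf hxS hB hA
    funext i
    rcases i with j | j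
    · rw [e2]
      simp only [hx, Sum.elim_inl]
      exact rotF_neg' Rf.he11 Rf.he22 Rf.he12 _ _ j
    · rw [e1, inr_zero h.1]

theorem bijOn : BijOn (PhiG Rf A B T1 T2) Sph Sph :=
  ⟨D.mapsTo Rf, D.injOn Rf, D.surjOn Rf⟩

end GData

/-- points of a circle are limits of generic points -/
theorem dense_star {x : I4 → ℝ} (hx : x ∈ Sph) : x ∈ closure SStar := by
  rcases strata hx with h | h | h
  · exact subset_closure h
  · -- `x = (0, z)`
    set c : ℝ → (I4 → ℝ) := fun t => Sum.elim (fun j => Real.sin t * if j = 0 then 1 else 0)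
      (fun j => Real.cos t * x (.inr j)) with hc
    have hcont : Continuous c := by
      rw [continuous_pi_iff]
      rintro (j | j)
      · simp only [hc, Sum.elim_inl]
        fun_prop
      · simp only [hc, Sum.elim_inr]
        fun_prop
    have hc0 : c 0 = x := by
      funext i
      rcases i with j | j
      · simp [hc, inl_zero h.1]
      · simp [hc]
    have hmem : ∀ t ∈ Ioo 0 (Real.pi / 2), c t ∈ SStar := by
      intro t ht
      have hs : 0 < Real.sin t :=
        Real.sin_pos_of_pos_of_lt_pi ht.1 (by linarith [ht.2, Real.pi_pos])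
      have hcs : 0 < Real.cos t := Real.cos_pos_of_mem_Ioo ⟨by linarith [ht.1, Real.pi_pos], ht.2⟩
      have hA : bA (c t) = Real.sin t ^ 2 := by
        simp [bA, hc, Fin.sum_univ_two]
      have hB : bB (c t) = Real.cos t ^ 2 := by
        have : bB (c t) = Real.cos t ^ 2 * bB x := by
          simp only [bB, hc, Sum.elim_inr, Finset.mul_sum, mul_pow]
        rw [this, h.2, mul_one]
      refine ⟨?_, ?_, ?_⟩
      · rw [ip_self_eq, hA, hB, Real.sin_sq_add_cos_sq]
      · rw [hA]; positivity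
      · rw [hB]; positivity
    rw [← hc0]
    refine mem_closure_of_tendsto ((hcont.tendsto 0).mono_left (nhdsWithin_le_nhds (s := Ioi 0))) ?_
    filter_upwards [Ioo_mem_nhdsGT (show (0 : ℝ) < Real.pi / 2 by positivity)] with t ht
    exact hmem t ht
  · set c : ℝ → (I4 → ℝ) := fun t => Sum.elim (fun j => Real.cos t * x (.inl j))
      (fun j => Real.sin t * if j = 0 then 1 else 0) with hc
    have hcont : Continuous c := by
      rw [continuous_pi_iff]
      rintro (j | j)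
      · simp only [hc, Sum.elim_inl]
        fun_prop
      · simp only [hc, Sum.elim_inr]
        fun_prop
    have hc0 : c 0 = x := by
      funext i
      rcases i with j | j
      · simp [hc]
      · simp [hc, inr_zero h.1]
    have hmem : ∀ t ∈ Ioo 0 (Real.pi / 2), c t ∈ SStar := by
      intro t ht
      have hs : 0 < Real.sin t :=
        Real.sin_pos_of_pos_of_lt_pi ht.1 (by linarith [ht.2, Real.pi_pos])
      have hcs : 0 < Real.cos t := Real.cos_pos_of_mem_Ioo ⟨by linarith [ht.1, Real.pi_pos], ht.2⟩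
      have hB : bB (c t) = Real.sin t ^ 2 := by
        simp [bB, hc, Fin.sum_univ_two]
      have hA : bA (c t) = Real.cos t ^ 2 := by
        have : bA (c t) = Real.cos t ^ 2 * bA x := by
          simp only [bA, hc, Sum.elim_inl, Finset.mul_sum, mul_pow]
        rw [this, h.2, mul_one]
      refine ⟨?_, ?_, ?_⟩
      · rw [ip_self_eq, hA, hB, Real.cos_sq_add_sin_sq]
      · rw [hA]; positivity
      · rw [hB]; positivity
    rw [← hc0]
    refine mem_closure_of_tendsto ((hcont.tendsto 0).mono_left (nhdsWithin_le_nhds (s := Ioi 0))) ?_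
    filter_upwards [Ioo_mem_nhdsGT (show (0 : ℝ) < Real.pi / 2 by positivity)] with t ht
    exact hmem t ht

end Pool.Agent.TOA
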