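import Pool.Agent.TOS.Vec
import Pool.Agent.MSup.Two

set_option autoImplicit false

/-!
Two independent modes of the integrals of a maximally superintegrable torus invariant metric on
the three-sphere.
-/

namespace Pool.Agent.TOA

open Set Filter Topology
open scoped ContDiff
open Pool.Agent.MSup
open Pool.Agent.TOS (PHam PMode Ca Cb Cc Pol Iψ)

variable {h : I4 → I4 → (I4 → ℝ) → ℝ}

/-- the modes of the polar Hamiltonian -/
abbrev MD (h : I4 → I4 → (I4 → ℝ) → ℝ) (R : Frame 2 2) (m n : ℤ) : Type 1 :=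
  PMode (Qf h R 0 0) (G1 h R) (G2 h R) (AA h R) (BB h R) (CC h R)
    (deriv (Qf h R 0 0)) (deriv (G1 h R)) (deriv (G2 h R)) (deriv (AA h R)) (deriv (BB h R))
    (deriv (CC h R)) m n

/-- A mode of an integral. -/
noncomputable def mode (Y : Hyp h) {R : Frame 2 2} {F : Ph 2 2 → ℝ} (X : Expn R F)
    (hF : MSup.PolyInMomenta F) (hI : IsIntegral (quadHam h) F) (m n : ℤ) {x₁ p₁ L₁ K₁ : ℝ}
    (hx₁ : x₁ ∈ Iψ)
    (hne : ∑ i, ((rho (X.e2 i) (X.e3 i) x₁ * (p₁ ^ X.e1 i * L₁ ^ X.e2 i * K₁ ^ X.e3 i) : ℝ) : ℂ) *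
      fc m n (X.tf i).c x₁ ≠ 0) : MD h R m n where
  ι := X.ι
  e1 := X.e1
  e2 := X.e2
  e3 := X.e3
  c := fun i ψ => ((rho (X.e2 i) (X.e3 i) ψ : ℝ) : ℂ) * fc m n (X.tf i).c ψ
  c' := fun i ψ => ((deriv (rho (X.e2 i) (X.e3 i)) ψ : ℝ) : ℂ) * fc m n (X.tf i).c ψ +
    ((rho (X.e2 i) (X.e3 i) ψ : ℝ) : ℂ) * fc m n (X.tf i).cx ψ
  dc := by
    intro i ψ hψ
    exact ((hasDerivAt_rho _ _ (sin_pos' hψ).ne' (cos_pos' hψ).ne').ofReal_comp).fun_mul
      (hasDerivAt_fc m n (X.tf i).hc (X.tf i).hcx (X.tf i).dx ψ)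
  pde := by
    intro ψ hψ p L K
    have hs := (sin_pos' hψ).ne'
    have hc := (cos_pos' hψ).ne'
    have key : ∀ θ φ, ∑ i, (((deriv (rho (X.e2 i) (X.e3 i)) ψ * Hp h R ψ p L K) *
          p ^ X.e1 i * (L ^ X.e2 i * K ^ X.e3 i) + rho (X.e2 i) (X.e3 i) ψ *
          (X.e1 i * p ^ (X.e1 i - 1) * (-Hψ h R ψ p L K)) * (L ^ X.e2 i * K ^ X.e3 i)) *
            (X.tf i).c (ψ, θ, φ) +
        (rho (X.e2 i) (X.e3 i) ψ * Hp h R ψ p L K * p ^ X.e1 i * (L ^ X.e2 i * K ^ X.e3 i)) *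
            (X.tf i).cx (ψ, θ, φ) +
        (rho (X.e2 i) (X.e3 i) ψ * HL h R ψ p L K * p ^ X.e1 i * (L ^ X.e2 i * K ^ X.e3 i)) *
            (X.tf i).ct (ψ, θ, φ) +
        (rho (X.e2 i) (X.e3 i) ψ * HK h R ψ p L K * p ^ X.e1 i * (L ^ X.e2 i * K ^ X.e3 i)) *
            (X.tf i).cp (ψ, θ, φ)) = 0 := by
      intro θ φ
      have h1 := fderiv_XH hI (R.Psi_mem ψ θ φ p L K)
      rw [← XH_Psi Y R hψ, fderiv_dPsi X hF hs hc] at h1
      rw [← h1]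
      refine Finset.sum_congr rfl fun i _ => ?_
      ring
    have h2 := mode_relation X.tf ψ _ _ _ _ key m n
    rw [Finset.mul_sum, Finset.mul_sum, Finset.mul_sum, ← Finset.sum_sub_distrib,
      ← Finset.sum_add_distrib, ← h2]
    refine Finset.sum_congr rfl fun i _ => ?_
    simp only [Hp, HL, HK, Hψ]
    push_cast
    ring
  ne := by
    refine ⟨x₁, hx₁, p₁, L₁, K₁, ?_⟩
    intro h
    apply hne
    rw [← h]
    refine Finset.sum_congr rfl fun i _ => ?_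
    push_cast
    ring

theorem exists_direction_ne (Y : Hyp h) (R : Frame 2 2) {ψ p L K : ℝ}
    (hψ : ψ ∈ Iψ) (hp : Hp h R ψ p L K ≠ 0) (F : Fin 5 → Ph 2 2 → ℝ)
    (hF : ∀ i, MSup.PolyInMomenta (F i)) (hI : ∀ i, IsIntegral (quadHam h) (F i))
    (hLI : LinearIndependent ℝ (fun i => fderiv ℝ (lift (F i)) (R.Psi ψ 0 0 p L K)))
    {dθ dφ : ℝ} (hd : dθ ≠ 0 ∨ dφ ≠ 0) :
    ∃ i, fderiv ℝ (lift (F i)) (R.Psi ψ 0 0 p L K) (R.dPsi ψ 0 0 p L K 0 dθ dφ 0) ≠ 0 := by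
  have hs := (sin_pos' hψ).ne'
  have hc := (cos_pos' hψ).ne'
  have hz := R.Psi_mem ψ 0 0 p L K
  by_contra hcon
  push Not at hcon
  set z := R.Psi ψ 0 0 p L K with hzdef
  refine rank_contra (N := 5) (M := 4) (fun i => fderiv ℝ (lift (F i)) z) hLI
    ![(z.1, -z.2), (0, z.1), XH (quadHam h) z, R.dPsi ψ 0 0 p L K 0 dθ dφ 0] ?_ ?_ ?_
  · rw [Fintype.linearIndependent_iff]
    intro g hg
    rw [Fin.sum_univ_four] at hg
    simp only [Matrix.cons_val_zero, Matrix.cons_val_one, Matrix.cons_val] at hg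
    rw [add_assoc, hzdef, ← XH_Psi Y R hψ, R.dPsi_comb] at hg
    obtain ⟨h0, h1, h2, h3, h4⟩ := R.dPsi_indep hs hc _ _ _ _ _ _ _ _ _ _ _ hg
    have g2 : g 2 = 0 := by
      rw [mul_zero, add_zero] at h2
      exact (mul_eq_zero.1 h2).resolve_right hp
    rw [g2, zero_mul, zero_add] at h3 h4
    have g3 : g 3 = 0 := by
      rcases hd with h | h
      · exact (mul_eq_zero.1 h3).resolve_right h
      · exact (mul_eq_zero.1 h4).resolve_right h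
    intro i
    fin_cases i
    · exact h0
    · exact h1
    · exact g2
    · exact g3
  · have : Module.finrank ℝ (Ph 2 2) = 8 := by
      rw [Module.finrank_prod, Module.finrank_fintype_fun_eq_card, Fintype.card_sum,
        Fintype.card_fin]
    rw [this]
    norm_num
  · intro i j
    have hdi : DifferentiableAt ℝ (lift (F i)) z :=
      (contDiffAt_lift (hF i) (TS_pos hz)).differentiableAt (by simp)
    fin_cases j
    · exact fderiv_lift_scale (TS_pos hz) hdi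
    · exact fderiv_lift_shift (TS_pos hz) hdi
    · exact fderiv_XH (hI i) hz
    · exact hcon i

theorem mode_of_ne (Y : Hyp h) (R : Frame 2 2) {ψ p L K : ℝ}
    (hψ : ψ ∈ Iψ) {F : Ph 2 2 → ℝ} (hF : MSup.PolyInMomenta F) (hI : IsIntegral (quadHam h) F)
    {dθ dφ : ℝ}
    (hne : fderiv ℝ (lift F) (R.Psi ψ 0 0 p L K) (R.dPsi ψ 0 0 p L K 0 dθ dφ 0) ≠ 0) :
    ∃ m n : ℤ, dθ * m + dφ * n ≠ 0 ∧ Nonempty (MD h R m n) := by
  have hs := (sin_pos' hψ).ne'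
  have hc := (cos_pos' hψ).ne'
  obtain ⟨X⟩ := exists_expn R hF
  rw [fderiv_dPsi X hF hs hc] at hne
  have h2 : ∑ i, (rho (X.e2 i) (X.e3 i) ψ * (p ^ X.e1 i * L ^ X.e2 i * K ^ X.e3 i)) *
      (dθ * (X.tf i).ct (ψ, 0, 0) + dφ * (X.tf i).cp (ψ, 0, 0)) ≠ 0 := by
    intro h3
    apply hne
    refine Eq.trans (Finset.sum_congr rfl fun i _ => ?_) h3
    ring
  obtain ⟨m, n, hmn, hne'⟩ := exists_mode X.tf ψ 0 0 dθ dφ _ h2
  exact ⟨m, n, hmn, ⟨mode Y X hF hI m n hψ hne'⟩⟩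

/-- the value of `sin cos ∂H/∂p` as a function on the phase space -/
noncomputable def GG (h : I4 → I4 → (I4 → ℝ) → ℝ) (z : Ph 2 2) : ℝ :=
  ∑ i, ∑ j, (h i j z.1 + h j i z.1) / 2 * z.2 i *
    (Sum.elim (fun j => sB z * z.1 (.inl j)) (fun j => -(sA z * z.1 (.inr j))) : I4 → ℝ) j

theorem cont_GG (hh : ∀ i j, ContDiff ℝ ∞ (h i j)) : Continuous (GG h) := by
  unfold GG
  have h3 := cont_sA (a := 2) (b := 2)
  have h4 := cont_sB (a := 2) (b := 2)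
  refine continuous_finsetSum _ fun i _ => continuous_finsetSum _ fun j _ => ?_
  have h1 := (hh i j).continuous
  have h2 := (hh j i).continuous
  refine Continuous.mul (by fun_prop) ?_
  rcases j with j | j
  · simp only [Sum.elim_inl]
    fun_prop
  · simp only [Sum.elim_inr]
    fun_prop

theorem GG_Psi (Y : Hyp h) (R : Frame 2 2) {ψ : ℝ} (hψ : ψ ∈ Iψ) (p L K : ℝ) :
    GG h (R.Psi ψ 0 0 p L K) = Real.sin ψ * Real.cos ψ * Hp h R ψ p L K := by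
  have hs := (sin_pos' hψ).ne'
  have hc := (cos_pos' hψ).ne'
  have hW := ((Y.pol R).Wpos ψ).ne'
  have e1 : ∀ i, (R.Psi ψ 0 0 p L K).2 i = p * coef R 0 (ψ, 0, 0) i +
      L / Real.sin ψ * coef R 1 (ψ, 0, 0) i + K / Real.cos ψ * coef R 2 (ψ, 0, 0) i := by
    intro i
    rcases i with j | j <;> simp [Frame.Psi, Frame.Pm, coef]
  have e2 : ∀ j, (Sum.elim (fun j => sB (R.Psi ψ 0 0 p L K) * (R.Psi ψ 0 0 p L K).1 (.inl j))
      (fun j => -(sA (R.Psi ψ 0 0 p L K) * (R.Psi ψ 0 0 p L K).1 (.inr j))) : I4 → ℝ) j =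
      Real.sin ψ * Real.cos ψ * coef R 0 (ψ, 0, 0) j := by
    rintro (j | j)
    · simp only [Sum.elim_inl, R.sB_Psi]
      simp only [Frame.Psi, Frame.X, coef, Sum.elim_inl]
      ring
    · simp only [Sum.elim_inr, R.sA_Psi]
      simp only [Frame.Psi, Frame.X, coef, Sum.elim_inr]
      ring
  have e3 : GG h (R.Psi ψ 0 0 p L K) = Real.sin ψ * Real.cos ψ * (p * Qf h R 0 0 ψ +
      L / Real.sin ψ * Qf h R 1 0 ψ + K / Real.cos ψ * Qf h R 2 0 ψ) := by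
    unfold GG
    simp only [e1, e2]
    have e4 : (R.Psi ψ 0 0 p L K).1 = R.X ψ 0 0 := rfl
    simp only [e4, Qf, Finset.mul_sum, ← Finset.sum_add_distrib]
    exact Finset.sum_congr rfl fun i _ => Finset.sum_congr rfl fun j _ => by ring
  rw [e3, Qf_symm h R 1 0, Qf_symm h R 2 0]
  simp only [Hp, G1, G2]
  field_simp

/-- Two independent modes. -/
theorem exists_modes (Y : Hyp h) (hM : MSup.MaxSuperintegrable (quadHam h)) :
    ∃ (R : Frame 2 2) (m₁ n₁ m₂ n₂ : ℤ), m₁ * n₂ - m₂ * n₁ ≠ 0 ∧ Nonempty (MD h R m₁ n₁) ∧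
      Nonempty (MD h R m₂ n₂) := by
  obtain ⟨F, hF, hI, U, hU, hUd, hLI⟩ := hM
  -- a generic point
  obtain ⟨z₁, hz₁, hg₁, hG₁⟩ : ∃ z ∈ TS I4, z ∈ gen 2 2 ∧ GG h z ≠ 0 := by
    set R := stdFrame le_rfl le_rfl
    have h4 : (Real.pi / 4) ∈ Iψ := ⟨by positivity, by linarith [Real.pi_pos]⟩
    have hs : 0 < Real.sin (Real.pi / 4) := sin_pos' h4
    have hc : 0 < Real.cos (Real.pi / 4) := cos_pos' h4
    have hW := (Y.pol R).Wpos (Real.pi / 4)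
    have hg : ∀ p : ℝ, 0 < p → R.Psi (Real.pi / 4) 0 0 p 1 1 ∈ gen 2 2 := by
      intro p hp
      refine ⟨?_, ?_, ?_, ?_, ?_⟩
      · rw [R.sA_Psi]; positivity
      · rw [R.sB_Psi]; positivity
      · rw [R.se_Psi]; positivity
      · rw [R.sA_Psi, R.sa_Psi, R.se_Psi]
        have : Real.sin (Real.pi / 4) ^ 2 * (p ^ 2 * Real.cos (Real.pi / 4) ^ 2 +
            (1 / Real.sin (Real.pi / 4)) ^ 2) -
            (p * Real.sin (Real.pi / 4) * Real.cos (Real.pi / 4)) ^ 2 = 1 := by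
          field_simp
          ring
        rw [this]
        exact one_pos
      · rw [R.sB_Psi, R.sb_Psi, R.sf_Psi]
        have : Real.cos (Real.pi / 4) ^ 2 * (p ^ 2 * Real.sin (Real.pi / 4) ^ 2 +
            (1 / Real.cos (Real.pi / 4)) ^ 2) -
            (-(p * Real.sin (Real.pi / 4) * Real.cos (Real.pi / 4))) ^ 2 = 1 := by
          field_simp
          ring
        rw [this]
        exact one_pos
    by_cases h1 : Hp h R (Real.pi / 4) 1 1 1 = 0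
    · refine ⟨R.Psi (Real.pi / 4) 0 0 2 1 1, R.Psi_mem _ _ _ _ _ _, hg 2 two_pos, ?_⟩
      rw [GG_Psi Y R h4]
      refine mul_ne_zero (mul_pos hs hc).ne' ?_
      have : Hp h R (Real.pi / 4) 2 1 1 = Hp h R (Real.pi / 4) 1 1 1 +
          Qf h R 0 0 (Real.pi / 4) := by
        unfold Hp
        ring
      rw [this, h1, zero_add]
      exact hW.ne'
    · refine ⟨R.Psi (Real.pi / 4) 0 0 1 1 1, R.Psi_mem _ _ _ _ _ _, hg 1 one_pos, ?_⟩
      rw [GG_Psi Y R h4]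
      exact mul_ne_zero (mul_pos hs hc).ne' h1
  have hopen : IsOpen (gen 2 2 ∩ {z | GG h z ≠ 0}) :=
    isOpen_gen.inter (isOpen_ne_fun (cont_GG Y.hh) continuous_const)
  obtain ⟨z, ⟨hzg, hzG⟩, hzU, hzT⟩ := mem_closure_iff.1 (hUd hz₁) _ hopen ⟨hg₁, hG₁⟩
  obtain ⟨R, ψ, p, L, K, hψ, hp, rfl⟩ := exists_frame hzT hzg
  have hL := hLI _ ⟨hzU, hzT⟩
  have hHp : Hp h R ψ p L K ≠ 0 := by
    intro h0
    apply hzG
    rw [GG_Psi Y R hψ, h0, mul_zero]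
  obtain ⟨i, hi⟩ := exists_direction_ne Y R hψ hHp F hF hI hL (dθ := 1) (dφ := 0)
    (Or.inl one_ne_zero)
  obtain ⟨m₁, n₁, h1, M1⟩ := mode_of_ne Y R hψ (hF i) (hI i) hi
  have hm : (m₁ : ℝ) ≠ 0 := by simpa using h1
  obtain ⟨j, hj⟩ := exists_direction_ne Y R hψ hHp F hF hI hL (dθ := -(n₁ : ℝ)) (dφ := (m₁ : ℝ))
    (Or.inr hm)
  obtain ⟨m₂, n₂, h2, M2⟩ := mode_of_ne Y R hψ (hF j) (hI j) hj
  refine ⟨R, m₁, n₁, m₂, n₂, ?_, M1, M2⟩
  intro h0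
  apply h2
  have h3 : ((m₁ * n₂ - m₂ * n₁ : ℤ) : ℝ) = 0 := by rw [h0]; simp
  push_cast at h3
  linarith

end Pool.Agent.TOA
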