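import Pool.Agent.TOS.Vec
import Pool.Agent.TOS.Hada

set_option autoImplicit false

/-!
Parities of the polar coefficients.
-/

namespace Pool.Agent.TOA

open Set Filter Topology
open scoped ContDiff
open Pool.Agent.MSup
open Pool.Agent.TOS (Iψ)

variable {h : I4 → I4 → (I4 → ℝ) → ℝ}

theorem V3_neg (hH : TorusInvariant (quadHam h)) (R : Frame 2 2) (ψ x y z : ℝ) :
    quadHam h (R.X (-ψ) 0 0, V3 R (-ψ) x y z) = quadHam h (R.X ψ 0 0, V3 R ψ (-x) (-y) z) := by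
  rw [← hH Real.pi 0 _ (V3_mem R (-ψ) x y z)]
  congr 1
  refine Prod.ext (funext ?_) (funext ?_) <;> rintro (j | j) <;> fin_cases j <;>
    simp [Frame.X, V3, coef, rot, Frame.er, Frame.et, Frame.fr, Frame.ft] <;> ring

theorem V3_pi_sub (hH : TorusInvariant (quadHam h)) (R : Frame 2 2) (ψ x y z : ℝ) :
    quadHam h (R.X (Real.pi - ψ) 0 0, V3 R (Real.pi - ψ) x y z) =
      quadHam h (R.X ψ 0 0, V3 R ψ (-x) y (-z)) := by
  rw [← hH 0 Real.pi _ (V3_mem R (Real.pi - ψ) x y z)]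
  congr 1
  refine Prod.ext (funext ?_) (funext ?_) <;> rintro (j | j) <;> fin_cases j <;>
    simp [Frame.X, V3, coef, rot, Frame.er, Frame.et, Frame.fr, Frame.ft] <;> ring

theorem Qf_neg (hH : TorusInvariant (quadHam h)) (R : Frame 2 2) (ψ : ℝ) :
    Qf h R 0 0 (-ψ) = Qf h R 0 0 ψ ∧ Qf h R 0 1 (-ψ) = Qf h R 0 1 ψ ∧
      Qf h R 0 2 (-ψ) = -Qf h R 0 2 ψ := by
  have H : ∀ x y z : ℝ, Qf h R 0 0 (-ψ) * x ^ 2 + Qf h R 1 1 (-ψ) * y ^ 2 +
      Qf h R 2 2 (-ψ) * z ^ 2 + 2 * Qf h R 0 1 (-ψ) * x * y + 2 * Qf h R 0 2 (-ψ) * x * z +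
      2 * Qf h R 1 2 (-ψ) * y * z =
      Qf h R 0 0 ψ * x ^ 2 + Qf h R 1 1 ψ * y ^ 2 + Qf h R 2 2 ψ * z ^ 2 +
      2 * Qf h R 0 1 ψ * x * y + 2 * (-Qf h R 0 2 ψ) * x * z +
      2 * (-Qf h R 1 2 ψ) * y * z := by
    intro x y z
    have h1 := V3_neg hH R ψ x y z
    rw [quadHam_V3, quadHam_V3] at h1
    linarith
  obtain ⟨e1, -, -, e2, e3, -⟩ := coef_eq H
  exact ⟨e1, e2, e3⟩

theorem Qf_pi_sub (hH : TorusInvariant (quadHam h)) (R : Frame 2 2) (ψ : ℝ) :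
    Qf h R 0 0 (Real.pi - ψ) = Qf h R 0 0 ψ ∧ Qf h R 0 1 (Real.pi - ψ) = -Qf h R 0 1 ψ ∧
      Qf h R 0 2 (Real.pi - ψ) = Qf h R 0 2 ψ := by
  have H : ∀ x y z : ℝ, Qf h R 0 0 (Real.pi - ψ) * x ^ 2 + Qf h R 1 1 (Real.pi - ψ) * y ^ 2 +
      Qf h R 2 2 (Real.pi - ψ) * z ^ 2 + 2 * Qf h R 0 1 (Real.pi - ψ) * x * y +
      2 * Qf h R 0 2 (Real.pi - ψ) * x * z + 2 * Qf h R 1 2 (Real.pi - ψ) * y * z =
      Qf h R 0 0 ψ * x ^ 2 + Qf h R 1 1 ψ * y ^ 2 + Qf h R 2 2 ψ * z ^ 2 +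
      2 * (-Qf h R 0 1 ψ) * x * y + 2 * Qf h R 0 2 ψ * x * z +
      2 * (-Qf h R 1 2 ψ) * y * z := by
    intro x y z
    have h1 := V3_pi_sub hH R ψ x y z
    rw [quadHam_V3, quadHam_V3] at h1
    linarith
  obtain ⟨e1, -, -, e2, e3, -⟩ := coef_eq H
  exact ⟨e1, e2, e3⟩

/-- the interval `(-π/2, π)` -/
abbrev JJ : Set ℝ := Ioo (-(Real.pi / 2)) Real.pi

/-- Smooth functions of `ψ`, even about `0` and about `π/2`. -/
structure ClassS (f : ℝ → ℝ) : Prop where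
  sm : ContDiffOn ℝ ∞ f JJ
  ev0 : ∀ ψ ∈ Ioo (-(Real.pi / 2)) (Real.pi / 2), f (-ψ) = f ψ
  ev1 : ∀ ψ ∈ Ioo 0 Real.pi, f (Real.pi - ψ) = f ψ


/-- division by the sine at `0` -/
theorem quot_sin {f : ℝ → ℝ} (hf : ContDiff ℝ ∞ f) (h0 : f 0 = 0) :
    ∃ q : ℝ → ℝ, ContDiffOn ℝ ∞ q (Ioo (-Real.pi) Real.pi) ∧
      (∀ x ∈ Ioo (-Real.pi) Real.pi, f x = Real.sin x * q x) ∧ q 0 = deriv f 0 ∧
      ((∀ x, f (-x) = -f x) → ∀ x, q (-x) = q x) ∧ ((∀ x, f (-x) = f x) → ∀ x, q (-x) = -q x) := by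
  obtain ⟨f₁, sf, ef, of, vf⟩ := TOS.hadamard hf h0
  obtain ⟨s₁, ss, es, os, -⟩ := TOS.hadamard Real.contDiff_sin Real.sin_zero
  have hs1 : ∀ x, s₁ (-x) = s₁ x := os fun x => Real.sin_neg x
  have d0 : ∀ {g g₁ : ℝ → ℝ}, ContDiff ℝ ∞ g₁ → (∀ x, g x = x * g₁ x) → HasDerivAt g (g₁ 0) 0 := by
    intro g g₁ sg eg
    have h1 : HasDerivAt (fun x => x * g₁ x) (1 * g₁ 0 + 0 * deriv g₁ 0) 0 :=
      (hasDerivAt_id (0 : ℝ)).fun_mul ((sg.differentiable (by simp) 0).hasDerivAt)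
    have h2 : g = fun x => x * g₁ x := funext eg
    rw [h2]
    refine h1.congr_deriv ?_
    ring
  have hs0 : s₁ 0 = 1 := by
    have := (d0 ss es).unique (Real.hasDerivAt_sin 0)
    simpa using this
  have hne : ∀ x ∈ Ioo (-Real.pi) Real.pi, s₁ x ≠ 0 := by
    intro x hx h1
    rcases eq_or_ne x 0 with rfl | hx0
    · rw [hs0] at h1
      exact one_ne_zero h1
    · have h2 := es x
      rw [h1, mul_zero] at h2
      exact hx0 (((Real.sin_eq_zero_iff_of_lt_of_lt hx.1 hx.2).1 h2))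
  refine ⟨fun x => f₁ x / s₁ x, ?_, ?_, ?_, ?_, ?_⟩
  · exact sf.contDiffOn.div ss.contDiffOn hne
  · intro x hx
    have := hne x hx
    rw [es x, ef x]
    field_simp
  · simp only [hs0, div_one]
    exact ((d0 sf ef).deriv).symm
  · intro ho x
    simp only [hs1, of ho]
  · intro he x
    simp only [hs1, vf he]
    ring

/-- division by the cosine at `π/2` -/
theorem quot_cos {f : ℝ → ℝ} (hf : ContDiff ℝ ∞ f) (h0 : f (Real.pi / 2) = 0) :
    ∃ q : ℝ → ℝ, ContDiffOn ℝ ∞ q (Ioo (-(Real.pi / 2)) (3 * Real.pi / 2)) ∧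
      (∀ x ∈ Ioo (-(Real.pi / 2)) (3 * Real.pi / 2), f x = Real.cos x * q x) ∧
      q (Real.pi / 2) = -deriv f (Real.pi / 2) ∧
      ((∀ x, f (Real.pi - x) = -f x) → ∀ x, q (Real.pi - x) = q x) ∧
      ((∀ x, f (Real.pi - x) = f x) → ∀ x, q (Real.pi - x) = -q x) := by
  have hc : ContDiff ℝ ∞ fun x : ℝ => Real.pi / 2 - x := by fun_prop
  have hg : ContDiff ℝ ∞ fun x => f (Real.pi / 2 - x) := hf.comp hc
  obtain ⟨q, sq, eq, q0, qo, qe⟩ := quot_sin hg (by simpa using h0)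
  have hm : ∀ x ∈ Ioo (-(Real.pi / 2)) (3 * Real.pi / 2), Real.pi / 2 - x ∈
      Ioo (-Real.pi) Real.pi := fun x hx => ⟨by linarith [hx.2], by linarith [hx.1]⟩
  have e1 : ∀ x, Real.pi / 2 - (Real.pi - x) = -(Real.pi / 2 - x) := fun x => by ring
  refine ⟨fun x => q (Real.pi / 2 - x), sq.comp hc.contDiffOn hm, ?_, ?_, ?_, ?_⟩
  · intro x hx
    have h1 := eq _ (hm x hx)
    rw [Real.sin_pi_div_two_sub] at h1
    simpa using h1
  · simp only [sub_self, q0]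
    have h1 : HasDerivAt (fun x => f (Real.pi / 2 - x)) (-deriv f (Real.pi / 2)) 0 := by
      have h2 : HasDerivAt f (deriv f (Real.pi / 2)) (Real.pi / 2 - 0) := by
        rw [sub_zero]
        exact (hf.differentiable (by simp) _).hasDerivAt
      exact h2.comp_const_sub (Real.pi / 2) 0
    exact h1.deriv
  · intro ho x
    simp only [e1]
    refine qo (fun y => ?_) _
    have := ho (Real.pi / 2 - y)
    have e2 : Real.pi - (Real.pi / 2 - y) = Real.pi / 2 - -y := by ring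
    rw [e2] at this
    exact this
  · intro he x
    simp only [e1]
    refine qe (fun y => ?_) _
    have := he (Real.pi / 2 - y)
    have e2 : Real.pi - (Real.pi / 2 - y) = Real.pi / 2 - -y := by ring
    rw [e2] at this
    exact this

theorem sub_JJ_sin : JJ ⊆ Ioo (-Real.pi) Real.pi := fun x hx =>
  ⟨by linarith [hx.1, Real.pi_pos], hx.2⟩

theorem sub_JJ_cos : JJ ⊆ Ioo (-(Real.pi / 2)) (3 * Real.pi / 2) := fun x hx =>
  ⟨hx.1, by linarith [hx.2, Real.pi_pos]⟩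

theorem Iψ_sub_JJ : Iψ ⊆ JJ := fun x hx =>
  ⟨by linarith [hx.1, Real.pi_pos], by linarith [hx.2, Real.pi_pos]⟩

/-- antiderivative of an odd function -/
theorem classS_antideriv {g : ℝ → ℝ} (hg : ContDiffOn ℝ ∞ g JJ)
    (o0 : ∀ ψ ∈ Ioo (-(Real.pi / 2)) (Real.pi / 2), g (-ψ) = -g ψ)
    (o1 : ∀ ψ ∈ Ioo 0 Real.pi, g (Real.pi - ψ) = -g ψ) :
    ∃ T : ℝ → ℝ, ClassS T ∧ ∀ ψ ∈ JJ, HasDerivAt T (g ψ) ψ := by
  have hπ := Real.pi_pos
  have h4 : (Real.pi / 4) ∈ JJ := ⟨by linarith, by linarith⟩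
  set T : ℝ → ℝ := fun ψ => ∫ t in (Real.pi / 4)..ψ, g t with hT
  have hd : ∀ ψ ∈ JJ, HasDerivAt T (g ψ) ψ := by
    intro ψ hψ
    have hsub : uIcc (Real.pi / 4) ψ ⊆ JJ := by
      intro x hx
      rw [mem_uIcc] at hx
      rcases hx with hx | hx
      · exact ⟨lt_of_lt_of_le h4.1 hx.1, lt_of_le_of_lt hx.2 hψ.2⟩
      · exact ⟨lt_of_lt_of_le hψ.1 hx.1, lt_of_le_of_lt hx.2 h4.2⟩
    have hint : IntervalIntegrable g MeasureTheory.volume (Real.pi / 4) ψ :=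
      (hg.continuousOn.mono hsub).intervalIntegrable
    have hcont : ContinuousAt g ψ := hg.continuousOn.continuousAt (isOpen_Ioo.mem_nhds hψ)
    have hmeas : StronglyMeasurableAtFilter g (𝓝 ψ) MeasureTheory.volume :=
      hg.continuousOn.stronglyMeasurableAtFilter isOpen_Ioo ψ hψ
    exact intervalIntegral.integral_hasDerivAt_right hint hmeas hcont
  refine ⟨T, ⟨?_, ?_, ?_⟩, hd⟩
  · have h1 : ContDiffOn ℝ (∞ + 1) T JJ := by
      rw [contDiffOn_succ_iff_deriv_of_isOpen isOpen_Ioo]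
      refine ⟨fun ψ hψ => (hd ψ hψ).differentiableAt.differentiableWithinAt, by simp, ?_⟩
      exact hg.congr fun ψ hψ => (hd ψ hψ).deriv
    exact h1.of_le (by simp)
  · -- even about `0`
    have hm : ∀ ψ ∈ Ioo (-(Real.pi / 2)) (Real.pi / 2), ψ ∈ JJ ∧ -ψ ∈ JJ := fun ψ hψ =>
      ⟨⟨hψ.1, by linarith [hψ.2]⟩, ⟨by linarith [hψ.2], by linarith [hψ.1]⟩⟩
    have hder : ∀ ψ ∈ Ioo (-(Real.pi / 2)) (Real.pi / 2),
        HasDerivAt (fun ψ => T (-ψ) - T ψ) 0 ψ := by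
      intro ψ hψ
      have h2 : HasDerivAt (fun ψ => T (-ψ)) (-g (-ψ)) ψ := by
        have := (hd _ (hm ψ hψ).2).comp ψ (hasDerivAt_neg ψ)
        refine this.congr_deriv ?_
        ring
      refine (h2.fun_sub (hd ψ (hm ψ hψ).1)).congr_deriv ?_
      rw [o0 ψ hψ]
      ring
    intro ψ hψ
    have h5 := (convex_Ioo (-(Real.pi / 2)) (Real.pi / 2)).is_const_of_fderivWithin_eq_zero
      (f := fun ψ => T (-ψ) - T ψ) (𝕜 := ℝ)
      (fun y hy => (hder y hy).differentiableAt.differentiableWithinAt)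
      (fun y hy => by
        rw [fderivWithin_eq_fderiv (isOpen_Ioo.uniqueDiffWithinAt hy)
          (hder y hy).differentiableAt]
        ext
        simp [(hder y hy).deriv]) hψ (show (0 : ℝ) ∈ Ioo (-(Real.pi / 2)) (Real.pi / 2) from
          ⟨by linarith, by linarith⟩)
    simp only [neg_zero, sub_self] at h5
    linarith
  · have hm : ∀ ψ ∈ Ioo 0 Real.pi, ψ ∈ JJ ∧ Real.pi - ψ ∈ JJ := fun ψ hψ =>
      ⟨⟨by linarith [hψ.1], hψ.2⟩, ⟨by linarith [hψ.2], by linarith [hψ.1]⟩⟩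
    have hder : ∀ ψ ∈ Ioo 0 Real.pi, HasDerivAt (fun ψ => T (Real.pi - ψ) - T ψ) 0 ψ := by
      intro ψ hψ
      have h2 : HasDerivAt (fun ψ => T (Real.pi - ψ)) (-g (Real.pi - ψ)) ψ :=
        (hd _ (hm ψ hψ).2).comp_const_sub Real.pi ψ
      refine (h2.fun_sub (hd ψ (hm ψ hψ).1)).congr_deriv ?_
      rw [o1 ψ hψ]
      ring
    intro ψ hψ
    have h5 := (convex_Ioo 0 Real.pi).is_const_of_fderivWithin_eq_zero
      (f := fun ψ => T (Real.pi - ψ) - T ψ) (𝕜 := ℝ)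
      (fun y hy => (hder y hy).differentiableAt.differentiableWithinAt)
      (fun y hy => by
        rw [fderivWithin_eq_fderiv (isOpen_Ioo.uniqueDiffWithinAt hy)
          (hder y hy).differentiableAt]
        ext
        simp [(hder y hy).deriv]) hψ (show (Real.pi / 2) ∈ Ioo 0 Real.pi from
          ⟨by linarith, by linarith⟩)
    have e : Real.pi - Real.pi / 2 = Real.pi / 2 := by ring
    simp only [e, sub_self] at h5
    linarith

end Pool.Agent.TOA
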