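import Pool.Agent.TOS.Par

set_option autoImplicit false

/-!
The four functions of class `S`.
-/

namespace Pool.Agent.TOA

open Set Filter Topology
open scoped ContDiff
open Pool.Agent.MSup
open Pool.Agent.TOS (Iψ)

variable {h : I4 → I4 → (I4 → ℝ) → ℝ}

theorem exists_T1 (Y : Hyp h) (R : Frame 2 2) :
    ∃ T : ℝ → ℝ, ClassS T ∧ ∀ ψ ∈ Iψ, HasDerivAt T (G1 h R ψ) ψ := by
  have hπ := Real.pi_pos
  have P := Y.pol R
  obtain ⟨q, sq, eq, -, -, qe⟩ := quot_sin (contDiff_Qf Y.hh R 0 1) P.z1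
  have hq : ∀ ψ, q (-ψ) = -q ψ := qe fun ψ => (Qf_neg Y.inv R ψ).2.1
  obtain ⟨T, hT, hTd⟩ := classS_antideriv (g := fun ψ => q ψ / Qf h R 0 0 ψ)
    ((sq.mono sub_JJ_sin).div (contDiff_Qf Y.hh R 0 0).contDiffOn fun ψ _ => (P.Wpos ψ).ne')
    (fun ψ _ => by
      simp only [hq, (Qf_neg Y.inv R ψ).1]
      ring)
    (fun ψ hψ => by
      have h1 : ψ ∈ Ioo (-Real.pi) Real.pi := ⟨by linarith [hψ.1], hψ.2⟩
      have h2 : Real.pi - ψ ∈ Ioo (-Real.pi) Real.pi := ⟨by linarith [hψ.2], by linarith [hψ.1]⟩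
      have h3 := eq ψ h1
      have h4 := eq _ h2
      rw [Real.sin_pi_sub, (Qf_pi_sub Y.inv R ψ).2.1, h3] at h4
      have hs : Real.sin ψ ≠ 0 := (Real.sin_pos_of_pos_of_lt_pi hψ.1 hψ.2).ne'
      have h5 : q (Real.pi - ψ) = -q ψ := by
        apply mul_left_cancel₀ hs
        linarith
      simp only [h5, (Qf_pi_sub Y.inv R ψ).1]
      ring)
  refine ⟨T, hT, fun ψ hψ => (hTd ψ (Iψ_sub_JJ hψ)).congr_deriv ?_⟩
  have hs := (sin_pos' hψ).ne'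
  have hW := (P.Wpos ψ).ne'
  rw [G1, eq ψ (sub_JJ_sin (Iψ_sub_JJ hψ))]
  field_simp

theorem exists_T2 (Y : Hyp h) (R : Frame 2 2) :
    ∃ T : ℝ → ℝ, ClassS T ∧ ∀ ψ ∈ Iψ, HasDerivAt T (G2 h R ψ) ψ := by
  have hπ := Real.pi_pos
  have P := Y.pol R
  obtain ⟨q, sq, eq, -, -, qe⟩ := quot_cos (contDiff_Qf Y.hh R 0 2) P.e2
  have hq : ∀ ψ, q (Real.pi - ψ) = -q ψ := qe fun ψ => (Qf_pi_sub Y.inv R ψ).2.2
  obtain ⟨T, hT, hTd⟩ := classS_antideriv (g := fun ψ => q ψ / Qf h R 0 0 ψ)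
    ((sq.mono sub_JJ_cos).div (contDiff_Qf Y.hh R 0 0).contDiffOn fun ψ _ => (P.Wpos ψ).ne')
    (fun ψ hψ => by
      have h1 : ψ ∈ Ioo (-(Real.pi / 2)) (3 * Real.pi / 2) := ⟨hψ.1, by linarith [hψ.2]⟩
      have h2 : -ψ ∈ Ioo (-(Real.pi / 2)) (3 * Real.pi / 2) :=
        ⟨by linarith [hψ.2], by linarith [hψ.1]⟩
      have h3 := eq ψ h1
      have h4 := eq _ h2
      rw [Real.cos_neg, (Qf_neg Y.inv R ψ).2.2, h3] at h4
      have hs : Real.cos ψ ≠ 0 := (Real.cos_pos_of_mem_Ioo hψ).ne'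
      have h5 : q (-ψ) = -q ψ := by
        apply mul_left_cancel₀ hs
        linarith
      simp only [h5, (Qf_neg Y.inv R ψ).1]
      ring)
    (fun ψ _ => by
      simp only [hq, (Qf_pi_sub Y.inv R ψ).1]
      ring)
  refine ⟨T, hT, fun ψ hψ => (hTd ψ (Iψ_sub_JJ hψ)).congr_deriv ?_⟩
  have hs := (cos_pos' hψ).ne'
  have hW := (P.Wpos ψ).ne'
  rw [G2, eq ψ (sub_JJ_cos (Iψ_sub_JJ hψ))]
  field_simp

section rad

variable {W r : ℝ → ℝ} (hW : ∀ ψ, 0 < W ψ) (hWn : ∀ ψ, W (-ψ) = W ψ)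
  (hWp : ∀ ψ, W (Real.pi - ψ) = W ψ) (hr0 : r 0 = 0)
  (hrd : ∀ ψ, HasDerivAt r (1 / Real.sqrt (W ψ)) ψ)

include hWn hr0 hrd

theorem r_odd (ψ : ℝ) : r (-ψ) = -r ψ := by
  have hder : ∀ ψ, HasDerivAt (fun ψ => r (-ψ) + r ψ) 0 ψ := by
    intro ψ
    have h2 : HasDerivAt (fun ψ => r (-ψ)) (-(1 / Real.sqrt (W (-ψ)))) ψ := by
      have := (hrd (-ψ)).comp ψ (hasDerivAt_neg ψ)
      refine this.congr_deriv ?_
      ring
    refine (h2.fun_add (hrd ψ)).congr_deriv ?_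
    rw [hWn]
    ring
  have h1 := is_const_of_deriv_eq_zero (f := fun ψ => r (-ψ) + r ψ)
    (fun ψ => (hder ψ).differentiableAt) (fun ψ => (hder ψ).deriv) ψ 0
  simp only [neg_zero, hr0, add_zero] at h1
  linarith

omit hWn hr0 in
include hWp in
theorem r_pi_sub (ψ : ℝ) : r (Real.pi - ψ) = 2 * r (Real.pi / 2) - r ψ := by
  have hder : ∀ ψ, HasDerivAt (fun ψ => r (Real.pi - ψ) + r ψ) 0 ψ := by
    intro ψ
    have h2 : HasDerivAt (fun ψ => r (Real.pi - ψ)) (-(1 / Real.sqrt (W (Real.pi - ψ)))) ψ :=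
      (hrd (Real.pi - ψ)).comp_const_sub Real.pi ψ
    refine (h2.fun_add (hrd ψ)).congr_deriv ?_
    rw [hWp]
    ring
  have h1 := is_const_of_deriv_eq_zero (f := fun ψ => r (Real.pi - ψ) + r ψ)
    (fun ψ => (hder ψ).differentiableAt) (fun ψ => (hder ψ).deriv) ψ (Real.pi / 2)
  have e : Real.pi - Real.pi / 2 = Real.pi / 2 := by ring
  simp only [e] at h1
  linarith

include hW hWp

theorem exists_A {k : ℝ} (hk : 0 < k) (hrk : k * r (Real.pi / 2) = Real.pi / 2)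
    (hrs : ContDiff ℝ ∞ r) : ∃ A : ℝ → ℝ, ClassS A ∧
      (∀ ψ ∈ JJ, Real.sin (k * r ψ) = Real.sin ψ * A ψ) ∧
      ∀ ψ ∈ Icc 0 (Real.pi / 2), 0 < A ψ := by
  have hπ := Real.pi_pos
  have hf : ContDiff ℝ ∞ fun ψ => Real.sin (k * r ψ) :=
    Real.contDiff_sin.comp (contDiff_const.mul hrs)
  have hodd := r_odd hWn hr0 hrd
  have hpis := r_pi_sub hWp hrd
  have hrm : StrictMono r := strictMono_of_deriv_pos fun x => by
    rw [(hrd x).deriv]
    exact one_div_pos.2 (Real.sqrt_pos.2 (hW x))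
  obtain ⟨A, sA', eA, A0, Ao, -⟩ := quot_sin hf (by simp [hr0])
  have hAe : ∀ ψ, A (-ψ) = A ψ := Ao fun ψ => by
    rw [hodd, mul_neg, Real.sin_neg]
  refine ⟨A, ⟨sA'.mono sub_JJ_sin, fun ψ _ => hAe ψ, ?_⟩, fun ψ hψ => eA ψ (sub_JJ_sin hψ), ?_⟩
  · intro ψ hψ
    have h1 : ψ ∈ Ioo (-Real.pi) Real.pi := ⟨by linarith [hψ.1], hψ.2⟩
    have h2 : Real.pi - ψ ∈ Ioo (-Real.pi) Real.pi := ⟨by linarith [hψ.2], by linarith [hψ.1]⟩
    have h3 := eA ψ h1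
    have h4 := eA _ h2
    have h5 : k * r (Real.pi - ψ) = Real.pi - k * r ψ := by
      rw [hpis]
      linarith
    rw [h5, Real.sin_pi_sub, Real.sin_pi_sub, h3] at h4
    have hs : Real.sin ψ ≠ 0 := (Real.sin_pos_of_pos_of_lt_pi hψ.1 hψ.2).ne'
    exact (mul_left_cancel₀ hs h4).symm
  · intro ψ hψ
    rcases eq_or_lt_of_le hψ.1 with h0 | h0
    · rw [← h0, A0]
      have h1 : HasDerivAt (fun ψ => Real.sin (k * r ψ)) (Real.cos (k * r 0) *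
          (k * (1 / Real.sqrt (W 0)))) 0 := ((hrd 0).const_mul k).sin
      rw [h1.deriv, hr0, mul_zero, Real.cos_zero, one_mul]
      have := Real.sqrt_pos.2 (hW 0)
      positivity
    · have h1 := eA ψ ⟨by linarith, by linarith [hψ.2]⟩
      have hs : 0 < Real.sin ψ := Real.sin_pos_of_pos_of_lt_pi h0 (by linarith [hψ.2])
      have h2 : 0 < r ψ := by rw [← hr0]; exact hrm h0
      have h3 : k * r ψ ≤ Real.pi / 2 := by
        rw [← hrk]
        exact mul_le_mul_of_nonneg_left (hrm.monotone hψ.2) hk.le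
      have hs' : 0 < Real.sin (k * r ψ) := Real.sin_pos_of_pos_of_lt_pi (by positivity)
        (by linarith)
      rw [h1] at hs'
      exact (pos_iff_pos_of_mul_pos hs').1 hs

theorem exists_B {k : ℝ} (hk : 0 < k) (hrk : k * r (Real.pi / 2) = Real.pi / 2)
    (hrs : ContDiff ℝ ∞ r) : ∃ B : ℝ → ℝ, ClassS B ∧
      (∀ ψ ∈ JJ, Real.cos (k * r ψ) = Real.cos ψ * B ψ) ∧
      ∀ ψ ∈ Icc 0 (Real.pi / 2), 0 < B ψ := by
  have hπ := Real.pi_pos
  have hf : ContDiff ℝ ∞ fun ψ => Real.cos (k * r ψ) :=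
    Real.contDiff_cos.comp (contDiff_const.mul hrs)
  have hodd := r_odd hWn hr0 hrd
  have hpis := r_pi_sub hWp hrd
  have hrm : StrictMono r := strictMono_of_deriv_pos fun x => by
    rw [(hrd x).deriv]
    exact one_div_pos.2 (Real.sqrt_pos.2 (hW x))
  obtain ⟨B, sB', eB, B0, Bo, -⟩ := quot_cos hf (by simp [hrk])
  have hBe : ∀ ψ, B (Real.pi - ψ) = B ψ := Bo fun ψ => by
    have h5 : k * r (Real.pi - ψ) = Real.pi - k * r ψ := by
      rw [hpis]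
      linarith
    rw [h5, Real.cos_pi_sub]
  refine ⟨B, ⟨sB'.mono sub_JJ_cos, ?_, fun ψ _ => hBe ψ⟩, fun ψ hψ => eB ψ (sub_JJ_cos hψ), ?_⟩
  · intro ψ hψ
    have h1 : ψ ∈ Ioo (-(Real.pi / 2)) (3 * Real.pi / 2) := ⟨hψ.1, by linarith [hψ.2]⟩
    have h2 : -ψ ∈ Ioo (-(Real.pi / 2)) (3 * Real.pi / 2) :=
      ⟨by linarith [hψ.2], by linarith [hψ.1]⟩
    have h3 := eB ψ h1
    have h4 := eB _ h2
    rw [hodd, mul_neg, Real.cos_neg, Real.cos_neg, h3] at h4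
    have hs : Real.cos ψ ≠ 0 := (Real.cos_pos_of_mem_Ioo hψ).ne'
    exact (mul_left_cancel₀ hs h4).symm
  · intro ψ hψ
    rcases eq_or_lt_of_le hψ.2 with h0 | h0
    · rw [h0, B0]
      have h1 : HasDerivAt (fun ψ => Real.cos (k * r ψ)) (-Real.sin (k * r (Real.pi / 2)) *
          (k * (1 / Real.sqrt (W (Real.pi / 2))))) (Real.pi / 2) :=
        ((hrd (Real.pi / 2)).const_mul k).cos
      rw [h1.deriv, hrk, Real.sin_pi_div_two]
      have := Real.sqrt_pos.2 (hW (Real.pi / 2))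
      have h2 : 0 < k * (1 / Real.sqrt (W (Real.pi / 2))) := by positivity
      linarith
    · have h1 := eB ψ ⟨by linarith [hψ.1], by linarith⟩
      have hs : 0 < Real.cos ψ := Real.cos_pos_of_mem_Ioo ⟨by linarith [hψ.1], h0⟩
      have h2 : 0 ≤ r ψ := by rw [← hr0]; exact hrm.monotone hψ.1
      have h3 : k * r ψ < Real.pi / 2 := by
        rw [← hrk]
        exact mul_lt_mul_of_pos_left (hrm h0) hk
      have h6 : 0 ≤ k * r ψ := by positivity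
      have hs' : 0 < Real.cos (k * r ψ) := Real.cos_pos_of_mem_Ioo ⟨by linarith, h3⟩
      rw [h1] at hs'
      exact (pos_iff_pos_of_mul_pos hs').1 hs

end rad

end Pool.Agent.TOA
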