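import Pool.Agent.TOS.Glob

set_option autoImplicit false

/-!
The isometry on the whole sphere.
-/

namespace Pool.Agent.TOA

open Set Filter Topology
open scoped ContDiff
open Pool.Agent.MSup (Frame TS tproj bA bB ip_self_eq IsRoundSphere contDiff_bA)
open Pool.Agent.TOS (Iψ)

/-- rotation by `-t` in the frame `e1, e2` -/
noncomputable def rotF (e1 e2 : Fin 2 → ℝ) (t : ℝ) (y : Fin 2 → ℝ) (j : Fin 2) : ℝ :=
  ((∑ i, y i * e1 i) * Real.cos t + (∑ i, y i * e2 i) * Real.sin t) * e1 j +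
    ((∑ i, y i * e2 i) * Real.cos t - (∑ i, y i * e1 i) * Real.sin t) * e2 j

section
variable {e1 e2 : Fin 2 → ℝ} (h11 : ∑ i, e1 i * e1 i = 1) (h22 : ∑ i, e2 i * e2 i = 1)
  (h12 : ∑ i, e1 i * e2 i = 0)
include h11 h22 h12

theorem rotF_e1 (t : ℝ) (y : Fin 2 → ℝ) : ∑ j, rotF e1 e2 t y j * e1 j =
    (∑ i, y i * e1 i) * Real.cos t + (∑ i, y i * e2 i) * Real.sin t := by
  have h : ∑ j, rotF e1 e2 t y j * e1 j =
      ((∑ i, y i * e1 i) * Real.cos t + (∑ i, y i * e2 i) * Real.sin t) * ∑ j, e1 j * e1 j +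
      ((∑ i, y i * e2 i) * Real.cos t - (∑ i, y i * e1 i) * Real.sin t) * ∑ j, e1 j * e2 j := by
    rw [Finset.mul_sum, Finset.mul_sum, ← Finset.sum_add_distrib]
    exact Finset.sum_congr rfl fun j _ => by rw [rotF]; ring
  rw [h, h11, h12]
  ring

theorem rotF_e2 (t : ℝ) (y : Fin 2 → ℝ) : ∑ j, rotF e1 e2 t y j * e2 j =
    (∑ i, y i * e2 i) * Real.cos t - (∑ i, y i * e1 i) * Real.sin t := by
  have h : ∑ j, rotF e1 e2 t y j * e2 j =
      ((∑ i, y i * e1 i) * Real.cos t + (∑ i, y i * e2 i) * Real.sin t) * ∑ j, e1 j * e2 j +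
      ((∑ i, y i * e2 i) * Real.cos t - (∑ i, y i * e1 i) * Real.sin t) * ∑ j, e2 j * e2 j := by
    rw [Finset.mul_sum, Finset.mul_sum, ← Finset.sum_add_distrib]
    exact Finset.sum_congr rfl fun j _ => by rw [rotF]; ring
  rw [h, h22, h12]
  ring

theorem rotF_neg (t : ℝ) (y : Fin 2 → ℝ) (j : Fin 2) :
    rotF e1 e2 (-t) (rotF e1 e2 t y) j = y j := by
  rw [rotF, rotF_e1 h11 h22 h12, rotF_e2 h11 h22 h12, Real.cos_neg, Real.sin_neg,
    complete_two h11 h22 h12 y j]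
  have := Real.sin_sq_add_cos_sq t
  linear_combination ((∑ i, y i * e1 i) * e1 j + (∑ i, y i * e2 i) * e2 j) * this

theorem rotF_neg' (t : ℝ) (y : Fin 2 → ℝ) (j : Fin 2) :
    rotF e1 e2 t (rotF e1 e2 (-t) y) j = y j := by
  have := rotF_neg h11 h22 h12 (-t) y j
  rwa [neg_neg] at this

theorem rotF_sq (t : ℝ) (y : Fin 2 → ℝ) : ∑ j, rotF e1 e2 t y j ^ 2 = ∑ j, y j ^ 2 := by
  have h : ∀ w : Fin 2 → ℝ, ∑ j, w j ^ 2 = (∑ j, w j * e1 j) ^ 2 + (∑ j, w j * e2 j) ^ 2 := by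
    intro w
    have hw := complete_two h11 h22 h12 w
    rw [Fin.sum_univ_two, Fin.sum_univ_two, Fin.sum_univ_two]
    have h0 := hw 0
    have h1 := hw 1
    rw [Fin.sum_univ_two, Fin.sum_univ_two] at h0 h1
    linear_combination (w 0) * h0 + (w 1) * h1
  rw [h, rotF_e1 h11 h22 h12, rotF_e2 h11 h22 h12, h y]
  have := Real.sin_sq_add_cos_sq t
  linear_combination ((∑ i, y i * e1 i) ^ 2 + (∑ i, y i * e2 i) ^ 2) * this

end

theorem rotF_smul (e1 e2 : Fin 2 → ℝ) (t c : ℝ) (y : Fin 2 → ℝ) (j : Fin 2) :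
    rotF e1 e2 t (fun i => c * y i) j = c * rotF e1 e2 t y j := by
  simp only [rotF, Fin.sum_univ_two]
  ring

variable (Rf : Frame 2 2)

/-- The global map. -/
noncomputable def PhiG (A B T1 T2 : ℝ → ℝ) (x : I4 → ℝ) : I4 → ℝ :=
  Sum.elim (fun j => A (psiG x) / √(MSup.ip x x) *
      rotF Rf.e1 Rf.e2 (T1 (psiG x)) (fun i => x (.inl i)) j)
    (fun j => B (psiG x) / √(MSup.ip x x) *
      rotF Rf.f1 Rf.f2 (T2 (psiG x)) (fun i => x (.inr i)) j)

theorem psiG_eq {x : I4 → ℝ} (hA : 0 < bA x) (hB : 0 < bB x) : psiG x = psiOf x := by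
  have hip := ip_self_eq x
  have hx : 0 < MSup.ip x x := by rw [hip]; positivity
  have hψ := psiOf_mem hA hB
  have sA' := Real.sqrt_pos.mpr hA
  have sB' := Real.sqrt_pos.mpr hB
  have h1 : √(bA x / MSup.ip x x) = Real.sin (psiOf x) := by
    have h2 : Real.sin (psiOf x) ^ 2 = bA x / MSup.ip x x := by
      have h3 : Real.tan (psiOf x) = √(bA x) / √(bB x) := Real.tan_arctan _
      have hc : 0 < Real.cos (psiOf x) :=
        Real.cos_pos_of_mem_Ioo ⟨by linarith [hψ.1, Real.pi_pos], hψ.2⟩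
      rw [Real.tan_eq_sin_div_cos, div_eq_div_iff hc.ne' sB'.ne'] at h3
      have h4 : (Real.sin (psiOf x) * √(bB x)) ^ 2 = (√(bA x) * Real.cos (psiOf x)) ^ 2 := by
        rw [h3]
      rw [mul_pow, mul_pow, Real.sq_sqrt hA.le, Real.sq_sqrt hB.le, Real.cos_sq'] at h4
      rw [eq_div_iff hx.ne', hip]
      linarith
    rw [← h2]
    exact Real.sqrt_sq (Real.sin_pos_of_pos_of_lt_pi hψ.1 (by linarith [hψ.2, Real.pi_pos])).le
  rw [psiG, h1, Real.arcsin_sin (by linarith [hψ.1, Real.pi_pos]) hψ.2.le]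

section
variable {A B T1 T2 : ℝ → ℝ} {k : ℝ} {r : ℝ → ℝ}

theorem PhiG_eq (hA : ∀ ψ ∈ JJ, Real.sin (k * r ψ) = Real.sin ψ * A ψ)
    (hB : ∀ ψ ∈ JJ, Real.cos (k * r ψ) = Real.cos ψ * B ψ) {x : I4 → ℝ} (ha : 0 < bA x)
    (hb : 0 < bB x) : PhiG Rf A B T1 T2 x = Phi Rf k r T1 T2 x := by
  have hψ := psiOf_mem ha hb
  have hip := ip_self_eq x
  have hx : 0 < MSup.ip x x := by rw [hip]; positivity
  have hs : 0 < Real.sin (psiOf x) :=
    Real.sin_pos_of_pos_of_lt_pi hψ.1 (by linarith [hψ.2, Real.pi_pos])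
  have hc : 0 < Real.cos (psiOf x) :=
    Real.cos_pos_of_mem_Ioo ⟨by linarith [hψ.1, Real.pi_pos], hψ.2⟩
  have h1 : Real.sin (psiOf x) = √(bA x) / √(MSup.ip x x) := by
    have h2 : Real.arcsin (√(bA x / MSup.ip x x)) = psiOf x := psiG_eq ha hb
    rw [← h2, Real.sin_arcsin, Real.sqrt_div ha.le]
    · have := Real.sqrt_nonneg (bA x / MSup.ip x x)
      linarith
    · rw [Real.sqrt_le_one, div_le_one hx]
      linarith
  have h2 : Real.cos (psiOf x) = √(bB x) / √(MSup.ip x x) := by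
    have h3 : Real.cos (psiOf x) ^ 2 = (√(bB x) / √(MSup.ip x x)) ^ 2 := by
      rw [Real.cos_sq', h1, div_pow, div_pow, Real.sq_sqrt ha.le, Real.sq_sqrt hb.le,
        Real.sq_sqrt hx.le, hip]
      field_simp
      ring
    exact (sq_eq_sq₀ hc.le (by positivity)).1 h3
  have sA' := (Real.sqrt_pos.mpr ha).ne'
  have sB' := (Real.sqrt_pos.mpr hb).ne'
  have sx := (Real.sqrt_pos.mpr hx).ne'
  have hJ : psiOf x ∈ JJ := Iψ_sub_JJ hψ
  funext i
  rcases i with j | j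
  · simp only [PhiG, Phi, Sum.elim_inl, psiG_eq ha hb, hA _ hJ, h1, rotF]
    field_simp
  · simp only [PhiG, Phi, Sum.elim_inr, psiG_eq ha hb, hB _ hJ, h2, rotF]
    field_simp

theorem contDiffAt_PhiG (sA : ClassS A) (sB : ClassS B) (s1 : ClassS T1) (s2 : ClassS T2)
    {x : I4 → ℝ} (hx : 0 < MSup.ip x x) : ContDiffAt ℝ ∞ (PhiG Rf A B T1 T2) x := by
  have cA := sA.contDiffAt hx
  have cB := sB.contDiffAt hx
  have c1 := s1.contDiffAt hx
  have c2 := s2.contDiffAt hx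
  have cq : ContDiffAt ℝ ∞ (fun x : I4 → ℝ => √(MSup.ip x x)) x :=
    contDiff_ipself.contDiffAt.sqrt hx.ne'
  have nq := (Real.sqrt_pos.2 hx).ne'
  have cy : ∀ i, ContDiffAt ℝ ∞ (fun x : I4 → ℝ => x (.inl i)) x := fun i =>
    (contDiff_apply ℝ ℝ _).contDiffAt
  have cz : ∀ i, ContDiffAt ℝ ∞ (fun x : I4 → ℝ => x (.inr i)) x := fun i =>
    (contDiff_apply ℝ ℝ _).contDiffAt
  have u : ∀ e : Fin 2 → ℝ, ContDiffAt ℝ ∞ (fun x : I4 → ℝ => ∑ i, x (.inl i) * e i) x :=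
    fun e => ContDiffAt.sum fun i _ => (cy i).mul contDiffAt_const
  have v : ∀ e : Fin 2 → ℝ, ContDiffAt ℝ ∞ (fun x : I4 → ℝ => ∑ i, x (.inr i) * e i) x :=
    fun e => ContDiffAt.sum fun i _ => (cz i).mul contDiffAt_const
  rw [contDiffAt_pi]
  rintro (j | j)
  · exact (cA.div cq nq).mul (((((u Rf.e1).mul c1.cos).add ((u Rf.e2).mul c1.sin)).mul
      contDiffAt_const).add ((((u Rf.e2).mul c1.cos).sub ((u Rf.e1).mul c1.sin)).mul
        contDiffAt_const))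
  · exact (cB.div cq nq).mul (((((v Rf.f1).mul c2.cos).add ((v Rf.f2).mul c2.sin)).mul
      contDiffAt_const).add ((((v Rf.f2).mul c2.cos).sub ((v Rf.f1).mul c2.sin)).mul
        contDiffAt_const))

end

end Pool.Agent.TOA
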