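import Pool.Agent.TOS.Modes
import Pool.Agent.TOS.Arc
import Pool.Agent.TOS.Round

set_option autoImplicit false

/-!
Roundness of the polar form.
-/

namespace Pool.Agent.TOA

open Set Filter Topology MeasureTheory intervalIntegral
open scoped ContDiff
open Pool.Agent.MSup
open Pool.Agent.TOS (PHam PMode Ca Cb Cc Pol Iψ)

variable {h : I4 → I4 → (I4 → ℝ) → ℝ}

/-- antiderivatives on the open interval -/
theorem exists_antideriv {f : ℝ → ℝ} (hf : ContDiffOn ℝ ∞ f Iψ) :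
    ∃ T : ℝ → ℝ, ContDiffOn ℝ ∞ T Iψ ∧ ∀ ψ ∈ Iψ, HasDerivAt T (f ψ) ψ := by
  have h4 : (Real.pi / 4) ∈ Iψ := ⟨by positivity, by linarith [Real.pi_pos]⟩
  set T : ℝ → ℝ := fun ψ => ∫ t in (Real.pi / 4)..ψ, f t with hT
  have hd : ∀ ψ ∈ Iψ, HasDerivAt T (f ψ) ψ := by
    intro ψ hψ
    have hsub : uIcc (Real.pi / 4) ψ ⊆ Iψ := by
      intro x hx
      rw [mem_uIcc] at hx
      rcases hx with hx | hx
      · exact ⟨lt_of_lt_of_le h4.1 hx.1, lt_of_le_of_lt hx.2 hψ.2⟩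
      · exact ⟨lt_of_lt_of_le hψ.1 hx.1, lt_of_le_of_lt hx.2 h4.2⟩
    have hint : IntervalIntegrable f volume (Real.pi / 4) ψ :=
      (hf.continuousOn.mono hsub).intervalIntegrable
    have hcont : ContinuousAt f ψ := hf.continuousOn.continuousAt (isOpen_Ioo.mem_nhds hψ)
    have hmeas : StronglyMeasurableAtFilter f (𝓝 ψ) volume :=
      hf.continuousOn.stronglyMeasurableAtFilter isOpen_Ioo ψ hψ
    exact integral_hasDerivAt_right hint hmeas hcont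
  refine ⟨T, ?_, hd⟩
  have h1 : ContDiffOn ℝ (∞ + 1) T Iψ := by
    rw [contDiffOn_succ_iff_deriv_of_isOpen isOpen_Ioo]
    refine ⟨fun ψ hψ => (hd ψ hψ).differentiableAt.differentiableWithinAt, by simp, ?_⟩
    exact hf.congr fun ψ hψ => (hd ψ hψ).deriv
  exact h1.of_le (by simp)

/-- The polar form of a maximally superintegrable torus invariant metric. -/
theorem polar_round (Y : Hyp h) (hM : MSup.MaxSuperintegrable (quadHam h)) :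
    ∃ (R : Frame 2 2) (k : ℝ) (r T₁ T₂ : ℝ → ℝ), 0 < k ∧ r 0 = 0 ∧ StrictMono r ∧
      k * r (Real.pi / 2) = Real.pi / 2 ∧ ContDiff ℝ ∞ r ∧
      (∀ ψ, HasDerivAt r (1 / Real.sqrt (Qf h R 0 0 ψ)) ψ) ∧
      ContDiffOn ℝ ∞ T₁ Iψ ∧ ContDiffOn ℝ ∞ T₂ Iψ ∧
      (∀ ψ ∈ Iψ, HasDerivAt T₁ (G1 h R ψ) ψ) ∧ (∀ ψ ∈ Iψ, HasDerivAt T₂ (G2 h R ψ) ψ) ∧
      ∀ ψ ∈ Iψ, BB h R ψ = 0 ∧ AA h R ψ * Real.cos (k * r ψ) ^ 2 = k ^ 2 ∧
        CC h R ψ * Real.sin (k * r ψ) ^ 2 = k ^ 2 := by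
  obtain ⟨R, m₁, n₁, m₂, n₂, hdet, ⟨M₁⟩, ⟨M₂⟩⟩ := exists_modes Y hM
  have P := Y.pol R
  have csm : ContDiff ℝ ∞ fun ψ => Real.sqrt (Qf h R 0 0 ψ) :=
    (contDiff_Qf Y.hh R 0 0).sqrt fun ψ => (P.Wpos ψ).ne'
  have hwpos : ∀ ψ, 0 < Real.sqrt (Qf h R 0 0 ψ) := fun ψ => Real.sqrt_pos.2 (P.Wpos ψ)
  obtain ⟨r, g, hr0, hg0, hrm, hgm, hrg, hgr, hrd, hgd⟩ := TOS.exists_arc
    (fun ψ => Real.sqrt (Qf h R 0 0 ψ)) csm.continuous hwpos (by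
      obtain ⟨M, hM⟩ := P.bd
      exact ⟨Real.sqrt M, fun ψ => Real.sqrt_le_sqrt (hM ψ)⟩)
  obtain ⟨a1, b1, c1, a2, b2, c2, D⟩ := P.data hr0 hg0 hrm hgm hrg hgr hgd
  set ℓ := r (Real.pi / 2) with hℓ
  obtain ⟨T₁, hT₁s, hT₁⟩ := exists_antideriv (Y.smooth_G1 R)
  obtain ⟨T₂, hT₂s, hT₂⟩ := exists_antideriv (Y.smooth_G2 R)
  have hgℓ : g ℓ = Real.pi / 2 := hgr _
  have hmap : ∀ x ∈ Ioo 0 ℓ, g x ∈ Iψ := by
    intro x hx
    constructor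
    · rw [← hg0]; exact hgm hx.1
    · rw [← hgℓ]; exact hgm hx.2
  have hmapr : ∀ ψ ∈ Iψ, r ψ ∈ Ioo 0 ℓ := by
    intro ψ hψ
    constructor
    · rw [← hr0]; exact hrm hψ.1
    · exact hrm hψ.2
  have hsur : ∀ ψ ∈ Iψ, ∃ x ∈ Ioo 0 ℓ, g x = ψ := fun ψ hψ => ⟨r ψ, hmapr ψ hψ, hgr ψ⟩
  have hΘ : ∀ {T f : ℝ → ℝ}, (∀ ψ ∈ Iψ, HasDerivAt T (f ψ) ψ) → ∀ x ∈ Ioo 0 ℓ,
      HasDerivAt (fun x => T (g x)) (f (g x) * Real.sqrt (Qf h R 0 0 (g x))) x := by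
    intro T f hT x hx
    exact (hT _ (hmap x hx)).comp x (hgd x)
  have hres : ∀ {m n : ℤ}, MD h R m n → ∀ t : ℝ, ∀ x ∈ Ioo 0 ℓ,
      a1 x * t ^ 2 + 2 * b1 x * t + c1 x = 0 →
      ∃ M : ℤ, ((n : ℝ) * (AA h R (g x) * t + BB h R (g x)) +
        m * (BB h R (g x) * t + CC h R (g x))) ^ 2 =
      (a2 x * t ^ 2 + 2 * b2 x * t + c2 x) / 2 * M ^ 2 := by
    intro m n M t x hx ht
    have h1 := PMode.res (Y.pham R) M (g := g) (ℓ := ℓ) hmap hsur (fun x _ => hgd x)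
      (hΘ hT₁) (hΘ hT₂) D.da D.db D.dc D.da1 D.db1 D.dc1 hx (p := t) (q := 1) (by linarith)
    obtain ⟨N, hN⟩ := h1
    refine ⟨N, ?_⟩
    simp only [mul_one, one_pow] at hN
    exact hN
  obtain ⟨k, hk, hkℓ, hround⟩ := TOS.round D (m := n₁) (n := m₁) (m' := n₂) (n' := m₂)
    (fun t x hx ht => ⟨hres M₁ t x hx ht, hres M₂ t x hx ht⟩) (by
      intro h0
      apply hdet
      linarith)
  refine ⟨R, k, r, T₁, T₂, hk, hr0, hrm, hkℓ, ?_, hrd, hT₁s, hT₂s, hT₁, hT₂, ?_⟩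
  · have h1 : ContDiff ℝ (∞ + 1) r := by
      rw [contDiff_succ_iff_deriv]
      refine ⟨fun ψ => (hrd ψ).differentiableAt, by simp, ?_⟩
      have h2 : deriv r = fun ψ => 1 / Real.sqrt (Qf h R 0 0 ψ) := funext fun ψ => (hrd ψ).deriv
      rw [h2]
      exact contDiff_const.div csm fun ψ => (hwpos ψ).ne'
    exact h1.of_le (by simp)
  · intro ψ hψ
    have h1 := hround (r ψ) (hmapr ψ hψ)
    simp only [hgr] at h1
    exact h1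

end Pool.Agent.TOA
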