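import Mathlib
import Pool.Agent.MSup.Lead

/-!
Resonance at every relative equilibrium (all directions, all signs of the second derivative of the
effective potential), from one Fourier mode of a polynomial integral of a `T²`-invariant
Hamiltonian `2H = y² + a p² + 2 b p q + c q²`.
-/

set_option autoImplicit false

open Filter Topology Asymptotics Finset Polynomial

namespace Pool.Agent.TOS

open Pool.Agent.MSup (prev leading)

/-- The resonance recursion with a complex frequency `B`. -/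
theorem reson_posC {N : ℕ} {b : ℕ → ℂ} {B : ℂ} {Ω : ℝ} (hΩ : 0 < Ω) (hb0 : b 0 ≠ 0)
    (hrec : ∀ k ≤ N, ((k : ℂ) + 1) * b (k + 1) =
      Ω ^ 2 * ((N : ℂ) - k + 1) * prev b k - Complex.I * B * b k) (hend : b (N + 1) = 0) :
    ∃ n : ℤ, B = n * Ω := by
  let s : ℝ → ℂ := fun t => ((Real.sin (Ω * t) / Ω : ℝ) : ℂ)
  let c : ℝ → ℂ := fun t => ((Real.cos (Ω * t) : ℝ) : ℂ)
  have hs : ∀ t, HasDerivAt s (c t) t := by
    intro t
    have h1 : HasDerivAt (fun t : ℝ => Real.sin (Ω * t) / Ω) (Real.cos (Ω * t)) t := by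
      have h2 : HasDerivAt (fun t : ℝ => Ω * t) Ω t := by
        simpa using (hasDerivAt_id t).const_mul Ω
      have h3 := (h2.sin).div_const Ω
      rw [mul_div_assoc, div_self hΩ.ne', mul_one] at h3
      exact h3
    exact h1.ofReal_comp
  have hc : ∀ t, HasDerivAt c (-(Ω : ℂ) ^ 2 * s t) t := by
    intro t
    have h1 : HasDerivAt (fun t : ℝ => Real.cos (Ω * t)) (-Ω ^ 2 * (Real.sin (Ω * t) / Ω)) t := by
      have h2 : HasDerivAt (fun t : ℝ => Ω * t) Ω t := by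
        simpa using (hasDerivAt_id t).const_mul Ω
      have h3 := h2.cos
      have e : -Ω ^ 2 * (Real.sin (Ω * t) / Ω) = -Real.sin (Ω * t) * Ω := by
        have := hΩ.ne'
        field_simp
      rw [e]
      exact h3
    have h4 := h1.ofReal_comp
    convert h4 using 1
    simp only [s]
    push_cast
    ring
  let G : ℝ → ℂ := fun t => ∑ k ∈ range (N + 1), b k * (s t ^ k * c t ^ (N - k))
  have hG : ∀ t, HasDerivAt G (-Complex.I * B * G t) t := by
    intro t
    have h1 : ∀ k ∈ range (N + 1), HasDerivAt (fun t => b k * (s t ^ k * c t ^ (N - k)))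
        (b k * ((k : ℂ) * s t ^ (k - 1) * c t * c t ^ (N - k) +
          s t ^ k * (((N - k : ℕ) : ℂ) * c t ^ (N - k - 1) * (-(Ω : ℂ) ^ 2 * s t)))) t := by
      intro k _
      exact (((hs t).fun_pow k).mul ((hc t).fun_pow (N - k))).const_mul (b k)
    have h2 := HasDerivAt.fun_sum h1
    have h3 : (∑ k ∈ range (N + 1), b k * ((k : ℂ) * s t ^ (k - 1) * c t * c t ^ (N - k) +
          s t ^ k * (((N - k : ℕ) : ℂ) * c t ^ (N - k - 1) * (-(Ω : ℂ) ^ 2 * s t)))) =
        -Complex.I * B * G t := by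
      have e1 : ∑ k ∈ range (N + 1), b k * ((k : ℂ) * s t ^ (k - 1) * c t * c t ^ (N - k)) =
          ∑ k ∈ range (N + 1), ((k : ℂ) + 1) * b (k + 1) * (s t ^ k * c t ^ (N - k)) := by
        rw [sum_range_succ', sum_range_succ (fun k : ℕ =>
          ((k : ℂ) + 1) * b (k + 1) * (s t ^ k * c t ^ (N - k))), hend]
        simp only [Nat.cast_zero, zero_mul, mul_zero, add_zero]
        refine sum_congr rfl fun k hk => ?_
        have hk' : k < N := mem_range.1 hk
        have e2 : N - k = N - (k + 1) + 1 := by omega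
        rw [e2]
        push_cast
        ring
      have e3 : ∑ k ∈ range (N + 1), b k * (s t ^ k *
          (((N - k : ℕ) : ℂ) * c t ^ (N - k - 1) * (-(Ω : ℂ) ^ 2 * s t))) =
          -∑ k ∈ range (N + 1), (Ω : ℂ) ^ 2 * ((N : ℂ) - k + 1) * prev b k *
            (s t ^ k * c t ^ (N - k)) := by
        rw [sum_range_succ, sum_range_succ' (fun k : ℕ => (Ω : ℂ) ^ 2 * ((N : ℂ) - k + 1) *
          prev b k * (s t ^ k * c t ^ (N - k)))]
        simp only [Nat.sub_self, Nat.cast_zero, zero_mul, mul_zero, add_zero, prev]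
        rw [← sum_neg_distrib]
        refine sum_congr rfl fun k hk => ?_
        have hk' : k < N := mem_range.1 hk
        have e4 : N - (k + 1) = N - k - 1 := by omega
        rw [e4, Nat.cast_sub hk'.le]
        push_cast
        ring
      calc _ = ∑ k ∈ range (N + 1), b k * ((k : ℂ) * s t ^ (k - 1) * c t * c t ^ (N - k)) +
            ∑ k ∈ range (N + 1), b k * (s t ^ k *
          (((N - k : ℕ) : ℂ) * c t ^ (N - k - 1) * (-(Ω : ℂ) ^ 2 * s t))) := by
            rw [← sum_add_distrib]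
            exact sum_congr rfl fun k _ => by ring
        _ = _ := by
            rw [e1, e3, ← sub_eq_add_neg, ← sum_sub_distrib]
            simp only [G]
            rw [mul_sum]
            refine sum_congr rfl fun k hk => ?_
            have hk' : k ≤ N := Nat.lt_succ_iff.1 (mem_range.1 hk)
            rw [hrec k hk']
            ring
    rw [h3] at h2
    exact h2
  have hE : ∀ t, HasDerivAt (fun t : ℝ => G t * Complex.exp (Complex.I * B * t)) 0 t := by
    intro t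
    have h1 : HasDerivAt (fun t : ℝ => Complex.I * B * (t : ℂ)) (Complex.I * B) t := by
      have := (hasDerivAt_id t).ofReal_comp.const_mul (Complex.I * B)
      simpa using this
    have h2 := (hG t).mul h1.cexp
    have e : -Complex.I * B * G t * Complex.exp (Complex.I * B * ↑t) +
        G t * (Complex.exp (Complex.I * B * ↑t) * (Complex.I * B)) = 0 := by ring
    rw [e] at h2
    exact h2
  have hconst := is_const_of_deriv_eq_zero (f := fun t : ℝ => G t * Complex.exp (Complex.I * B * t))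
    (fun t => (hE t).differentiableAt) (fun t => (hE t).deriv) (2 * Real.pi / Ω) 0
  have hsT : s (2 * Real.pi / Ω) = 0 := by
    simp only [s]
    rw [mul_div_cancel₀ _ hΩ.ne']
    simp
  have hcT : c (2 * Real.pi / Ω) = 1 := by
    simp only [c]
    rw [mul_div_cancel₀ _ hΩ.ne']
    simp
  have hs0 : s 0 = 0 := by simp [s]
  have hc0 : c 0 = 1 := by simp [c]
  have hGT : G (2 * Real.pi / Ω) = G 0 := by
    simp only [G]
    rw [hsT, hcT, hs0, hc0]
  have hG0' : G 0 = b 0 := by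
    simp only [G]
    rw [hs0, hc0, sum_range_succ']
    simp
  rw [hGT, hG0'] at hconst
  simp only [Complex.ofReal_zero, mul_zero, Complex.exp_zero, mul_one] at hconst
  have h5 : Complex.exp (Complex.I * B * ((2 * Real.pi / Ω : ℝ) : ℂ)) = 1 :=
    mul_left_cancel₀ hb0 (hconst.trans (mul_one _).symm)
  obtain ⟨n, hn⟩ := Complex.exp_eq_one_iff.1 h5
  refine ⟨n, ?_⟩
  have hΩc : (Ω : ℂ) ≠ 0 := by exact_mod_cast hΩ.ne'
  have hpi : (Real.pi : ℂ) ≠ 0 := by exact_mod_cast Real.pi_ne_zero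
  push_cast at hn
  field_simp at hn
  linear_combination hn

/-- The resonance recursion at a strict maximum of the effective potential. -/
theorem reson_neg {N : ℕ} {b : ℕ → ℂ} {B Λ : ℝ} (hΛ : 0 < Λ) (hb0 : b 0 ≠ 0)
    (hrec : ∀ k ≤ N, ((k : ℂ) + 1) * b (k + 1) =
      -(Λ : ℂ) ^ 2 * ((N : ℂ) - k + 1) * prev b k - Complex.I * B * b k) (hend : b (N + 1) = 0) :
    B = 0 := by
  obtain ⟨n, hn⟩ := reson_posC (N := N) (b := fun k => (-Complex.I) ^ k * b k)
    (B := -Complex.I * B) hΛ (by simpa using hb0) (fun k hk => by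
      have h := hrec k hk
      cases k with
      | zero =>
        simp only [prev] at h ⊢
        rw [pow_succ, pow_zero]
        linear_combination (-Complex.I) * h
      | succ k =>
        simp only [prev] at h ⊢
        rw [pow_succ (-Complex.I) (k + 1), pow_succ (-Complex.I) k]
        have h2 := Complex.I_sq
        linear_combination ((-Complex.I) ^ k * (-Complex.I) * (-Complex.I)) * h +
          (-(Λ : ℂ) ^ 2 * ((N : ℂ) - (↑(k + 1) : ℂ) + 1) * (-Complex.I) ^ k * b k) * h2)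
    (by simp [hend])
  have h1 := congrArg Complex.im hn
  simp at h1
  exact h1

/-- **Resonance lemma**, all signs. -/
theorem resonance_all {g : ℕ → ℝ → ℂ} {A B : ℝ → ℝ} {x₀ A' : ℝ}
    (hg : ∀ j, ∀ᶠ x in 𝓝 x₀, HasDerivAt (g j)
      (((j : ℂ) + 2) * (A x * g (j + 2) x) - Complex.I * (B x * g (j + 1) x)) x)
    (hc : ∀ᶠ x in 𝓝 x₀, (A x : ℂ) * g 1 x = Complex.I * (B x * g 0 x))
    (hA0 : A x₀ = 0) (hA : HasDerivAt A A' x₀) (hB : ContinuousAt B x₀)
    (hN : ∃ j, g j x₀ ≠ 0) :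
    ∃ M : ℤ, (B x₀) ^ 2 = A' * (M : ℝ) ^ 2 := by
  rcases lt_trichotomy A' 0 with h | h | h
  · classical
    have hN1 : g (Nat.find hN) x₀ ≠ 0 := Nat.find_spec hN
    have hN2 : ∀ j < Nat.find hN, g j x₀ = 0 := fun j hj => not_not.1 (Nat.find_min hN hj)
    obtain ⟨b, hb0, hrec, hend⟩ := leading hg hc hA0 hA hB hN1 hN2
    have hB0 : B x₀ = 0 := by
      refine reson_neg (Λ := √(-A')) (Real.sqrt_pos.2 (by linarith)) hb0 (fun k hk => ?_) hend
      rw [hrec k hk]
      have : ((√(-A') : ℝ) : ℂ) ^ 2 = -(A' : ℂ) := by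
        rw [← Complex.ofReal_pow, Real.sq_sqrt (by linarith)]
        push_cast
        ring
      rw [this]
      ring
    exact ⟨0, by rw [hB0]; simp⟩
  · refine ⟨0, ?_⟩
    rw [(Pool.Agent.MSup.resonance hg hc hA0 hA hB hN).1 h]
    simp
  · obtain ⟨n, hn⟩ := (Pool.Agent.MSup.resonance hg hc hA0 hA hB hN).2 h
    refine ⟨n, ?_⟩
    rw [hn, mul_pow, Real.sq_sqrt h.le]
    ring

/-! ### From the mode equation to the triangular system -/

section Ode

variable {ι : Type} [Fintype ι] {I : Set ℝ} {e : ι → ℕ} {c c' : ι → ℝ → ℂ} {A B : ℝ → ℝ}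

/-- the coefficient of `y ^ j` -/
noncomputable def gg (e : ι → ℕ) (c : ι → ℝ → ℂ) (j : ℕ) (x : ℝ) : ℂ :=
  ∑ i, if e i = j then c i x else 0

omit [Fintype ι] in
theorem gg_coeff [Fintype ι] (e : ι → ℕ) (c : ι → ℝ → ℂ) (j : ℕ) (x : ℝ) :
    (∑ i, monomial (e i) (c i x) : ℂ[X]).coeff j = gg e c j x := by
  simp only [gg, finsetSum_coeff, coeff_monomial]

theorem gg_deriv (dc : ∀ i, ∀ x ∈ I, HasDerivAt (c i) (c' i x) x) (j : ℕ) {x : ℝ} (hx : x ∈ I) :
    HasDerivAt (gg e c j) (gg e c' j x) x := by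
  have h1 : gg e c j = fun x => ∑ i, if e i = j then c i x else 0 := rfl
  rw [h1]
  refine HasDerivAt.fun_sum fun i _ => ?_
  by_cases h : e i = j
  · simp only [h, if_true]
    exact dc i x hx
  · simp only [h, if_false]
    exact hasDerivAt_const _ _

theorem gg_identity (pde : ∀ x ∈ I, ∀ y : ℝ, (y : ℂ) * (∑ i, c' i x * y ^ e i) -
      A x * (∑ i, c i x * (e i * y ^ (e i - 1))) + Complex.I * B x * (∑ i, c i x * y ^ e i) = 0)
    {x : ℝ} (hx : x ∈ I) :
    X * (∑ i, monomial (e i) (c' i x) : ℂ[X]) -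
      C (A x : ℂ) * derivative (∑ i, monomial (e i) (c i x) : ℂ[X]) +
      C (Complex.I * B x) * (∑ i, monomial (e i) (c i x) : ℂ[X]) = 0 := by
  apply Polynomial.eq_of_infinite_eval_eq
  refine Set.Infinite.mono (s := Set.range ((↑) : ℝ → ℂ)) ?_ ?_
  · rintro _ ⟨y, rfl⟩
    have h := pde x hx y
    change eval (y : ℂ) _ = eval (y : ℂ) _
    simp only [eval_zero, eval_add, eval_sub, eval_mul, eval_C, eval_X,
      eval_finsetSum, eval_monomial, derivative_sum, derivative_monomial]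
    rw [← h]
    have e3 : ∑ i, c i x * (e i : ℂ) * (y : ℂ) ^ (e i - 1) =
        ∑ i, c i x * (e i * y ^ (e i - 1)) :=
      sum_congr rfl fun i _ => by ring
    rw [e3]
  · exact Set.infinite_range_of_injective Complex.ofReal_injective

theorem gg_ode (pde : ∀ x ∈ I, ∀ y : ℝ, (y : ℂ) * (∑ i, c' i x * y ^ e i) -
      A x * (∑ i, c i x * (e i * y ^ (e i - 1))) + Complex.I * B x * (∑ i, c i x * y ^ e i) = 0)
    {x : ℝ} (hx : x ∈ I) (j : ℕ) :
    gg e c' j x = ((j : ℂ) + 2) * (A x * gg e c (j + 2) x) -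
      Complex.I * (B x * gg e c (j + 1) x) := by
  have h := congrArg (fun q => coeff q (j + 1)) (gg_identity pde hx)
  simp only [coeff_add, coeff_sub, coeff_zero] at h
  rw [coeff_X_mul, coeff_C_mul, coeff_C_mul, coeff_derivative, gg_coeff, gg_coeff, gg_coeff] at h
  push_cast at h
  linear_combination h

theorem gg_zero (pde : ∀ x ∈ I, ∀ y : ℝ, (y : ℂ) * (∑ i, c' i x * y ^ e i) -
      A x * (∑ i, c i x * (e i * y ^ (e i - 1))) + Complex.I * B x * (∑ i, c i x * y ^ e i) = 0)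
    {x : ℝ} (hx : x ∈ I) :
    (A x : ℂ) * gg e c 1 x = Complex.I * (B x * gg e c 0 x) := by
  have h := congrArg (fun q => coeff q 0) (gg_identity pde hx)
  simp only [coeff_add, coeff_sub, coeff_zero, mul_coeff_zero, coeff_C_zero, coeff_X_zero,
    zero_mul, coeff_derivative] at h
  rw [← gg_coeff, ← gg_coeff]
  push_cast at h ⊢
  linear_combination -h

/-- The top coefficient is constant, so a mode that is nonzero somewhere is nonzero at every
point of the interval. -/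
theorem gg_ne (hI : Convex ℝ I) (dc : ∀ i, ∀ x ∈ I, HasDerivAt (c i) (c' i x) x)
    (pde : ∀ x ∈ I, ∀ y : ℝ, (y : ℂ) * (∑ i, c' i x * y ^ e i) -
      A x * (∑ i, c i x * (e i * y ^ (e i - 1))) + Complex.I * B x * (∑ i, c i x * y ^ e i) = 0)
    (hne : ∃ j, ∃ x ∈ I, gg e c j x ≠ 0) {x₀ : ℝ} (hx₀ : x₀ ∈ I) : ∃ j, gg e c j x₀ ≠ 0 := by
  classical
  have hbound : ∀ j, (∃ x ∈ I, gg e c j x ≠ 0) → j ≤ ∑ i, e i := by
    rintro j ⟨x, _, hx⟩
    by_contra hj
    refine hx (sum_eq_zero fun i _ => ?_)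
    have h1 : e i ≤ ∑ i, e i := single_le_sum (fun _ _ => Nat.zero_le _) (mem_univ i)
    exact if_neg (by omega)
  obtain ⟨j₁, hj₁⟩ := hne
  set d := Nat.findGreatest (fun j => ∃ x ∈ I, gg e c j x ≠ 0) (∑ i, e i) with hd
  have hd1 : ∃ x ∈ I, gg e c d x ≠ 0 :=
    Nat.findGreatest_spec (P := fun j => ∃ x ∈ I, gg e c j x ≠ 0) (hbound j₁ hj₁) hj₁
  have hd2 : ∀ j, d < j → ∀ x ∈ I, gg e c j x = 0 := by
    intro j hj x hx
    by_contra hne
    have h1 := hbound j ⟨x, hx, hne⟩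
    exact Nat.findGreatest_is_greatest hj h1 ⟨x, hx, hne⟩
  obtain ⟨x₁, hx₁, hne₁⟩ := hd1
  refine ⟨d, ?_⟩
  have hder : ∀ x ∈ I, HasDerivWithinAt (gg e c d) 0 I x := by
    intro x hx
    have h1 := gg_deriv (e := e) dc d hx
    rw [gg_ode pde hx d, hd2 (d + 2) (by omega) x hx, hd2 (d + 1) (by omega) x hx] at h1
    simpa using h1.hasDerivWithinAt
  have h2 := hI.norm_image_sub_le_of_norm_hasDerivWithin_le (C := 0) hder (fun x _ => by simp)
    hx₀ hx₁
  rw [zero_mul] at h2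
  have h3 : gg e c d x₁ - gg e c d x₀ = 0 := norm_le_zero_iff.1 h2
  rw [← sub_eq_zero.1 h3]
  exact hne₁

/-- **Resonance for one direction.** -/
theorem reson_dir (hI : Convex ℝ I) (hIo : IsOpen I)
    (dc : ∀ i, ∀ x ∈ I, HasDerivAt (c i) (c' i x) x)
    (pde : ∀ x ∈ I, ∀ y : ℝ, (y : ℂ) * (∑ i, c' i x * y ^ e i) -
      A x * (∑ i, c i x * (e i * y ^ (e i - 1))) + Complex.I * B x * (∑ i, c i x * y ^ e i) = 0)
    (hne : ∃ j, ∃ x ∈ I, gg e c j x ≠ 0) {x₀ A' : ℝ} (hx₀ : x₀ ∈ I) (hA0 : A x₀ = 0)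
    (hA : HasDerivAt A A' x₀) (hB : ContinuousAt B x₀) :
    ∃ M : ℤ, (B x₀) ^ 2 = A' * (M : ℝ) ^ 2 := by
  have hnhds := hIo.mem_nhds hx₀
  refine resonance_all (g := gg e c) (A := A) (fun j => ?_) ?_ hA0 hA hB
    (gg_ne hI dc pde hne hx₀)
  · filter_upwards [hnhds] with x hx
    rw [← gg_ode pde hx j]
    exact gg_deriv dc j hx
  · filter_upwards [hnhds] with x hx
    exact gg_zero pde hx

end Ode

/-! ### All directions -/

theorem low_mul {V Φ : ℂ[X]} {l₀ : ℕ} (h : ∀ l < l₀, Φ.coeff l = 0) :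
    (V * Φ).coeff l₀ = V.coeff 0 * Φ.coeff l₀ := by
  rw [coeff_mul]
  refine sum_eq_single (0, l₀) ?_ ?_
  · rintro ⟨i, j⟩ hij hne
    have h1 : i + j = l₀ := mem_antidiagonal.1 hij
    rcases Nat.eq_or_lt_of_le (show j ≤ l₀ by omega) with h2 | h2
    · exact absurd (Prod.ext (by omega : i = 0) h2) hne
    · rw [h j h2, mul_zero]
  · intro h1
    exact absurd (mem_antidiagonal.2 (zero_add l₀)) h1

section Dir

variable {ι : Type} [Fintype ι] {I : Set ℝ} {e1 e2 e3 : ι → ℕ} {κ κ' : ι → ℝ → ℂ}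

/-- `(p + s u) ^ e2 (q + s v) ^ e3` as a polynomial in `s` -/
noncomputable def TT (e2 e3 : ι → ℕ) (p q u v : ℝ) (i : ι) : ℂ[X] :=
  (C (p : ℂ) + C (u : ℂ) * X) ^ e2 i * (C (q : ℂ) + C (v : ℂ) * X) ^ e3 i

omit [Fintype ι] in
theorem TT_eval (p q u v s : ℝ) (i : ι) : (TT e2 e3 p q u v i).eval (s : ℂ) =
    ((p + u * s : ℝ) : ℂ) ^ e2 i * ((q + v * s : ℝ) : ℂ) ^ e3 i := by
  simp [TT]

/-- if all coefficients vanish at `x`, so do the sums -/
theorem gg_all_zero {d : ι → ℝ → ℂ} {x : ℝ} (h : ∀ j, gg e1 d j x = 0) (y : ℝ) :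
    (∑ i, d i x * (y : ℂ) ^ e1 i) = 0 ∧ (∑ i, d i x * (e1 i * (y : ℂ) ^ (e1 i - 1))) = 0 := by
  have h1 : (∑ i, monomial (e1 i) (d i x) : ℂ[X]) = 0 := by
    ext j
    rw [gg_coeff, h j, coeff_zero]
  constructor
  · have h2 := congrArg (eval (y : ℂ)) h1
    simpa only [eval_zero, eval_finsetSum, eval_monomial] using h2
  · have h2 := congrArg (fun P => eval (y : ℂ) (derivative P)) h1
    simp only [derivative_sum, derivative_monomial, eval_finsetSum, eval_monomial,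
      derivative_zero, eval_zero] at h2
    rw [← h2]
    exact sum_congr rfl fun i _ => by ring

/-- **Resonance in every direction.** `V₁ = a₁ p² + 2 b₁ p q + c₁ q²` is twice the derivative of
the effective potential. -/
theorem res {a b c a1 b1 c1 a2 b2 c2 : ℝ → ℝ} (hI : Convex ℝ I) (hIo : IsOpen I)
    (ha : ∀ x ∈ I, HasDerivAt a (a1 x) x) (hb : ∀ x ∈ I, HasDerivAt b (b1 x) x)
    (hc : ∀ x ∈ I, HasDerivAt c (c1 x) x) (ha1 : ∀ x ∈ I, HasDerivAt a1 (a2 x) x)
    (hb1 : ∀ x ∈ I, HasDerivAt b1 (b2 x) x) (hc1 : ∀ x ∈ I, HasDerivAt c1 (c2 x) x)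
    {m n : ℤ} (dk : ∀ i, ∀ x ∈ I, HasDerivAt (κ i) (κ' i x) x)
    (pde : ∀ x ∈ I, ∀ y p q : ℝ,
      (y : ℂ) * (∑ i, κ' i x * y ^ e1 i * p ^ e2 i * q ^ e3 i) -
        ((a1 x * p ^ 2 + 2 * b1 x * p * q + c1 x * q ^ 2) / 2) *
          (∑ i, κ i x * (e1 i * y ^ (e1 i - 1)) * p ^ e2 i * q ^ e3 i) +
        Complex.I * (m * (a x * p + b x * q) + n * (b x * p + c x * q)) *
          (∑ i, κ i x * y ^ e1 i * p ^ e2 i * q ^ e3 i) = 0)
    (hne : ∃ x ∈ I, ∃ y p q : ℝ, (∑ i, κ i x * y ^ e1 i * p ^ e2 i * q ^ e3 i) ≠ 0)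
    {r : ℝ} (hr : r ∈ I) {p q : ℝ}
    (h : a1 r * p ^ 2 + 2 * b1 r * p * q + c1 r * q ^ 2 = 0) :
    ∃ M : ℤ, (m * (a r * p + b r * q) + n * (b r * p + c r * q)) ^ 2 =
      (a2 r * p ^ 2 + 2 * b2 r * p * q + c2 r * q ^ 2) / 2 * (M : ℝ) ^ 2 := by
  classical
  obtain ⟨x₁, hx₁, y₁, p₁, q₁, hne₁⟩ := hne
  set u : ℝ := p₁ - p with hu
  set v : ℝ := q₁ - q with hv
  set T : ι → ℂ[X] := TT e2 e3 p q u v with hT
  let d : ℕ → ι → ℝ → ℂ := fun l i x => κ i x * (T i).coeff l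
  -- some coefficient is nonzero
  have hex : ∃ l, ∃ j, ∃ x ∈ I, gg e1 (d l) j x ≠ 0 := by
    by_contra hcon
    push Not at hcon
    apply hne₁
    have h1 : (∑ i, C (κ i x₁ * (y₁ : ℂ) ^ e1 i) * T i : ℂ[X]) = 0 := by
      ext l
      rw [finsetSum_coeff, coeff_zero]
      simp only [coeff_C_mul]
      rw [← (gg_all_zero (e1 := e1) (d := d l) (x := x₁) (fun j => hcon l j x₁ hx₁) y₁).1]
      exact sum_congr rfl fun i _ => by simp only [d]; ring
    have h2 := congrArg (eval ((1 : ℝ) : ℂ)) h1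
    rw [eval_finsetSum, eval_zero] at h2
    rw [← h2]
    refine sum_congr rfl fun i _ => ?_
    rw [eval_mul, eval_C, hT, TT_eval]
    have e4 : p + u * 1 = p₁ := by rw [hu]; ring
    have e5 : q + v * 1 = q₁ := by rw [hv]; ring
    rw [e4, e5]
    ring
  set l₀ := Nat.find hex with hl₀
  have hl1 : ∃ j, ∃ x ∈ I, gg e1 (d l₀) j x ≠ 0 := Nat.find_spec hex
  have hl2 : ∀ l < l₀, ∀ x ∈ I, ∀ j, gg e1 (d l) j x = 0 := by
    intro l hl x hx j
    by_contra hcon
    exact Nat.find_min hex hl ⟨j, x, hx, hcon⟩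
  let A : ℝ → ℝ := fun x => (a1 x * p ^ 2 + 2 * b1 x * p * q + c1 x * q ^ 2) / 2
  let B : ℝ → ℝ := fun x => m * (a x * p + b x * q) + n * (b x * p + c x * q)
  have hdd : ∀ i, ∀ x ∈ I, HasDerivAt (d l₀ i) (κ' i x * (T i).coeff l₀) x := fun i x hx =>
    (dk i x hx).mul_const _
  have hpde : ∀ x ∈ I, ∀ y : ℝ, (y : ℂ) * (∑ i, (κ' i x * (T i).coeff l₀) * y ^ e1 i) -
      A x * (∑ i, d l₀ i x * (e1 i * y ^ (e1 i - 1))) +
      Complex.I * B x * (∑ i, d l₀ i x * y ^ e1 i) = 0 := by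
    intro x hx y
    let P : ℂ[X] := C (p : ℂ) + C (u : ℂ) * X
    let Q : ℂ[X] := C (q : ℂ) + C (v : ℂ) * X
    let V : ℂ[X] := C ((a1 x / 2 : ℝ) : ℂ) * P ^ 2 + C ((b1 x : ℝ) : ℂ) * P * Q +
      C ((c1 x / 2 : ℝ) : ℂ) * Q ^ 2
    let W : ℂ[X] := C (m : ℂ) * (C (a x : ℂ) * P + C (b x : ℂ) * Q) +
      C (n : ℂ) * (C (b x : ℂ) * P + C (c x : ℂ) * Q)
    let Φ : ℂ[X] := ∑ i, C (κ i x * (y : ℂ) ^ e1 i) * T i
    let Φy : ℂ[X] := ∑ i, C (κ i x * (e1 i * (y : ℂ) ^ (e1 i - 1))) * T i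
    let Φ' : ℂ[X] := ∑ i, C (κ' i x * (y : ℂ) ^ e1 i) * T i
    have hid : C (y : ℂ) * Φ' - V * Φy + C Complex.I * W * Φ = 0 := by
      apply Polynomial.eq_of_infinite_eval_eq
      refine Set.Infinite.mono (s := Set.range ((↑) : ℝ → ℂ)) ?_ ?_
      · rintro _ ⟨s, rfl⟩
        have h1 := pde x hx y (p + u * s) (q + v * s)
        change eval (s : ℂ) _ = eval (s : ℂ) _
        simp only [Φ, Φy, Φ', V, W, P, Q, eval_zero, eval_add, eval_sub, eval_mul, eval_C, eval_X,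
          eval_pow, eval_finsetSum, hT, TT_eval]
        rw [← h1]
        have e1' : ∑ i, κ' i x * (y : ℂ) ^ e1 i * (((p + u * s : ℝ) : ℂ) ^ e2 i *
            ((q + v * s : ℝ) : ℂ) ^ e3 i) = ∑ i, κ' i x * (y : ℂ) ^ e1 i *
            ((p + u * s : ℝ) : ℂ) ^ e2 i * ((q + v * s : ℝ) : ℂ) ^ e3 i :=
          sum_congr rfl fun i _ => by ring
        have e2' : ∑ i, κ i x * (y : ℂ) ^ e1 i * (((p + u * s : ℝ) : ℂ) ^ e2 i *
            ((q + v * s : ℝ) : ℂ) ^ e3 i) = ∑ i, κ i x * (y : ℂ) ^ e1 i *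
            ((p + u * s : ℝ) : ℂ) ^ e2 i * ((q + v * s : ℝ) : ℂ) ^ e3 i :=
          sum_congr rfl fun i _ => by ring
        have e3' : ∑ i, κ i x * (e1 i * (y : ℂ) ^ (e1 i - 1)) * (((p + u * s : ℝ) : ℂ) ^ e2 i *
            ((q + v * s : ℝ) : ℂ) ^ e3 i) = ∑ i, κ i x * (e1 i * (y : ℂ) ^ (e1 i - 1)) *
            ((p + u * s : ℝ) : ℂ) ^ e2 i * ((q + v * s : ℝ) : ℂ) ^ e3 i :=
          sum_congr rfl fun i _ => by ring
        rw [e1', e2', e3']
        push_cast
        ring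
      · exact Set.infinite_range_of_injective Complex.ofReal_injective
    have hlow1 : ∀ l < l₀, Φ.coeff l = 0 := by
      intro l hl
      simp only [Φ, finsetSum_coeff, coeff_C_mul]
      rw [← (gg_all_zero (e1 := e1) (d := d l) (x := x) (fun j => hl2 l hl x hx j) y).1]
      exact sum_congr rfl fun i _ => by simp only [d]; ring
    have hlow2 : ∀ l < l₀, Φy.coeff l = 0 := by
      intro l hl
      simp only [Φy, finsetSum_coeff, coeff_C_mul]
      rw [← (gg_all_zero (e1 := e1) (d := d l) (x := x) (fun j => hl2 l hl x hx j) y).2]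
      exact sum_congr rfl fun i _ => by simp only [d]; ring
    have hco := congrArg (fun P => coeff P l₀) hid
    simp only [coeff_add, coeff_sub, coeff_zero] at hco
    rw [mul_assoc (C Complex.I), coeff_C_mul, coeff_C_mul, low_mul hlow1, low_mul hlow2] at hco
    have hV0 : V.coeff 0 = (A x : ℂ) := by
      rw [coeff_zero_eq_eval_zero]
      simp only [V, P, Q, A, eval_add, eval_mul, eval_C, eval_X, eval_pow]
      push_cast
      ring
    have hW0 : W.coeff 0 = (B x : ℂ) := by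
      rw [coeff_zero_eq_eval_zero]
      simp only [W, P, Q, B, eval_add, eval_mul, eval_C, eval_X]
      push_cast
      ring
    rw [hV0, hW0] at hco
    simp only [Φ, Φy, Φ', finsetSum_coeff, coeff_C_mul] at hco
    have e1' : ∑ i, κ' i x * (T i).coeff l₀ * (y : ℂ) ^ e1 i =
        ∑ i, κ' i x * (y : ℂ) ^ e1 i * (T i).coeff l₀ := sum_congr rfl fun i _ => by ring
    have e2' : ∑ i, d l₀ i x * (y : ℂ) ^ e1 i =
        ∑ i, κ i x * (y : ℂ) ^ e1 i * (T i).coeff l₀ :=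
      sum_congr rfl fun i _ => by simp only [d]; ring
    have e3' : ∑ i, d l₀ i x * (e1 i * (y : ℂ) ^ (e1 i - 1)) =
        ∑ i, κ i x * (e1 i * (y : ℂ) ^ (e1 i - 1)) * (T i).coeff l₀ :=
      sum_congr rfl fun i _ => by simp only [d]; ring
    rw [e1', e2', e3', mul_assoc]
    exact hco
  have hA0 : A r = 0 := by simp only [A]; rw [h]; simp
  have hA : HasDerivAt A ((a2 r * p ^ 2 + 2 * b2 r * p * q + c2 r * q ^ 2) / 2) r := by
    have h1 := ((((ha1 r hr).mul_const (p ^ 2)).add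
      (((hb1 r hr).const_mul 2).mul_const p |>.mul_const q)).add
      ((hc1 r hr).mul_const (q ^ 2))).div_const 2
    exact h1
  have hB : ContinuousAt B r := by
    have h1 := (ha r hr).continuousAt
    have h2 := (hb r hr).continuousAt
    have h3 := (hc r hr).continuousAt
    simp only [B]
    fun_prop
  exact reson_dir hI hIo hdd hpde hl1 hr hA0 hA hB

end Dir

end Pool.Agent.TOS
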