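import Pool.Agent.MSup.Defs

set_option autoImplicit false

/-!
Riemannian metrics on the three-sphere and their invariance under the two-dimensional torus
(definitions of the statement).
-/

namespace Pool.Agent.TOA

open Pool.Agent.MSup

/-- The index set of the coordinates of `ℝ² × ℝ²`; points of `ℝ² × ℝ²` are functions `I4 → ℝ`,
`Sum.inl` being the coordinates of the first factor and `Sum.inr` the ones of the second factor. -/
abbrev I4 := Fin 2 ⊕ Fin 2

/-- The Hamiltonian of a metric: `2H = Σ h_ij(x) π_i π_j`. -/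
noncomputable def quadHam (h : I4 → I4 → (I4 → ℝ) → ℝ) (z : (I4 → ℝ) × (I4 → ℝ)) : ℝ :=
  (∑ i, ∑ j, h i j z.1 * z.2 i * z.2 j) / 2

/-- The rotation of the first plane by the angle `s` and of the second plane by the angle `t`. -/
noncomputable def rot (s t : ℝ) (x : I4 → ℝ) : I4 → ℝ :=
  Sum.elim ![Real.cos s * x (.inl 0) - Real.sin s * x (.inl 1),
      Real.sin s * x (.inl 0) + Real.cos s * x (.inl 1)]
    ![Real.cos t * x (.inr 0) - Real.sin t * x (.inr 1),
      Real.sin t * x (.inr 0) + Real.cos t * x (.inr 1)]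

/-- Invariance of a function on the cotangent bundle of `S³` under the two-dimensional torus. -/
def TorusInvariant (H : (I4 → ℝ) × (I4 → ℝ) → ℝ) : Prop :=
  ∀ s t : ℝ, ∀ z ∈ TS I4, H (rot s t z.1, rot s t z.2) = H z

end Pool.Agent.TOA
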