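import Pool.Agent.TOS.Canon

set_option autoImplicit false

/-!
The Hamiltonian vector field of a torus invariant metric in polar coordinates.
-/

namespace Pool.Agent.TOA

open Set Filter Topology
open scoped ContDiff
open Pool.Agent.MSup
open Pool.Agent.TOS (PHam PMode Ca Cb Cc Pol Iψ)

variable {h : I4 → I4 → (I4 → ℝ) → ℝ}

/-- the shear coefficient of the first angle -/
noncomputable def G1 (h : I4 → I4 → (I4 → ℝ) → ℝ) (R : Frame 2 2) (ψ : ℝ) : ℝ :=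
  Qf h R 0 1 ψ / (Real.sin ψ * Qf h R 0 0 ψ)

/-- the shear coefficient of the second angle -/
noncomputable def G2 (h : I4 → I4 → (I4 → ℝ) → ℝ) (R : Frame 2 2) (ψ : ℝ) : ℝ :=
  Qf h R 0 2 ψ / (Real.cos ψ * Qf h R 0 0 ψ)

/-- coefficient of `K²` -/
noncomputable def AA (h : I4 → I4 → (I4 → ℝ) → ℝ) (R : Frame 2 2) : ℝ → ℝ :=
  Ca (Qf h R 0 0) (Qf h R 2 2) (Qf h R 0 2)

/-- half the coefficient of `K L` -/
noncomputable def BB (h : I4 → I4 → (I4 → ℝ) → ℝ) (R : Frame 2 2) : ℝ → ℝ :=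
  Cb (Qf h R 0 0) (Qf h R 0 1) (Qf h R 0 2) (Qf h R 1 2)

/-- coefficient of `L²` -/
noncomputable def CC (h : I4 → I4 → (I4 → ℝ) → ℝ) (R : Frame 2 2) : ℝ → ℝ :=
  Cc (Qf h R 0 0) (Qf h R 1 1) (Qf h R 0 1)

/-- the hypotheses of the theorem -/
structure Hyp (h : I4 → I4 → (I4 → ℝ) → ℝ) : Prop where
  hh : ∀ i j, ContDiff ℝ ∞ (h i j)
  pos : ∀ z ∈ TS I4, z.2 ≠ 0 → 0 < quadHam h z
  inv : TorusInvariant (quadHam h)

namespace Hyp

variable (Y : Hyp h)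
include Y

theorem pol (R : Frame 2 2) :
    Pol (Qf h R 0 0) (Qf h R 1 1) (Qf h R 2 2) (Qf h R 0 1) (Qf h R 0 2) (Qf h R 1 2) :=
  TOA.pol Y.hh Y.inv Y.pos R

theorem smooth_G1 (R : Frame 2 2) : ContDiffOn ℝ ∞ (G1 h R) Iψ := by
  intro ψ hψ
  refine ContDiffAt.contDiffWithinAt ?_
  exact (contDiff_Qf Y.hh R 0 1).contDiffAt.div (Real.contDiff_sin.contDiffAt.mul
    (contDiff_Qf Y.hh R 0 0).contDiffAt) (mul_ne_zero (sin_pos' hψ).ne' ((Y.pol R).Wpos ψ).ne')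

theorem smooth_G2 (R : Frame 2 2) : ContDiffOn ℝ ∞ (G2 h R) Iψ := by
  intro ψ hψ
  refine ContDiffAt.contDiffWithinAt ?_
  exact (contDiff_Qf Y.hh R 0 2).contDiffAt.div (Real.contDiff_cos.contDiffAt.mul
    (contDiff_Qf Y.hh R 0 0).contDiffAt) (mul_ne_zero (cos_pos' hψ).ne' ((Y.pol R).Wpos ψ).ne')

theorem smooth_AA (R : Frame 2 2) : ContDiffOn ℝ ∞ (AA h R) Iψ := by
  intro ψ hψ
  refine ContDiffAt.contDiffWithinAt ?_
  exact ((contDiff_Qf Y.hh R 2 2).contDiffAt.sub (((contDiff_Qf Y.hh R 0 2).contDiffAt.pow 2).div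
    (contDiff_Qf Y.hh R 0 0).contDiffAt ((Y.pol R).Wpos ψ).ne')).div
    (Real.contDiff_cos.contDiffAt.pow 2) (pow_ne_zero 2 (cos_pos' hψ).ne')

theorem smooth_CC (R : Frame 2 2) : ContDiffOn ℝ ∞ (CC h R) Iψ := by
  intro ψ hψ
  refine ContDiffAt.contDiffWithinAt ?_
  exact ((contDiff_Qf Y.hh R 1 1).contDiffAt.sub (((contDiff_Qf Y.hh R 0 1).contDiffAt.pow 2).div
    (contDiff_Qf Y.hh R 0 0).contDiffAt ((Y.pol R).Wpos ψ).ne')).div
    (Real.contDiff_sin.contDiffAt.pow 2) (pow_ne_zero 2 (sin_pos' hψ).ne')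

theorem smooth_BB (R : Frame 2 2) : ContDiffOn ℝ ∞ (BB h R) Iψ := by
  intro ψ hψ
  refine ContDiffAt.contDiffWithinAt ?_
  exact ((contDiff_Qf Y.hh R 1 2).contDiffAt.sub (((contDiff_Qf Y.hh R 0 1).contDiffAt.mul
    (contDiff_Qf Y.hh R 0 2).contDiffAt).div
    (contDiff_Qf Y.hh R 0 0).contDiffAt ((Y.pol R).Wpos ψ).ne')).div
    (Real.contDiff_sin.contDiffAt.mul Real.contDiff_cos.contDiffAt)
    (mul_ne_zero (sin_pos' hψ).ne' (cos_pos' hψ).ne')

omit Y in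
theorem hasDerivAt_of_smooth {f : ℝ → ℝ} (hf : ContDiffOn ℝ ∞ f Iψ) {ψ : ℝ} (hψ : ψ ∈ Iψ) :
    HasDerivAt f (deriv f ψ) ψ :=
  ((hf.differentiableOn (by simp) ψ hψ).differentiableAt (isOpen_Ioo.mem_nhds hψ)).hasDerivAt

theorem pham (R : Frame 2 2) : PHam (Qf h R 0 0) (G1 h R) (G2 h R) (AA h R) (BB h R) (CC h R)
    (deriv (Qf h R 0 0)) (deriv (G1 h R)) (deriv (G2 h R)) (deriv (AA h R)) (deriv (BB h R))
    (deriv (CC h R)) where
  Wpos := fun ψ _ => (Y.pol R).Wpos ψ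
  dW := fun ψ hψ => hasDerivAt_of_smooth (contDiff_Qf Y.hh R 0 0).contDiffOn hψ
  d1 := fun ψ hψ => hasDerivAt_of_smooth (Y.smooth_G1 R) hψ
  d2 := fun ψ hψ => hasDerivAt_of_smooth (Y.smooth_G2 R) hψ
  dA := fun ψ hψ => hasDerivAt_of_smooth (Y.smooth_AA R) hψ
  dB := fun ψ hψ => hasDerivAt_of_smooth (Y.smooth_BB R) hψ
  dC := fun ψ hψ => hasDerivAt_of_smooth (Y.smooth_CC R) hψ

end Hyp

/-- The polar Hamiltonian. -/
noncomputable def Hpol (h : I4 → I4 → (I4 → ℝ) → ℝ) (R : Frame 2 2) (ψ p L K : ℝ) : ℝ :=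
  (Qf h R 0 0 ψ * (p + G1 h R ψ * L + G2 h R ψ * K) ^ 2 + AA h R ψ * K ^ 2 +
    2 * BB h R ψ * K * L + CC h R ψ * L ^ 2) / 2

theorem H_Psi (Y : Hyp h) (R : Frame 2 2) {ψ : ℝ} (hψ : ψ ∈ Iψ) (θ φ p L K : ℝ) :
    quadHam h (R.Psi ψ θ φ p L K) = Hpol h R ψ p L K := by
  have hs := (sin_pos' hψ).ne'
  have hc := (cos_pos' hψ).ne'
  have hW := ((Y.pol R).Wpos ψ).ne'
  rw [H_Psi_zero Y.inv]
  have e : R.Psi ψ 0 0 p L K = (R.X ψ 0 0, V3 R ψ p (L / Real.sin ψ) (K / Real.cos ψ)) := by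
    refine Prod.ext rfl (funext ?_)
    rintro (j | j) <;> simp [Frame.Psi, Frame.Pm, V3, coef]
  rw [e, quadHam_V3]
  simp only [Hpol, G1, G2, AA, BB, CC, Ca, Cb, Cc]
  field_simp
  ring

theorem hasDerivAt_F_Psi {F : Ph 2 2 → ℝ} (hF : MSup.PolyInMomenta F) (R : Frame 2 2) {ψ : ℝ}
    (hs : Real.sin ψ ≠ 0) (hc : Real.cos ψ ≠ 0) (θ φ p L K dψ dθ dφ dp : ℝ) :
    HasDerivAt (fun t : ℝ => F (R.Psi (ψ + t * dψ) (θ + t * dθ) (φ + t * dφ) (p + t * dp) L K))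
      (fderiv ℝ (lift F) (R.Psi ψ θ φ p L K) (R.dPsi ψ θ φ p L K dψ dθ dφ dp)) 0 := by
  have hd : DifferentiableAt ℝ (lift F) (R.Psi ψ θ φ p L K) :=
    (contDiffAt_lift hF (TS_pos (R.Psi_mem _ _ _ _ _ _))).differentiableAt (by simp)
  have h0 : ∀ x dx : ℝ, x + (0 : ℝ) * dx = x := fun x dx => by ring
  have h4 : HasFDerivAt (lift F) (fderiv ℝ (lift F) (R.Psi ψ θ φ p L K))
      (R.Psi (ψ + 0 * dψ) (θ + 0 * dθ) (φ + 0 * dφ) (p + 0 * dp) L K) := by
    rw [h0, h0, h0, h0]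
    exact hd.hasFDerivAt
  have h1 := HasFDerivAt.comp_hasDerivAt (l := lift F) (0 : ℝ) h4
      (R.hasDerivAt_Psi hs hc θ φ p L K dψ dθ dφ dp)
  have h2 : (fun t : ℝ => F (R.Psi (ψ + t * dψ) (θ + t * dθ) (φ + t * dφ) (p + t * dp) L K)) =
      lift F ∘ fun t => R.Psi (ψ + t * dψ) (θ + t * dθ) (φ + t * dφ) (p + t * dp) L K := by
    funext t
    exact (lift_eq (R.Psi_mem _ _ _ _ _ _)).symm
  rw [h2]
  exact h1

theorem hasDerivAt_PsiL (R : Frame 2 2) (ψ θ φ p L K : ℝ) :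
    HasDerivAt (fun t : ℝ => R.Psi ψ θ φ p (L + t) K) (dLv R ψ θ) 0 := by
  refine HasDerivAt.prodMk (hasDerivAt_const _ _) ?_
  rw [hasDerivAt_pi]
  have hl : HasDerivAt (fun t : ℝ => L + t) 1 0 := by
    simpa using (hasDerivAt_id (0 : ℝ)).const_add L
  rintro (j | j)
  · have := ((hl.div_const (Real.sin ψ)).mul_const (R.et θ j)).const_add
      (p * (Real.cos ψ * R.er θ j))
    refine this.congr_deriv ?_
    simp only [dLv, Sum.elim_inl]
    ring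
  · have := hasDerivAt_const (0 : ℝ) (p * (-Real.sin ψ * R.fr φ j) + K / Real.cos ψ * R.ft φ j)
    exact this

theorem hasDerivAt_PsiK (R : Frame 2 2) (ψ θ φ p L K : ℝ) :
    HasDerivAt (fun t : ℝ => R.Psi ψ θ φ p L (K + t)) (dKv R ψ φ) 0 := by
  refine HasDerivAt.prodMk (hasDerivAt_const _ _) ?_
  rw [hasDerivAt_pi]
  have hl : HasDerivAt (fun t : ℝ => K + t) 1 0 := by
    simpa using (hasDerivAt_id (0 : ℝ)).const_add K
  rintro (j | j)
  · have := hasDerivAt_const (0 : ℝ) (p * (Real.cos ψ * R.er θ j) + L / Real.sin ψ * R.et θ j)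
    exact this
  · have := ((hl.div_const (Real.cos ψ)).mul_const (R.ft φ j)).const_add
      (p * (-Real.sin ψ * R.fr φ j))
    refine this.congr_deriv ?_
    simp only [dKv, Sum.elim_inr]
    ring

theorem hasDerivAt_F_PsiL {F : Ph 2 2 → ℝ} (hF : MSup.PolyInMomenta F) (R : Frame 2 2)
    (ψ θ φ p L K : ℝ) : HasDerivAt (fun t : ℝ => F (R.Psi ψ θ φ p (L + t) K))
      (fderiv ℝ (lift F) (R.Psi ψ θ φ p L K) (dLv R ψ θ)) 0 := by
  have hd : DifferentiableAt ℝ (lift F) (R.Psi ψ θ φ p L K) :=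
    (contDiffAt_lift hF (TS_pos (R.Psi_mem _ _ _ _ _ _))).differentiableAt (by simp)
  have h4 : HasFDerivAt (lift F) (fderiv ℝ (lift F) (R.Psi ψ θ φ p L K))
      (R.Psi ψ θ φ p (L + 0) K) := by
    rw [add_zero]
    exact hd.hasFDerivAt
  have h1 := HasFDerivAt.comp_hasDerivAt (l := lift F) (0 : ℝ) h4 (hasDerivAt_PsiL R ψ θ φ p L K)
  have h2 : (fun t : ℝ => F (R.Psi ψ θ φ p (L + t) K)) =
      lift F ∘ fun t => R.Psi ψ θ φ p (L + t) K := by
    funext t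
    exact (lift_eq (R.Psi_mem _ _ _ _ _ _)).symm
  rw [h2]
  exact h1

theorem hasDerivAt_F_PsiK {F : Ph 2 2 → ℝ} (hF : MSup.PolyInMomenta F) (R : Frame 2 2)
    (ψ θ φ p L K : ℝ) : HasDerivAt (fun t : ℝ => F (R.Psi ψ θ φ p L (K + t)))
      (fderiv ℝ (lift F) (R.Psi ψ θ φ p L K) (dKv R ψ φ)) 0 := by
  have hd : DifferentiableAt ℝ (lift F) (R.Psi ψ θ φ p L K) :=
    (contDiffAt_lift hF (TS_pos (R.Psi_mem _ _ _ _ _ _))).differentiableAt (by simp)
  have h4 : HasFDerivAt (lift F) (fderiv ℝ (lift F) (R.Psi ψ θ φ p L K))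
      (R.Psi ψ θ φ p L (K + 0)) := by
    rw [add_zero]
    exact hd.hasFDerivAt
  have h1 := HasFDerivAt.comp_hasDerivAt (l := lift F) (0 : ℝ) h4 (hasDerivAt_PsiK R ψ θ φ p L K)
  have h2 : (fun t : ℝ => F (R.Psi ψ θ φ p L (K + t))) =
      lift F ∘ fun t => R.Psi ψ θ φ p L (K + t) := by
    funext t
    exact (lift_eq (R.Psi_mem _ _ _ _ _ _)).symm
  rw [h2]
  exact h1

section
variable (h) (R : Frame 2 2) (ψ p L K : ℝ)

/-- derivative in `p` -/
noncomputable def Hp : ℝ := Qf h R 0 0 ψ * (p + G1 h R ψ * L + G2 h R ψ * K)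

/-- derivative in `L` -/
noncomputable def HL : ℝ :=
  Qf h R 0 0 ψ * (p + G1 h R ψ * L + G2 h R ψ * K) * G1 h R ψ + BB h R ψ * K + CC h R ψ * L

/-- derivative in `K` -/
noncomputable def HK : ℝ :=
  Qf h R 0 0 ψ * (p + G1 h R ψ * L + G2 h R ψ * K) * G2 h R ψ + AA h R ψ * K + BB h R ψ * L

/-- derivative in `ψ` -/
noncomputable def Hψ : ℝ :=
  (deriv (Qf h R 0 0) ψ * (p + G1 h R ψ * L + G2 h R ψ * K) ^ 2 +
    2 * Qf h R 0 0 ψ * (p + G1 h R ψ * L + G2 h R ψ * K) *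
      (deriv (G1 h R) ψ * L + deriv (G2 h R) ψ * K) +
    deriv (AA h R) ψ * K ^ 2 + 2 * deriv (BB h R) ψ * K * L + deriv (CC h R) ψ * L ^ 2) / 2

end

/-- The Hamiltonian vector field in polar coordinates. -/
theorem XH_Psi (Y : Hyp h) (R : Frame 2 2) {ψ : ℝ} (hψ : ψ ∈ Iψ) (θ φ p L K : ℝ) :
    R.dPsi ψ θ φ p L K (Hp h R ψ p L K) (HL h R ψ p L K) (HK h R ψ p L K) (-Hψ h R ψ p L K) =
      XH (quadHam h) (R.Psi ψ θ φ p L K) := by
  have hs := (sin_pos' hψ).ne'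
  have hc := (cos_pos' hψ).ne'
  have hF := poly_quadHam Y.hh
  have hz := R.Psi_mem ψ θ φ p L K
  have hd : DifferentiableAt ℝ (lift (quadHam h)) (R.Psi ψ θ φ p L K) :=
    (contDiffAt_lift hF (TS_pos hz)).differentiableAt (by simp)
  have P := Y.pham R
  have z1 : ∀ x : ℝ, x + (0 : ℝ) * 1 = x := fun x => by ring
  -- the angles are cyclic
  have hθ : fderiv ℝ (lift (quadHam h)) (R.Psi ψ θ φ p L K) (R.dPsi ψ θ φ p L K 0 1 0 0) = 0 := by
    have h1 := hasDerivAt_F_Psi hF R hs hc θ φ p L K 0 1 0 0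
    have h2 : (fun t : ℝ => quadHam h (R.Psi (ψ + t * 0) (θ + t * 1) (φ + t * 0) (p + t * 0) L K)) =
        fun _ => quadHam h (R.Psi ψ 0 0 p L K) := by
      funext t
      rw [H_Psi_zero Y.inv, mul_zero, add_zero, add_zero]
    rw [h2] at h1
    exact h1.unique (hasDerivAt_const _ _)
  have hφ : fderiv ℝ (lift (quadHam h)) (R.Psi ψ θ φ p L K) (R.dPsi ψ θ φ p L K 0 0 1 0) = 0 := by
    have h1 := hasDerivAt_F_Psi hF R hs hc θ φ p L K 0 0 1 0
    have h2 : (fun t : ℝ => quadHam h (R.Psi (ψ + t * 0) (θ + t * 0) (φ + t * 1) (p + t * 0) L K)) =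
        fun _ => quadHam h (R.Psi ψ 0 0 p L K) := by
      funext t
      rw [H_Psi_zero Y.inv, mul_zero, add_zero, add_zero]
    rw [h2] at h1
    exact h1.unique (hasDerivAt_const _ _)
  have hid : HasDerivAt (fun t : ℝ => t) 1 0 := hasDerivAt_id 0
  have hp : fderiv ℝ (lift (quadHam h)) (R.Psi ψ θ φ p L K) (R.dPsi ψ θ φ p L K 0 0 0 1) =
      Hp h R ψ p L K := by
    have h1 := hasDerivAt_F_Psi hF R hs hc θ φ p L K 0 0 0 1
    have h2 : (fun t : ℝ => quadHam h (R.Psi (ψ + t * 0) (θ + t * 0) (φ + t * 0) (p + t * 1) L K)) =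
        fun t => Hpol h R ψ (p + t) L K := by
      funext t
      rw [mul_zero, add_zero, mul_one, H_Psi Y R hψ]
    rw [h2] at h1
    have h3 : HasDerivAt (fun t => Hpol h R ψ (p + t) L K) (Hp h R ψ p L K) 0 := by
      unfold Hpol Hp
      have h4 : HasDerivAt (fun t : ℝ => p + t + G1 h R ψ * L + G2 h R ψ * K) 1 0 :=
        ((hid.const_add p).add_const _).add_const _
      have h5 := (((((h4.fun_pow 2).const_mul (Qf h R 0 0 ψ)).add_const
        (AA h R ψ * K ^ 2)).add_const (2 * BB h R ψ * K * L)).add_const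
        (CC h R ψ * L ^ 2)).div_const 2
      refine h5.congr_deriv ?_
      push_cast
      ring
    exact h1.unique h3
  have hL : fderiv ℝ (lift (quadHam h)) (R.Psi ψ θ φ p L K) (dLv R ψ θ) = HL h R ψ p L K := by
    have h1 := hasDerivAt_F_PsiL hF R ψ θ φ p L K
    have h2 : (fun t : ℝ => quadHam h (R.Psi ψ θ φ p (L + t) K)) =
        fun t => Hpol h R ψ p (L + t) K := by
      funext t
      rw [H_Psi Y R hψ]
    rw [h2] at h1
    have h3 : HasDerivAt (fun t => Hpol h R ψ p (L + t) K) (HL h R ψ p L K) 0 := by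
      unfold Hpol HL
      have h0 := hid.const_add L
      have h4 : HasDerivAt (fun t : ℝ => p + G1 h R ψ * (L + t) + G2 h R ψ * K)
          (G1 h R ψ * 1) 0 :=
        ((h0.const_mul (G1 h R ψ)).const_add p).add_const _
      have h5 := (((((h4.fun_pow 2).const_mul (Qf h R 0 0 ψ)).add_const
        (AA h R ψ * K ^ 2)).fun_add (h0.const_mul (2 * BB h R ψ * K))).fun_add
        ((h0.fun_pow 2).const_mul (CC h R ψ))).div_const 2
      refine h5.congr_deriv ?_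
      push_cast
      ring
    exact h1.unique h3
  have hK : fderiv ℝ (lift (quadHam h)) (R.Psi ψ θ φ p L K) (dKv R ψ φ) = HK h R ψ p L K := by
    have h1 := hasDerivAt_F_PsiK hF R ψ θ φ p L K
    have h2 : (fun t : ℝ => quadHam h (R.Psi ψ θ φ p L (K + t))) =
        fun t => Hpol h R ψ p L (K + t) := by
      funext t
      rw [H_Psi Y R hψ]
    rw [h2] at h1
    have h3 : HasDerivAt (fun t => Hpol h R ψ p L (K + t)) (HK h R ψ p L K) 0 := by
      unfold Hpol HK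
      have h0 := hid.const_add K
      have h4 : HasDerivAt (fun t : ℝ => p + G1 h R ψ * L + G2 h R ψ * (K + t))
          (G2 h R ψ * 1) 0 :=
        (h0.const_mul (G2 h R ψ)).const_add _
      have h5 := (((((h4.fun_pow 2).const_mul (Qf h R 0 0 ψ)).fun_add
        ((h0.fun_pow 2).const_mul (AA h R ψ))).fun_add
        ((h0.const_mul (2 * BB h R ψ)).mul_const L)).add_const
        (CC h R ψ * L ^ 2)).div_const 2
      refine h5.congr_deriv ?_
      push_cast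
      ring
    exact h1.unique h3
  have hψd : fderiv ℝ (lift (quadHam h)) (R.Psi ψ θ φ p L K) (R.dPsi ψ θ φ p L K 1 0 0 0) =
      Hψ h R ψ p L K := by
    have h1 := hasDerivAt_F_Psi hF R hs hc θ φ p L K 1 0 0 0
    have h2 : (fun t : ℝ => quadHam h (R.Psi (ψ + t * 1) (θ + t * 0) (φ + t * 0) (p + t * 0) L K))
        =ᶠ[𝓝 0] fun t => Hpol h R (ψ + t) p L K := by
      have h3 : ∀ᶠ t : ℝ in 𝓝 0, ψ + t ∈ Iψ := by
        have : Continuous fun t : ℝ => ψ + t := by fun_prop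
        apply this.continuousAt.eventually_mem
        rw [add_zero]
        exact isOpen_Ioo.mem_nhds hψ
      filter_upwards [h3] with t ht
      rw [mul_zero, add_zero, add_zero, add_zero, mul_one, H_Psi Y R ht]
    have h1' := h1.congr_of_eventuallyEq h2.symm
    have hsh : ∀ {f f' : ℝ → ℝ}, (∀ ψ ∈ Iψ, HasDerivAt f (f' ψ) ψ) →
        HasDerivAt (fun t => f (ψ + t)) (f' ψ) 0 := by
      intro f f' hf
      have := (hf ψ hψ)
      have h5 : HasDerivAt f (f' ψ) (ψ + 0) := by rw [add_zero]; exact this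
      exact h5.comp_const_add ψ 0
    have h3 : HasDerivAt (fun t => Hpol h R (ψ + t) p L K) (Hψ h R ψ p L K) 0 := by
      unfold Hpol Hψ
      have h4 : HasDerivAt (fun t : ℝ => p + G1 h R (ψ + t) * L + G2 h R (ψ + t) * K)
          (deriv (G1 h R) ψ * L + deriv (G2 h R) ψ * K) 0 :=
        (((hsh P.d1).mul_const L).const_add p).fun_add ((hsh P.d2).mul_const K)
      have h5 := ((((((hsh P.dW).fun_mul (h4.fun_pow 2)).fun_add
        ((hsh P.dA).mul_const (K ^ 2))).fun_add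
        ((((hsh P.dB).const_mul 2).mul_const K).mul_const L))).fun_add
        ((hsh P.dC).mul_const (L ^ 2))).div_const 2
      refine h5.congr_deriv ?_
      simp only [add_zero]
      push_cast
      ring
    exact h1'.unique h3
  have hcan := canon R hs hc θ φ p L K (fderiv ℝ (lift (quadHam h)) (R.Psi ψ θ φ p L K))
    (fderiv_lift_scale (TS_pos hz) hd) (fderiv_lift_shift (TS_pos hz) hd) hθ hφ
  rw [hp, hL, hK, hψd] at hcan
  exact hcan.symm

end Pool.Agent.TOA
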